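import Pool.Agent.H98.M.Ht

/-!
# Uniform averages: basic rules
-/

open Filter Topology

namespace MeanderCLT

theorem avg_card (N : ℕ) : (Fintype.card (Fin N → Ltr) : ℝ) = 4 ^ N := by
  have h : Fintype.card Ltr = 4 := rfl
  rw [Fintype.card_fun, h, Fintype.card_fin]
  norm_num

theorem avg_pos (N : ℕ) : (0 : ℝ) < 4 ^ N := by positivity

theorem Ew_const (N : ℕ) (c : ℝ) : Ew N (fun _ => c) = c := by
  unfold Ew
  rw [Finset.sum_const, Finset.card_univ, nsmul_eq_mul, avg_card]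
  field_simp

theorem Ew_mono {N : ℕ} {g h : Wd → ℝ} (hgh : ∀ x, x.length = N → g x ≤ h x) : Ew N g ≤ Ew N h := by
  unfold Ew
  apply div_le_div_of_nonneg_right _ (avg_pos N).le
  exact Finset.sum_le_sum fun x _ => hgh _ List.length_ofFn

theorem Ew_congr {N : ℕ} {g h : Wd → ℝ} (hgh : ∀ x, x.length = N → g x = h x) : Ew N g = Ew N h := by
  unfold Ew
  congr 1
  exact Finset.sum_congr rfl fun x _ => hgh _ List.length_ofFn

theorem Ew_add (N : ℕ) (g h : Wd → ℝ) : Ew N (fun x => g x + h x) = Ew N g + Ew N h := by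
  unfold Ew
  rw [Finset.sum_add_distrib, add_div]

theorem Ew_sub (N : ℕ) (g h : Wd → ℝ) : Ew N (fun x => g x - h x) = Ew N g - Ew N h := by
  unfold Ew
  rw [Finset.sum_sub_distrib, sub_div]

theorem Ew_mul_left (N : ℕ) (c : ℝ) (g : Wd → ℝ) : Ew N (fun x => c * g x) = c * Ew N g := by
  unfold Ew
  rw [← Finset.mul_sum, mul_div_assoc]

theorem Ew_nonneg {N : ℕ} {g : Wd → ℝ} (hg : ∀ x, x.length = N → 0 ≤ g x) : 0 ≤ Ew N g := by
  have := Ew_mono (N := N) (g := fun _ => 0) (h := g) hg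
  rwa [Ew_const] at this

theorem avg_sum_append {α : Type*} [AddCommMonoid α] (n m : ℕ) (g : Wd → α) :
    ∑ x : Fin (n + m) → Ltr, g (List.ofFn x) =
      ∑ x : Fin n → Ltr, ∑ y : Fin m → Ltr, g (List.ofFn x ++ List.ofFn y) := by
  rw [← Fintype.sum_prod_type', ← (Fin.appendEquiv n m).sum_comp]
  refine Finset.sum_congr rfl fun p _ => ?_
  rw [← List.ofFn_fin_append]
  rfl

/-- concatenation -/
theorem Ew_append (n m : ℕ) (g : Wd → ℝ) :
    Ew (n + m) g = Ew n (fun x => Ew m (fun y => g (x ++ y))) := by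
  unfold Ew
  rw [avg_sum_append, ← Finset.sum_div, div_div, pow_add, mul_comm (4 ^ m : ℝ)]

theorem EwC_append (n m : ℕ) (g : Wd → ℂ) :
    EwC (n + m) g = EwC n (fun x => EwC m (fun y => g (x ++ y))) := by
  unfold EwC
  rw [avg_sum_append, ← Finset.sum_div, div_div, pow_add, mul_comm (4 ^ m : ℂ)]

theorem Ew_comm (n m : ℕ) (g : Wd → Wd → ℝ) :
    Ew n (fun x => Ew m (fun y => g x y)) = Ew m (fun y => Ew n (fun x => g x y)) := by
  unfold Ew
  rw [← Finset.sum_div, ← Finset.sum_div, Finset.sum_comm, div_div, div_div, mul_comm]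

/-- reversing and flipping a tuple -/
def avgMir (N : ℕ) (x : Fin N → Ltr) : Fin N → Ltr := fun i => (!(x i.rev).1, !(x i.rev).2)

theorem avgMir_inv (N : ℕ) : Function.Involutive (avgMir N) := by
  intro x
  funext i
  simp [avgMir]

theorem ofFn_avgMir (N : ℕ) (x : Fin N → Ltr) : List.ofFn (avgMir N x) = mirw (List.ofFn x) := by
  apply List.ext_getElem
  · simp [mirw]
  · intro i h1 h2
    simp only [List.length_ofFn] at h1
    simp only [mirw, List.getElem_reverse, List.getElem_map, List.getElem_ofFn, avgMir,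
      List.length_map, List.length_ofFn]
    have : (⟨i, h1⟩ : Fin N).rev = ⟨N - 1 - i, by omega⟩ := by
      apply Fin.ext
      simp only [Fin.val_rev]
      omega
    rw [this]

theorem Ew_mirw (N : ℕ) (g : Wd → ℝ) : Ew N (fun x => g (mirw x)) = Ew N g := by
  unfold Ew
  congr 1
  rw [← Equiv.sum_comp (avgMir_inv N).toPerm]
  refine Finset.sum_congr rfl fun x _ => ?_
  change g (mirw (List.ofFn (avgMir N x))) = _
  rw [ofFn_avgMir, mirw_mirw]

theorem Ew_sw (N : ℕ) (g : Wd → ℝ) : Ew N (fun x => g (sw x)) = Ew N g := by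
  have hinv : Function.Involutive (fun (x : Fin N → Ltr) (i : Fin N) => (x i).swap) := by
    intro x
    funext i
    simp
  unfold Ew
  congr 1
  rw [← Equiv.sum_comp hinv.toPerm]
  refine Finset.sum_congr rfl fun x _ => ?_
  have : sw (List.ofFn (fun i => (x i).swap)) = List.ofFn x := by
    rw [sw, List.map_ofFn]
    congr 1
  change g (sw (List.ofFn (fun i => (x i).swap))) = _
  rw [this]

theorem EwC_ofReal (N : ℕ) (g : Wd → ℝ) : EwC N (fun x => (g x : ℂ)) = (Ew N g : ℂ) := by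
  unfold Ew EwC
  push_cast
  rfl

theorem EwC_norm_le (N : ℕ) (g : Wd → ℂ) : ‖EwC N g‖ ≤ Ew N (fun x => ‖g x‖) := by
  unfold Ew EwC
  rw [norm_div, norm_pow]
  have h4 : ‖(4 : ℂ)‖ = 4 := by norm_num
  rw [h4]
  apply div_le_div_of_nonneg_right _ (avg_pos N).le
  exact norm_sum_le _ _

theorem EwC_sub (N : ℕ) (g h : Wd → ℂ) : EwC N (fun x => g x - h x) = EwC N g - EwC N h := by
  unfold EwC
  rw [Finset.sum_sub_distrib, sub_div]

/-- Cauchy–Schwarz -/
theorem Ew_mul_sq_le (N : ℕ) (g h : Wd → ℝ) :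
    (Ew N (fun x => g x * h x)) ^ 2 ≤ Ew N (fun x => g x ^ 2) * Ew N (fun x => h x ^ 2) := by
  unfold Ew
  rw [div_pow, div_mul_div_comm, ← pow_two]
  apply div_le_div_of_nonneg_right _ (by positivity)
  exact Finset.sum_mul_sq_le_sq_mul_sq _ _ _

/-- Minkowski in `L²` -/
theorem Ew_minkowski2 (N : ℕ) (g h : Wd → ℝ) :
    Real.sqrt (Ew N (fun x => (g x + h x) ^ 2)) ≤
      Real.sqrt (Ew N (fun x => g x ^ 2)) + Real.sqrt (Ew N (fun x => h x ^ 2)) := by
  have hg : 0 ≤ Ew N (fun x => g x ^ 2) := Ew_nonneg fun x _ => sq_nonneg _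
  have hh : 0 ≤ Ew N (fun x => h x ^ 2) := Ew_nonneg fun x _ => sq_nonneg _
  have hcs : Ew N (fun x => g x * h x) ≤
      Real.sqrt (Ew N (fun x => g x ^ 2)) * Real.sqrt (Ew N (fun x => h x ^ 2)) := by
    rw [← Real.sqrt_mul hg]
    exact Real.le_sqrt_of_sq_le (Ew_mul_sq_le N g h)
  rw [← Real.sqrt_sq (add_nonneg (Real.sqrt_nonneg (Ew N (fun x => g x ^ 2)))
    (Real.sqrt_nonneg (Ew N (fun x => h x ^ 2))))]
  apply Real.sqrt_le_sqrt
  rw [add_sq, Real.sq_sqrt hg, Real.sq_sqrt hh]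
  have h1 : Ew N (fun x => (g x + h x) ^ 2) =
      Ew N (fun x => g x ^ 2) + 2 * Ew N (fun x => g x * h x) + Ew N (fun x => h x ^ 2) := by
    rw [← Ew_mul_left, ← Ew_add, ← Ew_add]
    exact Ew_congr fun x _ => by ring
  rw [h1]
  nlinarith

end MeanderCLT
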