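import Pool.Agent.H98.M.Fiber

/-!
# Counting the balanced words of an arc system
-/

namespace MeanderCLT

section FiberCard

/-- height as a sum over positions -/
theorem fibc_ht {N : ℕ} (s : Fin N → Bool) {k : ℕ} (hk : k ≤ N) :
    ht (List.ofFn s) k = ∑ i : Fin N, if (i : ℕ) < k then stp (s i) else 0 := by
  induction k with
  | zero => simp [ht_zero]
  | succ k ih =>
    have hk' : k < (List.ofFn s).length := by simpa using hk
    rw [ht_succ hk', ih (by omega), List.getElem_ofFn]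
    have h1 : ∀ i : Fin N, (if (i : ℕ) < k + 1 then stp (s i) else 0) =
        (if (i : ℕ) < k then stp (s i) else 0) + (if i = ⟨k, by omega⟩ then stp (s i) else 0) := by
      intro i
      by_cases h : i = ⟨k, by omega⟩
      · subst h; simp
      · have h2 : (i : ℕ) ≠ k := fun e => h (Fin.ext e)
        have h3 : (i : ℕ) < k + 1 ↔ (i : ℕ) < k := by omega
        simp [h, h3]
    rw [Finset.sum_congr rfl (fun i _ => h1 i), Finset.sum_add_distrib, Finset.sum_ite_eq']
    simp

/-- the height contribution of an arc -/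
def fibcf {n : ℕ} (σ : Fin (2 * n) → Fin (2 * n)) (g k : ℕ) (i : Fin (2 * n)) : ℤ :=
  if (i : ℕ) < k ∧ k ≤ (σ i : ℕ) then (if (i : ℕ) < g ∧ g ≤ (σ i : ℕ) then -1 else 1) else 0

/-- the word of an arc system cut at the gap `g` -/
def fibcw {n : ℕ} (σ : Fin (2 * n) → Fin (2 * n)) (g : ℕ) (i : Fin (2 * n)) : Bool :=
  decide (((i : ℕ) < (σ i : ℕ) ∧ ¬ ((i : ℕ) < g ∧ g ≤ (σ i : ℕ))) ∨
    ((σ i : ℕ) < (i : ℕ) ∧ (σ i : ℕ) < g ∧ g ≤ (i : ℕ)))

theorem fibc_ne {n : ℕ} {σ : Fin (2 * n) → Fin (2 * n)} (hσ : IsArcSys n σ) (i : Fin (2 * n)) :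
    (σ i : ℕ) ≠ (i : ℕ) := fun e => hσ.2.1 i (Fin.ext e)

theorem fibc_nc {n : ℕ} {σ : Fin (2 * n) → Fin (2 * n)} (hσ : IsArcSys n σ) {i j : Fin (2 * n)}
    (h1 : (i : ℕ) < j) (h2 : (j : ℕ) < σ i) : (σ j : ℕ) < σ i := hσ.2.2 i j h1 h2

theorem fibc_inj {n : ℕ} {σ : Fin (2 * n) → Fin (2 * n)} (hσ : IsArcSys n σ) {i j : Fin (2 * n)}
    (h1 : (σ i : ℕ) = σ j) : i = j := by
  have : σ i = σ j := Fin.ext h1
  rw [← hσ.1 i, ← hσ.1 j, this]

theorem fibcw_flip {n : ℕ} {σ : Fin (2 * n) → Fin (2 * n)} (hσ : IsArcSys n σ) (g : ℕ)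
    (i : Fin (2 * n)) : fibcw σ g (σ i) = !(fibcw σ g i) := by
  have h1 := fibc_ne hσ i
  have h2 := hσ.1 i
  unfold fibcw
  rw [h2, ← decide_not, decide_eq_decide]
  omega

theorem fibcw_ht {n : ℕ} {σ : Fin (2 * n) → Fin (2 * n)} (hσ : IsArcSys n σ) (g : ℕ) {k : ℕ}
    (hk : k ≤ 2 * n) : ht (List.ofFn (fibcw σ g)) k = ∑ i, fibcf σ g k i := by
  rw [fibc_ht _ hk]
  have h1 : ∀ i : Fin (2 * n), (if (i : ℕ) < k then stp (fibcw σ g i) else 0) =
      (if (i : ℕ) < k ∧ (σ i : ℕ) < k then stp (fibcw σ g i) else 0) + fibcf σ g k i := by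
    intro i
    have hne := fibc_ne hσ i
    unfold fibcf
    by_cases ha : (i : ℕ) < k
    · by_cases hb : (σ i : ℕ) < k
      · have hc : ¬ (k ≤ (σ i : ℕ)) := by omega
        simp [ha, hb]
      · have hc : k ≤ (σ i : ℕ) := by omega
        have hd : (i : ℕ) < (σ i : ℕ) := by omega
        have he : ¬ ((σ i : ℕ) < (i : ℕ)) := by omega
        by_cases hf : (i : ℕ) < g ∧ g ≤ (σ i : ℕ)
        · have : fibcw σ g i = false := by
            unfold fibcw
            rw [decide_eq_false_iff_not]; omega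
          rw [this, stp_false]; simp [ha, hb, hf]
        · have : fibcw σ g i = true := by
            unfold fibcw
            rw [decide_eq_true_iff]; omega
          rw [this, stp_true]; simp [ha, hb, hf]
    · simp [ha]
  rw [Finset.sum_congr rfl (fun i _ => h1 i), Finset.sum_add_distrib]
  have h2 : ∑ i : Fin (2 * n), (if (i : ℕ) < k ∧ (σ i : ℕ) < k then stp (fibcw σ g i) else 0) = 0 := by
    have hinv : Function.Involutive σ := hσ.1
    set f : Fin (2 * n) → ℤ :=
      fun i => if (i : ℕ) < k ∧ (σ i : ℕ) < k then stp (fibcw σ g i) else 0 with hf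
    have h3 : ∑ i, f (σ i) = ∑ i, f i := Equiv.sum_comp (Function.Involutive.toPerm σ hinv) f
    have h4 : ∀ i : Fin (2 * n), f (σ i) = - f i := by
      intro i
      rw [hf]
      by_cases hc : (i : ℕ) < k ∧ (σ i : ℕ) < k
      · have hc' : (σ i : ℕ) < k ∧ (σ (σ i) : ℕ) < k := ⟨hc.2, by rw [hσ.1 i]; exact hc.1⟩
        simp only [if_pos hc, if_pos hc']
        rw [fibcw_flip hσ, stp_not]
      · have hc' : ¬ ((σ i : ℕ) < k ∧ (σ (σ i) : ℕ) < k) := fun h => hc ⟨by
          have := h.2; rw [hσ.1 i] at this; exact this, h.1⟩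
        simp only [if_neg hc, if_neg hc', neg_zero]
    rw [Finset.sum_congr rfl (fun i _ => h4 i), Finset.sum_neg_distrib] at h3
    have h5 : (∑ i, f i) = 0 := by linarith
    exact h5
  rw [h2, zero_add]

theorem fibc_hh {n : ℕ} {σ : Fin (2 * n) → Fin (2 * n)} (hσ : IsArcSys n σ) (g : ℕ) :
    hh (List.ofFn (fibcw σ g)) = 0 := by
  unfold hh
  rw [List.length_ofFn, fibcw_ht hσ g le_rfl]
  apply Finset.sum_eq_zero
  intro i _
  unfold fibcf
  have := (σ i).2
  rw [if_neg (by omega)]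

/-- unflipped arcs -/
theorem fibc_arc {n : ℕ} {σ : Fin (2 * n) → Fin (2 * n)} (hσ : IsArcSys n σ) (g : ℕ)
    {i0 : Fin (2 * n)} (h0 : (i0 : ℕ) < σ i0) (hg : ¬ ((i0 : ℕ) < g ∧ g ≤ (σ i0 : ℕ))) :
    arc (List.ofFn (fibcw σ g)) i0 (σ i0) := by
  have hj0 := (σ i0).2
  refine ⟨h0, by simp, ?_, ?_⟩
  · rw [fibcw_ht hσ g (by omega), fibcw_ht hσ g (by omega)]
    apply Finset.sum_congr rfl
    intro i _
    have key : ((i : ℕ) < (σ i0 : ℕ) + 1 ∧ (σ i0 : ℕ) + 1 ≤ (σ i : ℕ)) ↔
        ((i : ℕ) < i0 ∧ (i0 : ℕ) ≤ σ i) := by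
      have hne := fibc_ne hσ i
      constructor
      · rintro ⟨h1, h2⟩
        have h3 : (i : ℕ) ≠ i0 := fun e => by
          have : i = i0 := Fin.ext e
          subst this; omega
        have h4 : (i : ℕ) ≠ σ i0 := fun e => by
          have e' : i = σ i0 := Fin.ext e
          rw [e', hσ.1 i0] at h2; omega
        refine ⟨?_, by omega⟩
        by_contra hc
        have := fibc_nc hσ (i := i0) (j := i) (by omega) (by omega)
        omega
      · rintro ⟨h1, h2⟩
        have h3 : (i0 : ℕ) ≠ σ i := fun e => by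
          have e' : i0 = σ i := Fin.ext e
          rw [e', hσ.1 i] at h0; omega
        have := fibc_nc hσ (i := i) (j := i0) (by omega) (by omega)
        omega
    unfold fibcf
    by_cases hc : (i : ℕ) < i0 ∧ (i0 : ℕ) ≤ σ i
    · rw [if_pos hc, if_pos (key.mpr hc)]
    · rw [if_neg hc, if_neg (fun h => hc (key.mp h))]
  · intro k hk1 hk2
    rw [fibcw_ht hσ g (by omega), fibcw_ht hσ g (by omega)]
    apply Finset.sum_lt_sum
    · intro i _
      unfold fibcf
      by_cases hc : (i : ℕ) < i0 ∧ (i0 : ℕ) ≤ σ i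
      · have h3 : (i0 : ℕ) ≠ σ i := fun e => by
          have e' : i0 = σ i := Fin.ext e
          rw [e', hσ.1 i] at h0; omega
        have h5 := fibc_nc hσ (i := i) (j := i0) (by omega) (by omega)
        rw [if_pos hc, if_pos (by omega : (i : ℕ) < k ∧ k ≤ σ i)]
      · rw [if_neg hc]
        by_cases hd : (i : ℕ) < k ∧ k ≤ σ i
        · rw [if_pos hd]
          have he : ¬ ((i : ℕ) < g ∧ g ≤ (σ i : ℕ)) := by
            intro he
            have h3 : (i : ℕ) ≠ i0 := fun e => by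
              have : i = i0 := Fin.ext e
              subst this; exact hg he
            have h5 := fibc_nc hσ (i := i0) (j := i) (by omega) (by omega)
            omega
          rw [if_neg he]; omega
        · rw [if_neg hd]
    · refine ⟨i0, Finset.mem_univ _, ?_⟩
      unfold fibcf
      rw [if_neg (by omega), if_pos ⟨hk1, hk2⟩, if_neg hg]
      omega

/-- flipped arcs -/
theorem fibc_cj {n : ℕ} {σ : Fin (2 * n) → Fin (2 * n)} (hσ : IsArcSys n σ) (g : ℕ)
    {i0 : Fin (2 * n)} (h0 : (i0 : ℕ) < σ i0) (hg : (i0 : ℕ) < g ∧ g ≤ (σ i0 : ℕ)) :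
    cj (List.ofFn (fibcw σ g)) i0 (σ i0) := by
  have hj0 := (σ i0).2
  have hi0 := i0.2
  have hh0 := fibc_hh hσ g
  unfold hh at hh0
  set K : ℕ := (Finset.univ.filter (fun i : Fin (2 * n) => (i : ℕ) < i0 ∧ (i0 : ℕ) < (σ i : ℕ))).card
    with hK
  have hKs : (K : ℤ) = ∑ i : Fin (2 * n), (if (i : ℕ) < i0 ∧ (i0 : ℕ) < σ i then (1 : ℤ) else 0) := by
    rw [hK, Finset.sum_boole]
  have hone : (1 : ℤ) = ∑ i : Fin (2 * n), (if i = i0 then (1 : ℤ) else 0) := by
    rw [Finset.sum_ite_eq' Finset.univ i0]; simp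
  have hsum : ∀ k, k ≤ 2 * n → (∀ i : Fin (2 * n), fibcf σ g k i =
      -((if (i : ℕ) < i0 ∧ (i0 : ℕ) < σ i then (1 : ℤ) else 0) + (if i = i0 then (1 : ℤ) else 0))) →
      ht (List.ofFn (fibcw σ g)) k = -((K : ℤ) + 1) := by
    intro k hk h
    rw [fibcw_ht hσ g hk, Finset.sum_congr rfl (fun i _ => h i), Finset.sum_neg_distrib,
      Finset.sum_add_distrib, ← hKs, ← hone]
  have hlow : ∀ k, k ≤ 2 * n → (∀ i : Fin (2 * n), -(if (i : ℕ) < i0 ∧ (i0 : ℕ) < σ i then (1 : ℤ) else 0) ≤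
      fibcf σ g k i) → -((K : ℤ) + 1) < ht (List.ofFn (fibcw σ g)) k := by
    intro k hk h
    have h2 : -(K : ℤ) ≤ ht (List.ofFn (fibcw σ g)) k := by
      rw [fibcw_ht hσ g hk, hKs, ← Finset.sum_neg_distrib]
      exact Finset.sum_le_sum (fun i _ => h i)
    omega
  have around : ∀ i : Fin (2 * n), (i : ℕ) < i0 → (i0 : ℕ) < σ i → (σ i0 : ℕ) < σ i :=
    fun i h1 h2 => fibc_nc hσ h1 h2
  have inside : ∀ i : Fin (2 * n), (i0 : ℕ) < i → (i : ℕ) < σ i0 → (σ i : ℕ) < σ i0 :=
    fun i h1 h2 => fibc_nc hσ h1 h2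
  refine ⟨by simp, by simp, K, Or.inl ⟨⟨by simp, ?_, ?_⟩, ⟨?_, ?_, ?_⟩⟩⟩
  · apply hsum _ (by omega)
    intro i
    unfold fibcf
    by_cases e : i = i0
    · subst e
      rw [if_pos (by omega), if_pos hg, if_neg (by omega), if_pos rfl]; ring
    · have e' : (i : ℕ) ≠ i0 := fun h => e (Fin.ext h)
      rw [if_neg e]
      by_cases hc : (i : ℕ) < i0 ∧ (i0 : ℕ) < σ i
      · have := around i hc.1 hc.2
        rw [if_pos hc, if_pos (by omega), if_pos (by omega)]; ring
      · rw [if_neg hc, if_neg (by omega)]; ring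
  · intro t ht'
    apply hlow _ (by omega)
    intro i
    unfold fibcf
    split_ifs with h1 h2 h3 <;> omega
  · rw [length_mir]; simp; omega
  · simp only [List.length_ofFn]
    rw [ht_mir _ (by simp; omega), hh0, sub_zero, List.length_ofFn]
    have e1 : 2 * n - (2 * n - 1 - (σ i0 : ℕ) + 1) = (σ i0 : ℕ) := by omega
    rw [e1]
    apply hsum _ (by omega)
    intro i
    unfold fibcf
    by_cases e : i = i0
    · subst e
      rw [if_pos (by omega), if_pos hg, if_neg (by omega), if_pos rfl]; ring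
    · have e' : (i : ℕ) ≠ i0 := fun h => e (Fin.ext h)
      have e2 : (σ i : ℕ) ≠ σ i0 := fun h => e (fibc_inj hσ h)
      rw [if_neg e]
      by_cases hc : (i : ℕ) < i0 ∧ (i0 : ℕ) < σ i
      · have := around i hc.1 hc.2
        rw [if_pos hc, if_pos (by omega), if_pos (by omega)]; ring
      · rw [if_neg hc, if_neg ?_]
        · ring
        · rintro ⟨h1, h2⟩
          apply hc
          refine ⟨?_, by omega⟩
          by_contra h3
          have := inside i (by omega) (by omega)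
          omega
  · intro t ht'
    simp only [List.length_ofFn] at ht'
    rw [ht_mir _ (by simp; omega), hh0, sub_zero, List.length_ofFn]
    apply hlow _ (by omega)
    intro i
    unfold fibcf
    by_cases hA : (i : ℕ) < i0 ∧ (i0 : ℕ) < σ i
    · rw [if_pos hA]
      split_ifs <;> omega
    · rw [if_neg hA]
      split_ifs with h1 h2
      · exfalso
        apply hA
        have h4 : (σ i0 : ℕ) < σ i := by omega
        refine ⟨?_, by omega⟩
        by_contra h5
        by_cases h6 : (i : ℕ) = i0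
        · have : i = i0 := Fin.ext h6
          subst this; omega
        · have := inside i (by omega) (by omega)
          omega
      all_goals omega

theorem fibc_cj_symm {s : List Bool} {i j : ℕ} (h : cj s i j) : cj s j i := by
  obtain ⟨h1, h2, k, h3⟩ := h
  exact ⟨h2, h1, k, h3.symm⟩

theorem fibc_mem {n : ℕ} {σ : Fin (2 * n) → Fin (2 * n)} (hσ : IsArcSys n σ) (g : ℕ)
    (i : Fin (2 * n)) :
    Or2 (Arc (List.ofFn (fibcw σ g))) (cj (List.ofFn (fibcw σ g))) (i : ℕ) (σ i : ℕ) := by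
  have main : ∀ i0 : Fin (2 * n), (i0 : ℕ) < σ i0 →
      Or2 (Arc (List.ofFn (fibcw σ g))) (cj (List.ofFn (fibcw σ g))) (i0 : ℕ) (σ i0 : ℕ) := by
    intro i0 h0
    by_cases hg : (i0 : ℕ) < g ∧ g ≤ (σ i0 : ℕ)
    · exact Or.inr (fibc_cj hσ g h0 hg)
    · exact Or.inl (Or.inl (fibc_arc hσ g h0 hg))
  rcases Nat.lt_or_ge (i : ℕ) (σ i : ℕ) with h | h
  · exact main i h
  · have hne := fibc_ne hσ i
    have h2 := main (σ i) (by rw [hσ.1 i]; omega)
    rw [hσ.1 i] at h2
    rcases h2 with h2 | h2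
    · exact Or.inl h2.symm
    · exact Or.inr (fibc_cj_symm h2)

/-- the openers -/
def fibcO {n : ℕ} (σ : Fin (2 * n) → Fin (2 * n)) : Finset (Fin (2 * n)) :=
  Finset.univ.filter (fun i => (i : ℕ) < σ i)

theorem fibcO_card {n : ℕ} {σ : Fin (2 * n) → Fin (2 * n)} (hσ : IsArcSys n σ) :
    (fibcO σ).card = n := by
  have h1 : (fibcO σ).card = (Finset.univ.filter (fun i : Fin (2 * n) => ¬ (i : ℕ) < σ i)).card := by
    apply Finset.card_bij (fun i _ => σ i)
    · intro i hi
      simp only [fibcO, Finset.mem_filter, Finset.mem_univ, true_and] at hi ⊢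
      rw [hσ.1 i]; omega
    · intro i _ j _ h
      rw [← hσ.1 i, ← hσ.1 j, h]
    · intro j hj
      simp only [Finset.mem_filter, Finset.mem_univ, true_and] at hj
      have hne := fibc_ne hσ j
      refine ⟨σ j, ?_, hσ.1 j⟩
      simp only [fibcO, Finset.mem_filter, Finset.mem_univ, true_and]
      rw [hσ.1 j]; omega
  have h2 := Finset.card_filter_add_card_filter_not (s := (Finset.univ : Finset (Fin (2 * n))))
    (fun i : Fin (2 * n) => (i : ℕ) < σ i)
  rw [Finset.card_univ, Fintype.card_fin] at h2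
  unfold fibcO at h1 ⊢
  omega

/-- the gaps -/
def fibcG {n : ℕ} (σ : Fin (2 * n) → Fin (2 * n)) : Finset ℕ :=
  insert 0 ((fibcO σ).image (fun i : Fin (2 * n) => (i : ℕ) + 1))

theorem fibcG_card {n : ℕ} {σ : Fin (2 * n) → Fin (2 * n)} (hσ : IsArcSys n σ) :
    (fibcG σ).card = n + 1 := by
  have h1 : Function.Injective (fun i : Fin (2 * n) => (i : ℕ) + 1) := by
    intro i j h
    simp only [add_left_inj] at h
    exact Fin.ext h
  have h2 := fibcO_card hσ
  unfold fibcG
  rw [Finset.card_insert_of_notMem (by simp), Finset.card_image_of_injective _ h1, h2]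

theorem fibc_injOn {n : ℕ} {σ : Fin (2 * n) → Fin (2 * n)} (hσ : IsArcSys n σ) :
    Set.InjOn (fibcw σ) (fibcG σ : Set ℕ) := by
  have key : ∀ e : Fin (2 * n), (e : ℕ) < σ e → ∀ g, fibcw σ ((e : ℕ) + 1) = fibcw σ g →
      (e : ℕ) + 1 ≤ g := by
    intro e he g h
    have h1 := congrFun h e
    unfold fibcw at h1
    rw [decide_eq_decide] at h1
    omega
  intro g hg g' hg' h
  simp only [fibcG, Finset.coe_insert, Finset.coe_image, Set.mem_insert_iff, Set.mem_image,
    Finset.mem_coe, fibcO, Finset.mem_filter, Finset.mem_univ, true_and] at hg hg'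
  rcases hg with rfl | ⟨e, he, rfl⟩ <;> rcases hg' with rfl | ⟨e', he', rfl⟩
  · rfl
  · have := key e' he' 0 h.symm
    omega
  · have := key e he 0 h
    omega
  · have h1 := key e he _ h
    have h2 := key e' he' _ h.symm
    omega

/-- every balanced word with cyclic matching `σ` is one of them -/
theorem fibc_surj {n : ℕ} {σ : Fin (2 * n) → Fin (2 * n)} (hσ : IsArcSys n σ)
    (s : Fin (2 * n) → Bool) (hs : hh (List.ofFn s) = 0)
    (h : ∀ i : Fin (2 * n), Or2 (Arc (List.ofFn s)) (cj (List.ofFn s)) (i : ℕ) (σ i : ℕ)) :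
    ∃ g ∈ fibcG σ, fibcw σ g = s := by
  classical
  have hlen : (List.ofFn s).length = 2 * n := List.length_ofFn
  have hh0 : ht (List.ofFn s) (List.ofFn s).length = 0 := hs
  have hget : ∀ i : Fin (2 * n), (List.ofFn s)[(i : ℕ)]? = some (s i) := by
    intro i
    rw [List.getElem?_eq_getElem (by rw [hlen]; exact i.2), List.getElem_ofFn]
  -- mirrored unmatched brackets
  have hmir : ∀ (j k : ℕ), j < 2 * n → rc (mir (List.ofFn s)) ((List.ofFn s).length - 1 - j) k →
      ht (List.ofFn s) j = -((k : ℤ) + 1) ∧ ∀ t, j + 1 ≤ t → t ≤ 2 * n →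
        -((k : ℤ) + 1) < ht (List.ofFn s) t := by
    intro j k hj ⟨h1, h2, h3⟩
    rw [hlen] at h2 h3
    rw [ht_mir _ (by rw [hlen]; omega), hh0, sub_zero, hlen] at h2
    have e1 : 2 * n - (2 * n - 1 - j + 1) = j := by omega
    rw [e1] at h2
    refine ⟨h2, ?_⟩
    intro t ht1 ht2
    have h4 := h3 (2 * n - t) (by omega)
    rw [ht_mir _ (by rw [hlen]; omega), hh0, sub_zero, hlen] at h4
    have e2 : 2 * n - (2 * n - t) = t := by omega
    rwa [e2] at h4
  -- classification of the arcs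
  have cls : ∀ i : Fin (2 * n), (i : ℕ) < σ i →
      (s i = true ∧ s (σ i) = false ∧ arc (List.ofFn s) i (σ i)) ∨
      (s i = false ∧ s (σ i) = true ∧ ∃ k : ℕ, rc (List.ofFn s) i k ∧
        ht (List.ofFn s) (σ i) = -((k : ℤ) + 1) ∧ ∀ t, (σ i : ℕ) + 1 ≤ t → t ≤ 2 * n →
        -((k : ℤ) + 1) < ht (List.ofFn s) t) := by
    intro i hi
    have hσi := (σ i).2
    rcases h i with h1 | h1
    · left
      rcases h1 with h1 | h1
      · have h2 := h1
        obtain ⟨_, _, h3, h4⟩ := h2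
        have h5 := h4 ((i : ℕ) + 1) (by omega) (by omega)
        have h6 := h4 (σ i : ℕ) (by omega) le_rfl
        refine ⟨?_, ?_, h1⟩
        · rcases ht_step (s := List.ofFn s) (k := (i : ℕ)) (by rw [hlen]; omega) with ⟨a, b⟩ | ⟨a, b⟩
          · rw [hget i] at a; exact Option.some.inj a
          · omega
        · rcases ht_step (s := List.ofFn s) (k := (σ i : ℕ)) (by rw [hlen]; omega) with
            ⟨a, b⟩ | ⟨a, b⟩
          · omega
          · rw [hget (σ i)] at a; exact Option.some.inj a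
      · exact absurd h1.1 (by omega)
    · right
      obtain ⟨_, _, k, h2 | h2⟩ := h1
      · obtain ⟨h3, h4⟩ := h2
        obtain ⟨h5, h6⟩ := hmir _ _ hσi h4
        have h7 := h3
        obtain ⟨_, h8, h9⟩ := h7
        refine ⟨?_, ?_, k, h3, h5, h6⟩
        · have h10 := h9 (i : ℕ) le_rfl
          rcases ht_step (s := List.ofFn s) (k := (i : ℕ)) (by rw [hlen]; omega) with ⟨a, b⟩ | ⟨a, b⟩
          · omega
          · rw [hget i] at a; exact Option.some.inj a
        · have h10 := h6 ((σ i : ℕ) + 1) le_rfl (by omega)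
          rcases ht_step (s := List.ofFn s) (k := (σ i : ℕ)) (by rw [hlen]; omega) with
            ⟨a, b⟩ | ⟨a, b⟩
          · rw [hget (σ i)] at a; exact Option.some.inj a
          · omega
      · exfalso
        obtain ⟨⟨_, h3, h4⟩, h5⟩ := h2
        obtain ⟨h6, h7⟩ := hmir _ _ i.2 h5
        have h8 := h4 (i : ℕ) (by omega)
        omega
  -- the flipped openers
  set F : Finset (Fin (2 * n)) := Finset.univ.filter (fun i => (i : ℕ) < σ i ∧ s i = false) with hF
  -- a word is determined by its flipped openers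
  have det : ∀ g, (∀ i : Fin (2 * n), (i : ℕ) < σ i → (s i = false ↔ ((i : ℕ) < g ∧ g ≤ (σ i : ℕ)))) →
      fibcw σ g = s := by
    intro g hg
    have h1 : ∀ i : Fin (2 * n), (i : ℕ) < σ i → fibcw σ g i = s i := by
      intro i hi
      by_cases hc : (i : ℕ) < g ∧ g ≤ (σ i : ℕ)
      · rw [(hg i hi).mpr hc]
        unfold fibcw
        rw [decide_eq_false_iff_not]; omega
      · have h2 : s i = true := by
          by_contra h3
          exact hc ((hg i hi).mp (by simpa using h3))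
        rw [h2]
        unfold fibcw
        rw [decide_eq_true_iff]; omega
    funext i
    rcases Nat.lt_or_ge (i : ℕ) (σ i : ℕ) with h2 | h2
    · exact h1 i h2
    · have hne := fibc_ne hσ i
      have h3 : ((σ i : Fin (2 * n)) : ℕ) < σ (σ i) := by rw [hσ.1 i]; omega
      have h4 := h1 (σ i) h3
      rw [fibcw_flip hσ] at h4
      have h5 : s (σ (σ i)) = !(s (σ i)) := by
        rcases cls (σ i) h3 with ⟨a, b, _⟩ | ⟨a, b, _⟩ <;> rw [a, b] <;> rfl
      rw [hσ.1 i, ← h4, Bool.not_not] at h5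
      exact h5.symm
  by_cases hne : F.Nonempty
  · -- the innermost flipped arc
    set e := F.max' hne with he
    have heF : e ∈ F := Finset.max'_mem F hne
    have hmax : ∀ i ∈ F, i ≤ e := fun i hi => Finset.le_max' F i hi
    have he2 := heF
    rw [hF, Finset.mem_filter] at he2
    obtain ⟨_, he3, he4⟩ := he2
    refine ⟨(e : ℕ) + 1, ?_, det _ ?_⟩
    · simp only [fibcG, Finset.mem_insert, Finset.mem_image]
      right
      refine ⟨e, ?_, rfl⟩
      unfold fibcO
      rw [Finset.mem_filter]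
      exact ⟨Finset.mem_univ _, he3⟩
    · obtain ⟨k', hk1, hk2, hk3⟩ : ∃ k : ℕ, rc (List.ofFn s) e k ∧
        ht (List.ofFn s) (σ e) = -((k : ℤ) + 1) ∧ ∀ t, (σ e : ℕ) + 1 ≤ t → t ≤ 2 * n →
        -((k : ℤ) + 1) < ht (List.ofFn s) t := by
        rcases cls e he3 with ⟨a, _⟩ | ⟨_, _, c⟩
        · rw [a] at he4; exact absurd he4 (by simp)
        · exact c
      obtain ⟨_, hk4, hk5⟩ := hk1
      intro i hi
      constructor
      · intro hf
        have hiF : i ∈ F := by rw [hF, Finset.mem_filter]; exact ⟨Finset.mem_univ _, hi, hf⟩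
        have hie : (i : ℕ) ≤ e := hmax i hiF
        refine ⟨by omega, ?_⟩
        by_contra hc
        obtain ⟨k, hq1, hq2, hq3⟩ : ∃ k : ℕ, rc (List.ofFn s) i k ∧
          ht (List.ofFn s) (σ i) = -((k : ℤ) + 1) ∧ ∀ t, (σ i : ℕ) + 1 ≤ t → t ≤ 2 * n →
          -((k : ℤ) + 1) < ht (List.ofFn s) t := by
          rcases cls i hi with ⟨a, _⟩ | ⟨_, _, c⟩
          · rw [a] at hf; exact absurd hf (by simp)
          · exact c
        have h1 := hk5 (σ i : ℕ) (by omega)
        have h2 := hq3 ((e : ℕ) + 1) (by omega) (by have := e.2; omega)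
        omega
      · rintro ⟨h1, h2⟩
        by_contra hf
        have hf' : s i = true := by simpa using hf
        rcases cls i hi with ⟨_, _, c⟩ | ⟨a, _⟩
        · obtain ⟨_, _, _, h3⟩ := c
          have h4 := h3 ((e : ℕ) + 1) (by omega) (by omega)
          have h5 := hk5 (i : ℕ) (by omega)
          omega
        · rw [a] at hf'; exact absurd hf' (by simp)
  · refine ⟨0, by simp [fibcG], det 0 ?_⟩
    intro i hi
    constructor
    · intro hf
      exact absurd ⟨i, by rw [hF, Finset.mem_filter]; exact ⟨Finset.mem_univ _, hi, hf⟩⟩ hne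
    · rintro ⟨h1, _⟩
      omega

end FiberCard

open Classical in
/-- each arc system comes from exactly `n + 1` balanced bracket words -/
theorem fiber_card {n : ℕ} (σ : Fin (2 * n) → Fin (2 * n)) (hσ : IsArcSys n σ) :
    (Finset.univ.filter (fun s : Fin (2 * n) → Bool => hh (List.ofFn s) = 0 ∧
      ∀ i : Fin (2 * n), Or2 (Arc (List.ofFn s)) (cj (List.ofFn s)) (i : ℕ) (σ i : ℕ))).card = n + 1 := by
  have h1 : Finset.univ.filter (fun s : Fin (2 * n) → Bool => hh (List.ofFn s) = 0 ∧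
      ∀ i : Fin (2 * n), Or2 (Arc (List.ofFn s)) (cj (List.ofFn s)) (i : ℕ) (σ i : ℕ)) =
      (fibcG σ).image (fibcw σ) := by
    ext s
    simp only [Finset.mem_filter, Finset.mem_univ, true_and, Finset.mem_image]
    constructor
    · rintro ⟨h1, h2⟩
      exact fibc_surj hσ s h1 h2
    · rintro ⟨g, _, rfl⟩
      exact ⟨fibc_hh hσ g, fibc_mem hσ g⟩
  rw [h1, Finset.card_image_of_injOn (fibc_injOn hσ), fibcG_card hσ]

end MeanderCLT
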