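import Pool.Agent.H98.M.Comps
import Pool.Agent.H98.M.FiberCard
import Pool.Agent.H98.M.Avg

/-!
# From balanced words to pairs of arc systems
-/

namespace MeanderCLT

theorem ArcA_sum {α β M : Type*} [AddCommMonoid M] [DecidableEq β] (B : Finset α) (A : Finset β) (Φ : α → β)
    (m : ℕ) (hmap : ∀ s ∈ B, Φ s ∈ A) (hcard : ∀ σ ∈ A, (B.filter (fun s => Φ s = σ)).card = m)
    (F : β → M) : ∑ s ∈ B, F (Φ s) = m • ∑ σ ∈ A, F σ := by
  rw [← Finset.sum_fiberwise_of_maps_to hmap, Finset.smul_sum]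
  refine Finset.sum_congr rfl fun σ hσ => ?_
  rw [← hcard σ hσ, ← Finset.sum_const]
  refine Finset.sum_congr rfl fun s hs => ?_
  rw [(Finset.mem_filter.1 hs).2]

theorem ArcA_sum2 {α β M : Type*} [AddCommMonoid M] [DecidableEq β] (B : Finset α) (A : Finset β) (Φ : α → β)
    (m : ℕ) (hmap : ∀ s ∈ B, Φ s ∈ A) (hcard : ∀ σ ∈ A, (B.filter (fun s => Φ s = σ)).card = m)
    (F : β × β → M) :
    ∑ p ∈ B ×ˢ B, F (Φ p.1, Φ p.2) = (m * m) • ∑ p ∈ A ×ˢ A, F p := by
  rw [Finset.sum_product, Finset.sum_product, mul_smul]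
  rw [← ArcA_sum B A Φ m hmap hcard (fun σ => ∑ τ ∈ A, F (σ, τ)), ← Finset.sum_nsmul]
  refine Finset.sum_congr rfl fun s _ => ?_
  exact ArcA_sum B A Φ m hmap hcard (fun τ => F (Φ s, τ))

theorem ArcA_up {N : ℕ} (z : Fin N → Ltr) : up (List.ofFn z) = List.ofFn (fun i => (z i).1) := by
  unfold up
  rw [List.map_ofFn]
  rfl

theorem ArcA_lo {N : ℕ} (z : Fin N → Ltr) : lo (List.ofFn z) = List.ofFn (fun i => (z i).2) := by
  unfold lo
  rw [List.map_ofFn]
  rfl

open Classical in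
/-- averaging over balanced words = averaging over pairs of arc systems -/
theorem BrC_arcs (n : ℕ) (g : ℝ → ℂ) :
    BrC (2 * n) (fun z => g (ccyc z)) =
      (∑ p ∈ Finset.univ.filter (fun p : (Fin (2 * n) → Fin (2 * n)) × (Fin (2 * n) → Fin (2 * n)) =>
        IsArcSys n p.1 ∧ IsArcSys n p.2), g (comps n p.1 p.2)) /
      ((Finset.univ.filter (fun p : (Fin (2 * n) → Fin (2 * n)) × (Fin (2 * n) → Fin (2 * n)) =>
        IsArcSys n p.1 ∧ IsArcSys n p.2)).card : ℂ) := by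
  -- the arc system of a balanced word
  have hex : ∀ s : Fin (2 * n) → Bool, ∃ σ : Fin (2 * n) → Fin (2 * n),
      hh (List.ofFn s) = 0 → (IsArcSys n σ ∧
        ∀ i : Fin (2 * n), Or2 (Arc (List.ofFn s)) (cj (List.ofFn s)) (i : ℕ) (σ i : ℕ)) := by
    intro s
    by_cases hs : hh (List.ofFn s) = 0
    · obtain ⟨σ, h⟩ := fiber_exists s hs
      exact ⟨σ, fun _ => h⟩
    · exact ⟨fun i => i, fun h => absurd h hs⟩
  choose Φ hΦ using hex
  set B : Finset (Fin (2 * n) → Bool) := Finset.univ.filter (fun s => hh (List.ofFn s) = 0) with hB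
  set A : Finset (Fin (2 * n) → Fin (2 * n)) := Finset.univ.filter (fun σ => IsArcSys n σ) with hA
  have hmap : ∀ s ∈ B, Φ s ∈ A := by
    intro s hs
    exact Finset.mem_filter.2 ⟨Finset.mem_univ _, (hΦ s (Finset.mem_filter.1 hs).2).1⟩
  have hcard : ∀ σ ∈ A, (B.filter (fun s => Φ s = σ)).card = n + 1 := by
    intro σ hσ
    rw [← fiber_card σ (Finset.mem_filter.1 hσ).2]
    congr 1
    ext s
    rw [Finset.mem_filter, hB, Finset.mem_filter, Finset.mem_filter]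
    constructor
    · rintro ⟨⟨_, hs⟩, rfl⟩
      exact ⟨Finset.mem_univ _, hs, (hΦ s hs).2⟩
    · rintro ⟨_, hs, h⟩
      refine ⟨⟨Finset.mem_univ _, hs⟩, ?_⟩
      funext i
      apply Fin.ext
      exact (Fib_isMat (List.ofFn s)).func ((hΦ s hs).2 i) (h i)
  have hAA : (Finset.univ.filter (fun p : (Fin (2 * n) → Fin (2 * n)) × (Fin (2 * n) → Fin (2 * n)) =>
        IsArcSys n p.1 ∧ IsArcSys n p.2)) = A ×ˢ A := by
    ext p
    rw [Finset.mem_filter, Finset.mem_product, hA, Finset.mem_filter, Finset.mem_filter]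
    constructor
    · rintro ⟨_, h1, h2⟩
      exact ⟨⟨Finset.mem_univ _, h1⟩, ⟨Finset.mem_univ _, h2⟩⟩
    · rintro ⟨⟨_, h1⟩, ⟨_, h2⟩⟩
      exact ⟨Finset.mem_univ _, h1, h2⟩
  -- sums over balanced words
  have key : ∀ G : Wd → ℂ, ∀ F : (Fin (2 * n) → Fin (2 * n)) × (Fin (2 * n) → Fin (2 * n)) → ℂ,
      (∀ z : Fin (2 * n) → Ltr, Bal (List.ofFn z) →
        G (List.ofFn z) = F (Φ (fun i => (z i).1), Φ (fun i => (z i).2))) →
      (∑ z : Fin (2 * n) → Ltr, if Bal (List.ofFn z) then G (List.ofFn z) else 0) =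
        (((n + 1) * (n + 1) : ℕ) : ℂ) * ∑ p ∈ A ×ˢ A, F p := by
    intro G F hGF
    have e1 : (∑ z : Fin (2 * n) → Ltr, if Bal (List.ofFn z) then G (List.ofFn z) else 0) =
        ∑ p ∈ B ×ˢ B, F (Φ p.1, Φ p.2) := by
      rw [← Finset.sum_filter]
      refine Finset.sum_bij (fun z _ => ((fun i => (z i).1), (fun i => (z i).2))) ?_ ?_ ?_ ?_
      · intro z hz
        have hz' := (Finset.mem_filter.1 hz).2
        rw [Bal, ArcA_up, ArcA_lo] at hz'
        exact Finset.mem_product.2 ⟨Finset.mem_filter.2 ⟨Finset.mem_univ _, hz'.1⟩,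
          Finset.mem_filter.2 ⟨Finset.mem_univ _, hz'.2⟩⟩
      · intro z _ z' _ h
        rw [Prod.mk.injEq] at h
        funext i
        exact Prod.ext (congrFun h.1 i) (congrFun h.2 i)
      · intro p hp
        obtain ⟨h1, h2⟩ := Finset.mem_product.1 hp
        refine ⟨fun i => (p.1 i, p.2 i), Finset.mem_filter.2 ⟨Finset.mem_univ _, ?_⟩, rfl⟩
        rw [Bal, ArcA_up, ArcA_lo]
        exact ⟨(Finset.mem_filter.1 h1).2, (Finset.mem_filter.1 h2).2⟩
      · intro z hz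
        exact hGF z (Finset.mem_filter.1 hz).2
    rw [e1, ArcA_sum2 B A Φ (n + 1) hmap hcard F, nsmul_eq_mul]
  have k1 := key (fun z => g (ccyc z)) (fun p => g (comps n p.1 p.2)) (by
    intro z hz
    have hz' := hz
    rw [Bal, ArcA_up, ArcA_lo] at hz'
    have h1 := hΦ _ hz'.1
    have h2 := hΦ _ hz'.2
    have := ccyc_comps z (Φ (fun i => (z i).1)) (Φ (fun i => (z i).2)) h1.1 h2.1
      (by rw [ArcA_up]; exact h1.2) (by rw [ArcA_lo]; exact h2.2)
    simp only [this])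
  have k2 := key (fun _ => 1) (fun _ => 1) (fun _ _ => rfl)
  have hP : ((Pw (2 * n) Bal : ℝ) : ℂ) =
      (∑ z : Fin (2 * n) → Ltr, if Bal (List.ofFn z) then (1 : ℂ) else 0) / 4 ^ (2 * n) := by
    rw [Pw, Ew]
    push_cast
    congr 1
    refine Finset.sum_congr rfl fun z _ => ?_
    split_ifs <;> simp
  rw [BrC, EwC, hP, hAA]
  rw [k1, k2]
  rw [Finset.sum_const, nsmul_eq_mul, mul_one]
  have h4 : (4 : ℂ) ^ (2 * n) ≠ 0 := pow_ne_zero _ (by norm_num)
  have hn : (((n + 1) * (n + 1) : ℕ) : ℂ) ≠ 0 := by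
    exact_mod_cast Nat.mul_ne_zero (Nat.succ_ne_zero n) (Nat.succ_ne_zero n)
  rw [div_div_div_cancel_right₀ h4, mul_div_mul_left _ _ hn]

end MeanderCLT
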