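import Pool.Agent.H98.M.Ht

/-!
# Matched brackets
-/

namespace MeanderCLT

theorem arc_letter {s : List Bool} {i j : ℕ} (h : arc s i j) :
    s[i]? = some true ∧ s[j]? = some false := by
  obtain ⟨h1, h2, h3, h4⟩ := h
  constructor
  · rcases ht_step (s := s) (k := i) (by omega) with ⟨h5, _⟩ | ⟨_, h6⟩
    · exact h5
    · have := h4 (i + 1) (by omega) (by omega)
      omega
  · rcases ht_step (s := s) (k := j) (by omega) with ⟨_, h6⟩ | ⟨h5, _⟩
    · have := h4 j h1 le_rfl
      omega
    · exact h5

theorem Arc_lt {s : List Bool} {i j : ℕ} (h : Arc s i j) : i < s.length ∧ j < s.length := by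
  rcases h with h | h
  · exact ⟨by have := h.1; have := h.2.1; omega, h.2.1⟩
  · exact ⟨h.2.1, by have := h.1; have := h.2.1; omega⟩

theorem arc_func_right {s : List Bool} {i j k : ℕ} (h : arc s i j) (h' : arc s i k) : j = k := by
  rcases lt_trichotomy j k with hl | hl | hl
  · have h1 := h'.2.2.2 (j + 1) (by have := h.1; omega) (by omega)
    have h2 := h.2.2.1
    omega
  · exact hl
  · have h1 := h.2.2.2 (k + 1) (by have := h'.1; omega) (by omega)
    have h2 := h'.2.2.1
    omega

theorem arc_func_left {s : List Bool} {i j k : ℕ} (h : arc s i k) (h' : arc s j k) : i = j := by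
  rcases lt_trichotomy i j with hl | hl | hl
  · have h1 := h.2.2.2 j hl (by have := h'.1; omega)
    have h2 := h.2.2.1
    have h3 := h'.2.2.1
    omega
  · exact hl
  · have h1 := h'.2.2.2 i hl (by have := h.1; omega)
    have h2 := h.2.2.1
    have h3 := h'.2.2.1
    omega

theorem isMat_Arc (s : List Bool) : IsMat (Arc s) := by
  refine ⟨fun h => h.symm, ?_, ?_⟩
  · intro x y z h h'
    rcases h with h | h <;> rcases h' with h' | h'
    · exact arc_func_right h h'
    · have e1 := (arc_letter h).1
      have e2 := (arc_letter h').2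
      rw [e1] at e2; simp at e2
    · have e1 := (arc_letter h).2
      have e2 := (arc_letter h').1
      rw [e1] at e2; simp at e2
    · exact arc_func_left h h'
  · rintro x (h | h) <;> exact absurd h.1 (lt_irrefl _)

theorem arc_append_left {s t : List Bool} {i j : ℕ} (hi : i < s.length) (hj : j < s.length) :
    arc (s ++ t) i j ↔ arc s i j := by
  unfold arc
  rw [ht_append_left (by omega), ht_append_left (by omega), List.length_append]
  constructor
  · rintro ⟨h1, h2, h3, h4⟩
    refine ⟨h1, hj, h3, fun k hk hk' => ?_⟩
    have := h4 k hk hk'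
    rwa [ht_append_left (by omega)] at this
  · rintro ⟨h1, h2, h3, h4⟩
    refine ⟨h1, by omega, h3, fun k hk hk' => ?_⟩
    rw [ht_append_left (by omega)]
    exact h4 k hk hk'

theorem Arc_append_left {s t : List Bool} {i j : ℕ} (hi : i < s.length) (hj : j < s.length) :
    Arc (s ++ t) i j ↔ Arc s i j := by
  unfold Arc
  rw [arc_append_left hi hj, arc_append_left hj hi]

theorem arc_append_right {s t : List Bool} {i j : ℕ} :
    arc (s ++ t) (s.length + i) (s.length + j) ↔ arc t i j := by
  unfold arc
  rw [Nat.add_assoc, ht_append_right, ht_append_right, List.length_append]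
  constructor
  · rintro ⟨h1, h2, h3, h4⟩
    refine ⟨by omega, by omega, by omega, fun k hk hk' => ?_⟩
    have := h4 (s.length + k) (by omega) (by omega)
    rw [ht_append_right] at this
    omega
  · rintro ⟨h1, h2, h3, h4⟩
    refine ⟨by omega, by omega, by omega, fun k hk hk' => ?_⟩
    obtain ⟨k, rfl⟩ : ∃ u, k = s.length + u := ⟨k - s.length, by omega⟩
    rw [ht_append_right]
    have := h4 k (by omega) (by omega)
    omega

theorem Arc_append_right {s t : List Bool} {i j : ℕ} :
    Arc (s ++ t) (s.length + i) (s.length + j) ↔ Arc t i j := by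
  unfold Arc
  rw [arc_append_right, arc_append_right]

theorem arc_mir_of {s : List Bool} {i j : ℕ} (h : arc s i j) :
    arc (mir s) (s.length - 1 - j) (s.length - 1 - i) := by
  obtain ⟨h1, h2, h3, h4⟩ := h
  have e1 : s.length - 1 - i + 1 = s.length - i := by omega
  refine ⟨by omega, by rw [length_mir]; omega, ?_, ?_⟩
  · rw [e1, ht_mir s (by omega), ht_mir s (by omega)]
    have e2 : s.length - (s.length - i) = i := by omega
    have e3 : s.length - (s.length - 1 - j) = j + 1 := by omega
    rw [e2, e3, h3]
  · intro k hk hk'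
    rw [ht_mir s (by omega), ht_mir s (by omega)]
    have e3 : s.length - (s.length - 1 - j) = j + 1 := by omega
    rw [e3, h3]
    have := h4 (s.length - k) (by omega) (by omega)
    omega

theorem Arc_mir_of {s : List Bool} {i j : ℕ} (h : Arc s i j) :
    Arc (mir s) (s.length - 1 - i) (s.length - 1 - j) := by
  rcases h with h | h
  · exact Or.inr (arc_mir_of h)
  · exact Or.inl (arc_mir_of h)

theorem Arc_mir {s : List Bool} {i j : ℕ} (hi : i < s.length) (hj : j < s.length) :
    Arc (mir s) i j ↔ Arc s (s.length - 1 - i) (s.length - 1 - j) := by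
  constructor
  · intro h
    have := Arc_mir_of h
    rwa [mir_mir, length_mir] at this
  · intro h
    have := Arc_mir_of h
    have e1 : s.length - 1 - (s.length - 1 - i) = i := by omega
    have e2 : s.length - 1 - (s.length - 1 - j) = j := by omega
    rwa [e1, e2] at this

end MeanderCLT
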