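import Pool.Agent.H98.M.Defs

/-!
# Closed loops (abstract)
-/

namespace MeanderCLT

variable {P Q : Type*}

theorem Cl_inter [DecidableEq P] {U V : P → P → Prop} (hU : IsMat U) (hV : IsMat V)
    {C C' : Finset P} (h : Cl U V C) (h' : Cl U V C') : Cl U V (C ∩ C') := by
  intro x hx
  rw [Finset.mem_inter] at hx
  obtain ⟨⟨y, hy, hxy⟩, ⟨z, hz, hxz⟩⟩ := h x hx.1
  obtain ⟨⟨y', hy', hxy'⟩, ⟨z', hz', hxz'⟩⟩ := h' x hx.2
  have e1 := hU.func hxy hxy'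
  have e2 := hV.func hxz hxz'
  subst e1 e2
  exact ⟨⟨y, Finset.mem_inter.mpr ⟨hy, hy'⟩, hxy⟩, ⟨z, Finset.mem_inter.mpr ⟨hz, hz'⟩, hxz⟩⟩

theorem Cl_sdiff [DecidableEq P] {U V : P → P → Prop} (hU : IsMat U) (hV : IsMat V)
    {C C' : Finset P} (h : Cl U V C) (h' : Cl U V C') : Cl U V (C \ C') := by
  intro x hx
  rw [Finset.mem_sdiff] at hx
  obtain ⟨⟨y, hy, hxy⟩, ⟨z, hz, hxz⟩⟩ := h x hx.1
  refine ⟨⟨y, Finset.mem_sdiff.mpr ⟨hy, fun hy' => hx.2 ?_⟩, hxy⟩,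
    ⟨z, Finset.mem_sdiff.mpr ⟨hz, fun hz' => hx.2 ?_⟩, hxz⟩⟩
  · obtain ⟨⟨w, hw, hyw⟩, _⟩ := h' y hy'
    have := hU.func (hU.symm hxy) hyw
    rw [this]; exact hw
  · obtain ⟨_, ⟨w, hw, hzw⟩⟩ := h' z hz'
    have := hV.func (hV.symm hxz) hzw
    rw [this]; exact hw

theorem loop_sub {U V : P → P → Prop} (hU : IsMat U) (hV : IsMat V) {L C : Finset P}
    (hL : IsLoop U V L) (hC : Cl U V C) {x : P} (hx : x ∈ L) (hx' : x ∈ C) : L ⊆ C := by
  classical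
  have h := hL.2.2 (L ∩ C) Finset.inter_subset_left ⟨x, Finset.mem_inter.mpr ⟨hx, hx'⟩⟩
    (Cl_inter hU hV hL.2.1 hC)
  rw [← h]
  exact Finset.inter_subset_right

theorem loop_eq {U V : P → P → Prop} (hU : IsMat U) (hV : IsMat V) {L L' : Finset P}
    (hL : IsLoop U V L) (hL' : IsLoop U V L') {x : P} (hx : x ∈ L) (hx' : x ∈ L') : L = L' :=
  Finset.Subset.antisymm (loop_sub hU hV hL hL'.2.1 hx hx') (loop_sub hU hV hL' hL.2.1 hx' hx)

theorem loop_exists {U V : P → P → Prop} (hU : IsMat U) (hV : IsMat V) {C : Finset P}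
    (hC : Cl U V C) {x : P} (hx : x ∈ C) : ∃ L, IsLoop U V L ∧ x ∈ L ∧ L ⊆ C := by
  classical
  induction C using Finset.strongInduction with
  | H C ih =>
    by_cases hm : IsLoop U V C
    · exact ⟨C, hm, hx, Finset.Subset.refl _⟩
    · have : ∃ C', C' ⊆ C ∧ C'.Nonempty ∧ Cl U V C' ∧ C' ≠ C := by
        by_contra hcon
        apply hm
        refine ⟨⟨x, hx⟩, hC, fun C' h1 h2 h3 => ?_⟩
        by_contra h4
        exact hcon ⟨C', h1, h2, h3, h4⟩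
      obtain ⟨C', h1, h2, h3, h4⟩ := this
      by_cases hx' : x ∈ C'
      · obtain ⟨L, hL, hxL, hLC⟩ := ih C' (Finset.ssubset_iff_subset_ne.mpr ⟨h1, h4⟩) h3 hx'
        exact ⟨L, hL, hxL, hLC.trans h1⟩
      · have hss : C \ C' ⊂ C := by
          refine Finset.ssubset_iff_subset_ne.mpr ⟨Finset.sdiff_subset, fun e => ?_⟩
          obtain ⟨y, hy⟩ := h2
          have := h1 hy
          rw [← e] at this
          exact (Finset.mem_sdiff.mp this).2 hy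
        obtain ⟨L, hL, hxL, hLC⟩ := ih (C \ C') hss (Cl_sdiff hU hV hC h3)
          (Finset.mem_sdiff.mpr ⟨hx, hx'⟩)
        exact ⟨L, hL, hxL, hLC.trans Finset.sdiff_subset⟩

theorem mem_loops {U V : P → P → Prop} {A C : Finset P} :
    C ∈ loops U V A ↔ C ⊆ A ∧ IsLoop U V C := by
  classical
  simp [loops]

/-- a family of loops all meeting `T` has at most `#T` members -/
theorem card_le_of_hit {U V : P → P → Prop} (hU : IsMat U) (hV : IsMat V)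
    {F : Finset (Finset P)} (hF : ∀ C ∈ F, IsLoop U V C) {T : Finset P}
    (hT : ∀ C ∈ F, ∃ x ∈ C, x ∈ T) : F.card ≤ T.card := by
  classical
  rcases F.eq_empty_or_nonempty with rfl | ⟨C0, hC0⟩
  · simp
  · obtain ⟨x0, _⟩ := hT C0 hC0
    have : Nonempty P := ⟨x0⟩
    choose! f hf hfT using hT
    refine Finset.card_le_card_of_injOn f (fun C hC => hfT C hC) ?_
    intro C hC C' hC' e
    exact loop_eq hU hV (hF C hC) (hF C' hC') (hf C hC) (e ▸ hf C' hC')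

theorem Cl_image [DecidableEq Q] {U V : P → P → Prop} {U' V' : Q → Q → Prop} {A : Finset P}
    {φ : P → Q} (hU : ∀ x ∈ A, ∀ y ∈ A, (U' (φ x) (φ y) ↔ U x y))
    (hV : ∀ x ∈ A, ∀ y ∈ A, (V' (φ x) (φ y) ↔ V x y)) {C : Finset P} (hC : C ⊆ A) :
    Cl U' V' (C.image φ) ↔ Cl U V C := by
  constructor
  · intro h x hx
    obtain ⟨⟨y, hy, hxy⟩, ⟨z, hz, hxz⟩⟩ := h (φ x) (Finset.mem_image_of_mem φ hx)
    obtain ⟨y, hy', rfl⟩ := Finset.mem_image.mp hy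
    obtain ⟨z, hz', rfl⟩ := Finset.mem_image.mp hz
    exact ⟨⟨y, hy', (hU x (hC hx) y (hC hy')).mp hxy⟩, ⟨z, hz', (hV x (hC hx) z (hC hz')).mp hxz⟩⟩
  · intro h x hx
    obtain ⟨x, hx', rfl⟩ := Finset.mem_image.mp hx
    obtain ⟨⟨y, hy, hxy⟩, ⟨z, hz, hxz⟩⟩ := h x hx'
    exact ⟨⟨φ y, Finset.mem_image_of_mem φ hy, (hU x (hC hx') y (hC hy)).mpr hxy⟩,
      ⟨φ z, Finset.mem_image_of_mem φ hz, (hV x (hC hx') z (hC hz)).mpr hxz⟩⟩

theorem image_inj_on [DecidableEq Q] {A : Finset P} {φ : P → Q} (hφ : Set.InjOn φ A)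
    {C C' : Finset P} (hC : C ⊆ A) (hC' : C' ⊆ A) (h : C.image φ = C'.image φ) : C = C' := by
  have key : ∀ {D D' : Finset P}, D ⊆ A → D' ⊆ A → D.image φ = D'.image φ → D ⊆ D' := by
    intro D D' hD hD' e x hx
    have h1 : φ x ∈ D'.image φ := by rw [← e]; exact Finset.mem_image_of_mem φ hx
    obtain ⟨y, hy, hxy⟩ := Finset.mem_image.mp h1
    have := hφ (Finset.mem_coe.mpr (hD' hy)) (Finset.mem_coe.mpr (hD hx)) hxy
    rw [← this]; exact hy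
  exact Finset.Subset.antisymm (key hC hC' h) (key hC' hC h.symm)

/-- loops are transported by maps that are injective on the ground set -/
theorem mem_loops_image [DecidableEq Q] {U V : P → P → Prop} {U' V' : Q → Q → Prop} {A : Finset P}
    {φ : P → Q} (hφ : Set.InjOn φ A) (hU : ∀ x ∈ A, ∀ y ∈ A, (U' (φ x) (φ y) ↔ U x y))
    (hV : ∀ x ∈ A, ∀ y ∈ A, (V' (φ x) (φ y) ↔ V x y)) {C : Finset P} (hC : C ⊆ A) :
    C.image φ ∈ loops U' V' (A.image φ) ↔ C ∈ loops U V A := by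
  rw [mem_loops, mem_loops]
  constructor
  · rintro ⟨_, h1, h2, h3⟩
    refine ⟨hC, Finset.image_nonempty.mp h1, (Cl_image hU hV hC).mp h2, ?_⟩
    intro C' hC' hne hcl
    have := h3 (C'.image φ) (Finset.image_subset_image hC') (hne.image φ)
      ((Cl_image hU hV (hC'.trans hC)).mpr hcl)
    exact image_inj_on hφ (hC'.trans hC) hC this
  · rintro ⟨_, h1, h2, h3⟩
    refine ⟨Finset.image_subset_image hC, h1.image φ, (Cl_image hU hV hC).mpr h2, ?_⟩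
    intro C'' hC'' hne hcl
    obtain ⟨C', hC', rfl⟩ := Finset.subset_image_iff.mp hC''
    have hC'C : C' ⊆ C := fun x hx => Finset.mem_coe.mp (hC' (Finset.mem_coe.mpr hx))
    rw [h3 C' hC'C (Finset.image_nonempty.mp hne) ((Cl_image hU hV (hC'C.trans hC)).mp hcl)]

/-- same with a property of loops that is transported -/
theorem card_loops_filter_image [DecidableEq Q] {U V : P → P → Prop} {U' V' : Q → Q → Prop}
    {A : Finset P} {φ : P → Q} (hφ : Set.InjOn φ A)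
    (hU : ∀ x ∈ A, ∀ y ∈ A, (U' (φ x) (φ y) ↔ U x y))
    (hV : ∀ x ∈ A, ∀ y ∈ A, (V' (φ x) (φ y) ↔ V x y)) (p : Finset P → Prop) (q : Finset Q → Prop)
    [DecidablePred p] [DecidablePred q] (hpq : ∀ C ⊆ A, (q (C.image φ) ↔ p C)) :
    ((loops U' V' (A.image φ)).filter q).card = ((loops U V A).filter p).card := by
  symm
  refine Finset.card_bij (fun C _ => C.image φ) ?_ ?_ ?_
  · intro C hC
    obtain ⟨h1, h2⟩ := Finset.mem_filter.mp hC
    have hCA := (mem_loops.mp h1).1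
    exact Finset.mem_filter.mpr ⟨(mem_loops_image hφ hU hV hCA).mpr h1, (hpq C hCA).mpr h2⟩
  · intro C hC C' hC' e
    exact image_inj_on hφ (mem_loops.mp (Finset.mem_filter.mp hC).1).1
      (mem_loops.mp (Finset.mem_filter.mp hC').1).1 e
  · intro D hD
    obtain ⟨h1, h2⟩ := Finset.mem_filter.mp hD
    obtain ⟨C, hC, rfl⟩ := Finset.subset_image_iff.mp (mem_loops.mp h1).1
    have hCA : C ⊆ A := fun x hx => Finset.mem_coe.mp (hC (Finset.mem_coe.mpr hx))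
    exact ⟨C, Finset.mem_filter.mpr ⟨(mem_loops_image hφ hU hV hCA).mp h1, (hpq C hCA).mp h2⟩, rfl⟩

theorem card_loops_image [DecidableEq Q] {U V : P → P → Prop} {U' V' : Q → Q → Prop} {A : Finset P}
    {φ : P → Q} (hφ : Set.InjOn φ A) (hU : ∀ x ∈ A, ∀ y ∈ A, (U' (φ x) (φ y) ↔ U x y))
    (hV : ∀ x ∈ A, ∀ y ∈ A, (V' (φ x) (φ y) ↔ V x y)) :
    (loops U' V' (A.image φ)).card = (loops U V A).card := by
  have := card_loops_filter_image hφ hU hV (fun _ => True) (fun _ => True) (fun _ _ => Iff.rfl)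
  simpa using this

theorem isLoop_noglue {U0 U1 V0 V1 : P → P → Prop} (hU : IsMat (Or2 U0 U1)) (hV : IsMat (Or2 V0 V1))
    (hdU : ∀ x y, ¬ (U0 x y ∧ U1 x y)) (hdV : ∀ x y, ¬ (V0 x y ∧ V1 x y)) (C : Finset P) :
    (IsLoop (Or2 U0 U1) (Or2 V0 V1) C ∧ ¬ (Has U1 C ∨ Has V1 C)) ↔ IsLoop U0 V0 C := by
  constructor
  · rintro ⟨⟨h1, h2, h3⟩, h4⟩
    refine ⟨h1, ?_, ?_⟩
    · intro x hx
      obtain ⟨⟨y, hy, hxy⟩, ⟨z, hz, hxz⟩⟩ := h2 x hx
      refine ⟨⟨y, hy, ?_⟩, ⟨z, hz, ?_⟩⟩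
      · rcases hxy with h | h
        · exact h
        · exact absurd (Or.inl ⟨x, hx, y, hy, h⟩) h4
      · rcases hxz with h | h
        · exact h
        · exact absurd (Or.inr ⟨x, hx, z, hz, h⟩) h4
    · intro C' hC' hne hcl
      refine h3 C' hC' hne (fun x hx => ?_)
      obtain ⟨⟨y, hy, hxy⟩, ⟨z, hz, hxz⟩⟩ := hcl x hx
      exact ⟨⟨y, hy, Or.inl hxy⟩, ⟨z, hz, Or.inl hxz⟩⟩
  · rintro ⟨h1, h2, h3⟩
    refine ⟨⟨h1, ?_, ?_⟩, ?_⟩
    · intro x hx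
      obtain ⟨⟨y, hy, hxy⟩, ⟨z, hz, hxz⟩⟩ := h2 x hx
      exact ⟨⟨y, hy, Or.inl hxy⟩, ⟨z, hz, Or.inl hxz⟩⟩
    · intro C' hC' hne hcl
      refine h3 C' hC' hne (fun x hx => ?_)
      obtain ⟨⟨y, hy, hxy⟩, ⟨z, hz, hxz⟩⟩ := hcl x hx
      obtain ⟨⟨y', hy', hxy'⟩, ⟨z', hz', hxz'⟩⟩ := h2 x (hC' hx)
      have e1 := hU.func hxy (Or.inl hxy' : Or2 U0 U1 x y')
      have e2 := hV.func hxz (Or.inl hxz' : Or2 V0 V1 x z')
      subst e1 e2
      exact ⟨⟨y, hy, hxy'⟩, ⟨z, hz, hxz'⟩⟩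
    · rintro (⟨x, hx, y, hy, hxy⟩ | ⟨x, hx, y, hy, hxy⟩)
      · obtain ⟨⟨y', hy', hxy'⟩, _⟩ := h2 x hx
        have e1 := hU.func (Or.inr hxy : Or2 U0 U1 x y) (Or.inl hxy' : Or2 U0 U1 x y')
        subst e1
        exact hdU _ _ ⟨hxy', hxy⟩
      · obtain ⟨_, ⟨y', hy', hxy'⟩⟩ := h2 x hx
        have e1 := hV.func (Or.inr hxy : Or2 V0 V1 x y) (Or.inl hxy' : Or2 V0 V1 x y')
        subst e1
        exact hdV _ _ ⟨hxy', hxy⟩

open Classical in
/-- loops without glue arcs are the loops of the unglued structure -/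
theorem loops_noglue {U0 U1 V0 V1 : P → P → Prop} (hU : IsMat (Or2 U0 U1)) (hV : IsMat (Or2 V0 V1))
    (hdU : ∀ x y, ¬ (U0 x y ∧ U1 x y)) (hdV : ∀ x y, ¬ (V0 x y ∧ V1 x y)) (A : Finset P) :
    (loops (Or2 U0 U1) (Or2 V0 V1) A).filter (fun C => ¬ (Has U1 C ∨ Has V1 C)) =
      loops U0 V0 A := by
  ext C
  rw [Finset.mem_filter, mem_loops, mem_loops, and_assoc,
    isLoop_noglue hU hV hdU hdV]

/-- number of loops = loops of the unglued structure + loops with a glue arc -/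
theorem card_loops_glue {U0 U1 V0 V1 : P → P → Prop} (hU : IsMat (Or2 U0 U1))
    (hV : IsMat (Or2 V0 V1)) (hdU : ∀ x y, ¬ (U0 x y ∧ U1 x y)) (hdV : ∀ x y, ¬ (V0 x y ∧ V1 x y))
    (A : Finset P) [DecidablePred (fun C : Finset P => Has U1 C ∨ Has V1 C)] :
    (loops (Or2 U0 U1) (Or2 V0 V1) A).card = (loops U0 V0 A).card +
      ((loops (Or2 U0 U1) (Or2 V0 V1) A).filter (fun C => Has U1 C ∨ Has V1 C)).card := by
  classical
  rw [← loops_noglue hU hV hdU hdV A, add_comm]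
  rw [← Finset.card_filter_add_card_filter_not (s := loops (Or2 U0 U1) (Or2 V0 V1) A)
    (fun C => Has U1 C ∨ Has V1 C)]
  refine congrArg₂ (· + ·) rfl (congrArg Finset.card ?_)
  ext C
  simp only [Finset.mem_filter]

end MeanderCLT
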