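import Pool.Agent.H98.M.Rec
import Pool.Agent.H98.M.Loops

/-!
# The block lemma (abstract ground set, blocks are star words)
-/

namespace MeanderCLT

/-- `t` disjoint pairs of star words `v j`, `w j` embedded by `lam j`, `rho j` in a structure with
inner arcs `U0`, `V0` and glue arcs `U1` (above), `V1` (below) -/
structure Blocks {P : Type*} (U0 U1 V0 V1 : P → P → Prop) (A : Finset P) (n t : ℕ)
    (v w : Fin t → Wd) (lam rho : Fin t → ℕ → P) : Prop where
  matU : IsMat (Or2 U0 U1)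
  matV : IsMat (Or2 V0 V1)
  symU0 : ∀ x y, U0 x y → U0 y x
  symU1 : ∀ x y, U1 x y → U1 y x
  symV0 : ∀ x y, V0 x y → V0 y x
  symV1 : ∀ x y, V1 x y → V1 y x
  disU : ∀ x y, ¬ (U0 x y ∧ U1 x y)
  disV : ∀ x y, ¬ (V0 x y ∧ V1 x y)
  star_v : ∀ j, Star n (v j)
  star_w : ∀ j, Star n (w j)
  mem_v : ∀ j i, i < (v j).length → lam j i ∈ A
  mem_w : ∀ j i, i < (w j).length → rho j i ∈ A
  inj_v : ∀ j j' i i', i < (v j).length → i' < (v j').length → lam j i = lam j' i' → j = j' ∧ i = i'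
  inj_w : ∀ j j' i i', i < (w j).length → i' < (w j').length → rho j i = rho j' i' → j = j' ∧ i = i'
  inj_vw : ∀ j j' i i', i < (v j).length → i' < (w j').length → lam j i ≠ rho j' i'
  U0_v : ∀ j i i', i < (v j).length → i' < (v j).length →
    (U0 (lam j i) (lam j i') ↔ Arc (up (v j)) i i')
  V0_v : ∀ j i i', i < (v j).length → i' < (v j).length →
    (V0 (lam j i) (lam j i') ↔ Arc (lo (v j)) i i')
  U0_w : ∀ j i i', i < (w j).length → i' < (w j).length →
    (U0 (rho j i) (rho j i') ↔ Arc (up (w j)) i i')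
  V0_w : ∀ j i i', i < (w j).length → i' < (w j).length →
    (V0 (rho j i) (rho j i') ↔ Arc (lo (w j)) i i')
  U1_vw : ∀ j i i', i < (v j).length → i' < (w j).length →
    (U1 (lam j i) (rho j i') ↔ ∃ k, rc (up (v j)) i k ∧ rc (up (w j)) i' k)

section BlockAux

variable {P : Type*} {U0 U1 V0 V1 : P → P → Prop} {A : Finset P} {n t : ℕ}
    {v w : Fin t → Wd} {lam rho : Fin t → ℕ → P}

/-- the embedding of block `j` -/
def bphi (lam rho : Fin t → ℕ → P) (j : Fin t) : ℕ ⊕ ℕ → P := Sum.elim (lam j) (rho j)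

/-- upper arcs of a block -/
def bU (v w : Wd) : ℕ ⊕ ℕ → ℕ ⊕ ℕ → Prop := Or2 (dj (up v) (up w)) (gj (up v) (up w))

/-- lower arcs of a block -/
def bV (v w : Wd) : ℕ ⊕ ℕ → ℕ ⊕ ℕ → Prop := dj (lo v) (lo w)

theorem blk_inl_mem {v w : Wd} {i : ℕ} : (Sum.inl i : ℕ ⊕ ℕ) ∈ pts v w ↔ i < v.length := by
  simp [pts]

theorem blk_inr_mem {v w : Wd} {i : ℕ} : (Sum.inr i : ℕ ⊕ ℕ) ∈ pts v w ↔ i < w.length := by
  simp [pts]

theorem blk_mem (h : Blocks U0 U1 V0 V1 A n t v w lam rho) (j : Fin t) {a : ℕ ⊕ ℕ}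
    (ha : a ∈ pts (v j) (w j)) : bphi lam rho j a ∈ A := by
  rcases a with a | a
  · exact h.mem_v j a (blk_inl_mem.mp ha)
  · exact h.mem_w j a (blk_inr_mem.mp ha)

theorem blk_inj (h : Blocks U0 U1 V0 V1 A n t v w lam rho) {j j' : Fin t} {a b : ℕ ⊕ ℕ}
    (ha : a ∈ pts (v j) (w j)) (hb : b ∈ pts (v j') (w j'))
    (e : bphi lam rho j a = bphi lam rho j' b) : j = j' ∧ a = b := by
  rcases a with a | a <;> rcases b with b | b
  · obtain ⟨h1, h2⟩ := h.inj_v j j' a b (blk_inl_mem.mp ha) (blk_inl_mem.mp hb) e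
    exact ⟨h1, by rw [h2]⟩
  · exact (h.inj_vw j j' a b (blk_inl_mem.mp ha) (blk_inr_mem.mp hb) e).elim
  · exact (h.inj_vw j' j b a (blk_inl_mem.mp hb) (blk_inr_mem.mp ha) e.symm).elim
  · obtain ⟨h1, h2⟩ := h.inj_w j j' a b (blk_inr_mem.mp ha) (blk_inr_mem.mp hb) e
    exact ⟨h1, by rw [h2]⟩

theorem blk_U0 (h : Blocks U0 U1 V0 V1 A n t v w lam rho) (j : Fin t) {a b : ℕ ⊕ ℕ}
    (hab : dj (up (v j)) (up (w j)) a b) : U0 (bphi lam rho j a) (bphi lam rho j b) := by
  rcases a with a | a <;> rcases b with b | b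
  · obtain ⟨h1, h2⟩ := Arc_lt hab
    rw [length_up] at h1 h2
    exact (h.U0_v j a b h1 h2).mpr hab
  · exact hab.elim
  · exact hab.elim
  · obtain ⟨h1, h2⟩ := Arc_lt hab
    rw [length_up] at h1 h2
    exact (h.U0_w j a b h1 h2).mpr hab

theorem blk_V0 (h : Blocks U0 U1 V0 V1 A n t v w lam rho) (j : Fin t) {a b : ℕ ⊕ ℕ}
    (hab : bV (v j) (w j) a b) : V0 (bphi lam rho j a) (bphi lam rho j b) := by
  rcases a with a | a <;> rcases b with b | b
  · obtain ⟨h1, h2⟩ := Arc_lt hab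
    rw [length_lo] at h1 h2
    exact (h.V0_v j a b h1 h2).mpr hab
  · exact hab.elim
  · exact hab.elim
  · obtain ⟨h1, h2⟩ := Arc_lt hab
    rw [length_lo] at h1 h2
    exact (h.V0_w j a b h1 h2).mpr hab

theorem blk_U1 (h : Blocks U0 U1 V0 V1 A n t v w lam rho) (j : Fin t) {a b : ℕ ⊕ ℕ}
    (hab : gj (up (v j)) (up (w j)) a b) : U1 (bphi lam rho j a) (bphi lam rho j b) := by
  rcases a with a | a <;> rcases b with b | b
  · exact hab.elim
  · obtain ⟨k, h1, h2⟩ := hab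
    refine (h.U1_vw j a b ?_ ?_).mpr ⟨k, h1, h2⟩
    · rw [← length_up]; exact h1.1
    · rw [← length_up]; exact h2.1
  · obtain ⟨k, h1, h2⟩ := hab
    apply h.symU1
    refine (h.U1_vw j b a ?_ ?_).mpr ⟨k, h1, h2⟩
    · rw [← length_up]; exact h1.1
    · rw [← length_up]; exact h2.1
  · exact hab.elim

theorem blk_U (h : Blocks U0 U1 V0 V1 A n t v w lam rho) (j : Fin t) {a b : ℕ ⊕ ℕ}
    (hab : bU (v j) (w j) a b) : Or2 U0 U1 (bphi lam rho j a) (bphi lam rho j b) := by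
  rcases hab with hab | hab
  · exact Or.inl (blk_U0 h j hab)
  · exact Or.inr (blk_U1 h j hab)

theorem blk_V (h : Blocks U0 U1 V0 V1 A n t v w lam rho) (j : Fin t) {a b : ℕ ⊕ ℕ}
    (hab : bV (v j) (w j) a b) : Or2 V0 V1 (bphi lam rho j a) (bphi lam rho j b) :=
  Or.inl (blk_V0 h j hab)

open Classical in
theorem blk_Cl (h : Blocks U0 U1 V0 V1 A n t v w lam rho) (j : Fin t) {C : Finset (ℕ ⊕ ℕ)}
    (hC : Cl (bU (v j) (w j)) (bV (v j) (w j)) C) :
    Cl (Or2 U0 U1) (Or2 V0 V1) (C.image (bphi lam rho j)) := by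
  intro x hx
  obtain ⟨a, ha, rfl⟩ := Finset.mem_image.mp hx
  obtain ⟨⟨b, hb, hab⟩, ⟨c, hc, hac⟩⟩ := hC a ha
  exact ⟨⟨_, Finset.mem_image_of_mem _ hb, blk_U h j hab⟩,
    ⟨_, Finset.mem_image_of_mem _ hc, blk_V h j hac⟩⟩

open Classical in
theorem blk_push (h : Blocks U0 U1 V0 V1 A n t v w lam rho) (j : Fin t) {C : Finset (ℕ ⊕ ℕ)}
    (hC : C ∈ loops (bU (v j) (w j)) (bV (v j) (w j)) (pts (v j) (w j))) :
    C.image (bphi lam rho j) ∈ loops (Or2 U0 U1) (Or2 V0 V1) A := by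
  rw [mem_loops] at hC ⊢
  obtain ⟨hCA, hne, hcl, hmin⟩ := hC
  refine ⟨?_, hne.image _, blk_Cl h j hcl, ?_⟩
  · intro x hx
    obtain ⟨a, ha, rfl⟩ := Finset.mem_image.mp hx
    exact blk_mem h j (hCA ha)
  · intro C' hC' hne' hcl'
    apply Finset.Subset.antisymm hC'
    have key : C.filter (fun a => bphi lam rho j a ∈ C') = C := by
      apply hmin _ (Finset.filter_subset _ _)
      · obtain ⟨x, hx⟩ := hne'
        obtain ⟨a, ha, rfl⟩ := Finset.mem_image.mp (hC' hx)
        exact ⟨a, Finset.mem_filter.mpr ⟨ha, hx⟩⟩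
      · intro a ha
        obtain ⟨ha1, ha2⟩ := Finset.mem_filter.mp ha
        obtain ⟨⟨b, hb, hab⟩, ⟨c, hc, hac⟩⟩ := hcl a ha1
        obtain ⟨⟨y, hy, hay⟩, ⟨z, hz, haz⟩⟩ := hcl' _ ha2
        have e1 : y = bphi lam rho j b := h.matU.func hay (blk_U h j hab)
        have e2 : z = bphi lam rho j c := h.matV.func haz (blk_V h j hac)
        rw [e1] at hy
        rw [e2] at hz
        exact ⟨⟨b, Finset.mem_filter.mpr ⟨hb, hy⟩, hab⟩, ⟨c, Finset.mem_filter.mpr ⟨hc, hz⟩, hac⟩⟩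
    intro x hx
    obtain ⟨a, ha, rfl⟩ := Finset.mem_image.mp hx
    rw [← key] at ha
    exact (Finset.mem_filter.mp ha).2

open Classical in
theorem blk_noV1 (h : Blocks U0 U1 V0 V1 A n t v w lam rho) (j : Fin t) {C : Finset (ℕ ⊕ ℕ)}
    (hcl : Cl (bU (v j) (w j)) (bV (v j) (w j)) C) :
    ¬ Has V1 (C.image (bphi lam rho j)) := by
  rintro ⟨x, hx, y, hy, hxy⟩
  obtain ⟨a, ha, rfl⟩ := Finset.mem_image.mp hx
  obtain ⟨-, ⟨c, hc, hac⟩⟩ := hcl a ha
  have e : y = bphi lam rho j c := h.matV.func (Or.inr hxy) (blk_V h j hac)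
  rw [e] at hxy
  exact h.disV _ _ ⟨blk_V0 h j hac, hxy⟩

open Classical in
/-- the loops of block `j` with a glue arc, transported -/
noncomputable def blkF (v w : Fin t → Wd) (lam rho : Fin t → ℕ → P) (j : Fin t) :
    Finset (Finset P) :=
  ((loops (bU (v j) (w j)) (bV (v j) (w j)) (pts (v j) (w j))).filter
    (fun C => Has (gj (up (v j)) (up (w j))) C)).image (fun C => C.image (bphi lam rho j))

open Classical in
theorem card_blkF (h : Blocks U0 U1 V0 V1 A n t v w lam rho) (j : Fin t) :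
    (blkF v w lam rho j).card = NN (v j) (w j) := by
  unfold blkF NN
  rw [Finset.card_image_of_injOn]
  · rfl
  · intro C hC C' hC' e
    have h1 : C ⊆ pts (v j) (w j) := (mem_loops.mp (Finset.mem_filter.mp hC).1).1
    have h2 : C' ⊆ pts (v j) (w j) := (mem_loops.mp (Finset.mem_filter.mp hC').1).1
    have aux : ∀ D D' : Finset (ℕ ⊕ ℕ), D ⊆ pts (v j) (w j) → D' ⊆ pts (v j) (w j) →
        D.image (bphi lam rho j) = D'.image (bphi lam rho j) → D ⊆ D' := by
      intro D D' hD hD' e a ha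
      have : bphi lam rho j a ∈ D'.image (bphi lam rho j) := by
        rw [← e]; exact Finset.mem_image_of_mem _ ha
      obtain ⟨b, hb, e'⟩ := Finset.mem_image.mp this
      obtain ⟨-, e2⟩ := blk_inj h (hD' hb) (hD ha) e'
      rw [← e2]; exact hb
    exact Finset.Subset.antisymm (aux C C' h1 h2 e) (aux C' C h2 h1 e.symm)

open Classical in
theorem blkF_disj (h : Blocks U0 U1 V0 V1 A n t v w lam rho) {j j' : Fin t} (hj : j ≠ j') :
    Disjoint (blkF v w lam rho j) (blkF v w lam rho j') := by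
  rw [Finset.disjoint_left]
  intro X hX hX'
  obtain ⟨C, hC, rfl⟩ := Finset.mem_image.mp hX
  obtain ⟨C', hC', e⟩ := Finset.mem_image.mp hX'
  obtain ⟨h1, h2⟩ := mem_loops.mp (Finset.mem_filter.mp hC).1
  obtain ⟨h1', -⟩ := mem_loops.mp (Finset.mem_filter.mp hC').1
  obtain ⟨a, ha⟩ := h2.1
  have : bphi lam rho j a ∈ C'.image (bphi lam rho j') := by
    have e' : C'.image (bphi lam rho j') = C.image (bphi lam rho j) := e
    rw [e']; exact Finset.mem_image_of_mem _ ha
  obtain ⟨b, hb, e'⟩ := Finset.mem_image.mp this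
  exact hj (blk_inj h (h1' hb) (h1 ha) e').1.symm

open Classical in
theorem blkF_sub (h : Blocks U0 U1 V0 V1 A n t v w lam rho) (j : Fin t) :
    blkF v w lam rho j ⊆
      (loops (Or2 U0 U1) (Or2 V0 V1) A).filter (fun C => Has U1 C ∧ ¬ Has V1 C) := by
  intro X hX
  obtain ⟨C, hC, rfl⟩ := Finset.mem_image.mp hX
  obtain ⟨h1, h2⟩ := Finset.mem_filter.mp hC
  refine Finset.mem_filter.mpr ⟨blk_push h j h1, ?_, blk_noV1 h j (mem_loops.mp h1).2.2.1⟩
  obtain ⟨x, hx, y, hy, hxy⟩ := h2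
  exact ⟨_, Finset.mem_image_of_mem _ hx, _, Finset.mem_image_of_mem _ hy, blk_U1 h j hxy⟩

end BlockAux

open Classical in
/-- lower bound: loops inside the blocks -/
theorem block_lower {P : Type*} {U0 U1 V0 V1 : P → P → Prop} {A : Finset P} {n t : ℕ}
    {v w : Fin t → Wd} {lam rho : Fin t → ℕ → P} (h : Blocks U0 U1 V0 V1 A n t v w lam rho) :
    ∑ j, NN (v j) (w j) ≤
      ((loops (Or2 U0 U1) (Or2 V0 V1) A).filter (fun C => Has U1 C ∧ ¬ Has V1 C)).card := by
  have e : ∑ j, NN (v j) (w j) = (Finset.univ.biUnion (blkF v w lam rho)).card := by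
    rw [Finset.card_biUnion (fun i _ j _ hij => blkF_disj h hij)]
    exact Finset.sum_congr rfl fun j _ => (card_blkF h j).symm
  rw [e]
  apply Finset.card_le_card
  intro X hX
  obtain ⟨j, -, hj⟩ := Finset.mem_biUnion.mp hX
  exact blkF_sub h j hj

section BlockAux2

variable {P : Type*} {U0 U1 V0 V1 : P → P → Prop} {A : Finset P} {n t : ℕ}
    {v w : Fin t → Wd} {lam rho : Fin t → ℕ → P}

theorem blk_star {n : ℕ} {x : Wd} (hx : Star n x) {i : ℕ} (hi : ufree (up x) i) :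
    ∃ k < n, rc (up x) i k := by
  have hs := star_iff.mp hx
  rcases hb : (up x)[i]'hi.1 with _ | _
  · have : (up x)[i]? = some false := by rw [List.getElem?_eq_getElem hi.1, hb]
    obtain ⟨k, hk⟩ := ufree_false hi this
    exact ⟨k, by rw [← hs.1]; exact rc_lt hk, hk⟩
  · have : (up x)[i]? = some true := by rw [List.getElem?_eq_getElem hi.1, hb]
    obtain ⟨k, hk⟩ := ufree_true hi this
    have := rc_lt hk
    rw [uc_mir, hs.2] at this
    omega

/-- the good points of a block -/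
def bgood (v w : Wd) : ℕ ⊕ ℕ → Prop := Sum.elim (good v) (good w)

theorem good_lt {x : Wd} {i : ℕ} (h : good x i) : i < x.length := by
  obtain ⟨S, h1, h2, -⟩ := h
  exact Finset.mem_range.mp (h2 h1)

theorem good_up {x : Wd} {i k : ℕ} (h : good x i) (hk : Arc (up x) i k) : good x k := by
  obtain ⟨S, h1, h2, h3, h4⟩ := h
  exact ⟨S, h3 i h1 k hk, h2, h3, h4⟩

theorem good_lo {x : Wd} {i : ℕ} (h : good x i) : ∃ k, good x k ∧ Arc (lo x) i k := by
  obtain ⟨S, h1, h2, h3, h4⟩ := h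
  obtain ⟨k, hk, hk'⟩ := h4 i h1
  exact ⟨k, ⟨S, hk, h2, h3, h4⟩, hk'⟩

theorem bgood_mem {v w : Wd} {a : ℕ ⊕ ℕ} (h : bgood v w a) : a ∈ pts v w := by
  rcases a with a | a
  · exact blk_inl_mem.mpr (good_lt h)
  · exact blk_inr_mem.mpr (good_lt h)

theorem bgood_lo {v w : Wd} {a : ℕ ⊕ ℕ} (h : bgood v w a) : ∃ b, bgood v w b ∧ bV v w a b := by
  rcases a with a | a
  · obtain ⟨b, hb, hab⟩ := good_lo h
    exact ⟨Sum.inl b, hb, hab⟩
  · obtain ⟨b, hb, hab⟩ := good_lo h
    exact ⟨Sum.inr b, hb, hab⟩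

/-- one upper step from a good point -/
theorem bgood_up (h : Blocks U0 U1 V0 V1 A n t v w lam rho) (j : Fin t) {C : Finset P}
    (hC : Cl (Or2 U0 U1) (Or2 V0 V1) C)
    (gv : ∀ i, i < (v j).length → lam j i ∈ C → ufree (up (v j)) i → good (v j) i)
    (gw : ∀ i, i < (w j).length → rho j i ∈ C → ufree (up (w j)) i → good (w j) i)
    {a : ℕ ⊕ ℕ} (ha : bgood (v j) (w j) a) (haC : bphi lam rho j a ∈ C) :
    ∃ b, bgood (v j) (w j) b ∧ bU (v j) (w j) a b ∧ bphi lam rho j b ∈ C := by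
  obtain ⟨⟨z, hz, haz⟩, -⟩ := hC _ haC
  have fin : ∀ b, bU (v j) (w j) a b → bphi lam rho j b ∈ C := by
    intro b hb
    rw [← h.matU.func haz (blk_U h j hb)]
    exact hz
  rcases a with a | a
  · by_cases hf : ∃ b, Arc (up (v j)) a b
    · obtain ⟨b, hb⟩ := hf
      exact ⟨Sum.inl b, good_up (x := v j) ha hb, Or.inl hb, fin (Sum.inl b) (Or.inl hb)⟩
    · push Not at hf
      have hfr : ufree (up (v j)) a := ⟨by rw [length_up]; exact good_lt (x := v j) ha, hf⟩
      obtain ⟨k, hk, hk'⟩ := blk_star (h.star_v j) hfr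
      obtain ⟨b, hb⟩ := rc_exists (s := up (w j)) (k := k)
        (by rw [(star_iff.mp (h.star_w j)).1]; exact hk)
      have hab : bU (v j) (w j) (Sum.inl a) (Sum.inr b) := Or.inr ⟨k, hk', hb⟩
      have hbC := fin _ hab
      refine ⟨Sum.inr b, ?_, hab, hbC⟩
      exact gw b (by rw [← length_up]; exact hb.1) hbC (rc_ufree hb)
  · by_cases hf : ∃ b, Arc (up (w j)) a b
    · obtain ⟨b, hb⟩ := hf
      exact ⟨Sum.inr b, good_up (x := w j) ha hb, Or.inl hb, fin (Sum.inr b) (Or.inl hb)⟩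
    · push Not at hf
      have hfr : ufree (up (w j)) a := ⟨by rw [length_up]; exact good_lt (x := w j) ha, hf⟩
      obtain ⟨k, hk, hk'⟩ := blk_star (h.star_w j) hfr
      obtain ⟨b, hb⟩ := rc_exists (s := up (v j)) (k := k)
        (by rw [(star_iff.mp (h.star_v j)).1]; exact hk)
      have hab : bU (v j) (w j) (Sum.inr a) (Sum.inl b) := Or.inr ⟨k, hb, hk'⟩
      have hbC := fin _ hab
      refine ⟨Sum.inl b, ?_, hab, hbC⟩
      exact gv b (by rw [← length_up]; exact hb.1) hbC (rc_ufree hb)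

open Classical in
theorem blk_key (h : Blocks U0 U1 V0 V1 A n t v w lam rho) (j : Fin t) {C : Finset P}
    (hC : IsLoop (Or2 U0 U1) (Or2 V0 V1) C)
    (gv : ∀ i, i < (v j).length → lam j i ∈ C → ufree (up (v j)) i → good (v j) i)
    (gw : ∀ i, i < (w j).length → rho j i ∈ C → ufree (up (w j)) i → good (w j) i)
    {i i' : ℕ} (hi : i < (v j).length) (hi' : i' < (w j).length) (hx : lam j i ∈ C)
    (hy : rho j i' ∈ C) (hxy : U1 (lam j i) (rho j i')) : C ∈ blkF v w lam rho j := by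
  obtain ⟨hne, hcl, hmin⟩ := hC
  obtain ⟨k, hk1, hk2⟩ := (h.U1_vw j i i' hi hi').mp hxy
  -- the good part of `C` is all of `C`
  have hQ : C.filter (fun x => ∃ a, bgood (v j) (w j) a ∧ bphi lam rho j a = x) = C := by
    apply hmin _ (Finset.filter_subset _ _)
    · exact ⟨lam j i, Finset.mem_filter.mpr ⟨hx, Sum.inl i, gv i hi hx (rc_ufree hk1), rfl⟩⟩
    · intro x hx
      obtain ⟨hxC, a, ha, rfl⟩ := Finset.mem_filter.mp hx
      constructor
      · obtain ⟨b, hb, hab, hbC⟩ := bgood_up h j hcl gv gw ha hxC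
        exact ⟨_, Finset.mem_filter.mpr ⟨hbC, b, hb, rfl⟩, blk_U h j hab⟩
      · obtain ⟨b, hb, hab⟩ := bgood_lo ha
        obtain ⟨-, ⟨z, hz, haz⟩⟩ := hcl _ hxC
        have e : z = bphi lam rho j b := h.matV.func haz (blk_V h j hab)
        rw [e] at hz
        exact ⟨_, Finset.mem_filter.mpr ⟨hz, b, hb, rfl⟩, blk_V h j hab⟩
  have hQ' : ∀ x ∈ C, ∃ a, bgood (v j) (w j) a ∧ bphi lam rho j a = x := by
    intro x hx
    rw [← hQ] at hx
    exact (Finset.mem_filter.mp hx).2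
  -- pull back
  set C0 : Finset (ℕ ⊕ ℕ) := (pts (v j) (w j)).filter (fun a => bphi lam rho j a ∈ C) with hC0
  have him : C0.image (bphi lam rho j) = C := by
    ext x
    constructor
    · intro hx
      obtain ⟨a, ha, rfl⟩ := Finset.mem_image.mp hx
      exact (Finset.mem_filter.mp ha).2
    · intro hx
      obtain ⟨a, ha, rfl⟩ := hQ' x hx
      exact Finset.mem_image_of_mem _ (Finset.mem_filter.mpr ⟨bgood_mem ha, hx⟩)
  have hgd : ∀ a ∈ C0, bgood (v j) (w j) a := by
    intro a ha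
    obtain ⟨h1, h2⟩ := Finset.mem_filter.mp ha
    obtain ⟨b, hb, e⟩ := hQ' _ h2
    rw [← (blk_inj h (bgood_mem hb) h1 e).2]
    exact hb
  have hloop : IsLoop (bU (v j) (w j)) (bV (v j) (w j)) C0 := by
    refine ⟨?_, ?_, ?_⟩
    · by_contra hcon
      rw [Finset.not_nonempty_iff_eq_empty] at hcon
      rw [hcon, Finset.image_empty] at him
      rw [← him] at hne
      exact Finset.not_nonempty_empty hne
    · intro a ha
      have haC := (Finset.mem_filter.mp ha).2
      constructor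
      · obtain ⟨b, hb, hab, hbC⟩ := bgood_up h j hcl gv gw (hgd a ha) haC
        exact ⟨b, Finset.mem_filter.mpr ⟨bgood_mem hb, hbC⟩, hab⟩
      · obtain ⟨b, hb, hab⟩ := bgood_lo (hgd a ha)
        obtain ⟨-, ⟨z, hz, haz⟩⟩ := hcl _ haC
        have e : z = bphi lam rho j b := h.matV.func haz (blk_V h j hab)
        rw [e] at hz
        exact ⟨b, Finset.mem_filter.mpr ⟨bgood_mem hb, hz⟩, hab⟩
    · intro C1 hC1 hne1 hcl1
      have e1 : C1.image (bphi lam rho j) = C := by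
        apply hmin _ _ (hne1.image _) (blk_Cl h j hcl1)
        rw [← him]
        exact Finset.image_subset_image hC1
      apply Finset.Subset.antisymm hC1
      intro a ha
      obtain ⟨h1, h2⟩ := Finset.mem_filter.mp ha
      rw [← e1] at h2
      obtain ⟨b, hb, e⟩ := Finset.mem_image.mp h2
      have hb' := (Finset.mem_filter.mp (hC1 hb)).1
      rw [← (blk_inj h hb' h1 e).2]
      exact hb
  refine Finset.mem_image.mpr ⟨C0, Finset.mem_filter.mpr
    ⟨mem_loops.mpr ⟨Finset.filter_subset _ _, hloop⟩, ?_⟩, him⟩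
  refine ⟨Sum.inl i, Finset.mem_filter.mpr ⟨blk_inl_mem.mpr hi, hx⟩, Sum.inr i',
    Finset.mem_filter.mpr ⟨blk_inr_mem.mpr hi', hy⟩, k, hk1, hk2⟩

open Classical in
/-- the bad stars of a word -/
noncomputable def bbad (x : Wd) : Finset ℕ :=
  (Finset.range x.length).filter (fun i => ufree (up x) i ∧ ¬ good x i)

open Classical in
theorem card_bbad (x : Wd) : (bbad x).card = XX x := rfl

end BlockAux2

open Classical in
/-- upper bound: other loops contain a bad star or a glue arc outside the blocks -/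
theorem block_upper {P : Type*} {U0 U1 V0 V1 : P → P → Prop} {A : Finset P} {n t : ℕ}
    {v w : Fin t → Wd} {lam rho : Fin t → ℕ → P} (h : Blocks U0 U1 V0 V1 A n t v w lam rho)
    (T : Finset P) (hT : ∀ x ∈ A, ∀ y ∈ A, U1 x y → x ∈ T ∨ y ∈ T ∨
      ∃ j i i', i < (v j).length ∧ i' < (w j).length ∧
        ((x = lam j i ∧ y = rho j i') ∨ (y = lam j i ∧ x = rho j i'))) :
    ((loops (Or2 U0 U1) (Or2 V0 V1) A).filter (fun C => Has U1 C)).card ≤
      ∑ j, NN (v j) (w j) + ∑ j, (XX (v j) + XX (w j)) + T.card := by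
  set F := (loops (Or2 U0 U1) (Or2 V0 V1) A).filter (fun C => Has U1 C) with hF
  set G := Finset.univ.biUnion (blkF v w lam rho) with hG
  set B : Finset P := Finset.univ.biUnion
    (fun j => (bbad (v j)).image (lam j) ∪ (bbad (w j)).image (rho j)) with hB
  have cG : G.card = ∑ j, NN (v j) (w j) := by
    rw [hG, Finset.card_biUnion (fun i _ j _ hij => blkF_disj h hij)]
    exact Finset.sum_congr rfl fun j _ => card_blkF h j
  have cB : B.card ≤ ∑ j, (XX (v j) + XX (w j)) := by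
    refine Finset.card_biUnion_le.trans (Finset.sum_le_sum fun j _ => ?_)
    refine (Finset.card_union_le _ _).trans (Nat.add_le_add ?_ ?_)
    · exact Finset.card_image_le.trans (card_bbad _).le
    · exact Finset.card_image_le.trans (card_bbad _).le
  have hsub : F ⊆ G ∪ F.filter (fun C => ∃ x ∈ C, x ∈ B ∪ T) := by
    intro C hC
    rw [Finset.mem_union]
    by_cases hm : ∃ x ∈ C, x ∈ B ∪ T
    · right
      exact Finset.mem_filter.mpr ⟨hC, hm⟩
    · left
      push Not at hm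
      obtain ⟨hC1, x, hx, y, hy, hxy⟩ := Finset.mem_filter.mp hC
      obtain ⟨hCA, hCl⟩ := mem_loops.mp hC1
      have hBv : ∀ j i, i < (v j).length → lam j i ∈ C → ufree (up (v j)) i → good (v j) i := by
        intro j i hi hiC hf
        by_contra hcon
        apply hm _ hiC
        refine Finset.mem_union_left _ (Finset.mem_biUnion.mpr ⟨j, Finset.mem_univ _, ?_⟩)
        exact Finset.mem_union_left _ (Finset.mem_image_of_mem _
          (Finset.mem_filter.mpr ⟨Finset.mem_range.mpr hi, hf, hcon⟩))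
      have hBw : ∀ j i, i < (w j).length → rho j i ∈ C → ufree (up (w j)) i → good (w j) i := by
        intro j i hi hiC hf
        by_contra hcon
        apply hm _ hiC
        refine Finset.mem_union_left _ (Finset.mem_biUnion.mpr ⟨j, Finset.mem_univ _, ?_⟩)
        exact Finset.mem_union_right _ (Finset.mem_image_of_mem _
          (Finset.mem_filter.mpr ⟨Finset.mem_range.mpr hi, hf, hcon⟩))
      rcases hT x (hCA hx) y (hCA hy) hxy with h1 | h1 | ⟨j, i, i', hi, hi', h2⟩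
      · exact (hm x hx (Finset.mem_union_right _ h1)).elim
      · exact (hm y hy (Finset.mem_union_right _ h1)).elim
      · refine Finset.mem_biUnion.mpr ⟨j, Finset.mem_univ _, ?_⟩
        rcases h2 with ⟨rfl, rfl⟩ | ⟨rfl, rfl⟩
        · exact blk_key h j hCl (hBv j) (hBw j) hi hi' hx hy hxy
        · exact blk_key h j hCl (hBv j) (hBw j) hi hi' hy hx (h.symU1 _ _ hxy)
  have cH : (F.filter (fun C => ∃ x ∈ C, x ∈ B ∪ T)).card ≤ (B ∪ T).card := by
    apply card_le_of_hit h.matU h.matV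
    · intro C hC
      exact (mem_loops.mp (Finset.mem_filter.mp (Finset.mem_filter.mp hC).1).1).2
    · intro C hC
      exact (Finset.mem_filter.mp hC).2
  calc F.card ≤ (G ∪ F.filter (fun C => ∃ x ∈ C, x ∈ B ∪ T)).card := Finset.card_le_card hsub
    _ ≤ G.card + (F.filter (fun C => ∃ x ∈ C, x ∈ B ∪ T)).card := Finset.card_union_le _ _
    _ ≤ ∑ j, NN (v j) (w j) + (∑ j, (XX (v j) + XX (w j)) + T.card) := by
        rw [cG]
        exact Nat.add_le_add_left (cH.trans ((Finset.card_union_le _ _).trans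
          (Nat.add_le_add_right cB _))) _
    _ = _ := by ring

end MeanderCLT
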