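import Pool.Agent.H98.M.BridgeD

/-!
# Central limit theorem for the cyclic number of loops of balanced words
-/

open Filter Topology

namespace MeanderCLT

/-! ### Basic rules -/

theorem bclt_exp_sub (x y : ℝ) :
    ‖Complex.exp (Complex.I * (x : ℂ)) - Complex.exp (Complex.I * (y : ℂ))‖ ≤ |x - y| := by
  have h : Complex.exp (Complex.I * (x : ℂ)) - Complex.exp (Complex.I * (y : ℂ)) =
      Complex.exp (Complex.I * (y : ℂ)) * (Complex.exp (Complex.I * ((x - y : ℝ) : ℂ)) - 1) := by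
    rw [mul_sub, ← Complex.exp_add, mul_one]
    congr 2
    push_cast
    ring
  rw [h, norm_mul]
  have h1 : ‖Complex.exp (Complex.I * (y : ℂ))‖ = 1 := by
    rw [mul_comm]
    exact Complex.norm_exp_ofReal_mul_I y
  rw [h1, one_mul]
  exact Real.norm_exp_I_mul_ofReal_sub_one_le

theorem bclt_exp_sub_two (x y : ℝ) :
    ‖Complex.exp (Complex.I * (x : ℂ)) - Complex.exp (Complex.I * (y : ℂ))‖ ≤ 2 := by
  have h1 : ∀ t : ℝ, ‖Complex.exp (Complex.I * (t : ℂ))‖ = 1 := by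
    intro t
    rw [mul_comm]
    exact Complex.norm_exp_ofReal_mul_I t
  refine (norm_sub_le _ _).trans ?_
  rw [h1, h1]
  norm_num

theorem bclt_BrC_sub_le (N : ℕ) (g h : Wd → ℂ) :
    ‖BrC N g - BrC N h‖ ≤ Br N (fun z => ‖g z - h z‖) := by
  classical
  unfold BrC Br
  rw [← sub_div, ← EwC_sub, norm_div]
  have hP : ‖(Pw N Bal : ℂ)‖ = Pw N Bal := by
    rw [Complex.norm_real, Real.norm_eq_abs, abs_of_nonneg (BRD_Pw_nonneg N Bal)]
  rw [hP]
  apply div_le_div_of_nonneg_right _ (BRD_Pw_nonneg N Bal)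
  refine (EwC_norm_le N _).trans (Ew_mono fun z _ => ?_)
  by_cases hz : Bal z
  · simp [hz]
  · simp [hz]

theorem bclt_const (n : ℕ) (c : ℝ) : Br (2 * n) (fun _ => c) = c := by
  classical
  have h : Ew (2 * n) (fun z => if Bal z then c else 0) = c * Pw (2 * n) Bal := by
    unfold Pw
    rw [← Ew_mul_left]
    apply Ew_congr
    intro z _
    split_ifs <;> simp
  unfold Br
  rw [h, mul_div_assoc, div_self (BRD_Bal_pos n).ne', mul_one]

theorem bclt_jensen (n : ℕ) (g : Wd → ℝ) (s : ℝ) (hs : 0 < s)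
    (h : Br (2 * n) (fun z => g z ^ 2) ≤ s ^ 2) : Br (2 * n) (fun z => |g z|) ≤ s := by
  calc Br (2 * n) (fun z => |g z|) ≤ Br (2 * n) (fun z => s / 2 + 1 / (2 * s) * g z ^ 2) := by
        apply BRD_mono
        intro z _ _
        have h1 : 0 ≤ (|g z| - s) ^ 2 := sq_nonneg _
        have h2 : |g z| ^ 2 = g z ^ 2 := sq_abs _
        have h3 : |g z| * s ≤ (s / 2 + 1 / (2 * s) * g z ^ 2) * s := by
          have h4 : (s / 2 + 1 / (2 * s) * g z ^ 2) * s = (s ^ 2 + g z ^ 2) / 2 := by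
            field_simp
          rw [h4]
          nlinarith
        exact le_of_mul_le_mul_right h3 hs
    _ = s / 2 + 1 / (2 * s) * Br (2 * n) (fun z => g z ^ 2) := by
        rw [BRD_add (2 * n) (fun _ => s / 2) (fun z => 1 / (2 * s) * g z ^ 2), bclt_const,
          BRD_mul]
    _ ≤ s / 2 + 1 / (2 * s) * s ^ 2 := by gcongr
    _ = s := by
        field_simp
        ring

/-! ### Standard deviations -/

theorem bclt_sg_nonneg (n : ℕ) (f : Wd → ℝ) : 0 ≤ sg n f := Real.sqrt_nonneg _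

theorem bclt_Vw_nonneg (n : ℕ) (f : Wd → ℝ) : 0 ≤ Vw n f := Ew_nonneg (fun _ _ => sq_nonneg _)

theorem bclt_sg_sq (n : ℕ) (f : Wd → ℝ) : sg n f ^ 2 = Vw n f := Real.sq_sqrt (bclt_Vw_nonneg n f)

theorem bclt_var_eq (N : ℕ) (u : Wd → ℝ) :
    Vw N u = Ew N (fun x => u x ^ 2) - (Ew N u) ^ 2 := by
  have h1 : (fun x => (u x - Ew N u) ^ 2) =
      fun x => (u x ^ 2 - (2 * Ew N u) * u x) + (Ew N u) ^ 2 := by
    funext x; ring
  unfold Vw
  rw [h1, Ew_add N (fun x => u x ^ 2 - (2 * Ew N u) * u x) (fun _ => (Ew N u) ^ 2),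
    Ew_sub N (fun x => u x ^ 2) (fun x => (2 * Ew N u) * u x), Ew_mul_left, Ew_const]
  ring

theorem bclt_mean_sq (N : ℕ) (u : Wd → ℝ) : (Ew N u) ^ 2 ≤ Ew N (fun x => u x ^ 2) := by
  have h1 := bclt_var_eq N u
  have h2 := bclt_Vw_nonneg N u
  linarith

theorem bclt_sg_le (N : ℕ) (u : Wd → ℝ) : sg N u ≤ Real.sqrt (Ew N (fun x => u x ^ 2)) := by
  unfold sg
  apply Real.sqrt_le_sqrt
  rw [bclt_var_eq]
  nlinarith [sq_nonneg (Ew N u)]

theorem bclt_sg_add (N : ℕ) (g h : Wd → ℝ) : sg N (fun z => g z + h z) ≤ sg N g + sg N h := by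
  have h1 := Ew_minkowski2 N (fun z => g z - Ew N g) (fun z => h z - Ew N h)
  have h2 : (fun x => ((g x + h x) - Ew N (fun z => g z + h z)) ^ 2) =
      fun x => ((g x - Ew N g) + (h x - Ew N h)) ^ 2 := by
    funext x
    rw [Ew_add]
    ring
  unfold sg Vw
  rw [h2]
  exact h1

theorem bclt_sg_neg (N : ℕ) (g : Wd → ℝ) : sg N (fun z => - g z) = sg N g := by
  have h0 : Ew N (fun z => - g z) = - Ew N g := by
    have := Ew_mul_left N (-1) g
    simpa using this
  unfold sg Vw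
  rw [h0]
  congr 2
  funext x
  ring

theorem bclt_take (a b : ℕ) (g : Wd → ℝ) : Ew (a + b) (fun z => g (z.take a)) = Ew a g := by
  have h := dmom_E2 a b (fun x _ => g x)
  rw [← h]
  apply Ew_congr
  intro x _
  exact Ew_const b _

theorem bclt_drop (a b : ℕ) (g : Wd → ℝ) : Ew (a + b) (fun z => g (z.drop a)) = Ew b g := by
  have h := dmom_E2 a b (fun _ y => g y)
  rw [← h]
  exact Ew_const a _

theorem bclt_sg_take (a b : ℕ) (g : Wd → ℝ) : sg (a + b) (fun z => g (z.take a)) = sg a g := by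
  unfold sg Vw
  rw [bclt_take a b g, bclt_take a b (fun x => (g x - Ew a g) ^ 2)]

theorem bclt_sg_drop (a b : ℕ) (g : Wd → ℝ) : sg (a + b) (fun z => g (z.drop a)) = sg b g := by
  unfold sg Vw
  rw [bclt_drop a b g, bclt_drop a b (fun x => (g x - Ew b g) ^ 2)]

/-- the seam defect -/
noncomputable def bcltD (a : ℕ) (z : Wd) : ℝ := ff z - ff (z.take a) - ff (z.drop a)

theorem bclt_D2 (a b : ℕ) : Ew (a + b) (fun z => bcltD a z ^ 2) =
    Ew a (fun x => Ew b (fun y => (ff (x ++ y) - ff x - ff y) ^ 2)) := by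
  rw [dmom_E2 a b (fun x y => (ff (x ++ y) - ff x - ff y) ^ 2)]
  apply Ew_congr
  intro z _
  rw [List.take_append_drop]
  rfl

theorem bclt_D_le (a : ℕ) (z : Wd) : |bcltD a z| ≤ dmQ (z.drop a) := by
  have h := (dmom_abs (mirw (z.take a)) (z.drop a)).trans (dmM_le_right _ _)
  have h2 := ff_glue (z.take a) (z.drop a)
  rw [List.take_append_drop] at h2
  unfold bcltD
  rw [h2]
  exact h

theorem bclt_sg_split (a b : ℕ) :
    |sg (a + b) ff - sg a ff| ≤ sg b ff + Real.sqrt (Ew (a + b) (fun z => bcltD a z ^ 2)) := by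
  have hD := bclt_sg_le (a + b) (bcltD a)
  have h1 : sg (a + b) ff ≤ sg a ff + (sg b ff + sg (a + b) (bcltD a)) := by
    have e : ff = fun z => ff (z.take a) + (ff (z.drop a) + bcltD a z) := by
      funext z
      unfold bcltD
      ring
    have h2 := bclt_sg_add (a + b) (fun z => ff (z.take a)) (fun z => ff (z.drop a) + bcltD a z)
    have h3 := bclt_sg_add (a + b) (fun z => ff (z.drop a)) (bcltD a)
    rw [← e, bclt_sg_take a b ff] at h2
    rw [bclt_sg_drop a b ff] at h3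
    linarith
  have h2 : sg a ff ≤ sg (a + b) ff + (sg b ff + sg (a + b) (bcltD a)) := by
    have e : (fun z : Wd => ff (z.take a)) =
        fun z => ff z + ((- ff (z.drop a)) + (- bcltD a z)) := by
      funext z
      unfold bcltD
      ring
    have h2 := bclt_sg_add (a + b) ff (fun z => (- ff (z.drop a)) + (- bcltD a z))
    have h3 := bclt_sg_add (a + b) (fun z => - ff (z.drop a)) (fun z => - bcltD a z)
    rw [← e, bclt_sg_take a b ff] at h2
    rw [bclt_sg_neg (a + b) (fun z => ff (z.drop a)), bclt_sg_neg, bclt_sg_drop a b ff] at h3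
    linarith
  rw [abs_le]
  constructor <;> linarith

theorem bclt_mean_split (a b : ℕ) : |Ew a ff + Ew b ff - Ew (a + b) ff| ≤
    Real.sqrt (Ew (a + b) (fun z => bcltD a z ^ 2)) := by
  have h1 : Ew (a + b) (bcltD a) = Ew (a + b) ff - Ew a ff - Ew b ff := by
    have h2 := Ew_sub (a + b) (fun z => ff z - ff (z.take a)) (fun z => ff (z.drop a))
    have h3 := Ew_sub (a + b) ff (fun z => ff (z.take a))
    rw [h3, bclt_take a b ff, bclt_drop a b ff] at h2
    exact h2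
  have h2 := bclt_mean_sq (a + b) (bcltD a)
  have h3 := Real.abs_le_sqrt h2
  rw [h1] at h3
  rw [abs_sub_comm] at h3
  have e : Ew a ff + Ew b ff - Ew (a + b) ff = Ew b ff - (Ew (a + b) ff - Ew a ff) := by ring
  rw [e]
  exact h3

theorem bclt_sg_lower : ∃ c : ℝ, 0 < c ∧ ∀ᶠ n : ℕ in atTop, c * Real.sqrt n ≤ sg n ff := by
  obtain ⟨c, hc, h⟩ := almostAdd_ff.var
  refine ⟨Real.sqrt c, Real.sqrt_pos.2 hc, h.mono ?_⟩
  intro n hn
  rw [← Real.sqrt_mul hc.le]
  exact Real.sqrt_le_sqrt hn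

theorem bclt_div_atTop (k : ℕ) : Tendsto (fun m : ℕ => m / 2 ^ k) atTop atTop :=
  Nat.tendsto_div_const_atTop (by positivity)

theorem bclt_sg_pow (k : ℕ) :
    Tendsto (fun m : ℕ => sg (m / 2 ^ k) ff / sg m ff) atTop (𝓝 ((1 / Real.sqrt 2) ^ k)) := by
  obtain ⟨c, hc, hlow⟩ := bclt_sg_lower
  have hpos : ∀ᶠ m : ℕ in atTop, 0 < sg m ff := by
    filter_upwards [hlow, eventually_gt_atTop 0] with m hm hm0
    have : 0 < Real.sqrt m := Real.sqrt_pos.2 (by exact_mod_cast hm0)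
    exact lt_of_lt_of_le (by positivity) hm
  induction k with
  | zero =>
    rw [pow_zero]
    refine tendsto_const_nhds.congr' ?_
    filter_upwards [hpos] with m hm
    rw [pow_zero, Nat.div_one, div_self hm.ne']
  | succ k ih =>
    have h1 := (sg_half almostAdd_ff).inv₀ (by positivity : Real.sqrt 2 ≠ 0)
    have h2 := h1.comp (bclt_div_atTop k)
    have h3 := h2.mul ih
    have e : (Real.sqrt 2)⁻¹ * (1 / Real.sqrt 2) ^ k = (1 / Real.sqrt 2) ^ (k + 1) := by
      rw [pow_succ, one_div]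
      ring
    rw [e] at h3
    refine h3.congr' ?_
    filter_upwards [hpos, (bclt_div_atTop k).eventually hpos] with m hm hm2
    simp only [Function.comp, inv_div]
    rw [pow_succ, ← Nat.div_div_eq_div_mul]
    field_simp

/-- the deterministic estimates -/
theorem bclt_det (k : ℕ) (η : ℝ) (hη : 0 < η) : ∀ᶠ n : ℕ in atTop,
    0 < sg (2 * n) ff ∧
    sg (2 * n / 2 ^ k) ff ≤ ((1 / Real.sqrt 2) ^ k + η) * sg (2 * n) ff ∧
    |sg (2 * n) ff - sg (nf k n) ff| ≤ ((1 / Real.sqrt 2) ^ k + 2 * η) * sg (2 * n) ff ∧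
    |Ew (nf k n) ff + Ew (2 * n / 2 ^ k) ff - Ew (2 * n) ff| ≤ η * sg (2 * n) ff := by
  obtain ⟨c, hc, hlow⟩ := bclt_sg_lower
  have h2 : Tendsto (fun n : ℕ => 2 * n) atTop atTop :=
    tendsto_atTop_mono (fun n => Nat.le_mul_of_pos_left n two_pos) tendsto_id
  have hD := h2.eventually (D_two_gen ((η * c) ^ 2) (by positivity))
  have hr := (bclt_sg_pow k).comp h2
  have hr' := hr.eventually (gt_mem_nhds (show (1 / Real.sqrt 2) ^ k < (1 / Real.sqrt 2) ^ k + η by
    linarith))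
  filter_upwards [h2.eventually hlow, hD, hr', eventually_gt_atTop 0] with n h3 h4 h5 h6
  have hsn : 0 < Real.sqrt ((2 * n : ℕ) : ℝ) := Real.sqrt_pos.2 (by exact_mod_cast (by omega))
  have hpos : 0 < sg (2 * n) ff := lt_of_lt_of_le (by positivity) h3
  have hb : sg (2 * n / 2 ^ k) ff ≤ ((1 / Real.sqrt 2) ^ k + η) * sg (2 * n) ff := by
    simp only [Function.comp] at h5
    rw [div_lt_iff₀ hpos] at h5
    exact h5.le
  have hab : nf k n + 2 * n / 2 ^ k = 2 * n := bf_nf_add k n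
  have hDD := h4 (nf k n) (2 * n / 2 ^ k) hab
  rw [← bclt_D2, hab] at hDD
  have hsq : Real.sqrt (Ew (2 * n) (fun z => bcltD (nf k n) z ^ 2)) ≤ η * sg (2 * n) ff := by
    refine (Real.sqrt_le_sqrt hDD).trans ?_
    rw [Real.sqrt_mul (by positivity), Real.sqrt_sq (by positivity), mul_assoc]
    exact mul_le_mul_of_nonneg_left h3 hη.le
  have hs := bclt_sg_split (nf k n) (2 * n / 2 ^ k)
  have hm := bclt_mean_split (nf k n) (2 * n / 2 ^ k)
  rw [hab] at hs hm
  refine ⟨hpos, hb, ?_, hm.trans hsq⟩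
  calc |sg (2 * n) ff - sg (nf k n) ff| ≤ _ := hs
    _ ≤ ((1 / Real.sqrt 2) ^ k + η) * sg (2 * n) ff + η * sg (2 * n) ff := add_le_add hb hsq
    _ = _ := by ring

/-- second moment of the functional of a balanced word -/
theorem bclt_W : ∃ K : ℝ, 0 < K ∧ ∀ᶠ n : ℕ in atTop,
    Br (2 * n) (fun z => (ff z - Ew (2 * n) ff) ^ 2) ≤ (K * sg (2 * n) ff) ^ 2 := by
  obtain ⟨C, hC, hdens⟩ := bridge_dens
  obtain ⟨C2, hC2, hmom⟩ := uc_moments
  obtain ⟨c, hc, hlow⟩ := bclt_sg_lower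
  have h2 : Tendsto (fun n : ℕ => 2 * n) atTop atTop :=
    tendsto_atTop_mono (fun n => Nat.le_mul_of_pos_left n two_pos) tendsto_id
  refine ⟨Real.sqrt (4 * (C * 4 + C * 4 + C * (C2 / c ^ 2) + 1)), by positivity, ?_⟩
  filter_upwards [bclt_det 1 1 one_pos, h2.eventually hlow] with n h3 h4
  obtain ⟨hpos, hb, hs, hm⟩ := h3
  have e1 : 2 * n / 2 ^ 1 = n := by omega
  have e2 : nf 1 n = n := by unfold nf; omega
  rw [e1] at hb hm
  rw [e2] at hm
  have hsq2 : 1 / Real.sqrt 2 ≤ 1 := by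
    rw [div_le_one (by positivity)]
    exact Real.one_le_sqrt.2 (by norm_num)
  have hb' : sg n ff ≤ 2 * sg (2 * n) ff := by
    refine hb.trans ?_
    rw [pow_one]
    gcongr
    linarith
  have hV : Vw n ff ≤ 4 * sg (2 * n) ff ^ 2 := by
    rw [← bclt_sg_sq]
    calc sg n ff ^ 2 ≤ (2 * sg (2 * n) ff) ^ 2 := by
          gcongr
          exact bclt_sg_nonneg n ff
      _ = _ := by ring
  have hn : (n : ℝ) ≤ sg (2 * n) ff ^ 2 / c ^ 2 := by
    rw [le_div_iff₀ (by positivity)]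
    have h5 : (c * Real.sqrt ((2 * n : ℕ) : ℝ)) ^ 2 ≤ sg (2 * n) ff ^ 2 := by
      gcongr
    rw [mul_pow, Real.sq_sqrt (by positivity)] at h5
    push_cast at h5
    have h6 : (0 : ℝ) ≤ n := by positivity
    nlinarith [sq_nonneg c]
  have d1 := (hdens n n le_rfl (fun x => (ff x - Ew n ff) ^ 2) (fun x => sq_nonneg _))
  have d2 := (hdens n n le_rfl (fun x => dmQ x ^ 2) (fun x => sq_nonneg _)).1
  have e3 : 2 * n - n = n := by omega
  rw [e3] at d1 d2
  have d3 : Ew n (fun x => dmQ x ^ 2) ≤ C2 * n := (hmom n).2.1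
  have hm' : |Ew n ff + Ew n ff - Ew (2 * n) ff| ≤ sg (2 * n) ff := by linarith
  calc Br (2 * n) (fun z => (ff z - Ew (2 * n) ff) ^ 2)
      ≤ Br (2 * n) (fun z => 4 * ((ff (z.take n) - Ew n ff) ^ 2 +
          ((ff (z.drop n) - Ew n ff) ^ 2 + (dmQ (z.drop n) ^ 2 + sg (2 * n) ff ^ 2)))) := by
        apply BRD_mono
        intro z _ _
        have h7 : ff z - Ew (2 * n) ff = (ff (z.take n) - Ew n ff) + (ff (z.drop n) - Ew n ff) +
            bcltD n z + (Ew n ff + Ew n ff - Ew (2 * n) ff) := by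
          unfold bcltD
          ring
        have h8 : bcltD n z ^ 2 ≤ dmQ (z.drop n) ^ 2 := by
          rw [← sq_abs]
          gcongr
          exact bclt_D_le n z
        have h9 : (Ew n ff + Ew n ff - Ew (2 * n) ff) ^ 2 ≤ sg (2 * n) ff ^ 2 := by
          rw [← sq_abs]
          gcongr
        rw [h7]
        generalize ff (z.take n) - Ew n ff = p
        generalize ff (z.drop n) - Ew n ff = q
        generalize bcltD n z = r at h8
        generalize Ew n ff + Ew n ff - Ew (2 * n) ff = s at h9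
        have h10 : (p + q + r + s) ^ 2 ≤ 4 * (p ^ 2 + (q ^ 2 + (r ^ 2 + s ^ 2))) := by
          nlinarith [sq_nonneg (p - q), sq_nonneg (p - r), sq_nonneg (p - s), sq_nonneg (q - r),
            sq_nonneg (q - s), sq_nonneg (r - s)]
        linarith
    _ = 4 * (Br (2 * n) (fun z => (ff (z.take n) - Ew n ff) ^ 2) +
          (Br (2 * n) (fun z => (ff (z.drop n) - Ew n ff) ^ 2) +
          (Br (2 * n) (fun z => dmQ (z.drop n) ^ 2) + sg (2 * n) ff ^ 2))) := by
        rw [BRD_mul, BRD_add (2 * n) (fun z => (ff (z.take n) - Ew n ff) ^ 2),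
          BRD_add (2 * n) (fun z => (ff (z.drop n) - Ew n ff) ^ 2),
          BRD_add (2 * n) (fun z => dmQ (z.drop n) ^ 2), bclt_const]
    _ ≤ 4 * (C * (4 * sg (2 * n) ff ^ 2) + (C * (4 * sg (2 * n) ff ^ 2) +
          (C * (C2 * (sg (2 * n) ff ^ 2 / c ^ 2)) + sg (2 * n) ff ^ 2))) := by
        have a1 := d1.2
        have a2 := d1.1
        have a3 : C * Ew n (fun x => (ff x - Ew n ff) ^ 2) ≤ C * (4 * sg (2 * n) ff ^ 2) := by
          apply mul_le_mul_of_nonneg_left hV hC.le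
        have a4 : C * Ew n (fun x => dmQ x ^ 2) ≤ C * (C2 * (sg (2 * n) ff ^ 2 / c ^ 2)) := by
          apply mul_le_mul_of_nonneg_left _ hC.le
          exact d3.trans (mul_le_mul_of_nonneg_left hn hC2.le)
        have a5 := a2.trans a3
        have a6 := a1.trans a3
        have a7 := d2.trans a4
        linarith
    _ = (Real.sqrt (4 * (C * 4 + C * 4 + C * (C2 / c ^ 2) + 1)) * sg (2 * n) ff) ^ 2 := by
        rw [mul_pow, Real.sq_sqrt (by positivity)]
        ring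

theorem bclt_last : ∃ K : ℝ, 0 < K ∧ ∀ k : ℕ, 1 ≤ k → ∀ n : ℕ,
    Br (2 * n) (fun z => (ff (z.drop (nf k n)) - Ew (2 * n / 2 ^ k) ff) ^ 2) ≤
      (K * sg (2 * n / 2 ^ k) ff) ^ 2 := by
  obtain ⟨C, hC, hdens⟩ := bridge_dens
  refine ⟨Real.sqrt C, Real.sqrt_pos.2 hC, ?_⟩
  intro k hk n
  have hm : 2 * n / 2 ^ k ≤ n := by
    have h2 : 2 ≤ 2 ^ k := by
      calc 2 = 2 ^ 1 := rfl
        _ ≤ 2 ^ k := Nat.pow_le_pow_right (by norm_num) hk
    calc 2 * n / 2 ^ k ≤ 2 * n / 2 := Nat.div_le_div_left h2 (by norm_num)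
      _ = n := by omega
  have h := (hdens n (2 * n / 2 ^ k) hm (fun x => (ff x - Ew (2 * n / 2 ^ k) ff) ^ 2)
    (fun x => sq_nonneg _)).1
  rw [mul_pow, Real.sq_sqrt hC.le, bclt_sg_sq]
  exact h

open Classical in
/-- comparison of the characteristic functions -/
theorem bclt_compare (θ : ℝ) : ∃ K : ℝ, 0 < K ∧ ∀ k : ℕ, 6 ≤ k → ∀ᶠ n : ℕ in atTop,
    ‖BrC (2 * n) (fun z => Complex.exp (Complex.I *
      ((θ * ((ccyc z : ℝ) - Ew (2 * n) ff) / sg (2 * n) ff : ℝ) : ℂ))) -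
     BrC (2 * n) (fun z => Complex.exp (Complex.I *
      ((θ * (ff (z.take (nf k n)) - Ew (nf k n) ff) / sg (nf k n) ff : ℝ) : ℂ)))‖ ≤
      K * (1 / Real.sqrt 2) ^ k := by
  obtain ⟨KW, hKW, hW⟩ := bclt_W
  obtain ⟨KL, hKL, hL⟩ := bclt_last
  obtain ⟨c, hc, hlow⟩ := bclt_sg_lower
  have h2 : Tendsto (fun n : ℕ => 2 * n) atTop atTop :=
    tendsto_atTop_mono (fun n => Nat.le_mul_of_pos_left n two_pos) tendsto_id
  refine ⟨|θ| * (3 / c + 6 * KW + 4 * KL + 2) + 4, by positivity, ?_⟩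
  intro k hk
  obtain ⟨δ, hδ⟩ : ∃ δ, δ = (1 / Real.sqrt 2) ^ k := ⟨_, rfl⟩
  rw [← hδ]
  have hδ0 : 0 < δ := by rw [hδ]; positivity
  have hδ1 : δ ≤ 1 / 8 := by
    have h3 : (1 / Real.sqrt 2) ^ k ≤ (1 / Real.sqrt 2) ^ 6 := by
      apply pow_le_pow_of_le_one (by positivity) _ hk
      rw [div_le_one (by positivity)]
      exact Real.one_le_sqrt.2 (by norm_num)
    have h4 : (1 / Real.sqrt 2) ^ 6 = 1 / 8 := by
      have h5 : Real.sqrt 2 ^ 2 = 2 := Real.sq_sqrt (by norm_num)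
      calc (1 / Real.sqrt 2) ^ 6 = 1 / (Real.sqrt 2 ^ 2) ^ 3 := by
            rw [div_pow, one_pow, ← pow_mul]
        _ = 1 / 8 := by rw [h5]; norm_num
    rw [hδ, ← h4]
    exact h3
  have hdet := bclt_det k δ hδ0
  rw [← hδ] at hdet
  filter_upwards [hdet, hW, h2.eventually hlow, D_bridge k (by omega) δ hδ0,
    Dcyc_bridge δ hδ0] with n h3 h4 h5 h6 h7
  obtain ⟨hpos, hb, hs, hm⟩ := h3
  have hLn := hL k (by omega) n
  generalize hσ : sg (2 * n) ff = σ at hpos hb hs hm h4 h5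
  generalize hσa : sg (nf k n) ff = σa at hs
  have hσa0 : σ / 2 ≤ σa := by
    have h8 := (abs_le.1 hs).2
    nlinarith
  have hσapos : 0 < σa := by linarith
  have hT : δ * Real.sqrt n ≤ δ * (σ / c) := by
    apply mul_le_mul_of_nonneg_left _ hδ0.le
    rw [le_div_iff₀ hc]
    have h8 : Real.sqrt n ≤ Real.sqrt ((2 * n : ℕ) : ℝ) := by
      apply Real.sqrt_le_sqrt
      push_cast
      have : (0 : ℝ) ≤ n := by positivity
      linarith
    nlinarith
  have hinv : |1 / σ - 1 / σa| ≤ 6 * δ / σ := by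
    have e : 1 / σ - 1 / σa = (σa - σ) / (σ * σa) := by
      field_simp
    rw [e, abs_div, abs_of_pos (mul_pos hpos hσapos), div_le_div_iff₀ (mul_pos hpos hσapos) hpos,
      abs_sub_comm]
    calc |σ - σa| * σ ≤ ((δ + 2 * δ) * σ) * σ := by gcongr
      _ = 6 * δ * (σ * (σ / 2)) := by ring
      _ ≤ 6 * δ * (σ * σa) := by gcongr
  have hinva : 1 / σa ≤ 2 / σ := by
    rw [div_le_div_iff₀ hσapos hpos]
    linarith
  have hptw : ∀ z : Wd, ‖Complex.exp (Complex.I *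
      ((θ * ((ccyc z : ℝ) - Ew (2 * n) ff) / σ : ℝ) : ℂ)) -
      Complex.exp (Complex.I *
      ((θ * (ff (z.take (nf k n)) - Ew (nf k n) ff) / σa : ℝ) : ℂ))‖ ≤
      (|θ| / σ * (3 * (δ * Real.sqrt n) + 2 * δ * σ) +
        ((|θ| / σ * (6 * δ)) * |ff z - Ew (2 * n) ff| +
        ((|θ| / σ * 2) * |ff (z.drop (nf k n)) - Ew (2 * n / 2 ^ k) ff| +
        (2 * (if δ * Real.sqrt n < |(ccyc z : ℝ) - ff z| then 1 else 0) +
        2 * (if δ * Real.sqrt n < |ff z - ff (z.take (nf k n)) - ff (z.drop (nf k n))|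
          then 1 else 0))))) := by
    intro z
    have p0 : 0 ≤ |θ| / σ * (3 * (δ * Real.sqrt n) + 2 * δ * σ) := by positivity
    have p1 : 0 ≤ (|θ| / σ * (6 * δ)) * |ff z - Ew (2 * n) ff| := by positivity
    have p2 : 0 ≤ (|θ| / σ * 2) * |ff (z.drop (nf k n)) - Ew (2 * n / 2 ^ k) ff| := by positivity
    have p3 := bclt_exp_sub_two (θ * ((ccyc z : ℝ) - Ew (2 * n) ff) / σ)
      (θ * (ff (z.take (nf k n)) - Ew (nf k n) ff) / σa)
    by_cases c1 : δ * Real.sqrt n < |(ccyc z : ℝ) - ff z|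
    · rw [if_pos c1]
      have : (0 : ℝ) ≤ 2 * (if δ * Real.sqrt n <
        |ff z - ff (z.take (nf k n)) - ff (z.drop (nf k n))| then 1 else 0) := by
        split_ifs <;> norm_num
      linarith
    by_cases c2 : δ * Real.sqrt n < |ff z - ff (z.take (nf k n)) - ff (z.drop (nf k n))|
    · rw [if_neg c1, if_pos c2]
      linarith
    rw [if_neg c1, if_neg c2]
    push Not at c1 c2
    have p4 := bclt_exp_sub (θ * ((ccyc z : ℝ) - Ew (2 * n) ff) / σ)
      (θ * (ff (z.take (nf k n)) - Ew (nf k n) ff) / σa)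
    refine p4.trans ?_
    have e : θ * ((ccyc z : ℝ) - Ew (2 * n) ff) / σ -
        θ * (ff (z.take (nf k n)) - Ew (nf k n) ff) / σa =
        θ * (((ccyc z : ℝ) - ff z) * (1 / σ) + (ff z - Ew (2 * n) ff) * (1 / σ - 1 / σa) +
          ((ff (z.drop (nf k n)) - Ew (2 * n / 2 ^ k) ff) +
          (ff z - ff (z.take (nf k n)) - ff (z.drop (nf k n))) +
          (Ew (nf k n) ff + Ew (2 * n / 2 ^ k) ff - Ew (2 * n) ff)) * (1 / σa)) := by
      ring
    rw [e, abs_mul]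
    generalize (ccyc z : ℝ) - ff z = A at c1
    generalize ff z - Ew (2 * n) ff = B
    generalize ff (z.drop (nf k n)) - Ew (2 * n / 2 ^ k) ff = L
    generalize ff z - ff (z.take (nf k n)) - ff (z.drop (nf k n)) = D at c2
    generalize Ew (nf k n) ff + Ew (2 * n / 2 ^ k) ff - Ew (2 * n) ff = E at hm
    have q1 : |A * (1 / σ)| ≤ δ * Real.sqrt n * (1 / σ) := by
      rw [abs_mul, abs_of_pos (by positivity : 0 < 1 / σ)]
      gcongr
    have q2 : |B * (1 / σ - 1 / σa)| ≤ |B| * (6 * δ / σ) := by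
      rw [abs_mul]
      gcongr
    have q3 : |(L + D + E) * (1 / σa)| ≤ (|L| + δ * Real.sqrt n + δ * σ) * (2 / σ) := by
      rw [abs_mul, abs_of_pos (by positivity : 0 < 1 / σa)]
      have q4 : |L + D + E| ≤ |L| + δ * Real.sqrt n + δ * σ := by
        calc |L + D + E| ≤ |L + D| + |E| := abs_add_le _ _
          _ ≤ |L| + |D| + |E| := by gcongr; exact abs_add_le _ _
          _ ≤ _ := by gcongr
      gcongr
    have q5 : |A * (1 / σ) + B * (1 / σ - 1 / σa) + (L + D + E) * (1 / σa)| ≤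
        δ * Real.sqrt n * (1 / σ) + |B| * (6 * δ / σ) +
          (|L| + δ * Real.sqrt n + δ * σ) * (2 / σ) := by
      refine (abs_add_le _ _).trans (add_le_add ((abs_add_le _ _).trans (add_le_add q1 q2)) q3)
    refine (mul_le_mul_of_nonneg_left q5 (abs_nonneg θ)).trans (le_of_eq ?_)
    field_simp
    ring
  refine (bclt_BrC_sub_le (2 * n) _ _).trans ?_
  refine (BRD_mono (fun z _ _ => hptw z)).trans ?_
  rw [BRD_add (2 * n) (fun _ => |θ| / σ * (3 * (δ * Real.sqrt n) + 2 * δ * σ)), bclt_const,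
    BRD_add (2 * n) (fun z => (|θ| / σ * (6 * δ)) * |ff z - Ew (2 * n) ff|), BRD_mul,
    BRD_add (2 * n) (fun z => (|θ| / σ * 2) *
      |ff (z.drop (nf k n)) - Ew (2 * n / 2 ^ k) ff|), BRD_mul,
    BRD_add (2 * n) (fun z => 2 * (if δ * Real.sqrt n < |(ccyc z : ℝ) - ff z| then (1 : ℝ) else 0)),
    BRD_mul, BRD_mul]
  have r1 : Br (2 * n) (fun z => |ff z - Ew (2 * n) ff|) ≤ KW * σ :=
    bclt_jensen n _ _ (by positivity) h4
  have r2 : Br (2 * n) (fun z => |ff (z.drop (nf k n)) - Ew (2 * n / 2 ^ k) ff|) ≤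
      KL * (2 * δ * σ) := by
    apply bclt_jensen n _ _ (by positivity)
    refine hLn.trans ?_
    have r3 : sg (2 * n / 2 ^ k) ff ≤ 2 * δ * σ := by
      refine hb.trans (le_of_eq ?_)
      ring
    have r4 := bclt_sg_nonneg (2 * n / 2 ^ k) ff
    gcongr
  calc _ ≤ |θ| / σ * (3 * (δ * (σ / c)) + 2 * δ * σ) + (|θ| / σ * (6 * δ) * (KW * σ) +
        (|θ| / σ * 2 * (KL * (2 * δ * σ)) + (2 * δ + 2 * δ))) := by
        gcongr
    _ = (|θ| * (3 / c + 6 * KW + 4 * KL + 2) + 4) * δ := by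
        field_simp
        ring

/-- central limit theorem for balanced words -/
theorem bridge_clt (θ : ℝ) :
    Tendsto (fun n : ℕ => BrC (2 * n) (fun z => Complex.exp (Complex.I *
      ((θ * ((ccyc z : ℝ) - Ew (2 * n) ff) / sg (2 * n) ff : ℝ) : ℂ)))) atTop
      (𝓝 ((Real.exp (-θ ^ 2 / 2) : ℝ) : ℂ)) := by
  obtain ⟨K, hK, hcmp⟩ := bclt_compare θ
  rw [Metric.tendsto_nhds]
  intro ε hε
  have hlt : 1 / Real.sqrt 2 < 1 := by
    rw [div_lt_one (by positivity)]
    exact Real.one_lt_sqrt_two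
  have hpow := tendsto_pow_atTop_nhds_zero_of_lt_one (by positivity : 0 ≤ 1 / Real.sqrt 2) hlt
  have hev := (hpow.const_mul K).eventually (gt_mem_nhds (show K * 0 < ε / 2 by
    rw [mul_zero]; positivity))
  obtain ⟨k, hk1, hk6⟩ := (hev.and (eventually_ge_atTop 6)).exists
  have h1 := hcmp k hk6
  have h2 := bridge_first (f := ff) (clt_words almostAdd_ff) (k := k) (by omega) θ
  rw [Metric.tendsto_nhds] at h2
  have h3 := h2 (ε / 2) (by positivity)
  filter_upwards [h1, h3] with n h4 h5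
  rw [← dist_eq_norm] at h4
  calc _ ≤ _ := dist_triangle _ _ _
    _ < ε / 2 + ε / 2 := add_lt_add (lt_of_le_of_lt h4 hk1) h5
    _ = ε := by ring

end MeanderCLT
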