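import Pool.Agent.H98.M.Red
import Pool.Agent.H98.M.Avg

/-!
# Conditioning on balanced words: bounded densities
-/

open Filter Topology

namespace MeanderCLT

/-! ### central binomial coefficients -/

theorem bd_upper (l : ℕ) : (Nat.centralBinom l) ^ 2 * (2 * l + 1) ≤ 16 ^ l := by
  induction l with
  | zero => simp
  | succ l ih =>
    have h := Nat.succ_mul_centralBinom_succ l
    have hpos : 0 < (l + 1) ^ 2 := by positivity
    apply Nat.le_of_mul_le_mul_left _ hpos
    calc (l + 1) ^ 2 * ((l + 1).centralBinom ^ 2 * (2 * (l + 1) + 1))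
        = ((l + 1) * (l + 1).centralBinom) ^ 2 * (2 * l + 3) := by ring
      _ = (2 * (2 * l + 1) * l.centralBinom) ^ 2 * (2 * l + 3) := by rw [h]
      _ = 4 * (2 * l + 1) * (2 * l + 3) * (l.centralBinom ^ 2 * (2 * l + 1)) := by ring
      _ ≤ 4 * (2 * l + 1) * (2 * l + 3) * 16 ^ l := by gcongr
      _ ≤ 16 * (l + 1) ^ 2 * 16 ^ l := by
          apply Nat.mul_le_mul_right
          nlinarith
      _ = (l + 1) ^ 2 * 16 ^ (l + 1) := by ring

theorem bd_lower (l : ℕ) (hl : 1 ≤ l) : 16 ^ l ≤ 4 * l * (Nat.centralBinom l) ^ 2 := by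
  induction l, hl using Nat.le_induction with
  | base => simp [Nat.centralBinom, Nat.choose]
  | succ l hl ih =>
    have h := Nat.succ_mul_centralBinom_succ l
    have hpos : 0 < (l + 1) ^ 2 := by positivity
    apply Nat.le_of_mul_le_mul_left _ hpos
    calc (l + 1) ^ 2 * 16 ^ (l + 1) = 16 * (l + 1) ^ 2 * 16 ^ l := by ring
      _ ≤ 16 * (l + 1) ^ 2 * (4 * l * l.centralBinom ^ 2) := by gcongr
      _ = 4 * (l + 1) * (4 * l * (l + 1)) * (4 * l.centralBinom ^ 2) := by ring
      _ ≤ 4 * (l + 1) * ((2 * l + 1) ^ 2) * (4 * l.centralBinom ^ 2) := by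
          gcongr
          nlinarith
      _ = 4 * (l + 1) * (2 * (2 * l + 1) * l.centralBinom) ^ 2 := by ring
      _ = 4 * (l + 1) * ((l + 1) * (l + 1).centralBinom) ^ 2 := by rw [h]
      _ = (l + 1) ^ 2 * (4 * (l + 1) * (l + 1).centralBinom ^ 2) := by ring

/-! ### counting bracket words by their final height -/

/-- number of bracket words of length `m` with final height `h` -/
def bdCnt (m : ℕ) (h : ℤ) : ℕ :=
  (Finset.univ.filter (fun s : Fin m → Bool => hh (List.ofFn s) = h)).card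

theorem bdCnt_zero (h : ℤ) : bdCnt 0 h = if h = 0 then 1 else 0 := by
  unfold bdCnt
  have h0 : ∀ s : Fin 0 → Bool, hh (List.ofFn s) = 0 := by
    intro s
    simp [hh, ht_nil]
  simp only [h0]
  split_ifs with hh0
  · subst hh0
    simp
  · rw [Finset.filter_false_of_mem (fun _ _ => fun h1 => hh0 h1.symm)]
    rfl

theorem bdCnt_succ (m : ℕ) (h : ℤ) : bdCnt (m + 1) h = bdCnt m (h - 1) + bdCnt m (h + 1) := by
  unfold bdCnt
  rw [Finset.card_filter, Finset.card_filter, Finset.card_filter,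
    ← Equiv.sum_comp (Fin.consEquiv (fun _ : Fin (m + 1) => Bool)), Fintype.sum_prod_type,
    Fintype.sum_bool]
  congr 1
  · apply Finset.sum_congr rfl
    intro s _
    have : List.ofFn ((Fin.consEquiv (fun _ : Fin (m + 1) => Bool)) (true, s)) =
        true :: List.ofFn s := by
      simp [Fin.consEquiv_apply, List.ofFn_succ]
    rw [this, hh_cons, stp_true]
    congr 1
    apply propext
    constructor <;> intro h1 <;> omega
  · apply Finset.sum_congr rfl
    intro s _
    have : List.ofFn ((Fin.consEquiv (fun _ : Fin (m + 1) => Bool)) (false, s)) =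
        false :: List.ofFn s := by
      simp [Fin.consEquiv_apply, List.ofFn_succ]
    rw [this, hh_cons, stp_false]
    congr 1
    apply propext
    constructor <;> intro h1 <;> omega

theorem bdCnt_low (m : ℕ) (h : ℤ) (hm : h < -m) : bdCnt m h = 0 := by
  induction m generalizing h with
  | zero =>
    rw [bdCnt_zero, if_neg]
    intro h0
    subst h0
    simp at hm
  | succ m ih =>
    push_cast at hm
    rw [bdCnt_succ, ih _ (by omega), ih _ (by omega)]

theorem bdCnt_choose (m r : ℕ) : bdCnt m (2 * r - m) = m.choose r := by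
  induction m generalizing r with
  | zero =>
    rw [bdCnt_zero]
    cases r with
    | zero => simp
    | succ r =>
      rw [if_neg (by push_cast; omega)]
      simp
  | succ m ih =>
    rw [bdCnt_succ]
    cases r with
    | zero =>
      rw [bdCnt_low _ _ (by push_cast; omega), zero_add]
      have h1 : (2 * ((0 : ℕ) : ℤ) - ((m + 1 : ℕ) : ℤ) + 1) = 2 * ((0 : ℕ) : ℤ) - m := by
        push_cast; ring
      rw [h1, ih]
      simp
    | succ r =>
      have h1 : (2 * ((r + 1 : ℕ) : ℤ) - ((m + 1 : ℕ) : ℤ) - 1) = 2 * (r : ℤ) - m := by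
        push_cast; ring
      have h2 : (2 * ((r + 1 : ℕ) : ℤ) - ((m + 1 : ℕ) : ℤ) + 1) = 2 * ((r + 1 : ℕ) : ℤ) - m := by
        push_cast; ring
      rw [h1, h2, ih, ih, Nat.choose_succ_succ]

theorem bdCnt_cases (m : ℕ) (h : ℤ) : bdCnt m h = 0 ∨ ∃ r : ℕ, h = 2 * r - m := by
  induction m generalizing h with
  | zero =>
    rw [bdCnt_zero]
    by_cases h0 : h = 0
    · right; exact ⟨0, by simp [h0]⟩
    · left; simp [h0]
  | succ m ih =>
    rw [bdCnt_succ]
    rcases ih (h - 1) with h1 | ⟨r, hr⟩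
    · rcases ih (h + 1) with h2 | ⟨r, hr⟩
      · left; rw [h1, h2]
      · right
        exact ⟨r, by push_cast; omega⟩
    · right
      exact ⟨r + 1, by push_cast; omega⟩

theorem bdCnt_le (m : ℕ) (h : ℤ) :
    bdCnt m h * 4 ^ (m / 2) ≤ (Nat.centralBinom (m / 2)) * 2 ^ m := by
  rcases bdCnt_cases m h with h0 | ⟨r, rfl⟩
  · rw [h0, zero_mul]
    exact Nat.zero_le _
  rw [bdCnt_choose]
  rcases Nat.even_or_odd' m with ⟨l, rfl | rfl⟩
  · have h1 : 2 * l / 2 = l := by omega
    rw [h1, pow_mul]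
    exact Nat.mul_le_mul_right _ (Nat.choose_le_centralBinom r l)
  · have h1 : (2 * l + 1) / 2 = l := by omega
    rw [h1, pow_succ, pow_mul]
    have h2 : (2 * l + 1).choose r ≤ 2 * Nat.centralBinom l := by
      cases r with
      | zero =>
        have := Nat.centralBinom_pos l
        simp
        omega
      | succ r =>
        rw [Nat.choose_succ_succ]
        have h3 := Nat.choose_le_centralBinom r l
        have h4 := Nat.choose_le_centralBinom (r + 1) l
        have h5 : (2 * l).choose r.succ = (2 * l).choose (r + 1) := rfl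
        rw [h5]
        omega
    calc (2 * l + 1).choose r * 4 ^ l ≤ 2 * Nat.centralBinom l * 4 ^ l :=
          Nat.mul_le_mul_right _ h2
      _ = Nat.centralBinom l * ((2 ^ 2) ^ l * 2) := by norm_num; ring

/-- probability of the most likely height -/
noncomputable def bdq (l : ℕ) : ℝ := (Nat.centralBinom l : ℝ) / 4 ^ l

theorem bdq_pos (l : ℕ) : 0 < bdq l := by
  unfold bdq
  have := Nat.centralBinom_pos l
  positivity

theorem bdCnt_div_le (m : ℕ) (h : ℤ) : (bdCnt m h : ℝ) / 2 ^ m ≤ bdq (m / 2) := by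
  unfold bdq
  rw [div_le_div_iff₀ (by positivity) (by positivity)]
  exact_mod_cast bdCnt_le m h

theorem bdq_sq_le (l : ℕ) : bdq l ^ 2 ≤ 1 / (2 * l + 1) := by
  unfold bdq
  have h := bd_upper l
  have h' : ((Nat.centralBinom l : ℝ)) ^ 2 * (2 * l + 1) ≤ 16 ^ l := by exact_mod_cast h
  rw [div_pow, div_le_div_iff₀ (by positivity) (by positivity), one_mul, ← pow_mul, mul_comm l 2,
    pow_mul]
  norm_num
  exact h'

theorem bdq_sq_ge (n : ℕ) : (1 / 4 : ℝ) / (n + 1) ≤ bdq n ^ 2 := by
  rcases Nat.eq_zero_or_pos n with hn | hn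
  · subst hn
    simp [bdq]
    norm_num
  · have h := bd_lower n hn
    have h' : (16 : ℝ) ^ n ≤ 4 * n * (Nat.centralBinom n : ℝ) ^ 2 := by exact_mod_cast h
    unfold bdq
    rw [div_pow, div_div, div_le_div_iff₀ (by positivity) (by positivity), one_mul, ← pow_mul,
      mul_comm n 2, pow_mul]
    norm_num
    have h2 : (0 : ℝ) ≤ (Nat.centralBinom n : ℝ) ^ 2 := by positivity
    nlinarith

theorem bd_pw (m : ℕ) (a b : ℤ) [∀ y : Wd, Decidable (hh (up y) = a ∧ hh (lo y) = b)] :
    Ew m (fun y => if hh (up y) = a ∧ hh (lo y) = b then (1 : ℝ) else 0) =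
      ((bdCnt m a : ℝ) / 2 ^ m) * ((bdCnt m b : ℝ) / 2 ^ m) := by
  classical
  unfold Ew bdCnt
  rw [Finset.card_filter, Finset.card_filter, div_mul_div_comm]
  push_cast
  congr 1
  · rw [← Equiv.sum_comp (Equiv.arrowProdEquivProdArrow (Fin m) (fun _ => Bool)
      (fun _ => Bool)).symm, Fintype.sum_prod_type, Finset.sum_mul_sum]
    apply Finset.sum_congr rfl
    intro s _
    apply Finset.sum_congr rfl
    intro t _
    have h1 : up (List.ofFn ((Equiv.arrowProdEquivProdArrow (Fin m) (fun _ => Bool)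
        (fun _ => Bool)).symm (s, t))) = List.ofFn s := by
      rw [up, List.map_ofFn]
      rfl
    have h2 : lo (List.ofFn ((Equiv.arrowProdEquivProdArrow (Fin m) (fun _ => Bool)
        (fun _ => Bool)).symm (s, t))) = List.ofFn t := by
      rw [lo, List.map_ofFn]
      rfl
    simp only [h1, h2]
    by_cases ha : hh (List.ofFn s) = a <;> by_cases hb : hh (List.ofFn t) = b <;> simp [ha, hb]
  · rw [← mul_pow]
    norm_num

theorem bd_pw_le (m : ℕ) (a b : ℤ) [∀ y : Wd, Decidable (hh (up y) = a ∧ hh (lo y) = b)] :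
    Ew m (fun y => if hh (up y) = a ∧ hh (lo y) = b then (1 : ℝ) else 0) ≤ bdq (m / 2) ^ 2 := by
  rw [bd_pw, pow_two]
  have h1 := bdCnt_div_le m a
  have h2 := bdCnt_div_le m b
  have h3 := bdq_pos (m / 2)
  gcongr

theorem bd_Bal (n : ℕ) : Pw (2 * n) Bal = bdq n ^ 2 := by
  classical
  have hP : Pw (2 * n) Bal = Ew (2 * n)
      (fun y => if hh (up y) = 0 ∧ hh (lo y) = 0 then (1 : ℝ) else 0) := by
    unfold Pw
    apply Ew_congr
    intro y _
    by_cases hb : Bal y
    · have hb' : hh (up y) = 0 ∧ hh (lo y) = 0 := hb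
      rw [if_pos hb, if_pos hb']
    · have hb' : ¬ (hh (up y) = 0 ∧ hh (lo y) = 0) := hb
      rw [if_neg hb, if_neg hb']
  rw [hP, bd_pw]
  have h : bdCnt (2 * n) 0 = Nat.centralBinom n := by
    have h1 := bdCnt_choose (2 * n) n
    have h2 : (2 * (n : ℤ) - ((2 * n : ℕ) : ℤ)) = 0 := by push_cast; ring
    rw [h2] at h1
    rw [h1]
    rfl
  rw [h, bdq, pow_mul]
  norm_num
  ring

theorem bridge_prob : ∃ c : ℝ, 0 < c ∧ ∀ n : ℕ, c / (n + 1) ≤ Pw (2 * n) Bal := by
  refine ⟨1 / 4, by norm_num, fun n => ?_⟩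
  rw [bd_Bal]
  exact bdq_sq_ge n

theorem bd_ratio (n m : ℕ) (hm : n ≤ m) : bdq (m / 2) ^ 2 ≤ 8 * bdq n ^ 2 := by
  have h1 := bdq_sq_le (m / 2)
  have h2 := bdq_sq_ge n
  have h3 : (n : ℝ) + 1 ≤ 2 * (2 * ((m / 2 : ℕ) : ℝ) + 1) := by
    have : n + 1 ≤ 2 * (2 * (m / 2) + 1) := by omega
    exact_mod_cast this
  have h4 : 1 / (2 * ((m / 2 : ℕ) : ℝ) + 1) ≤ 8 * ((1 / 4 : ℝ) / (n + 1)) := by
    rw [div_le_iff₀ (by positivity)]
    have : 8 * ((1 / 4 : ℝ) / (n + 1)) * (2 * ((m / 2 : ℕ) : ℝ) + 1) =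
        (2 * (2 * ((m / 2 : ℕ) : ℝ) + 1)) / (n + 1) := by ring
    rw [this, le_div_iff₀ (by positivity)]
    linarith
  linarith

theorem hh_append (s t : List Bool) : hh (s ++ t) = hh s + hh t := ht_length_append s t

/-- at most half of a balanced word has bounded density -/
theorem bridge_dens : ∃ C : ℝ, 0 < C ∧ ∀ n k : ℕ, k ≤ n → ∀ g : Wd → ℝ, (∀ x, 0 ≤ g x) →
    Br (2 * n) (fun z => g (z.drop (2 * n - k))) ≤ C * Ew k g ∧
    Br (2 * n) (fun z => g (z.take k)) ≤ C * Ew k g := by
  classical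
  refine ⟨8, by norm_num, fun n k hk g hg => ?_⟩
  obtain ⟨m, hm⟩ : ∃ m, 2 * n = k + m := ⟨2 * n - k, by omega⟩
  have hnm : n ≤ m := by omega
  have hr := bd_ratio n m hnm
  have hq := bdq_pos n
  have hEg : 0 ≤ Ew k g := Ew_nonneg fun x _ => hg x
  have hPw := bd_Bal n
  -- the averages
  have key : ∀ (h1 h2 : Wd → ℤ), ∀ x : Wd,
      Ew m (fun y => if hh (up y) = h1 x ∧ hh (lo y) = h2 x then g x else 0) ≤
        8 * bdq n ^ 2 * g x := by
    intro h1 h2 x
    have e1 : Ew m (fun y => if hh (up y) = h1 x ∧ hh (lo y) = h2 x then g x else 0) =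
        g x * Ew m (fun y => if hh (up y) = h1 x ∧ hh (lo y) = h2 x then (1 : ℝ) else 0) := by
      rw [← Ew_mul_left]
      apply Ew_congr
      intro y _
      split_ifs <;> simp
    rw [e1, mul_comm]
    exact mul_le_mul_of_nonneg_right ((bd_pw_le m _ _).trans hr) (hg x)
  have fin : ∀ E : ℝ, E ≤ Ew k (fun x => 8 * bdq n ^ 2 * g x) → E / bdq n ^ 2 ≤ 8 * Ew k g := by
    intro E hE
    rw [div_le_iff₀ (by positivity)]
    rw [Ew_mul_left] at hE
    linarith
  constructor
  · unfold Br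
    rw [hPw]
    apply fin
    have hm' : 2 * n = m + k := by omega
    have hk' : 2 * n - k = m := by omega
    rw [hk', hm', Ew_append, Ew_comm]
    apply Ew_mono
    intro y _
    refine le_trans (le_of_eq ?_) (key (fun y => -hh (up y)) (fun y => -hh (lo y)) y)
    apply Ew_congr
    intro x hx
    have e1 : (x ++ y).drop m = y := by rw [← hx, List.drop_left]
    have e2 : Bal (x ++ y) ↔ (hh (up x) = -hh (up y) ∧ hh (lo x) = -hh (lo y)) := by
      unfold Bal
      rw [up_append, lo_append, hh_append, hh_append]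
      constructor <;> rintro ⟨p, q⟩ <;> constructor <;> omega
    beta_reduce
    by_cases hb : Bal (x ++ y)
    · rw [if_pos hb, if_pos (e2.mp hb), e1]
    · rw [if_neg hb, if_neg (fun h => hb (e2.mpr h))]
  · unfold Br
    rw [hPw]
    apply fin
    rw [hm, Ew_append]
    apply Ew_mono
    intro x hx
    refine le_trans (le_of_eq ?_) (key (fun x => -hh (up x)) (fun x => -hh (lo x)) x)
    apply Ew_congr
    intro y _
    have e1 : (x ++ y).take k = x := by rw [← hx, List.take_left]
    have e2 : Bal (x ++ y) ↔ (hh (up y) = -hh (up x) ∧ hh (lo y) = -hh (lo x)) := by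
      unfold Bal
      rw [up_append, lo_append, hh_append, hh_append]
      constructor <;> rintro ⟨p, q⟩ <;> constructor <;> omega
    beta_reduce
    by_cases hb : Bal (x ++ y)
    · rw [if_pos hb, if_pos (e2.mp hb), e1]
    · rw [if_neg hb, if_neg (fun h => hb (e2.mpr h))]

end MeanderCLT
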