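import Pool.Agent.H98.M.Red
import Pool.Agent.H98.M.Avg

/-!
# Conditioning on balanced words: the first part
-/

open Filter Topology MeasureTheory

namespace MeanderCLT

/-- length of the first part -/
def nf (k n : ℕ) : ℕ := 2 * n - 2 * n / 2 ^ k

/-! ### Elementary facts on words -/

theorem bf_hh_append (s t : List Bool) : hh (s ++ t) = hh s + hh t := by
  induction s with
  | nil => simp [hh, ht_nil]
  | cons b s ih => rw [List.cons_append, hh_cons, hh_cons, ih, add_assoc]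

theorem bf_hh_nil : hh [] = 0 := by simp [hh, ht_nil]

theorem bf_hh_parity (s : List Bool) : ∃ j : ℤ, hh s = 2 * j + s.length := by
  induction s with
  | nil => exact ⟨0, by simp [bf_hh_nil]⟩
  | cons b s ih =>
    obtain ⟨j, hj⟩ := ih
    rw [hh_cons, hj, List.length_cons]
    cases b with
    | true => exact ⟨j, by rw [stp_true]; push_cast; ring⟩
    | false => exact ⟨j - 1, by rw [stp_false]; push_cast; ring⟩

theorem bf_hh_even {s : List Bool} (h : Even s.length) : ∃ j : ℤ, hh s = 2 * j := by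
  obtain ⟨j, hj⟩ := bf_hh_parity s
  obtain ⟨l, hl⟩ := h
  exact ⟨j + l, by rw [hj, hl]; push_cast; ring⟩

/-- the character of a word -/
noncomputable def bfE (s : ℝ) (z : Wd) (p : ℝ × ℝ) : ℂ :=
  Complex.exp (Complex.I * (((p.1 * (hh (up z) : ℝ) + p.2 * (hh (lo z) : ℝ)) / s : ℝ) : ℂ))

theorem bfE_append (s : ℝ) (x y : Wd) (p : ℝ × ℝ) : bfE s (x ++ y) p = bfE s x p * bfE s y p := by
  unfold bfE
  rw [← Complex.exp_add, up_append, lo_append, bf_hh_append, bf_hh_append, ← mul_add]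
  congr 2
  push_cast
  ring

theorem bfE_nil (s : ℝ) (p : ℝ × ℝ) : bfE s [] p = 1 := by
  unfold bfE
  simp [up, lo, bf_hh_nil]

theorem bfE_norm (s : ℝ) (x : Wd) (p : ℝ × ℝ) : ‖bfE s x p‖ = 1 := by
  unfold bfE
  rw [mul_comm]
  exact Complex.norm_exp_ofReal_mul_I _

theorem bfE_cont (s : ℝ) (x : Wd) : Continuous (bfE s x) := by
  unfold bfE
  fun_prop

/-! ### Averages -/

theorem bf_EwC_congr {N : ℕ} {g h : Wd → ℂ} (hgh : ∀ x, x.length = N → g x = h x) :
    EwC N g = EwC N h := by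
  unfold EwC
  congr 1
  exact Finset.sum_congr rfl fun x _ => hgh _ (by simp)

theorem bf_EwC_mul_left (N : ℕ) (c : ℂ) (g : Wd → ℂ) : EwC N (fun x => c * g x) = c * EwC N g := by
  unfold EwC
  rw [← Finset.mul_sum, mul_div_assoc]

theorem bf_EwC_mul_right (N : ℕ) (c : ℂ) (g : Wd → ℂ) : EwC N (fun x => g x * c) = EwC N g * c := by
  unfold EwC
  rw [← Finset.sum_mul]
  ring

theorem bf_EwC_zero (g : Wd → ℂ) : EwC 0 g = g [] := by
  unfold EwC
  simp

theorem bf_EwC_one (g : Wd → ℂ) : EwC 1 g = (g [(true, true)] + g [(true, false)] +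
    g [(false, true)] + g [(false, false)]) / 4 := by
  unfold EwC
  have h : ∑ x : Fin 1 → Ltr, g (List.ofFn x) = ∑ l : Ltr, g [l] := by
    rw [← (Equiv.funUnique (Fin 1) Ltr).symm.sum_comp]
    refine Finset.sum_congr rfl fun l _ => ?_
    congr 1
  rw [h, Fintype.sum_prod_type]
  simp only [Fintype.sum_bool, pow_one]
  ring

theorem bf_EwC_E_one (s : ℝ) (p : ℝ × ℝ) :
    EwC 1 (fun x => bfE s x p) = ((Real.cos (p.1 / s) * Real.cos (p.2 / s) : ℝ) : ℂ) := by
  rw [bf_EwC_one]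
  have h1 : ∀ b c : Bool, bfE s [(b, c)] p = Complex.exp (Complex.I * ((stp b * (p.1 / s) : ℝ) : ℂ)) *
      Complex.exp (Complex.I * ((stp c * (p.2 / s) : ℝ) : ℂ)) := by
    intro b c
    unfold bfE
    rw [← Complex.exp_add, ← mul_add]
    congr 2
    have h2 : hh (up [(b, c)]) = stp b := by
      rw [up_cons, hh_cons]; simp [up, bf_hh_nil]
    have h3 : hh (lo [(b, c)]) = stp c := by
      rw [lo_cons, hh_cons]; simp [lo, bf_hh_nil]
    rw [h2, h3]
    push_cast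
    ring
  rw [h1, h1, h1, h1, stp_true, stp_false]
  have h4 : ∀ x : ℝ, Complex.exp (Complex.I * (((1 : ℤ) * x : ℝ) : ℂ)) +
      Complex.exp (Complex.I * (((-1 : ℤ) * x : ℝ) : ℂ)) = 2 * ((Real.cos x : ℝ) : ℂ) := by
    intro x
    rw [Complex.ofReal_cos, Complex.two_cos]
    push_cast
    congr 2 <;> ring
  have h5 := h4 (p.1 / s)
  have h6 := h4 (p.2 / s)
  push_cast at h5 h6 ⊢
  linear_combination (1 / 4) * (Complex.exp (Complex.I * (1 * (p.2 / s))) +
      Complex.exp (Complex.I * (-1 * (p.2 / s)))) * h5 +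
    (1 / 4) * (2 * Complex.cos (p.1 / s)) * h6

theorem bf_EwC_E (s : ℝ) (p : ℝ × ℝ) (m : ℕ) :
    EwC m (fun x => bfE s x p) = ((Real.cos (p.1 / s) * Real.cos (p.2 / s) : ℝ) : ℂ) ^ m := by
  induction m with
  | zero => rw [bf_EwC_zero, bfE_nil, pow_zero]
  | succ m ih =>
    rw [EwC_append]
    simp only [bfE_append]
    have : ∀ x, EwC 1 (fun y => bfE s x p * bfE s y p) = bfE s x p *
        ((Real.cos (p.1 / s) * Real.cos (p.2 / s) : ℝ) : ℂ) := fun x => by
      rw [bf_EwC_mul_left, bf_EwC_E_one]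
    simp only [this]
    rw [bf_EwC_mul_right, ih, pow_succ]

/-! ### Fourier inversion -/

/-- the interval of integration -/
def bfI (s : ℝ) : Set ℝ := Set.Ioc (-(Real.pi * s / 2)) (Real.pi * s / 2)

theorem bf_one {s : ℝ} (hs : 0 < s) (j : ℤ) :
    ∫ a : ℝ, (bfI s).indicator
      (fun a => Complex.exp (Complex.I * ((a * ((2 * j : ℤ) : ℝ) / s : ℝ) : ℂ))) a
      = if (2 * j : ℤ) = 0 then ((Real.pi * s : ℝ) : ℂ) else 0 := by
  have hle : -(Real.pi * s / 2) ≤ Real.pi * s / 2 := by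
    have := Real.pi_pos
    have : 0 ≤ Real.pi * s / 2 := by positivity
    linarith
  unfold bfI
  rw [integral_indicator measurableSet_Ioc, ← intervalIntegral.integral_of_le hle]
  by_cases hj : j = 0
  · subst hj
    simp only [mul_zero, Int.cast_zero, zero_div, Complex.ofReal_zero, Complex.exp_zero, if_true]
    rw [intervalIntegral.integral_const]
    rw [Complex.real_smul, mul_one]
    congr 1
    ring
  · have hj2 : (2 * j : ℤ) ≠ 0 := by omega
    rw [if_neg hj2]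
    have hsne : (s : ℂ) ≠ 0 := by exact_mod_cast hs.ne'
    have hjne : (j : ℂ) ≠ 0 := by exact_mod_cast hj
    have hc : (Complex.I * (2 * j) / s : ℂ) ≠ 0 := by
      refine div_ne_zero (mul_ne_zero Complex.I_ne_zero (mul_ne_zero two_ne_zero hjne)) hsne
    have h1 : ∀ a : ℝ, Complex.exp (Complex.I * ((a * ((2 * j : ℤ) : ℝ) / s : ℝ) : ℂ))
        = Complex.exp ((Complex.I * (2 * j) / s : ℂ) * a) := by
      intro a
      congr 1
      push_cast
      ring
    simp only [h1]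
    rw [integral_exp_mul_complex hc]
    have h2 : Complex.exp ((Complex.I * (2 * j) / s : ℂ) * ((Real.pi * s / 2 : ℝ) : ℂ))
        = Complex.exp ((Complex.I * (2 * j) / s : ℂ) * ((-(Real.pi * s / 2) : ℝ) : ℂ)) := by
      rw [Complex.exp_eq_exp_iff_exists_int]
      refine ⟨j, ?_⟩
      push_cast
      field_simp
      ring
    rw [h2, sub_self, zero_div]

open Classical in
/-- the kernel of the inversion formula -/
noncomputable def bfK (s : ℝ) (p : ℝ × ℝ) : ℂ := if p.1 ∈ bfI s ∧ p.2 ∈ bfI s then 1 else 0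

open Classical in
theorem bf_two {s : ℝ} (hs : 0 < s) {z : Wd} (hz : Even z.length) :
    ∫ p : ℝ × ℝ, bfK s p * bfE s z p =
      if Bal z then ((Real.pi ^ 2 * s ^ 2 : ℝ) : ℂ) else 0 := by
  obtain ⟨i, hi⟩ := bf_hh_even (s := up z) (by rwa [length_up])
  obtain ⟨j, hj⟩ := bf_hh_even (s := lo z) (by rwa [length_lo])
  have h1 : ∀ p : ℝ × ℝ, bfK s p * bfE s z p =
      (bfI s).indicator
        (fun a => Complex.exp (Complex.I * ((a * ((2 * i : ℤ) : ℝ) / s : ℝ) : ℂ))) p.1 *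
      (bfI s).indicator
        (fun a => Complex.exp (Complex.I * ((a * ((2 * j : ℤ) : ℝ) / s : ℝ) : ℂ))) p.2 := by
    intro p
    have h2 : bfE s z p = Complex.exp (Complex.I * ((p.1 * ((2 * i : ℤ) : ℝ) / s : ℝ) : ℂ)) *
        Complex.exp (Complex.I * ((p.2 * ((2 * j : ℤ) : ℝ) / s : ℝ) : ℂ)) := by
      unfold bfE
      rw [← Complex.exp_add, ← mul_add, hi, hj]
      congr 2
      push_cast
      ring
    rw [h2]
    unfold bfK
    by_cases ha : p.1 ∈ bfI s <;> by_cases hb : p.2 ∈ bfI s <;> simp [ha, hb]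
  simp only [h1]
  rw [MeasureTheory.Measure.volume_eq_prod, integral_prod_mul, bf_one hs, bf_one hs]
  unfold Bal
  rw [hi, hj]
  by_cases ha : (2 * i : ℤ) = 0 <;> by_cases hb : (2 * j : ℤ) = 0
  · rw [if_pos ha, if_pos hb, if_pos ⟨ha, hb⟩]
    push_cast
    ring
  · rw [if_neg (fun h : (2 * i : ℤ) = 0 ∧ (2 * j : ℤ) = 0 => hb h.2), if_neg hb, mul_zero]
  · rw [if_neg (fun h : (2 * i : ℤ) = 0 ∧ (2 * j : ℤ) = 0 => ha h.1), if_neg ha, zero_mul]
  · rw [if_neg (fun h : (2 * i : ℤ) = 0 ∧ (2 * j : ℤ) = 0 => ha h.1), if_neg ha, zero_mul]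

theorem bfK_meas (s : ℝ) : Measurable (bfK s) := by
  unfold bfK
  classical
  refine Measurable.ite ?_ measurable_const measurable_const
  exact (measurableSet_Ioc.preimage measurable_fst).inter (measurableSet_Ioc.preimage measurable_snd)

theorem bfK_norm_le (s : ℝ) (p : ℝ × ℝ) : ‖bfK s p‖ ≤ 1 := by
  unfold bfK
  classical
  split_ifs <;> simp

theorem bfK_integrable (s : ℝ) : Integrable (bfK s) := by
  have h : bfK s = (bfI s ×ˢ bfI s).indicator (fun _ => (1 : ℂ)) := by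
    classical
    funext p
    unfold bfK
    simp [Set.indicator, Set.mem_prod]
  rw [h]
  refine (integrable_indicator_iff (measurableSet_Ioc.prod measurableSet_Ioc)).2 ?_
  refine integrableOn_const ?_
  rw [MeasureTheory.Measure.volume_eq_prod, MeasureTheory.Measure.prod_prod, Real.volume_Ioc]
  exact ENNReal.mul_ne_top ENNReal.ofReal_ne_top ENNReal.ofReal_ne_top

theorem bfKE_integrable (s : ℝ) (z : Wd) : Integrable (fun p => bfK s p * bfE s z p) := by
  refine (bfK_integrable s).mul_bdd (c := 1) (bfE_cont s z).aestronglyMeasurable ?_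
  exact Filter.Eventually.of_forall fun p => (bfE_norm s z p).le

open Classical in
/-- the inversion formula for averages -/
theorem bf_main {s : ℝ} (hs : 0 < s) (N m : ℕ) (h2 : Even (N + m)) (G : Wd → ℂ) :
    ((Real.pi ^ 2 * s ^ 2 : ℝ) : ℂ) * EwC (N + m) (fun z => if Bal z then G (z.take N) else 0) =
      ∫ p : ℝ × ℝ, bfK s p * (EwC N (fun x => G x * bfE s x p) *
        ((Real.cos (p.1 / s) * Real.cos (p.2 / s) : ℝ) : ℂ) ^ m) := by
  have e1 : ((Real.pi ^ 2 * s ^ 2 : ℝ) : ℂ) * EwC (N + m) (fun z => if Bal z then G (z.take N) else 0)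
      = EwC (N + m) (fun z => ∫ p : ℝ × ℝ, G (z.take N) * (bfK s p * bfE s z p)) := by
    rw [← bf_EwC_mul_left]
    refine bf_EwC_congr fun z hz => ?_
    rw [integral_const_mul, bf_two hs (by rwa [hz])]
    split_ifs <;> ring
  have e2 : EwC (N + m) (fun z => ∫ p : ℝ × ℝ, G (z.take N) * (bfK s p * bfE s z p))
      = ∫ p : ℝ × ℝ, EwC (N + m) (fun z => G (z.take N) * (bfK s p * bfE s z p)) := by
    unfold EwC
    rw [integral_div, integral_finsetSum]
    intro x _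
    exact (bfKE_integrable s _).const_mul _
  rw [e1, e2]
  refine integral_congr_ae (Filter.Eventually.of_forall fun p => ?_)
  show EwC (N + m) (fun z => G (z.take N) * (bfK s p * bfE s z p)) = _
  rw [EwC_append]
  have e3 : EwC N (fun x => EwC m (fun y => G ((x ++ y).take N) * (bfK s p * bfE s (x ++ y) p)))
      = EwC N (fun x => bfK s p * (G x * bfE s x p) *
        ((Real.cos (p.1 / s) * Real.cos (p.2 / s) : ℝ) : ℂ) ^ m) := by
    refine bf_EwC_congr fun x hx => ?_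
    have e4 : ∀ y : Wd, G ((x ++ y).take N) * (bfK s p * bfE s (x ++ y) p) =
        (bfK s p * (G x * bfE s x p)) * bfE s y p := by
      intro y
      rw [bfE_append, ← hx, List.take_left']
      · ring
      · rfl
    simp only [e4]
    rw [bf_EwC_mul_left, bf_EwC_E]
  rw [e3, bf_EwC_mul_right, bf_EwC_mul_left, mul_assoc]

/-! ### Limits -/

/-- powers of numbers close to one -/
theorem bf_pow_limit {m : ℕ → ℕ} {g : ℕ → ℝ} {t : ℝ} (hg : Tendsto g atTop (𝓝 0))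
    (hm : Tendsto (fun n => (m n : ℝ) * g n) atTop (𝓝 t)) :
    Tendsto (fun n => (1 + g n) ^ m n) atTop (𝓝 (Real.exp t)) := by
  have h1 : Tendsto (fun n => Real.exp ((m n : ℝ) * Real.log (1 + g n))) atTop (𝓝 (Real.exp t)) := by
    refine (Real.continuous_exp.tendsto t).comp ?_
    have hlow : Tendsto (fun n => (m n : ℝ) * g n / (1 + g n)) atTop (𝓝 t) := by
      have h2 : Tendsto (fun n => 1 + g n) atTop (𝓝 1) := by simpa using hg.const_add 1
      have h3 := hm.div h2 one_ne_zero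
      rw [div_one] at h3
      exact h3
    have hev : ∀ᶠ n in atTop, -(1 / 2) < g n := hg.eventually_const_lt (by norm_num)
    refine tendsto_of_tendsto_of_tendsto_of_le_of_le' hlow hm ?_ ?_
    · filter_upwards [hev] with n hn
      have hp : 0 < 1 + g n := by linarith
      have h3 := Real.one_sub_inv_le_log_of_pos hp
      have h4 : g n / (1 + g n) = 1 - (1 + g n)⁻¹ := by field_simp; ring
      rw [mul_div_assoc, h4]
      exact mul_le_mul_of_nonneg_left h3 (Nat.cast_nonneg _)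
    · filter_upwards [hev] with n hn
      have hp : 0 < 1 + g n := by linarith
      have h3 := Real.log_le_sub_one_of_pos hp
      refine mul_le_mul_of_nonneg_left ?_ (Nat.cast_nonneg _)
      linarith
  refine h1.congr' ?_
  have hev : ∀ᶠ n in atTop, -(1 / 2) < g n := hg.eventually_const_lt (by norm_num)
  filter_upwards [hev] with n hn
  have hp : 0 < 1 + g n := by linarith
  rw [mul_comm, Real.exp_mul, Real.exp_log hp, Real.rpow_natCast]

theorem bf_cos_limit {m : ℕ → ℕ} {s : ℕ → ℝ} {r a : ℝ} (hs : Tendsto s atTop atTop)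
    (hm : Tendsto (fun n => (m n : ℝ) / s n ^ 2) atTop (𝓝 r)) :
    Tendsto (fun n => Real.cos (a / s n) ^ m n) atTop (𝓝 (Real.exp (-(r * a ^ 2 / 2)))) := by
  have hx : Tendsto (fun n => a / s n) atTop (𝓝 0) := hs.const_div_atTop a
  have hg : Tendsto (fun n => Real.cos (a / s n) - 1) atTop (𝓝 0) := by
    have h := (Real.continuous_cos.tendsto 0).comp hx
    rw [Real.cos_zero] at h
    simpa using h.sub_const 1
  have hmain : Tendsto (fun n => (m n : ℝ) * (a / s n) ^ 2) atTop (𝓝 (r * a ^ 2)) := by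
    have h := hm.mul_const (a ^ 2)
    refine h.congr fun n => ?_
    rw [div_pow]; ring
  have herr : Tendsto (fun n => (m n : ℝ) * (a / s n) ^ 2 * ((a / s n) ^ 2 * (5 / 96))) atTop
      (𝓝 0) := by
    have h2 : Tendsto (fun n => (a / s n) ^ 2 * (5 / 96 : ℝ)) atTop (𝓝 0) := by
      simpa using (hx.pow 2).mul_const (5 / 96 : ℝ)
    simpa using hmain.mul h2
  have hmg : Tendsto (fun n => (m n : ℝ) * (Real.cos (a / s n) - 1)) atTop
      (𝓝 (-(r * a ^ 2 / 2))) := by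
    have h3 : Tendsto (fun n => (m n : ℝ) * (Real.cos (a / s n) - 1) +
        (m n : ℝ) * (a / s n) ^ 2 / 2) atTop (𝓝 0) := by
      refine squeeze_zero_norm' ?_ herr
      have hev : ∀ᶠ n in atTop, |a / s n| < 1 := by
        have := hx.abs
        rw [abs_zero] at this
        exact this.eventually_lt_const one_pos
      filter_upwards [hev] with n hn
      have h4 := Real.cos_bound hn.le
      have h5 : (m n : ℝ) * (Real.cos (a / s n) - 1) + (m n : ℝ) * (a / s n) ^ 2 / 2 =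
          (m n : ℝ) * (Real.cos (a / s n) - (1 - (a / s n) ^ 2 / 2)) := by ring
      rw [h5, norm_mul, Real.norm_eq_abs, Real.norm_eq_abs, abs_of_nonneg (Nat.cast_nonneg (m n))]
      have h6 : |a / s n| ^ 4 = (a / s n) ^ 4 := by
        rw [show (4 : ℕ) = 2 * 2 from rfl, pow_mul, pow_mul, sq_abs]
      rw [h6] at h4
      calc (m n : ℝ) * |Real.cos (a / s n) - (1 - (a / s n) ^ 2 / 2)|
          ≤ (m n : ℝ) * ((a / s n) ^ 4 * (5 / 96)) :=
            mul_le_mul_of_nonneg_left h4 (Nat.cast_nonneg _)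
        _ = (m n : ℝ) * (a / s n) ^ 2 * ((a / s n) ^ 2 * (5 / 96)) := by ring
    have h4 := h3.sub (hmain.div_const 2)
    rw [zero_sub] at h4
    refine h4.congr fun n => ?_
    ring
  have h := bf_pow_limit hg hmg
  refine h.congr fun n => ?_
  congr 1
  ring

theorem bf_cos_bound {s a : ℝ} (hs : 0 < s) (ha : a ∈ bfI s) (m : ℕ) {c : ℝ}
    (hc : c * s ^ 2 ≤ 2 / Real.pi ^ 2 * m) : |Real.cos (a / s)| ^ m ≤ Real.exp (-c * a ^ 2) := by
  have hpi := Real.pi_pos
  have h1 : |a / s| ≤ Real.pi / 2 := by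
    rw [abs_div, abs_of_pos hs, div_le_iff₀ hs, abs_le]
    unfold bfI at ha
    constructor
    · have := ha.1; linarith
    · have := ha.2; linarith
  have h2 : 0 ≤ Real.cos (a / s) := Real.cos_nonneg_of_neg_pi_div_two_le_of_le (abs_le.1 h1).1 (abs_le.1 h1).2
  rw [abs_of_nonneg h2]
  have h3 : Real.cos (a / s) ≤ 1 - 2 / Real.pi ^ 2 * (a / s) ^ 2 :=
    Real.cos_le_one_sub_mul_cos_sq (by linarith)
  have h4 : Real.cos (a / s) ≤ Real.exp (-(2 / Real.pi ^ 2 * (a / s) ^ 2)) := by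
    have := Real.add_one_le_exp (-(2 / Real.pi ^ 2 * (a / s) ^ 2))
    linarith
  refine (pow_le_pow_left₀ h2 h4 m).trans ?_
  rw [← Real.exp_nat_mul]
  refine Real.exp_le_exp.2 ?_
  have h5 : c * a ^ 2 ≤ 2 / Real.pi ^ 2 * m * (a / s) ^ 2 := by
    have h6 : c * a ^ 2 = c * s ^ 2 * (a / s) ^ 2 := by field_simp
    rw [h6]
    exact mul_le_mul_of_nonneg_right hc (sq_nonneg _)
  linarith

theorem bf_div_limit (k : ℕ) :
    Tendsto (fun n : ℕ => ((2 * n / 2 ^ k : ℕ) : ℝ) / (2 * n)) atTop (𝓝 (1 / 2 ^ k)) := by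
  have h1 : Tendsto (fun n : ℕ => (1 / 2 ^ k : ℝ) - 1 / 2 * (1 / (n : ℝ))) atTop
      (𝓝 (1 / 2 ^ k)) := by
    have h := (tendsto_one_div_atTop_nhds_zero_nat (𝕜 := ℝ)).const_mul (1 / 2 : ℝ)
    simpa using h.const_sub (1 / 2 ^ k : ℝ)
  refine tendsto_of_tendsto_of_tendsto_of_le_of_le' h1 tendsto_const_nhds ?_ ?_
  · filter_upwards [eventually_gt_atTop 0] with n hn
    have hn' : (0 : ℝ) < n := by exact_mod_cast hn
    have h2 : 2 * n < (2 * n / 2 ^ k + 1) * 2 ^ k := by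
      have h := Nat.lt_mul_div_succ (2 * n) (show 0 < 2 ^ k by positivity)
      calc 2 * n < 2 ^ k * (2 * n / 2 ^ k + 1) := h
        _ = (2 * n / 2 ^ k + 1) * 2 ^ k := mul_comm _ _
    have h3 : (2 * n : ℝ) < (((2 * n / 2 ^ k : ℕ) : ℝ) + 1) * 2 ^ k := by exact_mod_cast h2
    rw [le_div_iff₀ (by positivity)]
    have h4 : (2 * n : ℝ) / 2 ^ k < ((2 * n / 2 ^ k : ℕ) : ℝ) + 1 := by
      rw [div_lt_iff₀ (by positivity)]; exact h3
    have h5 : ((1 / 2 ^ k : ℝ) - 1 / 2 * (1 / (n : ℝ))) * (2 * n) = (2 * n : ℝ) / 2 ^ k - 1 := by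
      field_simp
    rw [h5]
    linarith
  · filter_upwards [eventually_gt_atTop 0] with n hn
    have hn' : (0 : ℝ) < n := by exact_mod_cast hn
    have h2 : (2 * n / 2 ^ k) * 2 ^ k ≤ 2 * n := Nat.div_mul_le_self _ _
    have h3 : (((2 * n / 2 ^ k : ℕ) : ℝ)) * 2 ^ k ≤ 2 * n := by exact_mod_cast h2
    rw [div_le_div_iff₀ (by positivity) (by positivity)]
    linarith

theorem bf_nf_cast (k n : ℕ) : ((nf k n : ℕ) : ℝ) = 2 * n - ((2 * n / 2 ^ k : ℕ) : ℝ) := by
  unfold nf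
  rw [Nat.cast_sub (Nat.div_le_self _ _)]
  push_cast
  ring

theorem bf_nf_ge {k : ℕ} (hk : 1 ≤ k) (n : ℕ) : n ≤ nf k n := by
  unfold nf
  have h1 : 2 * n / 2 ^ k ≤ 2 * n / 2 ^ 1 := Nat.div_le_div_left (Nat.pow_le_pow_right two_pos hk) (by norm_num)
  omega

theorem bf_nf_add (k n : ℕ) : nf k n + 2 * n / 2 ^ k = 2 * n := by
  unfold nf
  have := Nat.div_le_self (2 * n) (2 ^ k)
  omega

theorem bf_ratio {k : ℕ} (hk : 1 ≤ k) : ∃ ρ : ℝ, 0 < ρ ∧ Tendsto (fun n : ℕ =>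
    ((2 * n / 2 ^ k : ℕ) : ℝ) / (Real.sqrt (nf k n)) ^ 2) atTop (𝓝 ρ) := by
  have hq : (1 / 2 ^ k : ℝ) ≤ 1 / 2 := by
    have : (2 : ℝ) ^ 1 ≤ 2 ^ k := pow_le_pow_right₀ (by norm_num) hk
    rw [pow_one] at this
    exact one_div_le_one_div_of_le (by norm_num) this
  refine ⟨(1 / 2 ^ k) / (1 - 1 / 2 ^ k), div_pos (by positivity) (by linarith), ?_⟩
  have h1 := bf_div_limit k
  have h2 : Tendsto (fun n : ℕ => 1 - ((2 * n / 2 ^ k : ℕ) : ℝ) / (2 * n)) atTop
      (𝓝 (1 - 1 / 2 ^ k)) := h1.const_sub 1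
  have h3 := h1.div h2 (by linarith)
  refine h3.congr' ?_
  filter_upwards [eventually_gt_atTop 0] with n hn
  have hn' : (0 : ℝ) < n := by exact_mod_cast hn
  rw [Real.sq_sqrt (Nat.cast_nonneg _), bf_nf_cast]
  have hN : (0 : ℝ) < 2 * n - ((2 * n / 2 ^ k : ℕ) : ℝ) := by
    rw [← bf_nf_cast]
    exact_mod_cast lt_of_lt_of_le hn (bf_nf_ge hk n)
  simp only [Pi.div_apply]
  have h5 : (1 : ℝ) - ((2 * n / 2 ^ k : ℕ) : ℝ) / (2 * n) =
      (2 * n - ((2 * n / 2 ^ k : ℕ) : ℝ)) / (2 * n) := by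
    field_simp
  rw [h5, div_div_div_cancel_right₀ (by positivity)]

theorem bf_Psi_eq (f : Wd → ℝ) (N : ℕ) (θ : ℝ) (p : ℝ × ℝ) :
    EwC N (fun x => Complex.exp (Complex.I * ((θ * (f x - Ew N f) / sg N f : ℝ) : ℂ)) *
      bfE (Real.sqrt N) x p) = Psi f N θ p.1 p.2 := by
  unfold Psi bfE
  congr 1
  funext x
  rw [← Complex.exp_add, ← mul_add]
  congr 2
  push_cast
  ring

theorem bf_Psi_norm (f : Wd → ℝ) (N : ℕ) (θ a b : ℝ) : ‖Psi f N θ a b‖ ≤ 1 := by
  unfold Psi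
  refine (EwC_norm_le _ _).trans ?_
  have : ∀ y : ℝ, ‖Complex.exp (Complex.I * (y : ℂ))‖ = 1 := by
    intro y
    rw [mul_comm]
    exact Complex.norm_exp_ofReal_mul_I _
  simp only [this]
  rw [Ew_const]

theorem bf_Psi_cont (f : Wd → ℝ) (N : ℕ) (θ : ℝ) : Continuous (fun p : ℝ × ℝ => Psi f N θ p.1 p.2) := by
  unfold Psi EwC
  refine Continuous.div_const ?_ _
  refine continuous_finsetSum _ fun x _ => ?_
  fun_prop

/-- the integrand -/
noncomputable def bfF (f : Wd → ℝ) (N m : ℕ) (θ : ℝ) (p : ℝ × ℝ) : ℂ :=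
  bfK (Real.sqrt N) p * (Psi f N θ p.1 p.2 *
    ((Real.cos (p.1 / Real.sqrt N) * Real.cos (p.2 / Real.sqrt N) : ℝ) : ℂ) ^ m)

/-- the limit of the integrand -/
noncomputable def bfL (ρ θ : ℝ) (p : ℝ × ℝ) : ℂ :=
  ((Real.exp (-(θ ^ 2 + p.1 ^ 2 + p.2 ^ 2) / 2) : ℝ) : ℂ) *
    ((Real.exp (-(ρ * p.1 ^ 2 / 2)) * Real.exp (-(ρ * p.2 ^ 2 / 2)) : ℝ) : ℂ)

theorem bf_int_limit {f : Wd → ℝ} (hclt : ∀ θ a b : ℝ, Tendsto (fun n : ℕ => Psi f n θ a b) atTop
      (𝓝 ((Real.exp (-(θ ^ 2 + a ^ 2 + b ^ 2) / 2) : ℝ) : ℂ))) {k : ℕ} (hk : 1 ≤ k) (θ : ℝ)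
    {ρ : ℝ} (hρ : 0 < ρ) (hlim : Tendsto (fun n : ℕ =>
    ((2 * n / 2 ^ k : ℕ) : ℝ) / (Real.sqrt (nf k n)) ^ 2) atTop (𝓝 ρ)) :
    Tendsto (fun n : ℕ => ∫ p : ℝ × ℝ, bfF f (nf k n) (2 * n / 2 ^ k) θ p) atTop
      (𝓝 (∫ p : ℝ × ℝ, bfL ρ θ p)) := by
  have hN : Tendsto (nf k) atTop atTop := tendsto_atTop_mono (bf_nf_ge hk) tendsto_id
  have hs : Tendsto (fun n => Real.sqrt (nf k n)) atTop atTop :=
    (Real.tendsto_sqrt_atTop).comp (tendsto_natCast_atTop_atTop.comp hN)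
  have hpi := Real.pi_pos
  set c : ℝ := ρ / Real.pi ^ 2 with hc
  have hc0 : 0 < c := by positivity
  refine tendsto_integral_filter_of_dominated_convergence
    (fun p => Real.exp (-c * p.1 ^ 2) * Real.exp (-c * p.2 ^ 2)) ?_ ?_ ?_ ?_
  · refine Eventually.of_forall fun n => ?_
    unfold bfF
    refine (bfK_meas _).aestronglyMeasurable.mul ?_
    refine Continuous.aestronglyMeasurable ?_
    have := bf_Psi_cont f (nf k n) θ
    refine this.mul ?_
    fun_prop
  · have h1 : ∀ᶠ n : ℕ in atTop, ρ / 2 < ((2 * n / 2 ^ k : ℕ) : ℝ) / (Real.sqrt (nf k n)) ^ 2 :=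
      hlim.eventually_const_lt (by linarith)
    filter_upwards [h1, eventually_gt_atTop 0] with n hn hn0
    refine Eventually.of_forall fun p => ?_
    have hNpos : (0 : ℝ) < nf k n := by exact_mod_cast lt_of_lt_of_le hn0 (bf_nf_ge hk n)
    have hspos : 0 < Real.sqrt (nf k n) := Real.sqrt_pos.2 hNpos
    have hcc : c * (Real.sqrt (nf k n)) ^ 2 ≤ 2 / Real.pi ^ 2 * ((2 * n / 2 ^ k : ℕ) : ℝ) := by
      rw [lt_div_iff₀ (by positivity)] at hn
      have h3 : c * (Real.sqrt (nf k n)) ^ 2 = 2 / Real.pi ^ 2 * (ρ / 2 * (Real.sqrt (nf k n)) ^ 2) := by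
        rw [hc]; ring
      rw [h3]
      exact mul_le_mul_of_nonneg_left hn.le (by positivity)
    unfold bfF
    by_cases hp : p.1 ∈ bfI (Real.sqrt (nf k n)) ∧ p.2 ∈ bfI (Real.sqrt (nf k n))
    · have e1 := bf_cos_bound hspos hp.1 (2 * n / 2 ^ k) hcc
      have e2 := bf_cos_bound hspos hp.2 (2 * n / 2 ^ k) hcc
      rw [norm_mul, norm_mul, norm_pow, Complex.norm_real, Real.norm_eq_abs, abs_mul, mul_pow]
      calc ‖bfK (Real.sqrt (nf k n)) p‖ * (‖Psi f (nf k n) θ p.1 p.2‖ *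
            (|Real.cos (p.1 / Real.sqrt (nf k n))| ^ (2 * n / 2 ^ k) *
              |Real.cos (p.2 / Real.sqrt (nf k n))| ^ (2 * n / 2 ^ k)))
          ≤ 1 * (1 * (Real.exp (-c * p.1 ^ 2) * Real.exp (-c * p.2 ^ 2))) := by
            gcongr
            · exact bfK_norm_le _ _
            · exact bf_Psi_norm _ _ _ _ _
        _ = _ := by ring
    · have : bfK (Real.sqrt (nf k n)) p = 0 := by
        unfold bfK
        rw [if_neg hp]
      rw [this, zero_mul, norm_zero]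
      positivity
  · have h1 := integrable_exp_neg_mul_sq hc0
    have h2 := h1.mul_prod h1
    rw [MeasureTheory.Measure.volume_eq_prod]
    exact h2
  · refine Eventually.of_forall fun p => ?_
    unfold bfF bfL
    have e1 : Tendsto (fun n => bfK (Real.sqrt (nf k n)) p) atTop (𝓝 1) := by
      refine tendsto_const_nhds.congr' ?_
      have h1 : ∀ x : ℝ, ∀ᶠ n in atTop, x ∈ bfI (Real.sqrt (nf k n)) := by
        intro x
        have h2 : Tendsto (fun n => Real.pi * Real.sqrt (nf k n) / 2) atTop atTop :=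
          (hs.const_mul_atTop hpi).atTop_div_const two_pos
        filter_upwards [h2.eventually_gt_atTop (|x|)] with n hn
        unfold bfI
        have := abs_lt.1 hn
        exact ⟨this.1, this.2.le⟩
      filter_upwards [h1 p.1, h1 p.2] with n h3 h4
      unfold bfK
      rw [if_pos ⟨h3, h4⟩]
    have e2 : Tendsto (fun n => Psi f (nf k n) θ p.1 p.2) atTop
        (𝓝 ((Real.exp (-(θ ^ 2 + p.1 ^ 2 + p.2 ^ 2) / 2) : ℝ) : ℂ)) := (hclt θ p.1 p.2).comp hN
    have e3 := (bf_cos_limit (a := p.1) hs hlim).mul (bf_cos_limit (a := p.2) hs hlim)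
    have e4 : Tendsto (fun n : ℕ => ((Real.cos (p.1 / Real.sqrt (nf k n)) *
        Real.cos (p.2 / Real.sqrt (nf k n)) : ℝ) : ℂ) ^ (2 * n / 2 ^ k)) atTop
        (𝓝 ((Real.exp (-(ρ * p.1 ^ 2 / 2)) * Real.exp (-(ρ * p.2 ^ 2 / 2)) : ℝ) : ℂ)) := by
      have := (Complex.continuous_ofReal.tendsto _).comp e3
      refine this.congr fun n => ?_
      simp only [Function.comp]
      rw [← mul_pow]
      push_cast
      rfl
    have := e1.mul (e2.mul e4)
    rwa [one_mul] at this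

theorem bfL_factor (ρ θ : ℝ) (p : ℝ × ℝ) :
    bfL ρ θ p = ((Real.exp (-θ ^ 2 / 2) : ℝ) : ℂ) * bfL ρ 0 p := by
  unfold bfL
  rw [← mul_assoc, ← Complex.ofReal_mul, ← Complex.ofReal_mul, ← Complex.ofReal_mul]
  congr 1
  rw [← Real.exp_add, ← Real.exp_add, ← Real.exp_add, ← Real.exp_add]
  congr 1
  ring

theorem bfL_ne {ρ : ℝ} (hρ : 0 < ρ) : ∫ p : ℝ × ℝ, bfL ρ 0 p ≠ 0 := by
  have h1 : ∀ p : ℝ × ℝ, bfL ρ 0 p =
      ((Real.exp (-((1 + ρ) / 2) * p.1 ^ 2) * Real.exp (-((1 + ρ) / 2) * p.2 ^ 2) : ℝ) : ℂ) := by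
    intro p
    unfold bfL
    rw [← Complex.ofReal_mul]
    congr 1
    rw [← Real.exp_add, ← Real.exp_add, ← Real.exp_add]
    congr 1
    ring
  have h2 : ∫ p : ℝ × ℝ, bfL ρ 0 p = ((∫ p : ℝ × ℝ, Real.exp (-((1 + ρ) / 2) * p.1 ^ 2) *
      Real.exp (-((1 + ρ) / 2) * p.2 ^ 2) : ℝ) : ℂ) := by
    rw [← integral_complex_ofReal]
    exact integral_congr_ae (Eventually.of_forall h1)
  rw [h2, MeasureTheory.Measure.volume_eq_prod,
    integral_prod_mul (fun x : ℝ => Real.exp (-((1 + ρ) / 2) * x ^ 2))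
      (fun x : ℝ => Real.exp (-((1 + ρ) / 2) * x ^ 2)), integral_gaussian]
  have : 0 < Real.sqrt (Real.pi / ((1 + ρ) / 2)) := Real.sqrt_pos.2 (by positivity)
  exact_mod_cast (mul_pos this this).ne'

/-- under the law of balanced words of length `2n` the first part satisfies the same CLT -/
theorem bridge_first {f : Wd → ℝ} (hclt : ∀ θ a b : ℝ, Tendsto (fun n : ℕ => Psi f n θ a b) atTop
      (𝓝 ((Real.exp (-(θ ^ 2 + a ^ 2 + b ^ 2) / 2) : ℝ) : ℂ))) {k : ℕ} (hk : 1 ≤ k) (θ : ℝ) :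
    Tendsto (fun n : ℕ => BrC (2 * n) (fun z => Complex.exp (Complex.I *
      ((θ * (f (z.take (nf k n)) - Ew (nf k n) f) / sg (nf k n) f : ℝ) : ℂ)))) atTop
      (𝓝 ((Real.exp (-θ ^ 2 / 2) : ℝ) : ℂ)) := by
  classical
  obtain ⟨ρ, hρ, hlim⟩ := bf_ratio hk
  have hT := bf_int_limit hclt hk θ hρ hlim
  have h0 := bf_int_limit hclt hk 0 hρ hlim
  have hne := bfL_ne hρ
  have hdiv := hT.div h0 hne
  have hval : (∫ p : ℝ × ℝ, bfL ρ θ p) / (∫ p : ℝ × ℝ, bfL ρ 0 p) =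
      ((Real.exp (-θ ^ 2 / 2) : ℝ) : ℂ) := by
    simp only [bfL_factor ρ θ]
    rw [integral_const_mul, mul_div_assoc, div_self hne, mul_one]
  rw [hval] at hdiv
  refine hdiv.congr' ?_
  filter_upwards [eventually_gt_atTop 0] with n hn
  have hNpos : (0 : ℝ) < nf k n := by exact_mod_cast lt_of_lt_of_le hn (bf_nf_ge hk n)
  have hspos : 0 < Real.sqrt (nf k n) := Real.sqrt_pos.2 hNpos
  have key : ∀ t : ℝ, ∫ p : ℝ × ℝ, bfF f (nf k n) (2 * n / 2 ^ k) t p =
      ((Real.pi ^ 2 * (Real.sqrt (nf k n)) ^ 2 : ℝ) : ℂ) *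
        EwC (2 * n) (fun z => if Bal z then Complex.exp (Complex.I *
      ((t * (f (z.take (nf k n)) - Ew (nf k n) f) / sg (nf k n) f : ℝ) : ℂ)) else 0) := by
    intro t
    have h1 := bf_main hspos (nf k n) (2 * n / 2 ^ k) (by rw [bf_nf_add]; exact even_two_mul n)
      (fun x => Complex.exp (Complex.I * ((t * (f x - Ew (nf k n) f) / sg (nf k n) f : ℝ) : ℂ)))
    rw [bf_nf_add] at h1
    rw [h1]
    refine integral_congr_ae (Eventually.of_forall fun p => ?_)
    simp only [bf_Psi_eq]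
    rfl
  simp only [Pi.div_apply]
  rw [key θ, key 0]
  have hc : ((Real.pi ^ 2 * (Real.sqrt (nf k n)) ^ 2 : ℝ) : ℂ) ≠ 0 := by
    have : (0 : ℝ) < Real.pi ^ 2 * (Real.sqrt (nf k n)) ^ 2 := by positivity
    exact_mod_cast this.ne'
  rw [mul_div_mul_left _ _ hc]
  unfold BrC
  congr 1
  unfold Pw
  rw [← EwC_ofReal]
  congr 1
  funext z
  by_cases hz : Bal z
  · rw [if_pos hz, if_pos hz]
    simp
  · rw [if_neg hz, if_neg hz]
    simp

end MeanderCLT
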