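import Pool.Agent.H98.M.Rec
import Pool.Agent.H98.M.Loops

/-!
# The cyclic closure of a word
-/

namespace MeanderCLT

theorem cj_symm {s : List Bool} {i j : ℕ} (h : cj s i j) : cj s j i := by
  obtain ⟨h1, h2, k, h3⟩ := h
  exact ⟨h2, h1, k, h3.symm⟩

theorem cj_ufree {s : List Bool} {i j : ℕ} (h : cj s i j) : ufree s i := by
  obtain ⟨h1, h2, k, h3 | h3⟩ := h
  · exact rc_ufree h3.1
  · exact rc_mir_ufree h1 h3.2

theorem cyg_rc_mir_false {s : List Bool} {i k k' : ℕ} (hi : i < s.length) (h : rc s i k)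
    (h' : rc (mir s) (s.length - 1 - i) k') : False := by
  have e1 := rc_letter h
  have e2 := rc_mir_letter hi h'
  rw [e1] at e2
  simp at e2

theorem isMat_cyc (s : List Bool) : IsMat (Or2 (Arc s) (cj s)) := by
  refine ⟨?_, ?_, ?_⟩
  · rintro x y (h | h)
    · exact Or.inl ((isMat_Arc s).symm h)
    · exact Or.inr (cj_symm h)
  · rintro x y z (h | h) (h' | h')
    · exact (isMat_Arc s).func h h'
    · exact ((cj_ufree h').2 y h).elim
    · exact ((cj_ufree h).2 z h').elim
    · obtain ⟨hx, hy, k, h⟩ := h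
      obtain ⟨_, hz, k', h'⟩ := h'
      rcases h with ⟨h1, h2⟩ | ⟨h1, h2⟩ <;> rcases h' with ⟨h1', h2'⟩ | ⟨h1', h2'⟩
      · have e := rc_idx_unique h1 h1'
        subst e
        have := rc_pos_unique h2 h2'
        omega
      · exact (cyg_rc_mir_false hx h1 h2').elim
      · exact (cyg_rc_mir_false hx h1' h2).elim
      · have e := rc_idx_unique h2 h2'
        subst e
        exact rc_pos_unique h1 h1'
  · rintro x (h | h)
    · exact (isMat_Arc s).irrefl x h
    · obtain ⟨hx, _, k, h | h⟩ := h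
      · exact cyg_rc_mir_false hx h.1 h.2
      · exact cyg_rc_mir_false hx h.1 h.2

theorem Arc_cj_disj (s : List Bool) (i j : ℕ) : ¬ (Arc s i j ∧ cj s i j) := by
  rintro ⟨h1, h2⟩
  exact (cj_ufree h2).2 j h1

theorem ccyc_eq (z : Wd) : ccyc z = cc z + nucyc z := by
  classical
  unfold ccyc cc nucyc cloops
  rw [card_loops_glue (isMat_cyc (up z)) (isMat_cyc (lo z)) (Arc_cj_disj (up z))
    (Arc_cj_disj (lo z))]

open Classical in
/-- the position of the unmatched closing bracket number `k` -/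
noncomputable def cyg_rpos (s : List Bool) (k : ℕ) : ℕ :=
  if h : ∃ i, rc s i k then h.choose else 0

theorem cyg_rpos_eq {s : List Bool} {i k : ℕ} (h : rc s i k) : cyg_rpos s k = i := by
  unfold cyg_rpos
  have h' : ∃ i, rc s i k := ⟨i, h⟩
  rw [dif_pos h']
  exact rc_pos_unique h'.choose_spec h

theorem cyg_rpos_spec {s : List Bool} {k : ℕ} (h : k < uc s) : rc s (cyg_rpos s k) k := by
  obtain ⟨i, hi⟩ := rc_exists h
  rw [cyg_rpos_eq hi]
  exact hi

/-- every cyclic arc has an end in a set with `min (uc s) (uo s)` elements -/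
theorem cj_hit {s : List Bool} {i j : ℕ} (h : cj s i j) :
    i ∈ (Finset.range (min (uc s) (uo s))).image (cyg_rpos s) ∨
      j ∈ (Finset.range (min (uc s) (uo s))).image (cyg_rpos s) := by
  obtain ⟨_, _, k, ⟨h1, h2⟩ | ⟨h1, h2⟩⟩ := h
  · left
    have e1 := rc_lt h1
    have e2 := rc_lt h2
    rw [uc_mir] at e2
    exact Finset.mem_image.mpr ⟨k, Finset.mem_range.mpr (by omega), cyg_rpos_eq h1⟩
  · right
    have e1 := rc_lt h1
    have e2 := rc_lt h2
    rw [uc_mir] at e2
    exact Finset.mem_image.mpr ⟨k, Finset.mem_range.mpr (by omega), cyg_rpos_eq h1⟩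

theorem nucyc_le (z : Wd) : nucyc z ≤ kU z + kL z := by
  classical
  unfold nucyc
  have key := card_le_of_hit (isMat_cyc (up z)) (isMat_cyc (lo z))
    (F := (cloops z).filter (fun C => Has (cj (up z)) C ∨ Has (cj (lo z)) C))
    (fun C hC => (mem_loops.mp (Finset.mem_filter.mp hC).1).2)
    (T := (Finset.range (kU z)).image (cyg_rpos (up z)) ∪ (Finset.range (kL z)).image (cyg_rpos (lo z))) ?_
  · refine key.trans ((Finset.card_union_le _ _).trans ?_)
    refine Nat.add_le_add ?_ ?_
    · exact Finset.card_image_le.trans (by rw [Finset.card_range])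
    · exact Finset.card_image_le.trans (by rw [Finset.card_range])
  · intro C hC
    rcases (Finset.mem_filter.mp hC).2 with ⟨x, hx, y, hy, hxy⟩ | ⟨x, hx, y, hy, hxy⟩
    · rcases cj_hit hxy with h | h
      · exact ⟨x, hx, Finset.mem_union_left _ h⟩
      · exact ⟨y, hy, Finset.mem_union_left _ h⟩
    · rcases cj_hit hxy with h | h
      · exact ⟨x, hx, Finset.mem_union_right _ h⟩
      · exact ⟨y, hy, Finset.mem_union_right _ h⟩

theorem cyg_Cl_comm {P : Type*} {U V : P → P → Prop} {C : Finset P} : Cl U V C ↔ Cl V U C :=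
  ⟨fun h x hx => (h x hx).symm, fun h x hx => (h x hx).symm⟩

theorem cyg_IsLoop_comm {P : Type*} {U V : P → P → Prop} {C : Finset P} :
    IsLoop U V C ↔ IsLoop V U C := by
  constructor
  · rintro ⟨h1, h2, h3⟩
    exact ⟨h1, cyg_Cl_comm.mp h2, fun C' hC' hne hcl => h3 C' hC' hne (cyg_Cl_comm.mp hcl)⟩
  · rintro ⟨h1, h2, h3⟩
    exact ⟨h1, cyg_Cl_comm.mp h2, fun C' hC' hne hcl => h3 C' hC' hne (cyg_Cl_comm.mp hcl)⟩

theorem cyg_loops_comm {P : Type*} (U V : P → P → Prop) (A : Finset P) : loops U V A = loops V U A := by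
  ext C
  rw [mem_loops, mem_loops, cyg_IsLoop_comm]

theorem cloops_sw (z : Wd) : cloops (sw z) = cloops z := by
  unfold cloops
  rw [up_sw, lo_sw, length_sw, cyg_loops_comm]

theorem nucyc_bounds (z : Wd) :
    nucycP z + nucycP (sw z) ≤ nucyc z ∧ nucyc z ≤ nucycU z + nucycU (sw z) := by
  classical
  unfold nucycP nucyc nucycU
  rw [cloops_sw, up_sw, lo_sw]
  constructor
  · rw [← Finset.card_union_of_disjoint]
    · refine Finset.card_le_card (fun C hC => ?_)
      rcases Finset.mem_union.mp hC with h | h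
      · obtain ⟨h1, h2⟩ := Finset.mem_filter.mp h
        exact Finset.mem_filter.mpr ⟨h1, Or.inl h2.1⟩
      · obtain ⟨h1, h2⟩ := Finset.mem_filter.mp h
        exact Finset.mem_filter.mpr ⟨h1, Or.inr h2.1⟩
    · rw [Finset.disjoint_left]
      intro C h h'
      exact (Finset.mem_filter.mp h').2.2 (Finset.mem_filter.mp h).2.1
  · refine (Finset.card_le_card (fun C hC => ?_)).trans (Finset.card_union_le _ _)
    obtain ⟨h1, h2 | h2⟩ := Finset.mem_filter.mp hC
    · exact Finset.mem_union_left _ (Finset.mem_filter.mpr ⟨h1, h2⟩)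
    · exact Finset.mem_union_right _ (Finset.mem_filter.mpr ⟨h1, h2⟩)

/-- for balanced words the almost additive functional and the number of cyclic loops -/
theorem ccyc_ff (z : Wd) (hz : Bal z) :
    (ccyc z : ℝ) = ff z + ((nucyc z : ℝ) - kappa * (kU z + kL z)) := by
  obtain ⟨h1, h2⟩ := hz
  rw [hh_eq] at h1 h2
  have e1 : uo (up z) = uc (up z) := by omega
  have e2 : uo (lo z) = uc (lo z) := by omega
  have e3 : (ee z : ℝ) = 2 * (kU z + kL z) := by
    unfold ee kU kL
    rw [e1, e2, min_self, min_self]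
    push_cast; ring
  unfold ff
  rw [e3, ccyc_eq]
  push_cast; ring

end MeanderCLT
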