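import Pool.Agent.H98.M.DoubB

/-!
# Taylor expansion and the central limit theorem
-/

open Filter Topology

namespace MeanderCLT

/-! ### Moments of the final heights -/

theorem dc_hh_up_append (x : Wd) (z : Ltr) :
    (hh (up (x ++ [z])) : ℝ) = hh (up x) + stp z.1 := by
  have h : hh (up (x ++ [z])) = hh (up x) + stp z.1 := by
    unfold hh
    rw [up_append, ht_length_append]
    congr 1
    simp [up, ht, stp]
  rw [h]
  push_cast
  ring

theorem dc_hh_lo_append (x : Wd) (z : Ltr) :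
    (hh (lo (x ++ [z])) : ℝ) = hh (lo x) + stp z.2 := by
  have h : hh (lo (x ++ [z])) = hh (lo x) + stp z.2 := by
    unfold hh
    rw [lo_append, ht_length_append]
    congr 1
    simp [lo, ht, stp]
  rw [h]
  push_cast
  ring

theorem dc_Ew_one (g : Wd → ℝ) : Ew 1 g =
    (g [(true, true)] + g [(true, false)] + g [(false, true)] + g [(false, false)]) / 4 := by
  unfold Ew
  rw [← (Equiv.funUnique (Fin 1) Ltr).symm.sum_comp]
  simp [Fintype.sum_prod_type, List.ofFn_succ]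
  ring

theorem dc_Ew_succ (n : ℕ) (g : Wd → ℝ) : Ew (n + 1) g =
    Ew n (fun x => (g (x ++ [(true, true)]) + g (x ++ [(true, false)]) + g (x ++ [(false, true)]) +
      g (x ++ [(false, false)])) / 4) := by
  rw [Ew_append]
  congr 1
  funext x
  rw [dc_Ew_one]

theorem dc_Ew_zero (g : Wd → ℝ) : Ew 0 g = g [] := by
  unfold Ew
  simp

theorem dc_hh_nil : hh [] = 0 := by simp [hh, ht_nil]

/-- second moments -/
theorem dc_moments (n : ℕ) :
    Ew n (fun x => (hh (up x) : ℝ) ^ 2) = n ∧ Ew n (fun x => (hh (lo x) : ℝ) ^ 2) = n ∧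
    Ew n (fun x => (hh (up x) : ℝ) * hh (lo x)) = 0 ∧
    Ew n (fun x => (hh (up x) : ℝ) ^ 4) ≤ 3 * (n : ℝ) ^ 2 ∧
    Ew n (fun x => (hh (lo x) : ℝ) ^ 4) ≤ 3 * (n : ℝ) ^ 2 := by
  induction n with
  | zero => simp [dc_Ew_zero, up, lo, dc_hh_nil]
  | succ n ih =>
    obtain ⟨h1, h2, h3, h4, h5⟩ := ih
    have e1 : Ew (n + 1) (fun x => (hh (up x) : ℝ) ^ 2) =
        Ew n (fun x => (hh (up x) : ℝ) ^ 2) + 1 := by
      rw [dc_Ew_succ, ← Ew_const n 1, ← Ew_add]
      congr 1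
      funext x
      simp only [dc_hh_up_append, stp_true, stp_false]
      push_cast
      ring
    have e2 : Ew (n + 1) (fun x => (hh (lo x) : ℝ) ^ 2) =
        Ew n (fun x => (hh (lo x) : ℝ) ^ 2) + 1 := by
      rw [dc_Ew_succ, ← Ew_const n 1, ← Ew_add]
      congr 1
      funext x
      simp only [dc_hh_lo_append, stp_true, stp_false]
      push_cast
      ring
    have e3 : Ew (n + 1) (fun x => (hh (up x) : ℝ) * hh (lo x)) =
        Ew n (fun x => (hh (up x) : ℝ) * hh (lo x)) := by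
      rw [dc_Ew_succ]
      congr 1
      funext x
      simp only [dc_hh_lo_append, dc_hh_up_append, stp_true, stp_false]
      push_cast
      ring
    have e4 : Ew (n + 1) (fun x => (hh (up x) : ℝ) ^ 4) =
        Ew n (fun x => (hh (up x) : ℝ) ^ 4) + (6 * Ew n (fun x => (hh (up x) : ℝ) ^ 2) + 1) := by
      rw [dc_Ew_succ, ← Ew_mul_left]
      conv_rhs => rw [← Ew_const n 1]
      rw [← Ew_add, ← Ew_add]
      congr 1
      funext x
      simp only [dc_hh_up_append, stp_true, stp_false]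
      push_cast
      ring
    have e5 : Ew (n + 1) (fun x => (hh (lo x) : ℝ) ^ 4) =
        Ew n (fun x => (hh (lo x) : ℝ) ^ 4) + (6 * Ew n (fun x => (hh (lo x) : ℝ) ^ 2) + 1) := by
      rw [dc_Ew_succ, ← Ew_mul_left]
      conv_rhs => rw [← Ew_const n 1]
      rw [← Ew_add, ← Ew_add]
      congr 1
      funext x
      simp only [dc_hh_lo_append, stp_true, stp_false]
      push_cast
      ring
    refine ⟨?_, ?_, ?_, ?_, ?_⟩
    · rw [e1, h1]; push_cast; ring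
    · rw [e2, h2]; push_cast; ring
    · rw [e3, h3]
    · rw [e4, h1]
      push_cast
      nlinarith
    · rw [e5, h2]
      push_cast
      nlinarith

theorem dc_hh_up_mirw (x : Wd) : (hh (up (mirw x)) : ℝ) = -(hh (up x) : ℝ) := by
  rw [up_mirw, hh_eq, hh_eq, uc_mir, uo_mir]
  push_cast
  ring

theorem dc_hh_lo_mirw (x : Wd) : (hh (lo (mirw x)) : ℝ) = -(hh (lo x) : ℝ) := by
  rw [lo_mirw, hh_eq, hh_eq, uc_mir, uo_mir]
  push_cast
  ring

theorem dc_odd_up {f : Wd → ℝ} (h : ∀ x, f (mirw x) = f x) (n : ℕ) :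
    Ew n (fun x => f x * (hh (up x) : ℝ)) = 0 := by
  have e := Ew_mirw n (fun x => f x * (hh (up x) : ℝ))
  simp only [h, dc_hh_up_mirw] at e
  have e' : Ew n (fun x => f x * -(hh (up x) : ℝ)) = -1 * Ew n (fun x => f x * (hh (up x) : ℝ)) := by
    rw [← Ew_mul_left]
    congr 1
    funext x
    ring
  rw [e'] at e
  linarith

theorem dc_odd_lo {f : Wd → ℝ} (h : ∀ x, f (mirw x) = f x) (n : ℕ) :
    Ew n (fun x => f x * (hh (lo x) : ℝ)) = 0 := by
  have e := Ew_mirw n (fun x => f x * (hh (lo x) : ℝ))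
  simp only [h, dc_hh_lo_mirw] at e
  have e' : Ew n (fun x => f x * -(hh (lo x) : ℝ)) = -1 * Ew n (fun x => f x * (hh (lo x) : ℝ)) := by
    rw [← Ew_mul_left]
    congr 1
    funext x
    ring
  rw [e'] at e
  linarith

/-! ### Taylor bound for the exponential -/

theorem dc_exp_taylor (y : ℝ) :
    ‖Complex.exp (Complex.I * (y : ℂ)) - (1 + Complex.I * (y : ℂ) - (y : ℂ) ^ 2 / 2)‖ ≤
      3 * |y| ^ 3 := by
  have hcos : |Real.cos y - (1 - y ^ 2 / 2)| ≤ |y| ^ 3 := by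
    by_cases hy : |y| ≤ 1
    · refine (Real.cos_bound hy).trans ?_
      have h0 := abs_nonneg y
      have : |y| ^ 4 ≤ |y| ^ 3 := by
        rw [pow_succ |y| 3]
        exact mul_le_of_le_one_right (by positivity) hy
      have h3 : (0 : ℝ) ≤ |y| ^ 4 := by positivity
      nlinarith
    · push Not at hy
      have h1 := Real.one_sub_sq_div_two_le_cos (x := y)
      have h2 := Real.cos_le_one y
      rw [abs_of_nonneg (by linarith)]
      have h3 : y ^ 2 = |y| ^ 2 := (sq_abs y).symm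
      have h4 : |y| ^ 2 ≤ |y| ^ 3 := by
        rw [pow_succ |y| 2]
        exact le_mul_of_one_le_right (by positivity) hy.le
      have h5 : (0 : ℝ) ≤ |y| ^ 2 := by positivity
      nlinarith
  have hsin : |Real.sin y - y| ≤ 2 * |y| ^ 3 := by
    by_cases hy : |y| ≤ 1
    · have h1 := Real.sin_bound hy
      have h0 := abs_nonneg y
      have h2 : |y| ^ 4 ≤ |y| ^ 3 := by
        rw [pow_succ |y| 3]
        exact mul_le_of_le_one_right (by positivity) hy
      have h3 : |Real.sin y - y| ≤ |Real.sin y - (y - y ^ 3 / 6)| + |y ^ 3 / 6| := by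
        have : Real.sin y - y = (Real.sin y - (y - y ^ 3 / 6)) + (-(y ^ 3 / 6)) := by ring
        rw [this]
        refine (abs_add_le _ _).trans ?_
        rw [abs_neg]
      have h4 : |y ^ 3 / 6| = |y| ^ 3 / 6 := by
        rw [abs_div, abs_pow]
        norm_num
      rw [h4] at h3
      have h5 : (0 : ℝ) ≤ |y| ^ 4 := by positivity
      have h6 : (0 : ℝ) ≤ |y| ^ 3 := by positivity
      nlinarith
    · push Not at hy
      have h1 : |Real.sin y - y| ≤ |Real.sin y| + |y| := abs_sub _ _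
      have h2 := Real.abs_sin_le_one y
      have h4 : |y| ≤ |y| ^ 3 := by
        calc |y| = |y| ^ 1 := (pow_one _).symm
          _ ≤ |y| ^ 3 := pow_le_pow_right₀ hy.le (by norm_num)
      linarith
  have e : Complex.exp (Complex.I * (y : ℂ)) - (1 + Complex.I * (y : ℂ) - (y : ℂ) ^ 2 / 2) =
      ((Real.cos y - (1 - y ^ 2 / 2) : ℝ) : ℂ) + ((Real.sin y - y : ℝ) : ℂ) * Complex.I := by
    rw [mul_comm, Complex.exp_mul_I]
    push_cast
    ring
  rw [e]
  refine (norm_add_le _ _).trans ?_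
  rw [norm_mul, Complex.norm_I, mul_one, Complex.norm_real, Complex.norm_real, Real.norm_eq_abs,
    Real.norm_eq_abs]
  linarith

theorem dc_EwC_add (N : ℕ) (g h : Wd → ℂ) : EwC N (fun x => g x + h x) = EwC N g + EwC N h := by
  unfold EwC
  rw [Finset.sum_add_distrib, add_div]

theorem dc_EwC_mul_left (N : ℕ) (c : ℂ) (g : Wd → ℂ) : EwC N (fun x => c * g x) = c * EwC N g := by
  unfold EwC
  rw [← Finset.mul_sum, mul_div_assoc]

theorem dc_cube {θ a b F G H : ℝ} : |θ * F + (a * G + b * H)| ^ 3 ≤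
    (|θ| + |a| + |b|) ^ 3 * (3 + F ^ 4 + G ^ 4 + H ^ 4) := by
  have hF := abs_nonneg F
  have hG := abs_nonneg G
  have hH := abs_nonneg H
  have ht := abs_nonneg θ
  have ha := abs_nonneg a
  have hb := abs_nonneg b
  set M := max |F| (max |G| |H|) with hM
  have hM0 : 0 ≤ M := le_max_of_le_left hF
  have hFM : |F| ≤ M := le_max_left _ _
  have hGM : |G| ≤ M := le_max_of_le_right (le_max_left _ _)
  have hHM : |H| ≤ M := le_max_of_le_right (le_max_right _ _)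
  have h1 : |θ * F + (a * G + b * H)| ≤ (|θ| + |a| + |b|) * M := by
    calc |θ * F + (a * G + b * H)| ≤ |θ * F| + |a * G + b * H| := abs_add_le _ _
      _ ≤ |θ * F| + (|a * G| + |b * H|) := by gcongr; exact abs_add_le _ _
      _ = |θ| * |F| + (|a| * |G| + |b| * |H|) := by rw [abs_mul, abs_mul, abs_mul]
      _ ≤ |θ| * M + (|a| * M + |b| * M) := by gcongr
      _ = _ := by ring
  have hcub : ∀ t : ℝ, |t| ^ 3 ≤ 1 + t ^ 4 := by
    intro t
    have h0 := abs_nonneg t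
    have h4 : t ^ 4 = |t| ^ 4 := by
      rw [← abs_pow, abs_of_nonneg (by positivity)]
    rw [h4]
    by_cases h : |t| ≤ 1
    · have : |t| ^ 3 ≤ 1 := pow_le_one₀ h0 h
      have : 0 ≤ |t| ^ 4 := by positivity
      linarith
    · push Not at h
      have : |t| ^ 3 ≤ |t| ^ 4 := pow_le_pow_right₀ h.le (by norm_num)
      linarith
  have h2 : M ^ 3 ≤ 3 + F ^ 4 + G ^ 4 + H ^ 4 := by
    have hF4 : 0 ≤ F ^ 4 := by positivity
    have hG4 : 0 ≤ G ^ 4 := by positivity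
    have hH4 : 0 ≤ H ^ 4 := by positivity
    rcases max_choice |F| (max |G| |H|) with h | h
    · rw [hM, h]; have := hcub F; linarith
    · rw [hM, h]
      rcases max_choice |G| |H| with h' | h'
      · rw [h']; have := hcub G; linarith
      · rw [h']; have := hcub H; linarith
  calc |θ * F + (a * G + b * H)| ^ 3 ≤ ((|θ| + |a| + |b|) * M) ^ 3 :=
        pow_le_pow_left₀ (abs_nonneg _) h1 3
    _ = (|θ| + |a| + |b|) ^ 3 * M ^ 3 := by ring
    _ ≤ _ := by gcongr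

theorem dc_Psi_norm_le (f : Wd → ℝ) (n : ℕ) (θ a b : ℝ) : ‖Psi f n θ a b‖ ≤ 1 := by
  unfold Psi
  refine (EwC_norm_le _ _).trans ?_
  rw [← Ew_const n 1]
  refine Ew_mono fun x _ => ?_
  rw [mul_comm, Complex.norm_exp_ofReal_mul_I]

/-- third order Taylor expansion, uniform in `n` -/
theorem Psi_taylor {f : Wd → ℝ} (h : AlmostAdd f) : ∃ C : ℝ, ∀ᶠ n : ℕ in atTop, ∀ θ a b : ℝ,
    ‖Psi f n θ a b - (1 - (θ ^ 2 + a ^ 2 + b ^ 2) / 2 : ℝ)‖ ≤ C * (|θ| + |a| + |b|) ^ 3 := by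
  obtain ⟨C4, hC4⟩ := fourth_ratio h
  obtain ⟨c, hc, hvar⟩ := h.var
  refine ⟨3 * (9 + C4), ?_⟩
  filter_upwards [hC4, hvar, eventually_ge_atTop 1] with n hn4 hnv hn1 θ a b
  have hn0 : (0 : ℝ) < n := by exact_mod_cast hn1
  have hV : 0 < Vw n f := lt_of_lt_of_le (by positivity) hnv
  have hs : 0 < sg n f := Real.sqrt_pos.mpr hV
  have hss : sg n f ^ 2 = Vw n f := Real.sq_sqrt hV.le
  have hsn : 0 < Real.sqrt n := Real.sqrt_pos.mpr hn0
  have hsn2 : Real.sqrt n ^ 2 = n := Real.sq_sqrt hn0.le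
  obtain ⟨m1, m2, m3, m4, m5⟩ := dc_moments n
  set s := sg n f with hsdef
  set r := Real.sqrt n with hrdef
  set F : Wd → ℝ := fun x => (f x - Ew n f) / s with hF
  set G : Wd → ℝ := fun x => (hh (up x) : ℝ) / r with hG
  set H : Wd → ℝ := fun x => (hh (lo x) : ℝ) / r with hH
  -- moments
  have eF1 : Ew n F = 0 := by
    have : F = fun x => s⁻¹ * (f x - Ew n f) := by
      funext x; rw [hF]; field_simp
    rw [this, Ew_mul_left, Ew_sub, Ew_const]
    ring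
  have one_mir : ∀ x, (fun _ : Wd => (1 : ℝ)) (mirw x) = (fun _ : Wd => (1 : ℝ)) x := fun _ => rfl
  have eG1 : Ew n G = 0 := by
    have : G = fun x => r⁻¹ * (1 * (hh (up x) : ℝ)) := by
      funext x; rw [hG]; field_simp
    rw [this, Ew_mul_left, dc_odd_up one_mir]
    ring
  have eH1 : Ew n H = 0 := by
    have : H = fun x => r⁻¹ * (1 * (hh (lo x) : ℝ)) := by
      funext x; rw [hH]; field_simp
    rw [this, Ew_mul_left, dc_odd_lo one_mir]
    ring
  have eF2 : Ew n (fun x => F x ^ 2) = 1 := by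
    have : (fun x => F x ^ 2) = fun x => (s ^ 2)⁻¹ * (f x - Ew n f) ^ 2 := by
      funext x; rw [hF]; field_simp
    rw [this, Ew_mul_left, hss]
    exact inv_mul_cancel₀ hV.ne'
  have eG2 : Ew n (fun x => G x ^ 2) = 1 := by
    have : (fun x => G x ^ 2) = fun x => (r ^ 2)⁻¹ * (hh (up x) : ℝ) ^ 2 := by
      funext x; rw [hG]; field_simp
    rw [this, Ew_mul_left, m1, hsn2]
    exact inv_mul_cancel₀ hn0.ne'
  have eH2 : Ew n (fun x => H x ^ 2) = 1 := by
    have : (fun x => H x ^ 2) = fun x => (r ^ 2)⁻¹ * (hh (lo x) : ℝ) ^ 2 := by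
      funext x; rw [hH]; field_simp
    rw [this, Ew_mul_left, m2, hsn2]
    exact inv_mul_cancel₀ hn0.ne'
  have Fmir : ∀ x, F (mirw x) = F x := by
    intro x; rw [hF]; simp only [h.mirror]
  have eFG : Ew n (fun x => F x * G x) = 0 := by
    have : (fun x => F x * G x) = fun x => r⁻¹ * (F x * (hh (up x) : ℝ)) := by
      funext x; rw [hG]; field_simp
    rw [this, Ew_mul_left, dc_odd_up Fmir]
    ring
  have eFH : Ew n (fun x => F x * H x) = 0 := by
    have : (fun x => F x * H x) = fun x => r⁻¹ * (F x * (hh (lo x) : ℝ)) := by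
      funext x; rw [hH]; field_simp
    rw [this, Ew_mul_left, dc_odd_lo Fmir]
    ring
  have eGH : Ew n (fun x => G x * H x) = 0 := by
    have : (fun x => G x * H x) = fun x => (r ^ 2)⁻¹ * ((hh (up x) : ℝ) * hh (lo x)) := by
      funext x; rw [hG, hH]; field_simp
    rw [this, Ew_mul_left, m3]
    ring
  have eF4 : Ew n (fun x => F x ^ 4) ≤ C4 := by
    have : (fun x => F x ^ 4) = fun x => (s ^ 4)⁻¹ * (f x - Ew n f) ^ 4 := by
      funext x; rw [hF]; field_simp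
    rw [this, Ew_mul_left, inv_mul_le_iff₀ (by positivity)]
    linarith
  have r4 : r ^ 4 = (n : ℝ) ^ 2 := by
    rw [← hsn2]; ring
  have eG4 : Ew n (fun x => G x ^ 4) ≤ 3 := by
    have : (fun x => G x ^ 4) = fun x => (r ^ 4)⁻¹ * (hh (up x) : ℝ) ^ 4 := by
      funext x; rw [hG]; field_simp
    rw [this, Ew_mul_left, inv_mul_le_iff₀ (by positivity), r4]
    linarith
  have eH4 : Ew n (fun x => H x ^ 4) ≤ 3 := by
    have : (fun x => H x ^ 4) = fun x => (r ^ 4)⁻¹ * (hh (lo x) : ℝ) ^ 4 := by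
      funext x; rw [hH]; field_simp
    rw [this, Ew_mul_left, inv_mul_le_iff₀ (by positivity), r4]
    linarith
  set Y : Wd → ℝ := fun x => θ * F x + (a * G x + b * H x) with hY
  have ePsi : Psi f n θ a b = EwC n (fun x => Complex.exp (Complex.I * (Y x : ℂ))) := by
    unfold Psi
    congr 1
    funext x
    congr 2
    rw [hY, hF, hG, hH]
    congr 1
    simp only
    ring
  have eY1 : Ew n Y = 0 := by
    rw [hY, Ew_add, Ew_mul_left, Ew_add, Ew_mul_left, Ew_mul_left]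
    rw [eF1, eG1, eH1]
    ring
  have eY2 : Ew n (fun x => Y x ^ 2) = θ ^ 2 + a ^ 2 + b ^ 2 := by
    have : (fun x => Y x ^ 2) = fun x => θ ^ 2 * F x ^ 2 + (a ^ 2 * G x ^ 2 + (b ^ 2 * H x ^ 2 +
        (2 * θ * a * (F x * G x) + (2 * θ * b * (F x * H x) + 2 * a * b * (G x * H x))))) := by
      funext x
      rw [hY]
      ring
    rw [this]
    simp only [Ew_add, Ew_mul_left]
    rw [eF2, eG2, eH2, eFG, eFH, eGH]
    ring
  have eMain : EwC n (fun x => 1 + Complex.I * (Y x : ℂ) - (Y x : ℂ) ^ 2 / 2) =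
      ((1 - (θ ^ 2 + a ^ 2 + b ^ 2) / 2 : ℝ) : ℂ) := by
    have e1 : (fun x => 1 + Complex.I * (Y x : ℂ) - (Y x : ℂ) ^ 2 / 2) =
        fun x => ((1 - 1 / 2 * Y x ^ 2 : ℝ) : ℂ) + Complex.I * ((Y x : ℝ) : ℂ) := by
      funext x
      push_cast
      ring
    rw [e1, dc_EwC_add, dc_EwC_mul_left, EwC_ofReal, EwC_ofReal, Ew_sub, Ew_const, Ew_mul_left,
      eY2]
    change _ + Complex.I * ((Ew n Y : ℝ) : ℂ) = _
    rw [eY1]
    push_cast
    ring
  rw [ePsi, ← eMain, ← EwC_sub]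
  refine (EwC_norm_le _ _).trans ?_
  have hb : Ew n (fun x => ‖Complex.exp (Complex.I * (Y x : ℂ)) -
      (1 + Complex.I * (Y x : ℂ) - (Y x : ℂ) ^ 2 / 2)‖) ≤
      Ew n (fun x => 3 * (|θ| + |a| + |b|) ^ 3 * (3 + F x ^ 4 + G x ^ 4 + H x ^ 4)) := by
    refine Ew_mono fun x _ => (dc_exp_taylor (Y x)).trans ?_
    have := dc_cube (θ := θ) (a := a) (b := b) (F := F x) (G := G x) (H := H x)
    rw [hY]
    simp only
    linarith
  refine hb.trans ?_
  rw [Ew_mul_left]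
  have e3 : Ew n (fun x => 3 + F x ^ 4 + G x ^ 4 + H x ^ 4) =
      3 + Ew n (fun x => F x ^ 4) + Ew n (fun x => G x ^ 4) + Ew n (fun x => H x ^ 4) := by
    rw [Ew_add, Ew_add, Ew_add, Ew_const]
  rw [e3]
  have hT : 0 ≤ (|θ| + |a| + |b|) ^ 3 := by positivity
  nlinarith

/-! ### The central limit theorem -/

theorem dc_pow_sub {x y : ℂ} (hx : ‖x‖ ≤ 1) (hy : ‖y‖ ≤ 1) (N : ℕ) :
    ‖x ^ N - y ^ N‖ ≤ N * ‖x - y‖ := by
  induction N with
  | zero => simp
  | succ N ih =>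
    have e : x ^ (N + 1) - y ^ (N + 1) = x * (x ^ N - y ^ N) + (x - y) * y ^ N := by ring
    rw [e]
    refine (norm_add_le _ _).trans ?_
    rw [norm_mul, norm_mul, norm_pow]
    have h1 : ‖x‖ * ‖x ^ N - y ^ N‖ ≤ 1 * (N * ‖x - y‖) :=
      mul_le_mul hx ih (norm_nonneg _) zero_le_one
    have h2 : ‖x - y‖ * ‖y‖ ^ N ≤ ‖x - y‖ * 1 :=
      mul_le_mul_of_nonneg_left (pow_le_one₀ (norm_nonneg _) hy) (norm_nonneg _)
    push_cast
    linarith

/-- iterated doubling -/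
theorem dc_iter {f : Wd → ℝ} (h : AlmostAdd f) (k : ℕ) : ∀ θ a b : ℝ,
    Tendsto (fun n : ℕ => Psi f n θ a b -
      (Psi f (n / 2 ^ k) (θ / Real.sqrt 2 ^ k) (a / Real.sqrt 2 ^ k) (b / Real.sqrt 2 ^ k)) ^ 2 ^ k)
      atTop (𝓝 0) := by
  induction k with
  | zero =>
    intro θ a b
    simp
  | succ k ih =>
    intro θ a b
    have h1 := Psi_double h θ a b
    have h2 := (ih (θ / Real.sqrt 2) (a / Real.sqrt 2) (b / Real.sqrt 2)).comp
      (Nat.tendsto_div_const_atTop (two_ne_zero))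
    have h3 : Tendsto (fun n : ℕ =>
        (Psi f (n / 2) (θ / Real.sqrt 2) (a / Real.sqrt 2) (b / Real.sqrt 2)) ^ 2 -
        (Psi f (n / 2 ^ (k + 1)) (θ / Real.sqrt 2 ^ (k + 1)) (a / Real.sqrt 2 ^ (k + 1))
          (b / Real.sqrt 2 ^ (k + 1))) ^ 2 ^ (k + 1)) atTop (𝓝 0) := by
      rw [tendsto_zero_iff_norm_tendsto_zero] at h2 ⊢
      have h2' := h2.const_mul 2
      rw [mul_zero] at h2'
      refine squeeze_zero (fun _ => norm_nonneg _) (fun n => ?_) h2'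
      simp only [Function.comp]
      have e1 : n / 2 ^ (k + 1) = n / 2 / 2 ^ k := by
        rw [Nat.div_div_eq_div_mul, pow_succ, mul_comm]
      have e2 : ∀ t : ℝ, t / Real.sqrt 2 ^ (k + 1) = t / Real.sqrt 2 / Real.sqrt 2 ^ k := by
        intro t
        rw [div_div, pow_succ, mul_comm (Real.sqrt 2)]
      rw [e1, e2, e2, e2, pow_succ 2 k, pow_mul]
      have := dc_pow_sub (dc_Psi_norm_le f (n / 2) (θ / Real.sqrt 2) (a / Real.sqrt 2)
        (b / Real.sqrt 2)) (y := (Psi f (n / 2 / 2 ^ k) (θ / Real.sqrt 2 / Real.sqrt 2 ^ k)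
        (a / Real.sqrt 2 / Real.sqrt 2 ^ k) (b / Real.sqrt 2 / Real.sqrt 2 ^ k)) ^ 2 ^ k)
        (by rw [norm_pow]; exact pow_le_one₀ (norm_nonneg _) (dc_Psi_norm_le _ _ _ _ _)) 2
      push_cast at this
      exact this
    have h4 := h1.add h3
    rw [add_zero] at h4
    refine h4.congr fun n => ?_
    ring

/-- joint central limit theorem -/
theorem clt_words {f : Wd → ℝ} (h : AlmostAdd f) (θ a b : ℝ) :
    Tendsto (fun n : ℕ => Psi f n θ a b) atTop
      (𝓝 ((Real.exp (-(θ ^ 2 + a ^ 2 + b ^ 2) / 2) : ℝ) : ℂ)) := by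
  obtain ⟨C, hC⟩ := Psi_taylor h
  set Q : ℝ := (θ ^ 2 + a ^ 2 + b ^ 2) / 2 with hQ
  have hQ0 : 0 ≤ Q := by rw [hQ]; positivity
  set T : ℝ := |θ| + |a| + |b| with hT
  have hT0 : 0 ≤ T := by rw [hT]; positivity
  have hexp : -(θ ^ 2 + a ^ 2 + b ^ 2) / 2 = -Q := by rw [hQ]; ring
  rw [hexp, Metric.tendsto_atTop]
  intro ε hε
  -- choice of k
  have hpow : Tendsto (fun k : ℕ => 2 ^ k) atTop atTop := tendsto_pow_atTop_atTop_of_one_lt
    (by norm_num)
  have k1 : Tendsto (fun k : ℕ => (1 + -Q / ((2 ^ k : ℕ) : ℝ)) ^ (2 ^ k)) atTop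
      (𝓝 (Real.exp (-Q))) :=
    (Real.tendsto_one_add_div_pow_exp (-Q)).comp hpow
  have k2 : Tendsto (fun k : ℕ => |C| * T ^ 3 * ((Real.sqrt 2)⁻¹) ^ k) atTop (𝓝 0) := by
    have h1 : Tendsto (fun k : ℕ => ((Real.sqrt 2)⁻¹) ^ k) atTop (𝓝 0) := by
      apply tendsto_pow_atTop_nhds_zero_of_lt_one (by positivity)
      apply inv_lt_one_of_one_lt₀
      rw [Real.lt_sqrt (by norm_num)]
      norm_num
    have := h1.const_mul (|C| * T ^ 3)
    rwa [mul_zero] at this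
  have k3 : ∀ᶠ k : ℕ in atTop, Q ≤ ((2 ^ k : ℕ) : ℝ) :=
    (tendsto_natCast_atTop_atTop.comp hpow).eventually_ge_atTop Q
  have k1' := (Metric.tendsto_atTop.mp k1) (ε / 3) (by positivity)
  have k2' := (Metric.tendsto_atTop.mp k2) (ε / 3) (by positivity)
  obtain ⟨K1, hK1⟩ := k1'
  obtain ⟨K2, hK2⟩ := k2'
  obtain ⟨K3, hK3⟩ := eventually_atTop.mp k3
  set k := max K1 (max K2 K3) with hk
  have a1 := hK1 k (le_max_left _ _)
  have a2 := hK2 k (le_max_of_le_right (le_max_left _ _))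
  have a3 := hK3 k (le_max_of_le_right (le_max_right _ _))
  have hit := (Metric.tendsto_atTop.mp (dc_iter h k θ a b)) (ε / 3) (by positivity)
  obtain ⟨N1, hN1⟩ := hit
  have hdiv : Tendsto (fun n : ℕ => n / 2 ^ k) atTop atTop :=
    Nat.tendsto_div_const_atTop (pow_ne_zero k two_ne_zero)
  obtain ⟨N2, hN2⟩ := eventually_atTop.mp (hdiv.eventually hC)
  refine ⟨max N1 N2, fun n hn => ?_⟩
  have b1 := hN1 n (le_of_max_le_left hn)
  have b2 := hN2 n (le_of_max_le_right hn) (θ / Real.sqrt 2 ^ k) (a / Real.sqrt 2 ^ k)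
    (b / Real.sqrt 2 ^ k)
  have s2 : Real.sqrt 2 ^ 2 = 2 := Real.sq_sqrt (by norm_num)
  have s0 : 0 < Real.sqrt 2 := Real.sqrt_pos.mpr (by norm_num)
  have e2 : ((Real.sqrt 2) ^ k) ^ 2 = 2 ^ k := by
    rw [← pow_mul, mul_comm, pow_mul, s2]
  have e3 : 1 - ((θ / Real.sqrt 2 ^ k) ^ 2 + (a / Real.sqrt 2 ^ k) ^ 2 +
      (b / Real.sqrt 2 ^ k) ^ 2) / 2 = 1 + -Q / ((2 ^ k : ℕ) : ℝ) := by
    rw [div_pow, div_pow, div_pow, e2, hQ]
    push_cast
    field_simp
    ring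
  have e4 : |θ / Real.sqrt 2 ^ k| + |a / Real.sqrt 2 ^ k| + |b / Real.sqrt 2 ^ k| =
      T / Real.sqrt 2 ^ k := by
    rw [abs_div, abs_div, abs_div, abs_of_pos (pow_pos s0 k), hT]
    ring
  rw [e3, e4] at b2
  set P := Psi f (n / 2 ^ k) (θ / Real.sqrt 2 ^ k) (a / Real.sqrt 2 ^ k) (b / Real.sqrt 2 ^ k)
    with hP
  set y : ℝ := 1 + -Q / ((2 ^ k : ℕ) : ℝ) with hy
  have hpos : (0 : ℝ) < ((2 ^ k : ℕ) : ℝ) := by positivity
  have hy1 : ‖((y : ℝ) : ℂ)‖ ≤ 1 := by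
    rw [Complex.norm_real, Real.norm_eq_abs, abs_le]
    have h1 : Q / ((2 ^ k : ℕ) : ℝ) ≤ 1 := (div_le_one hpos).mpr a3
    have h2 : 0 ≤ Q / ((2 ^ k : ℕ) : ℝ) := by positivity
    rw [hy, neg_div]
    constructor <;> linarith
  have c1 : ‖P ^ 2 ^ k - ((y : ℝ) : ℂ) ^ 2 ^ k‖ ≤ |C| * T ^ 3 * ((Real.sqrt 2)⁻¹) ^ k := by
    refine (dc_pow_sub (dc_Psi_norm_le _ _ _ _ _) hy1 (2 ^ k)).trans ?_
    have h5 : ‖P - ((y : ℝ) : ℂ)‖ ≤ |C| * (T / Real.sqrt 2 ^ k) ^ 3 := by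
      refine b2.trans ?_
      gcongr
      exact le_abs_self C
    refine (mul_le_mul_of_nonneg_left h5 hpos.le).trans (le_of_eq ?_)
    have h6 : ((2 ^ k : ℕ) : ℝ) = ((Real.sqrt 2) ^ k) ^ 2 := by rw [e2]; push_cast; ring
    rw [h6, inv_pow]
    have h7 : 0 < Real.sqrt 2 ^ k := pow_pos s0 k
    field_simp
  have c2 : ‖((y : ℝ) : ℂ) ^ 2 ^ k - ((Real.exp (-Q) : ℝ) : ℂ)‖ < ε / 3 := by
    rw [← Complex.ofReal_pow, ← Complex.ofReal_sub, Complex.norm_real, ← dist_eq_norm]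
    exact a1
  have c3 : |C| * T ^ 3 * ((Real.sqrt 2)⁻¹) ^ k < ε / 3 := by
    rw [Real.dist_eq, sub_zero] at a2
    exact lt_of_abs_lt a2
  rw [dist_eq_norm, sub_zero] at b1
  rw [dist_eq_norm]
  have e5 : Psi f n θ a b - ((Real.exp (-Q) : ℝ) : ℂ) = (Psi f n θ a b - P ^ 2 ^ k) +
      ((P ^ 2 ^ k - ((y : ℝ) : ℂ) ^ 2 ^ k) +
      (((y : ℝ) : ℂ) ^ 2 ^ k - ((Real.exp (-Q) : ℝ) : ℂ))) := by ring
  rw [e5]
  refine (norm_add_le _ _).trans_lt ?_
  have := norm_add_le (P ^ 2 ^ k - ((y : ℝ) : ℂ) ^ 2 ^ k)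
    (((y : ℝ) : ℂ) ^ 2 ^ k - ((Real.exp (-Q) : ℝ) : ℂ))
  linarith

end MeanderCLT
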