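import Pool.Agent.H98.M.Glue
import Pool.Agent.H98.M.Avg

/-!
# Linear lower bound for the variance
-/

open Filter Topology

namespace MeanderCLT

/-- `()()` above and below -/
def blkA : Wd := [(true, true), (false, false), (true, true), (false, false)]

/-- `()()` above and `(())` below -/
def blkB : Wd := [(true, true), (false, true), (true, false), (false, false)]

/-- every position of a balanced word with nonnegative heights is matched -/
theorem varlb_matched {d : List Bool} (h1 : uc d = 0) (h2 : uo d = 0) {i : ℕ} (hi : i < d.length) :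
    ∃ j, Arc d i j := by
  classical
  have h := card_ufree d
  rw [h1, h2] at h
  have h0 := Finset.card_eq_zero.mp h
  by_contra hc
  push Not at hc
  have : i ∈ (Finset.range d.length).filter (fun i => ufree d i) :=
    Finset.mem_filter.mpr ⟨Finset.mem_range.mpr hi, hi, hc⟩
  rw [h0] at this
  exact absurd this (Finset.notMem_empty _)

theorem varlb_closed {s d t : List Bool} (h1 : uc d = 0) (h2 : uo d = 0) {i j : ℕ}
    (h : Arc (s ++ (d ++ t)) i j) (hi : s.length ≤ i) (hi' : i < s.length + d.length) :
    s.length ≤ j ∧ j < s.length + d.length := by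
  obtain ⟨k, hk⟩ := varlb_matched h1 h2 (i := i - s.length) (by omega)
  have hk' := (Arc_lt hk).2
  have e1 : Arc (s ++ (d ++ t)) (s.length + (i - s.length)) (s.length + k) := by
    rw [Arc_append_right, Arc_append_left (by omega) hk']
    exact hk
  have e2 : s.length + (i - s.length) = i := by omega
  rw [e2] at e1
  have := (isMat_Arc _).func h e1
  omega

/-- positions after the insertion of a word of length `m` at the position `n` -/
def varlbφ (n m : ℕ) (i : ℕ) : ℕ := if i < n then i else i + m

theorem varlb_arc_cross {s d t : List Bool} (h1 : uc d = 0) (h2 : uo d = 0) {i j : ℕ}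
    (hi : i < s.length) (hj : s.length ≤ j) :
    arc (s ++ (d ++ t)) i (j + d.length) ↔ arc (s ++ t) i j := by
  have hd0 : ht d d.length = 0 := by
    have h3 : ht d d.length = (uo d : ℤ) - uc d := hh_eq d
    rw [h3, h1, h2]; simp
  have hdn : ∀ k, 0 ≤ ht d k := by
    intro k
    have := neg_uc_le_ht d k
    rw [h1] at this
    simpa using this
  have hA : ∀ k, k ≤ s.length → ht (s ++ (d ++ t)) k = ht (s ++ t) k := by
    intro k hk
    rw [ht_append_left hk, ht_append_left hk]
  have hB : ∀ u, ht (s ++ (d ++ t)) (s.length + d.length + u) = ht (s ++ t) (s.length + u) := by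
    intro u
    rw [Nat.add_assoc, ht_append_right, ht_append_right, hd0, ht_append_right]
    ring
  have hC : ∀ u, u ≤ d.length → ht s s.length ≤ ht (s ++ (d ++ t)) (s.length + u) := by
    intro u hu
    rw [ht_append_right, ht_append_left hu]
    have := hdn u
    omega
  obtain ⟨j', rfl⟩ : ∃ j', j = s.length + j' := ⟨j - s.length, by omega⟩
  unfold arc
  rw [hA i hi.le]
  have e1 : s.length + j' + d.length + 1 = s.length + d.length + (j' + 1) := by omega
  have e2 : s.length + j' + 1 = s.length + (j' + 1) := by omega
  rw [e1, hB, e2]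
  simp only [List.length_append]
  constructor
  · rintro ⟨a, b, c, e⟩
    refine ⟨by omega, by omega, c, ?_⟩
    intro k hk hk'
    rcases le_or_gt k s.length with hks | hks
    · rw [← hA k hks]
      exact e k hk (by omega)
    · obtain ⟨k', rfl⟩ : ∃ k', k = s.length + k' := ⟨k - s.length, by omega⟩
      rw [← hB]
      exact e _ (by omega) (by omega)
  · rintro ⟨a, b, c, e⟩
    refine ⟨by omega, by omega, c, ?_⟩
    intro k hk hk'
    rcases le_or_gt k s.length with hks | hks
    · rw [hA k hks]
      exact e k hk (by omega)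
    · rcases le_or_gt k (s.length + d.length) with hkd | hkd
      · obtain ⟨k', rfl⟩ : ∃ k', k = s.length + k' := ⟨k - s.length, by omega⟩
        refine lt_of_lt_of_le ?_ (hC k' (by omega))
        have := e s.length hi (by omega)
        rwa [ht_append_left (k := s.length) le_rfl] at this
      · obtain ⟨k', rfl⟩ : ∃ k', k = s.length + d.length + k' :=
          ⟨k - (s.length + d.length), by omega⟩
        rw [hB]
        exact e _ (by omega) (by omega)

theorem varlb_Arc {s d t : List Bool} (h1 : uc d = 0) (h2 : uo d = 0) (i j : ℕ) :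
    Arc (s ++ (d ++ t)) (varlbφ s.length d.length i) (varlbφ s.length d.length j) ↔
      Arc (s ++ t) i j := by
  unfold varlbφ
  rcases lt_or_ge i s.length with hi | hi <;> rcases lt_or_ge j s.length with hj | hj
  · rw [if_pos hi, if_pos hj, Arc_append_left hi hj, Arc_append_left hi hj]
  · rw [if_pos hi, if_neg (by omega)]
    have key : ∀ w : List Bool, ∀ j', s.length ≤ j' → (Arc w i j' ↔ arc w i j') := by
      intro w j' hj'
      constructor
      · rintro (h | h)
        · exact h
        · have := h.1; omega
      · exact Or.inl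
    rw [key _ _ (by omega), key _ _ hj]
    exact varlb_arc_cross h1 h2 hi hj
  · rw [if_neg (by omega), if_pos hj]
    have key : ∀ w : List Bool, ∀ j', s.length ≤ j' → (Arc w j' j ↔ arc w j j') := by
      intro w j' hj'
      constructor
      · rintro (h | h)
        · have := h.1; omega
        · exact h
      · exact Or.inr
    rw [key _ _ (by omega), key _ _ hi]
    exact varlb_arc_cross h1 h2 hj hi
  · rw [if_neg (by omega), if_neg (by omega)]
    obtain ⟨i', rfl⟩ : ∃ i', i = s.length + i' := ⟨i - s.length, by omega⟩
    obtain ⟨j', rfl⟩ : ∃ j', j = s.length + j' := ⟨j - s.length, by omega⟩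
    have e1 : s.length + i' + d.length = s.length + (d.length + i') := by omega
    have e2 : s.length + j' + d.length = s.length + (d.length + j') := by omega
    rw [e1, e2, Arc_append_right, Arc_append_right, Arc_append_right]

/-- loops split along a set which is preserved by both relations -/
theorem varlb_loops_split {P : Type*} [DecidableEq P] {U V : P → P → Prop} (A D : Finset P)
    (hU : ∀ x y, U x y → (x ∈ D ↔ y ∈ D)) (hV : ∀ x y, V x y → (x ∈ D ↔ y ∈ D)) :
    (loops U V A).card = (loops U V (A ∩ D)).card + (loops U V (A \ D)).card := by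
  classical
  rw [← Finset.card_union_of_disjoint]
  · congr 1
    ext C
    rw [Finset.mem_union, mem_loops, mem_loops, mem_loops]
    constructor
    · rintro ⟨hC, hL⟩
      obtain ⟨x, hx⟩ := hL.1
      by_cases hxD : x ∈ D
      · left
        refine ⟨?_, hL⟩
        have hcl : Cl U V (C.filter (fun z => z ∈ D)) := by
          intro y hy
          rw [Finset.mem_filter] at hy
          obtain ⟨⟨y1, hy1, hu⟩, ⟨y2, hy2, hv⟩⟩ := hL.2.1 _ hy.1
          exact ⟨⟨y1, Finset.mem_filter.mpr ⟨hy1, (hU _ _ hu).mp hy.2⟩, hu⟩,
            ⟨y2, Finset.mem_filter.mpr ⟨hy2, (hV _ _ hv).mp hy.2⟩, hv⟩⟩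
        have heq := hL.2.2 (C.filter (fun z => z ∈ D)) (Finset.filter_subset _ _)
          ⟨_, Finset.mem_filter.mpr ⟨hx, hxD⟩⟩ hcl
        intro y hy
        rw [Finset.mem_inter]
        refine ⟨hC hy, ?_⟩
        rw [← heq, Finset.mem_filter] at hy
        exact hy.2
      · right
        refine ⟨?_, hL⟩
        have hcl : Cl U V (C.filter (fun z => z ∉ D)) := by
          intro y hy
          rw [Finset.mem_filter] at hy
          obtain ⟨⟨y1, hy1, hu⟩, ⟨y2, hy2, hv⟩⟩ := hL.2.1 _ hy.1
          exact ⟨⟨y1, Finset.mem_filter.mpr ⟨hy1, fun h => hy.2 ((hU _ _ hu).mpr h)⟩, hu⟩,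
            ⟨y2, Finset.mem_filter.mpr ⟨hy2, fun h => hy.2 ((hV _ _ hv).mpr h)⟩, hv⟩⟩
        have heq := hL.2.2 (C.filter (fun z => z ∉ D)) (Finset.filter_subset _ _)
          ⟨_, Finset.mem_filter.mpr ⟨hx, hxD⟩⟩ hcl
        intro y hy
        rw [Finset.mem_sdiff]
        refine ⟨hC hy, ?_⟩
        rw [← heq, Finset.mem_filter] at hy
        exact hy.2
    · rintro (⟨hC, hL⟩ | ⟨hC, hL⟩)
      · exact ⟨hC.trans Finset.inter_subset_left, hL⟩
      · exact ⟨hC.trans Finset.sdiff_subset, hL⟩
  · rw [Finset.disjoint_left]
    intro C h h'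
    rw [mem_loops] at h h'
    obtain ⟨x, hx⟩ := h.2.1
    have e1 := (Finset.mem_inter.mp (h.1 hx)).2
    have e2 := (Finset.mem_sdiff.mp (h'.1 hx)).2
    exact e2 e1

/-- inserting a closed word -/
theorem varlb_cc_insert (x d y : Wd) (h1 : uc (up d) = 0) (h2 : uo (up d) = 0)
    (h3 : uc (lo d) = 0) (h4 : uo (lo d) = 0) :
    cc (x ++ (d ++ y)) = cc d + cc (x ++ y) := by
  classical
  have hxu := length_up x
  have hxl := length_lo x
  have hdu := length_up d
  have hdl := length_lo d
  unfold cc
  rw [up_append, up_append, lo_append, lo_append, up_append, lo_append]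
  have hmem : ∀ i, i ∈ Finset.Ico x.length (x.length + d.length) ↔
      (x.length ≤ i ∧ i < x.length + d.length) := fun i => Finset.mem_Ico
  rw [varlb_loops_split (Finset.range (x ++ (d ++ y)).length)
    (Finset.Ico x.length (x.length + d.length))]
  · congr 1
    · have e : Finset.range (x ++ (d ++ y)).length ∩ Finset.Ico x.length (x.length + d.length) =
          (Finset.range d.length).image (fun i => x.length + i) := by
        ext i
        simp only [Finset.mem_inter, Finset.mem_range, Finset.mem_Ico, Finset.mem_image,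
          List.length_append]
        constructor
        · rintro ⟨a, b, c⟩
          exact ⟨i - x.length, by omega, by omega⟩
        · rintro ⟨j, hj, rfl⟩
          omega
      rw [e]
      refine card_loops_image (fun i _ j _ e => by simpa using e) ?_ ?_
      · intro i hi j hj
        rw [Finset.mem_range] at hi hj
        have := Arc_append_right (s := up x) (t := up d ++ up y) (i := i) (j := j)
        rw [hxu] at this
        rw [this, Arc_append_left (by omega) (by omega)]
      · intro i hi j hj
        rw [Finset.mem_range] at hi hj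
        have := Arc_append_right (s := lo x) (t := lo d ++ lo y) (i := i) (j := j)
        rw [hxl] at this
        rw [this, Arc_append_left (by omega) (by omega)]
    · have e : Finset.range (x ++ (d ++ y)).length \ Finset.Ico x.length (x.length + d.length) =
          (Finset.range (x ++ y).length).image (varlbφ x.length d.length) := by
        ext i
        simp only [Finset.mem_sdiff, Finset.mem_range, Finset.mem_Ico, Finset.mem_image,
          List.length_append]
        unfold varlbφ
        constructor
        · rintro ⟨a, b⟩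
          rcases lt_or_ge i x.length with h | h
          · exact ⟨i, by omega, by rw [if_pos h]⟩
          · exact ⟨i - d.length, by omega, by rw [if_neg (by omega)]; omega⟩
        · rintro ⟨j, hj, rfl⟩
          split_ifs with h
          · omega
          · omega
      rw [e]
      refine card_loops_image ?_ ?_ ?_
      · intro i _ j _ e
        unfold varlbφ at e
        split_ifs at e <;> omega
      · intro i _ j _
        have := varlb_Arc (s := up x) (d := up d) (t := up y) h1 h2 i j
        rw [hxu, hdu] at this
        exact this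
      · intro i _ j _
        have := varlb_Arc (s := lo x) (d := lo d) (t := lo y) h3 h4 i j
        rw [hxl, hdl] at this
        exact this
  · intro i j h
    rw [hmem, hmem]
    constructor
    · rintro ⟨a, b⟩
      have := varlb_closed h1 h2 h (by omega) (by omega)
      rw [hxu, hdu] at this; exact this
    · rintro ⟨a, b⟩
      have := varlb_closed h1 h2 ((isMat_Arc _).symm h) (by omega) (by omega)
      rw [hxu, hdu] at this; exact this
  · intro i j h
    rw [hmem, hmem]
    constructor
    · rintro ⟨a, b⟩
      have := varlb_closed h3 h4 h (by omega) (by omega)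
      rw [hxl, hdl] at this; exact this
    · rintro ⟨a, b⟩
      have := varlb_closed h3 h4 ((isMat_Arc _).symm h) (by omega) (by omega)
      rw [hxl, hdl] at this; exact this

theorem varlb_cc_nil : cc [] = 0 := by
  classical
  unfold cc
  rw [Finset.card_eq_zero]
  apply Finset.eq_empty_of_forall_notMem
  intro C hC
  rw [mem_loops] at hC
  obtain ⟨x, hx⟩ := hC.2.1
  have := hC.1 hx
  simp at this

/-- one loop through everything -/
theorem varlb_one {U V : ℕ → ℕ → Prop} {n : ℕ} (hn : 0 < n)
    (hcl : Cl U V (Finset.range n))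
    (hmin : ∀ C : Finset ℕ, C ⊆ Finset.range n → C.Nonempty → Cl U V C → C = Finset.range n) :
    (loops U V (Finset.range n)).card = 1 := by
  classical
  rw [Finset.card_eq_one]
  refine ⟨Finset.range n, ?_⟩
  ext C
  rw [mem_loops, Finset.mem_singleton]
  constructor
  · rintro ⟨h1, h2⟩
    exact hmin C h1 h2.1 h2.2.1
  · rintro rfl
    exact ⟨subset_rfl, ⟨⟨0, Finset.mem_range.mpr hn⟩, hcl, hmin⟩⟩

theorem varlb_cc_two : cc [((true, true) : Ltr), (false, false)] = 1 := by
  classical
  have h01 : arc [true, false] 0 1 := by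
    refine ⟨by omega, by simp, by simp [ht], ?_⟩
    intro k h1 h2
    have : k = 1 := by omega
    subst this; simp [ht]
  unfold cc
  have e1 : up [((true, true) : Ltr), (false, false)] = [true, false] := rfl
  have e2 : lo [((true, true) : Ltr), (false, false)] = [true, false] := rfl
  have e3 : [((true, true) : Ltr), (false, false)].length = 2 := rfl
  rw [e1, e2, e3]
  have hA : Arc [true, false] 0 1 := Or.inl h01
  have hA' : Arc [true, false] 1 0 := Or.inr h01
  apply varlb_one (by omega)
  · intro x hx
    rw [Finset.mem_range] at hx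
    interval_cases x
    · exact ⟨⟨1, by simp, hA⟩, ⟨1, by simp, hA⟩⟩
    · exact ⟨⟨0, by simp, hA'⟩, ⟨0, by simp, hA'⟩⟩
  · intro C hC ⟨x, hx⟩ hcl
    have hM := isMat_Arc [true, false]
    have s0 : 0 ∈ C → 1 ∈ C := by
      intro h
      obtain ⟨⟨y, hy, hxy⟩, _⟩ := hcl 0 h
      rwa [hM.func hxy hA] at hy
    have s1 : 1 ∈ C → 0 ∈ C := by
      intro h
      obtain ⟨⟨y, hy, hxy⟩, _⟩ := hcl 1 h
      rwa [hM.func hxy hA'] at hy
    have hx2 := Finset.mem_range.mp (hC hx)
    apply Finset.Subset.antisymm hC
    intro z hz
    rw [Finset.mem_range] at hz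
    interval_cases x <;> interval_cases z <;> tauto

theorem varlb_cc_blkB : cc blkB = 1 := by
  classical
  unfold cc
  have e1 : up blkB = [true, false, true, false] := rfl
  have e2 : lo blkB = [true, true, false, false] := rfl
  have e3 : blkB.length = 4 := rfl
  rw [e1, e2, e3]
  have a1 : arc [true, false, true, false] 0 1 := by
    refine ⟨by omega, by simp, by simp [ht], ?_⟩
    intro k h1 h2
    have : k = 1 := by omega
    subst this; simp [ht]
  have a2 : arc [true, false, true, false] 2 3 := by
    refine ⟨by omega, by simp, by simp [ht], ?_⟩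
    intro k h1 h2
    have : k = 3 := by omega
    subst this; simp [ht]
  have b1 : arc [true, true, false, false] 0 3 := by
    refine ⟨by omega, by simp, by simp [ht], ?_⟩
    intro k h1 h2
    interval_cases k <;> simp [ht]
  have b2 : arc [true, true, false, false] 1 2 := by
    refine ⟨by omega, by simp, by simp [ht], ?_⟩
    intro k h1 h2
    have : k = 2 := by omega
    subst this; simp [ht]
  have u01 : Arc [true, false, true, false] 0 1 := Or.inl a1
  have u10 : Arc [true, false, true, false] 1 0 := Or.inr a1
  have u23 : Arc [true, false, true, false] 2 3 := Or.inl a2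
  have u32 : Arc [true, false, true, false] 3 2 := Or.inr a2
  have v03 : Arc [true, true, false, false] 0 3 := Or.inl b1
  have v30 : Arc [true, true, false, false] 3 0 := Or.inr b1
  have v12 : Arc [true, true, false, false] 1 2 := Or.inl b2
  have v21 : Arc [true, true, false, false] 2 1 := Or.inr b2
  apply varlb_one (by omega)
  · intro x hx
    rw [Finset.mem_range] at hx
    interval_cases x
    · exact ⟨⟨1, by simp, u01⟩, ⟨3, by simp, v03⟩⟩
    · exact ⟨⟨0, by simp, u10⟩, ⟨2, by simp, v12⟩⟩
    · exact ⟨⟨3, by simp, u23⟩, ⟨1, by simp, v21⟩⟩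
    · exact ⟨⟨2, by simp, u32⟩, ⟨0, by simp, v30⟩⟩
  · intro C hC ⟨x, hx⟩ hcl
    have hM := isMat_Arc [true, false, true, false]
    have hN := isMat_Arc [true, true, false, false]
    have s01 : 0 ∈ C → 1 ∈ C := by
      intro h
      obtain ⟨⟨y, hy, hxy⟩, _⟩ := hcl 0 h
      rwa [hM.func hxy u01] at hy
    have s12 : 1 ∈ C → 2 ∈ C := by
      intro h
      obtain ⟨_, ⟨y, hy, hxy⟩⟩ := hcl 1 h
      rwa [hN.func hxy v12] at hy
    have s23 : 2 ∈ C → 3 ∈ C := by
      intro h
      obtain ⟨⟨y, hy, hxy⟩, _⟩ := hcl 2 h
      rwa [hM.func hxy u23] at hy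
    have s30 : 3 ∈ C → 0 ∈ C := by
      intro h
      obtain ⟨_, ⟨y, hy, hxy⟩⟩ := hcl 3 h
      rwa [hN.func hxy v30] at hy
    have hx2 := Finset.mem_range.mp (hC hx)
    apply Finset.Subset.antisymm hC
    intro z hz
    rw [Finset.mem_range] at hz
    interval_cases x <;> interval_cases z <;> tauto

theorem varlb_cc_blkA : cc blkA = 2 := by
  have h := varlb_cc_insert [] [((true, true) : Ltr), (false, false)] [(true, true), (false, false)]
    rfl rfl rfl rfl
  rw [varlb_cc_two] at h
  simp only [List.nil_append] at h
  rw [varlb_cc_two] at h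
  exact h

theorem cc_blk (x y : Wd) : cc (x ++ blkA ++ y) = cc (x ++ blkB ++ y) + 1 := by
  rw [List.append_assoc, List.append_assoc, varlb_cc_insert x blkA y rfl rfl rfl rfl,
    varlb_cc_insert x blkB y rfl rfl rfl rfl, varlb_cc_blkA, varlb_cc_blkB]
  ring

theorem ee_blk (x y : Wd) : ee (x ++ blkA ++ y) = ee (x ++ blkB ++ y) := by
  unfold ee
  simp only [up_append, lo_append, uc_append, uo_append]
  have e1 : up blkA = up blkB := rfl
  have e2 : uc (lo blkA) = 0 := rfl
  have e3 : uo (lo blkA) = 0 := rfl
  have e4 : uc (lo blkB) = 0 := rfl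
  have e5 : uo (lo blkB) = 0 := rfl
  rw [e1, e2, e3, e4, e5]

/-- sign of a block -/
noncomputable def varlbψ (b : Wd) : ℝ := (if b = blkA then 1 else 0) - (if b = blkB then 1 else 0)

/-- sign of the block number `j` -/
noncomputable def varlbH (j : ℕ) (w : Wd) : ℝ := varlbψ ((w.drop (4 * j)).take 4)

theorem varlb_Ew4 (G : Wd → ℝ) : Ew 4 (fun b => varlbψ b * G b) = (G blkA - G blkB) / 256 := by
  have key : ∀ w : Wd, w.length = 4 →
      ∑ x : Fin 4 → Ltr, (if List.ofFn x = w then (1 : ℝ) else 0) * G (List.ofFn x) = G w := by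
    intro w hw
    have hex : ∃ x0 : Fin 4 → Ltr, List.ofFn x0 = w := by
      refine ⟨fun i => w[i.1]'(by have := i.2; omega), ?_⟩
      apply List.ext_getElem
      · rw [List.length_ofFn, hw]
      · intro i h1 h2
        rw [List.getElem_ofFn]
    obtain ⟨x0, hx0⟩ := hex
    rw [Finset.sum_eq_single x0]
    · rw [hx0, if_pos rfl, one_mul]
    · intro b _ hb
      rw [if_neg, zero_mul]
      intro h
      apply hb
      rw [← hx0] at h
      exact List.ofFn_injective h
    · intro h; exact absurd (Finset.mem_univ _) h
  unfold Ew varlbψ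
  simp only [sub_mul]
  rw [Finset.sum_sub_distrib, key blkA rfl, key blkB rfl]
  norm_num

theorem varlb_take (x b y : Wd) (i j : ℕ) (hx : x.length = 4 * j) (hb : b.length = 4) :
    varlbH i (x ++ (b ++ y)) = if i = j then varlbψ b else
      if i < j then varlbH i x else varlbψ ((y.drop (4 * (i - j - 1))).take 4) := by
  unfold varlbH
  split_ifs with h1 h2
  · subst h1
    rw [← hx, List.drop_left, ← hb, List.take_left]
  · rw [List.drop_append_of_le_length (by omega), List.take_append_of_le_length]
    rw [List.length_drop]; omega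
  · have e : 4 * i = (x ++ b).length + 4 * (i - j - 1) := by
      rw [List.length_append]; omega
    rw [← List.append_assoc, e, List.drop_length_add_append]

theorem varlb_Ew_blk (n j : ℕ) (hj : 4 * j + 4 ≤ n) (F : Wd → ℝ) :
    Ew n (fun w => F w * varlbH j w) =
      Ew (4 * j) (fun x => Ew (n - 4 * j - 4) (fun y =>
        (F (x ++ (blkA ++ y)) - F (x ++ (blkB ++ y))))) / 256 := by
  obtain ⟨r, rfl⟩ : ∃ r, n = 4 * j + (4 + r) := ⟨n - 4 * j - 4, by omega⟩
  have e : 4 * j + (4 + r) - 4 * j - 4 = r := by omega
  rw [e, Ew_append]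
  have h1 : Ew (4 * j) (fun x => Ew (4 + r) (fun y => F (x ++ y) * varlbH j (x ++ y))) =
      Ew (4 * j) (fun x => (1 / 256) * Ew r (fun y => (F (x ++ (blkA ++ y)) - F (x ++ (blkB ++ y))))) := by
    apply Ew_congr
    intro x hx
    rw [Ew_append]
    have h2 : Ew 4 (fun b => Ew r (fun y => F (x ++ (b ++ y)) * varlbH j (x ++ (b ++ y)))) =
        Ew 4 (fun b => varlbψ b * Ew r (fun y => F (x ++ (b ++ y)))) := by
      apply Ew_congr
      intro b hb
      rw [← Ew_mul_left]
      apply Ew_congr
      intro y _
      rw [varlb_take x b y j j hx hb, if_pos rfl]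
      ring
    rw [h2, varlb_Ew4, ← Ew_sub]
    ring
  rw [h1, Ew_mul_left]
  ring

theorem varlb_Ew_sum (n M : ℕ) (F : Wd → ℝ) (h : ℕ → Wd → ℝ) :
    Ew n (fun w => F w * ∑ j ∈ Finset.range M, h j w) =
      ∑ j ∈ Finset.range M, Ew n (fun w => F w * h j w) := by
  induction M with
  | zero =>
    simp only [Finset.range_zero, Finset.sum_empty, mul_zero]
    exact Ew_const n 0
  | succ M ih =>
    rw [Finset.sum_range_succ, ← ih, ← Ew_add]
    congr 1
    funext w
    rw [Finset.sum_range_succ]
    ring

theorem varlb_main (K : ℝ) (n M : ℕ) (hM : 4 * M ≤ n) (hM0 : 0 < M) :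
    (M : ℝ) / 512 ≤ Vw n (fun x => (cc x : ℝ) + K * ee x) := by
  set f : Wd → ℝ := fun x => (cc x : ℝ) + K * ee x with hf
  set H : Wd → ℝ := fun w => ∑ j ∈ Finset.range M, varlbH j w with hH
  have h1 : Ew n (fun w => (f w - Ew n f) * H w) = M / 256 := by
    rw [hH, varlb_Ew_sum]
    have : ∀ j ∈ Finset.range M, Ew n (fun w => (f w - Ew n f) * varlbH j w) = 1 / 256 := by
      intro j hj
      rw [Finset.mem_range] at hj
      rw [varlb_Ew_blk n j (by omega)]
      have h2 : Ew (4 * j) (fun x => Ew (n - 4 * j - 4) (fun y =>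
        ((f (x ++ (blkA ++ y)) - Ew n f) - (f (x ++ (blkB ++ y)) - Ew n f)))) = 1 := by
        rw [← Ew_const (4 * j) 1]
        apply Ew_congr
        intro x _
        rw [← Ew_const (n - 4 * j - 4) 1]
        apply Ew_congr
        intro y _
        have c1 := cc_blk x y
        have c2 := ee_blk x y
        rw [List.append_assoc, List.append_assoc] at c1 c2
        rw [hf]
        simp only
        rw [c1, c2]
        push_cast
        ring
      rw [h2]
    rw [Finset.sum_congr rfl this, Finset.sum_const, Finset.card_range, nsmul_eq_mul]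
    ring
  have h3 : Ew n (fun w => H w ^ 2) = M / 128 := by
    have e : Ew n (fun w => H w ^ 2) = Ew n (fun w => H w * ∑ j ∈ Finset.range M, varlbH j w) := by
      congr 1
      funext w
      rw [sq]
    rw [e, varlb_Ew_sum]
    have : ∀ j ∈ Finset.range M, Ew n (fun w => H w * varlbH j w) = 1 / 128 := by
      intro j hj
      have hj' := Finset.mem_range.mp hj
      rw [varlb_Ew_blk n j (by omega)]
      have h2 : Ew (4 * j) (fun x => Ew (n - 4 * j - 4) (fun y =>
        (H (x ++ (blkA ++ y)) - H (x ++ (blkB ++ y))))) = 2 := by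
        rw [← Ew_const (4 * j) 2]
        apply Ew_congr
        intro x hx
        rw [← Ew_const (n - 4 * j - 4) 2]
        apply Ew_congr
        intro y _
        rw [hH]
        simp only
        rw [← Finset.sum_sub_distrib, Finset.sum_eq_single_of_mem j hj]
        · rw [varlb_take x blkA y j j hx rfl, varlb_take x blkB y j j hx rfl, if_pos rfl, if_pos rfl]
          unfold varlbψ
          have n1 : blkA ≠ blkB := by decide
          have n2 : blkB ≠ blkA := by decide
          rw [if_pos rfl, if_neg n1, if_neg n2, if_pos rfl]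
          norm_num
        · intro i _ hij
          rw [varlb_take x blkA y i j hx rfl, varlb_take x blkB y i j hx rfl, if_neg hij, if_neg hij]
          ring
      rw [h2]; norm_num
    rw [Finset.sum_congr rfl this, Finset.sum_const, Finset.card_range, nsmul_eq_mul]
    ring
  have h4 := Ew_mul_sq_le n (fun w => f w - Ew n f) H
  rw [h1, h3] at h4
  unfold Vw
  have hM' : (0 : ℝ) < M := by exact_mod_cast hM0
  set V := Ew n (fun x => (f x - Ew n f) ^ 2) with hV
  have h5 : (M / 512 : ℝ) * (M / 128) ≤ V * (M / 128) := by
    have : (M / 512 : ℝ) * (M / 128) = (M / 256) ^ 2 := by ring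
    rw [this]; exact h4
  exact le_of_mul_le_mul_right h5 (by positivity)

theorem var_lower (K : ℝ) : ∃ c : ℝ, 0 < c ∧ ∀ᶠ n : ℕ in atTop,
    c * n ≤ Vw n (fun x => (cc x : ℝ) + K * ee x) := by
  refine ⟨1 / 4096, by norm_num, ?_⟩
  filter_upwards [eventually_ge_atTop 8] with n hn
  refine le_trans ?_ (varlb_main K n (n / 4) (by omega) (by omega))
  have h : n ≤ 8 * (n / 4) := by omega
  have h' : (n : ℝ) ≤ 8 * ((n / 4 : ℕ) : ℝ) := by exact_mod_cast h
  linarith

end MeanderCLT
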