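import Pool.Agent.H98.M.Dmom
import Pool.Agent.H98.M.CycGlue
import Pool.Agent.H98.M.VarLB
import Pool.Agent.H98.M.DoubC
import Pool.Agent.H98.M.BridgeFirst
import Pool.Agent.H98.M.BridgeDens

/-!
# The seam defects are negligible for balanced words
-/

open Filter Topology

namespace MeanderCLT

theorem almostAdd_ff : AlmostAdd ff where
  one := ff_append_one
  mirror := ff_mirw
  var := var_lower (kappa / 2)
  four := D_four
  two := D_two

theorem BRD_Pw_nonneg (N : ℕ) (E : Wd → Prop) : 0 ≤ Pw N E := by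
  unfold Pw
  apply Ew_nonneg
  intro x _
  split_ifs <;> norm_num

theorem BRD_Bal_pos (n : ℕ) : 0 < Pw (2 * n) Bal := by
  obtain ⟨c, hc, h⟩ := bridge_prob
  exact lt_of_lt_of_le (by positivity) (h n)

theorem BRD_mono {N : ℕ} {g h : Wd → ℝ} (hgh : ∀ z, z.length = N → Bal z → g z ≤ h z) :
    Br N g ≤ Br N h := by
  unfold Br
  apply div_le_div_of_nonneg_right _ (BRD_Pw_nonneg N Bal)
  apply Ew_mono
  intro x hx
  split_ifs with hb
  · exact hgh x hx hb
  · exact le_rfl

theorem BRD_add (N : ℕ) (g h : Wd → ℝ) : Br N (fun z => g z + h z) = Br N g + Br N h := by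
  unfold Br
  rw [← add_div, ← Ew_add]
  congr 2
  funext x
  split_ifs
  · rfl
  · rw [add_zero]

theorem BRD_mul (N : ℕ) (c : ℝ) (g : Wd → ℝ) : Br N (fun z => c * g z) = c * Br N g := by
  unfold Br
  rw [← mul_div_assoc, ← Ew_mul_left]
  congr 2
  funext x
  split_ifs
  · rfl
  · rw [mul_zero]

open Classical in
theorem BRD_le_Pw (N : ℕ) (F : Wd → Prop) :
    Br N (fun z => if F z then 1 else 0) ≤ Pw N F / Pw N Bal := by
  unfold Br
  apply div_le_div_of_nonneg_right _ (BRD_Pw_nonneg N Bal)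
  unfold Pw
  apply Ew_mono
  intro x _
  by_cases h1 : Bal x <;> by_cases h2 : F x <;> simp [h1, h2]

open Classical in
theorem BRD_core (N : ℕ) (E F : Wd → Prop) (S : Wd → ℝ) (u : ℝ) (hu : 0 ≤ u)
    (hS : ∀ z, 0 ≤ S z)
    (hE : ∀ z, z.length = N → Bal z → E z → ¬ F z → 1 ≤ u * S z) :
    Br N (fun z => if E z then 1 else 0) ≤ Pw N F / Pw N Bal + u * Br N S := by
  calc Br N (fun z => if E z then 1 else 0)
      ≤ Br N (fun z => (if F z then 1 else 0) + u * S z) := by
        apply BRD_mono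
        intro z hz hb
        have h0 : 0 ≤ u * S z := mul_nonneg hu (hS z)
        by_cases h1 : E z
        · by_cases h2 : F z
          · simp only [h1, h2, if_true]; linarith
          · simp only [h1, h2, if_true, if_false]
            have := hE z hz hb h1 h2
            linarith
        · simp only [h1, if_false]
          have : (0 : ℝ) ≤ if F z then 1 else 0 := by split_ifs <;> norm_num
          linarith
    _ = Br N (fun z => if F z then 1 else 0) + u * Br N S := by rw [BRD_add, BRD_mul]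
    _ ≤ _ := by
        have := BRD_le_Pw N F
        linarith

theorem BRD_decay (K a : ℝ) (hK : 0 ≤ K) (ha : 0 < a) :
    Tendsto (fun n : ℕ => K * (2 * n + 1) * (n + 1) * Real.exp (-(a * Real.sqrt n))) atTop (𝓝 0) := by
  have h1 : Tendsto (fun n : ℕ => a * Real.sqrt n) atTop atTop :=
    Tendsto.const_mul_atTop ha (Real.tendsto_sqrt_atTop.comp tendsto_natCast_atTop_atTop)
  have h2 := (Real.tendsto_pow_mul_exp_neg_atTop_nhds_zero 4).comp h1
  have h3 := h2.const_mul (K * 6 / a ^ 4)
  rw [mul_zero] at h3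
  refine squeeze_zero' (Eventually.of_forall fun n => by positivity) ?_ h3
  filter_upwards [eventually_ge_atTop 1] with n hn
  simp only [Function.comp]
  have hn1 : (1 : ℝ) ≤ n := by exact_mod_cast hn
  have hs : Real.sqrt n ^ 4 = (n : ℝ) ^ 2 := by
    have : Real.sqrt n ^ 2 = (n : ℝ) := Real.sq_sqrt (by positivity)
    calc Real.sqrt n ^ 4 = (Real.sqrt n ^ 2) ^ 2 := by ring
      _ = (n : ℝ) ^ 2 := by rw [this]
  have e : K * 6 / a ^ 4 * ((a * Real.sqrt n) ^ 4 * Real.exp (-(a * Real.sqrt n))) =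
      K * (6 * (n : ℝ) ^ 2) * Real.exp (-(a * Real.sqrt n)) := by
    rw [mul_pow, hs]
    field_simp
  rw [e]
  apply mul_le_mul_of_nonneg_right _ (Real.exp_nonneg _)
  rw [mul_assoc]
  apply mul_le_mul_of_nonneg_left _ hK
  nlinarith

/-- general estimate: law of large numbers with exponential tails plus mean bound -/
theorem BRD_general (D S : ℕ → Wd → ℝ) (hS : ∀ n z, 0 ≤ S n z)
    (hD : ∀ ε' : ℝ, 0 < ε' → ∃ C : ℝ, 0 < C ∧ ∀ (n : ℕ) (T : ℝ), 0 ≤ T →
      Pw (2 * n) (fun z => Bal z ∧ C + ε' * S n z + T < |D n z|) ≤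
        C * (2 * n + 1) * Real.exp (-T / C))
    (hmean : ∃ K : ℝ, 0 < K ∧ ∀ n : ℕ, Br (2 * n) (S n) ≤ K * Real.sqrt n)
    (ε : ℝ) (hε : 0 < ε) : ∀ᶠ n : ℕ in atTop,
    Br (2 * n) (fun z => open Classical in if ε * Real.sqrt n < |D n z| then 1 else 0) ≤ ε := by
  classical
  obtain ⟨K, hK, hmean⟩ := hmean
  obtain ⟨ε', hε'⟩ : ∃ ε', ε' = ε ^ 2 / (6 * K) := ⟨_, rfl⟩
  have hε'0 : 0 < ε' := by rw [hε']; positivity
  obtain ⟨C, hC, hD⟩ := hD ε' hε'0
  obtain ⟨c, hc, hprob⟩ := bridge_prob
  have hdec := BRD_decay (C / c) (ε / 3 / C) (by positivity) (by positivity)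
  have hsq : Tendsto (fun n : ℕ => ε / 3 * Real.sqrt n) atTop atTop :=
    Tendsto.const_mul_atTop (by positivity)
      (Real.tendsto_sqrt_atTop.comp tendsto_natCast_atTop_atTop)
  filter_upwards [hdec.eventually (gt_mem_nhds (show (0 : ℝ) < ε / 2 by positivity)),
    hsq.eventually_ge_atTop C, eventually_ge_atTop 1] with n h1 h2 h3
  have hn1 : (1 : ℝ) ≤ n := by exact_mod_cast h3
  have hsn : 0 < Real.sqrt n := Real.sqrt_pos.mpr (by linarith)
  obtain ⟨u, hu⟩ : ∃ u, u = ε' / (ε / 3 * Real.sqrt n) := ⟨_, rfl⟩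
  have hu0 : 0 ≤ u := by rw [hu]; positivity
  have hcore := BRD_core (2 * n) (fun z => ε * Real.sqrt n < |D n z|)
    (fun z => Bal z ∧ C + ε' * S n z + ε / 3 * Real.sqrt n < |D n z|) (S n) u hu0 (hS n) (by
      intro z _ hb hE hF
      have hF' : |D n z| ≤ C + ε' * S n z + ε / 3 * Real.sqrt n := by
        by_contra hcon
        push Not at hcon
        exact hF ⟨hb, hcon⟩
      rw [hu, div_mul_eq_mul_div, le_div_iff₀ (by positivity)]
      linarith)
  have hP : Pw (2 * n) (fun z => Bal z ∧ C + ε' * S n z + ε / 3 * Real.sqrt n < |D n z|) /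
      Pw (2 * n) Bal ≤ ε / 2 := by
    have hB := hprob n
    have hBpos := BRD_Bal_pos n
    have hp := hD n (ε / 3 * Real.sqrt n) (by positivity)
    rw [div_le_iff₀ hBpos]
    have e1 : -(ε / 3 * Real.sqrt n) / C = -(ε / 3 / C * Real.sqrt n) := by ring
    rw [e1] at hp
    have h4 : C * (2 * n + 1) * Real.exp (-(ε / 3 / C * Real.sqrt n)) ≤ ε / 2 * (c / (n + 1)) := by
      have h5 : C / c * (2 * n + 1) * (n + 1) * Real.exp (-(ε / 3 / C * Real.sqrt n)) * (c / (n + 1))
          = C * (2 * n + 1) * Real.exp (-(ε / 3 / C * Real.sqrt n)) := by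
        field_simp
      rw [← h5]
      apply mul_le_mul_of_nonneg_right h1.le (by positivity)
    exact hp.trans (h4.trans (by gcongr))
  have hM : u * Br (2 * n) (S n) ≤ ε / 2 := by
    calc u * Br (2 * n) (S n) ≤ u * (K * Real.sqrt n) := by
          apply mul_le_mul_of_nonneg_left (hmean n) hu0
      _ = ε / 2 := by
          rw [hu, hε']
          field_simp
          ring
  refine le_trans (le_of_eq ?_) (hcore.trans (by linarith))
  congr 1

theorem BRD_Pw_mono {N : ℕ} {E F : Wd → Prop} (h : ∀ z, z.length = N → E z → F z) :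
    Pw N E ≤ Pw N F := by
  classical
  unfold Pw
  apply Ew_mono
  intro x hx
  by_cases h1 : E x
  · have h2 := h x hx h1
    simp [h1, h2]
  · by_cases h2 : F x <;> simp [h1, h2]

/-- mean of the number of open ends over the last or first part -/
theorem BRD_mean : ∃ K : ℝ, 0 < K ∧ ∀ n m : ℕ, m ≤ n →
    Br (2 * n) (fun z => (uc (up (z.drop (2 * n - m))) : ℝ) + uc (lo (z.drop (2 * n - m)))) ≤
      K * Real.sqrt n ∧
    Br (2 * n) (fun z => (uc (up (z.take m)) : ℝ) + uc (lo (z.take m))) ≤ K * Real.sqrt n := by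
  obtain ⟨C, hC, hdens⟩ := bridge_dens
  obtain ⟨C', hC', hmom⟩ := uc_moments
  refine ⟨C * C', by positivity, ?_⟩
  intro n m hm
  have h1 := hdens n m hm (fun x => (uc (up x) : ℝ) + uo (up x) + uc (lo x) + uo (lo x))
    (fun x => by positivity)
  have h2 := (hmom m).2.2
  have h3 : C * Ew m (fun x => (uc (up x) : ℝ) + uo (up x) + uc (lo x) + uo (lo x)) ≤
      C * C' * Real.sqrt n := by
    rw [mul_assoc]
    apply mul_le_mul_of_nonneg_left _ hC.le
    refine h2.trans ?_
    gcongr
  constructor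
  · refine le_trans (BRD_mono ?_) (h1.1.trans h3)
    intro z _ _
    have h4 : (0 : ℝ) ≤ uo (up (z.drop (2 * n - m))) := Nat.cast_nonneg _
    have h5 : (0 : ℝ) ≤ uo (lo (z.drop (2 * n - m))) := Nat.cast_nonneg _
    linarith
  · refine le_trans (BRD_mono ?_) (h1.2.trans h3)
    intro z _ _
    have h4 : (0 : ℝ) ≤ uo (up (z.take m)) := Nat.cast_nonneg _
    have h5 : (0 : ℝ) ≤ uo (lo (z.take m)) := Nat.cast_nonneg _
    linarith

open Classical in
/-- the seam defect is negligible under the law of balanced words -/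
theorem D_bridge (k : ℕ) (hk : 1 ≤ k) (ε : ℝ) (hε : 0 < ε) : ∀ᶠ n : ℕ in atTop,
    Br (2 * n) (fun z => if ε * Real.sqrt n < |ff z - ff (z.take (nf k n)) - ff (z.drop (nf k n))|
      then 1 else 0) ≤ ε := by
  have hm : ∀ n : ℕ, 2 * n / 2 ^ k ≤ n := by
    intro n
    have h2 : 2 ≤ 2 ^ k := by
      calc 2 = 2 ^ 1 := rfl
        _ ≤ 2 ^ k := Nat.pow_le_pow_right (by norm_num) hk
    calc 2 * n / 2 ^ k ≤ 2 * n / 2 := Nat.div_le_div_left h2 (by norm_num)
      _ = n := by omega
  have h := BRD_general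
    (fun n z => ff z - ff (z.take (nf k n)) - ff (z.drop (nf k n)))
    (fun n z => (mU (mirw (z.take (nf k n))) (z.drop (nf k n)) : ℝ) +
      mL (mirw (z.take (nf k n))) (z.drop (nf k n)))
    (fun n z => by positivity) ?_ ?_ ε hε
  · refine h.mono ?_
    intro n hn
    refine le_trans (le_of_eq ?_) hn
    congr 1
  · intro ε' hε'
    obtain ⟨C, hC, hl⟩ := lln_pair ε' hε'
    refine ⟨C, hC, ?_⟩
    intro n T hT
    have hl' := hl (nf k n) (2 * n / 2 ^ k) T hT
    have hsum : nf k n + 2 * n / 2 ^ k = 2 * n := by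
      have := hm n
      unfold nf; omega
    have hsumr : ((nf k n : ℕ) : ℝ) + ((2 * n / 2 ^ k : ℕ) : ℝ) = 2 * n := by exact_mod_cast hsum
    rw [hsumr] at hl'
    refine le_trans ?_ hl'
    refine le_trans (BRD_Pw_mono (F := fun z => C + ε' * ((mU (mirw (z.take (nf k n)))
      (z.drop (nf k n)) : ℝ) + mL (mirw (z.take (nf k n))) (z.drop (nf k n))) + T <
      |ff z - ff (z.take (nf k n)) - ff (z.drop (nf k n))|) (fun z _ hz => hz.2)) ?_
    apply le_of_eq
    generalize 2 * n / 2 ^ k = m at hsum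
    unfold Pw Pw2
    rw [← hsum, Ew_append]
    refine Eq.trans ?_ (Ew_mirw (nf k n) (fun x => Ew m (fun y => if C + ε' * ((mU x y : ℝ) +
      mL x y) + T < |(nu x y : ℝ) - kappa * (mU x y + mL x y)| then (1 : ℝ) else 0)))
    apply Ew_congr
    intro x hx
    apply Ew_congr
    intro y hy
    have e1 : (x ++ y).take (nf k n) = x := by rw [← hx]; simp
    have e2 : (x ++ y).drop (nf k n) = y := by rw [← hx]; simp
    simp only [e1, e2]
    rw [ff_glue]
  · obtain ⟨K, hK, hmean⟩ := BRD_mean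
    refine ⟨K, hK, ?_⟩
    intro n
    refine le_trans (BRD_mono ?_) (hmean n (2 * n / 2 ^ k) (hm n)).1
    intro z _ _
    have e : 2 * n - 2 * n / 2 ^ k = nf k n := rfl
    rw [e]
    have h1 : (mU (mirw (z.take (nf k n))) (z.drop (nf k n)) : ℝ) ≤
        uc (up (z.drop (nf k n))) := by
      exact_mod_cast min_le_right _ _
    have h2 : (mL (mirw (z.take (nf k n))) (z.drop (nf k n)) : ℝ) ≤
        uc (lo (z.drop (nf k n))) := by
      exact_mod_cast min_le_right _ _
    linarith

open Classical in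
/-- the cyclic seam defect is negligible under the law of balanced words -/
theorem Dcyc_bridge (ε : ℝ) (hε : 0 < ε) : ∀ᶠ n : ℕ in atTop,
    Br (2 * n) (fun z => if ε * Real.sqrt n < |(ccyc z : ℝ) - ff z| then 1 else 0) ≤ ε := by
  have h := BRD_general
    (fun _ z => (ccyc z : ℝ) - ff z) (fun _ z => (kU z : ℝ) + kL z)
    (fun n z => by positivity) ?_ ?_ ε hε
  · refine h.mono ?_
    intro n hn
    refine le_trans (le_of_eq ?_) hn
    congr 1
  · intro ε' hε'
    obtain ⟨C, hC, hl⟩ := lln_cyc ε' hε'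
    refine ⟨C, hC, ?_⟩
    intro n T hT
    have hl' := hl (2 * n) T hT
    push_cast at hl'
    refine le_trans (BRD_Pw_mono ?_) hl'
    rintro z _ ⟨hb, hz⟩
    rw [ccyc_ff z hb] at hz
    have e : ff z + ((nucyc z : ℝ) - kappa * (kU z + kL z)) - ff z =
        (nucyc z : ℝ) - kappa * (kU z + kL z) := by ring
    rw [e] at hz
    exact hz
  · obtain ⟨K, hK, hmean⟩ := BRD_mean
    refine ⟨2 * K, by positivity, ?_⟩
    intro n
    have h1 := hmean n n le_rfl
    have e : 2 * n - n = n := by omega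
    rw [e] at h1
    calc Br (2 * n) (fun z => (kU z : ℝ) + kL z)
        ≤ Br (2 * n) (fun z => ((uc (up (z.drop n)) : ℝ) + uc (lo (z.drop n))) +
            ((uc (up (z.take n)) : ℝ) + uc (lo (z.take n)))) := by
          apply BRD_mono
          intro z _ _
          have a1 : kU z ≤ uc (up (z.take n)) + uc (up (z.drop n)) := by
            have : uc (up z) ≤ uc (up (z.take n)) + uc (up (z.drop n)) := by
              conv_lhs => rw [← List.take_append_drop n z]
              rw [up_append, uc_append]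
              omega
            exact (min_le_left _ _).trans this
          have a2 : kL z ≤ uc (lo (z.take n)) + uc (lo (z.drop n)) := by
            have : uc (lo z) ≤ uc (lo (z.take n)) + uc (lo (z.drop n)) := by
              conv_lhs => rw [← List.take_append_drop n z]
              rw [lo_append, uc_append]
              omega
            exact (min_le_left _ _).trans this
          have b1 : (kU z : ℝ) ≤ uc (up (z.take n)) + uc (up (z.drop n)) := by exact_mod_cast a1
          have b2 : (kL z : ℝ) ≤ uc (lo (z.take n)) + uc (lo (z.drop n)) := by exact_mod_cast a2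
          linarith
      _ = Br (2 * n) (fun z => ((uc (up (z.drop n)) : ℝ) + uc (lo (z.drop n)))) +
            Br (2 * n) (fun z => ((uc (up (z.take n)) : ℝ) + uc (lo (z.take n)))) := BRD_add _ _ _
      _ ≤ 2 * K * Real.sqrt n := by linarith [h1.1, h1.2]

end MeanderCLT
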