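import Pool.Agent.H98.M.Red

/-!
# The measures on star words
-/

open scoped ENNReal

namespace MeanderCLT

theorem mass_EE_eq (n : ℕ) (g : Wd → ℝ≥0∞) :
    EE n g = ∑' w : {w : Wd // Star n w}, (1 / 2) * (1 / 4) ^ w.1.length * g w.1 := by
  have h := tsum_subtype {w : Wd | Star n w}
    (fun w : Wd => (1 / 2 : ℝ≥0∞) * (1 / 4) ^ w.length * g w)
  refine Eq.trans ?_ h.symm
  unfold EE
  apply tsum_congr
  intro w
  by_cases hw : Star n w
  · rw [if_pos hw, Set.indicator_of_mem (show w ∈ {w : Wd | Star n w} from hw)]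
  · rw [if_neg hw, Set.indicator_of_notMem (show w ∉ {w : Wd | Star n w} from hw)]

theorem EE_mono {n : ℕ} {g h : Wd → ℝ≥0∞} (hgh : ∀ w, Star n w → g w ≤ h w) : EE n g ≤ EE n h := by
  rw [mass_EE_eq, mass_EE_eq]
  apply ENNReal.tsum_le_tsum
  intro w
  gcongr
  exact hgh w.1 w.2

theorem EE_add (n : ℕ) (g h : Wd → ℝ≥0∞) : EE n (fun w => g w + h w) = EE n g + EE n h := by
  rw [mass_EE_eq, mass_EE_eq, mass_EE_eq, ← ENNReal.tsum_add]
  apply tsum_congr
  intro w
  rw [mul_add]

theorem EE_mul_left (n : ℕ) (c : ℝ≥0∞) (g : Wd → ℝ≥0∞) : EE n (fun w => c * g w) = c * EE n g := by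
  rw [mass_EE_eq, mass_EE_eq, ← ENNReal.tsum_mul_left]
  apply tsum_congr
  intro w
  ring

/-- joining two star words at a star -/
noncomputable def mass_join (n1 n2 : ℕ) :
    ({w : Wd // Star n1 w} × Bool × {w : Wd // Star n2 w}) ≃ {w : Wd // Star (n1 + 1 + n2) w} :=
  Equiv.ofBijective (fun t => ⟨t.1.1 ++ (false, t.2.1) :: t.2.2.1, star_join t.2.1 t.1.2 t.2.2.2⟩)
    ⟨by
      rintro ⟨⟨w1, h1⟩, z, ⟨w2, h2⟩⟩ ⟨⟨w1', h1'⟩, z', ⟨w2', h2'⟩⟩ h
      have h3 := congrArg Subtype.val h
      obtain ⟨e1, e2, e3⟩ := star_unique h3 h1 h1'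
      subst e1 e2 e3
      rfl, by
      rintro ⟨w, hw⟩
      obtain ⟨w1, z, w2, rfl, h1, h2⟩ := star_cut hw
      exact ⟨⟨⟨w1, h1⟩, z, ⟨w2, h2⟩⟩, rfl⟩⟩

/-- splitting at a star -/
theorem EE_split (n1 n2 : ℕ) (g : Wd → ℝ≥0∞) : EE (n1 + 1 + n2) g =
    (1 / 2) * ∑ z : Bool, EE n1 (fun w1 => EE n2 (fun w2 => g (w1 ++ (false, z) :: w2))) := by
  rw [mass_EE_eq, ← (mass_join n1 n2).tsum_eq]
  rw [ENNReal.tsum_prod']
  have h1 : ∀ w1 : {w : Wd // Star n1 w}, ∑' t : Bool × {w : Wd // Star n2 w},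
      (1 / 2 : ℝ≥0∞) * (1 / 4) ^ ((mass_join n1 n2) (w1, t)).1.length *
        g ((mass_join n1 n2) (w1, t)).1 = ∑ z : Bool, (1 / 2) * ((1 / 2) * (1 / 4) ^ w1.1.length *
          EE n2 (fun w2 => g (w1.1 ++ (false, z) :: w2))) := by
    intro w1
    rw [ENNReal.tsum_prod', tsum_fintype]
    apply Finset.sum_congr rfl
    intro z _
    rw [mass_EE_eq, ← ENNReal.tsum_mul_left, ← ENNReal.tsum_mul_left]
    apply tsum_congr
    intro w2
    have e : ((mass_join n1 n2) (w1, z, w2)).1 = w1.1 ++ (false, z) :: w2.1 := rfl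
    rw [e]
    have e2 : (w1.1 ++ (false, z) :: w2.1).length = w1.1.length + w2.1.length + 1 := by
      simp; omega
    rw [e2, pow_succ, pow_add]
    have e3 : (1 / 4 : ℝ≥0∞) = (1 / 2) * (1 / 2) := by
      rw [one_div, one_div, ← ENNReal.mul_inv (by simp) (by simp)]
      norm_num
    conv_lhs => rw [show ∀ a b c : ℝ≥0∞, 1 / 2 * (a * b * (1 / 4)) * c =
      1 / 2 * (a * b * (1 / 2 * (1 / 2))) * c by intro a b c; rw [← e3]]
    ring
  rw [tsum_congr h1, Summable.tsum_finsetSum (fun _ _ => ENNReal.summable), Finset.mul_sum]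
  apply Finset.sum_congr rfl
  intro z _
  rw [mass_EE_eq, ← ENNReal.tsum_mul_left]

/-- first return: a star word with no star is empty or starts with an opening bracket -/
theorem mass_star_zero (w : Wd) : Star 0 w ↔ w = [] ∨ ∃ a w', w = (true, a) :: w' ∧ Star 1 w' := by
  rcases w with _ | ⟨⟨b, a⟩, w⟩
  · simp [Star, up, red]
  · rw [star_iff]
    cases b with
    | true =>
      rw [up_cons, uc_cons_true, uo_cons_true]
      constructor
      · rintro ⟨h1, h2⟩
        refine Or.inr ⟨a, w, rfl, ?_⟩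
        rw [star_iff]
        split_ifs at h2 with h3
        · exact ⟨by omega, by omega⟩
      · rintro (h | ⟨a', w', h, h'⟩)
        · exact absurd h (by simp)
        · simp only [List.cons.injEq, Prod.mk.injEq, true_and] at h
          rw [star_iff, ← h.2] at h'
          rw [if_neg (by omega)]
          omega
    | false =>
      rw [up_cons, uc_cons_false]
      constructor
      · rintro ⟨h1, h2⟩
        omega
      · rintro (h | ⟨a', w', h, h'⟩)
        · exact absurd h (by simp)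
        · simp at h

theorem mass_quarter_eq : (1 / 4 : ℝ≥0∞) = (1 / 2) * (1 / 2) := by
  rw [one_div, one_div, ← ENNReal.mul_inv (by simp) (by simp)]
  norm_num

theorem mass_half (X : ℝ≥0∞) : (1 / 2) * (X + X) = X := by
  rw [← two_mul, ← mul_assoc, one_div, ENNReal.inv_mul_cancel two_ne_zero ENNReal.ofNat_ne_top,
    one_mul]

theorem mass_quarter (X : ℝ≥0∞) : (1 / 4) * (X + X) = (1 / 2) * X := by
  rw [mass_quarter_eq, mul_assoc, mass_half]

/-- decomposition of the star words without star -/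
noncomputable def mass_fst : (Unit ⊕ (Bool × {w : Wd // Star 1 w})) ≃ {w : Wd // Star 0 w} :=
  Equiv.ofBijective (Sum.elim (fun _ => ⟨[], (mass_star_zero _).2 (Or.inl rfl)⟩)
    (fun t => ⟨(true, t.1) :: t.2.1, (mass_star_zero _).2 (Or.inr ⟨_, _, rfl, t.2.2⟩)⟩))
    ⟨by
      rintro (_ | ⟨a, w, h⟩) (_ | ⟨a', w', h'⟩) e
      · rfl
      · exact absurd (congrArg Subtype.val e) (by simp)
      · exact absurd (congrArg Subtype.val e) (by simp)
      · have e' := congrArg Subtype.val e
        simp only [Sum.elim_inr, List.cons.injEq, Prod.mk.injEq, true_and] at e'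
        obtain ⟨e1, e2⟩ := e'
        subst e1 e2
        rfl, by
      rintro ⟨w, hw⟩
      rcases (mass_star_zero w).1 hw with rfl | ⟨a, w', rfl, h'⟩
      · exact ⟨Sum.inl (), rfl⟩
      · exact ⟨Sum.inr ⟨a, w', h'⟩, rfl⟩⟩

theorem mass_first (g : Wd → ℝ≥0∞) : EE 0 g =
    (1 / 2) * g [] + (1 / 4) * ∑ a : Bool, EE 1 (fun w => g ((true, a) :: w)) := by
  rw [mass_EE_eq, ← mass_fst.tsum_eq, Summable.tsum_sum ENNReal.summable ENNReal.summable,
    tsum_fintype, ENNReal.tsum_prod', tsum_fintype, Finset.mul_sum]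
  congr 1
  · have e : ∀ u : Unit, (mass_fst (Sum.inl u)).1 = [] := fun _ => rfl
    simp [e]
  · apply Finset.sum_congr rfl
    intro a _
    rw [mass_EE_eq, ← ENNReal.tsum_mul_left]
    apply tsum_congr
    intro w
    have e : (mass_fst (Sum.inr (a, w))).1 = (true, a) :: w.1 := rfl
    rw [e, List.length_cons, pow_succ]
    ring

theorem mass_congr {n : ℕ} {g h : Wd → ℝ≥0∞} (hgh : ∀ w, Star n w → g w = h w) :
    EE n g = EE n h :=
  le_antisymm (EE_mono fun w hw => (hgh w hw).le) (EE_mono fun w hw => (hgh w hw).ge)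

theorem mass_split_mul (n1 n2 : ℕ) (g g1 g2 : Wd → ℝ≥0∞)
    (h : ∀ w1 z w2, g (w1 ++ (false, z) :: w2) = g1 w1 * g2 w2) :
    EE (n1 + 1 + n2) g = EE n1 g1 * EE n2 g2 := by
  rw [EE_split]
  have h1 : ∀ z : Bool, EE n1 (fun w1 => EE n2 (fun w2 => g (w1 ++ (false, z) :: w2))) =
      EE n1 g1 * EE n2 g2 := by
    intro z
    simp only [h, EE_mul_left]
    rw [mass_congr (h := fun w => EE n2 g2 * g1 w) (fun w _ => mul_comm _ _), EE_mul_left, mul_comm]
  rw [Fintype.sum_bool, h1, h1, mass_half]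

theorem mass_zero (n : ℕ) : EE n (fun _ => 0) = 0 := by
  rw [mass_EE_eq]
  simp

theorem mass_trunc (N : ℕ) : EE 0 (fun w => if w.length < N then 1 else 0) ≤ 1 := by
  induction N with
  | zero => simp [mass_zero]
  | succ N ih =>
    rw [mass_first, Fintype.sum_bool]
    simp only [List.length_nil, List.length_cons, Nat.zero_lt_succ, if_true,
      Nat.add_lt_add_iff_right]
    rw [mass_quarter]
    have h1 : EE 1 (fun w => if w.length < N then 1 else 0) ≤ 1 := by
      calc EE 1 (fun w => if w.length < N then 1 else 0)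
          = (1 / 2) * ∑ z : Bool, EE 0 (fun w1 => EE 0 (fun w2 =>
            if (w1 ++ (false, z) :: w2).length < N then 1 else 0)) := EE_split 0 0 _
        _ ≤ (1 / 2) * ∑ z : Bool, EE 0 (fun w1 => EE 0 (fun w2 =>
            (if w1.length < N then 1 else 0) * (if w2.length < N then 1 else 0))) := by
            gcongr with z _
            refine EE_mono fun w1 _ => EE_mono fun w2 _ => ?_
            split_ifs with h1 h2 h3 <;> simp at *
            all_goals omega
        _ = EE 0 (fun w => if w.length < N then 1 else 0) *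
            EE 0 (fun w => if w.length < N then 1 else 0) := by
            rw [Fintype.sum_bool, mass_half]
            simp only [EE_mul_left]
            rw [mass_congr (h := fun w1 => EE 0 (fun w => if w.length < N then 1 else 0) *
              (if w1.length < N then 1 else 0)) (fun w _ => mul_comm _ _), EE_mul_left]
        _ ≤ 1 * 1 := mul_le_mul' ih ih
        _ = 1 := one_mul 1
    calc (1 / 2 : ℝ≥0∞) * 1 + (1 / 2) * EE 1 (fun w => if w.length < N then 1 else 0)
        ≤ (1 / 2) * 1 + (1 / 2) * 1 := by gcongr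
      _ = 1 := by rw [← mul_add, mass_half]

theorem mass_le_one : EE 0 (fun _ => 1) ≤ 1 := by
  rw [mass_EE_eq, ENNReal.tsum_eq_iSup_sum]
  refine iSup_le fun s => ?_
  refine le_trans ?_ (mass_trunc (s.sup (fun w => w.1.length) + 1))
  rw [mass_EE_eq]
  refine le_trans ?_ (ENNReal.sum_le_tsum s)
  apply Finset.sum_le_sum
  intro w hw
  rw [if_pos (Nat.lt_succ_of_le (Finset.le_sup (f := fun w : {w : Wd // Star 0 w} => w.1.length) hw))]

theorem mass_quad (c : ℝ≥0∞) : EE 0 (fun w => c ^ w.length) =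
    1 / 2 + (1 / 2) * (c ^ 2 * EE 0 (fun w => c ^ w.length) ^ 2) := by
  conv_lhs => rw [mass_first, Fintype.sum_bool]
  simp only [List.length_nil, List.length_cons, pow_zero, mul_one]
  rw [mass_quarter]
  congr 2
  have h := mass_split_mul 0 0 (fun w => c ^ (w.length + 1)) (fun w => c ^ 2 * c ^ w.length)
    (fun w => c ^ w.length) (by
      intro w1 z w2
      rw [List.length_append, List.length_cons]
      ring)
  rw [EE_mul_left] at h
  refine h.trans ?_
  ring

/-- total mass one -/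
theorem EE_one (n : ℕ) : EE n (fun _ => 1) = 1 := by
  have h0 : EE 0 (fun _ => 1) = 1 := by
    have h1 := mass_quad 1
    simp only [one_pow, one_mul] at h1
    have h2 : EE 0 (fun _ => 1) ≠ ∞ := ne_top_of_le_ne_top ENNReal.one_ne_top mass_le_one
    set A := EE 0 (fun _ => 1) with hA
    have h3 : A.toReal = 1 / 2 + 1 / 2 * A.toReal ^ 2 := by
      conv_lhs => rw [h1]
      rw [ENNReal.toReal_add (by simp) (by finiteness), ENNReal.toReal_mul, ENNReal.toReal_pow]
      norm_num
    have h4 : A.toReal = 1 := by nlinarith [sq_nonneg (A.toReal - 1)]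
    rw [← ENNReal.ofReal_toReal h2, h4, ENNReal.ofReal_one]
  induction n with
  | zero => exact h0
  | succ n ih =>
    have h := mass_split_mul n 0 (fun _ => 1) (fun _ => 1) (fun _ => 1) (by simp)
    rw [ih, h0, one_mul] at h
    exact h

theorem mass_pow (n : ℕ) (c : ℝ≥0∞) : EE n (fun w => c ^ (w.length + 1)) =
    (c * EE 0 (fun w => c ^ w.length)) ^ (n + 1) := by
  have h0 : EE 0 (fun w => c ^ (w.length + 1)) = c * EE 0 (fun w => c ^ w.length) := by
    rw [← EE_mul_left]
    exact mass_congr fun w _ => pow_succ' _ _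
  induction n with
  | zero => rw [h0, zero_add, pow_one]
  | succ n ih =>
    have h := mass_split_mul n 0 (fun w => c ^ (w.length + 1)) (fun w => c ^ (w.length + 1))
      (fun w => c ^ (w.length + 1)) (by
        intro w1 z w2
        rw [List.length_append, List.length_cons]
        ring)
    rw [ih, h0] at h
    rw [pow_succ _ (n + 1)]
    exact h

/-- lower bound for the Laplace transform of the length -/
theorem EE_laplace (n : ℕ) {z : ℝ} (h0 : 0 < z) (h1 : z < 1) :
    ENNReal.ofReal ((1 - Real.sqrt (1 - z ^ 2)) ^ (n + 1)) ≤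
      EE n (fun w => ENNReal.ofReal (z ^ (w.length + 1))) := by
  set c := ENNReal.ofReal z with hc
  have e1 : (fun w : Wd => ENNReal.ofReal (z ^ (w.length + 1))) = fun w => c ^ (w.length + 1) := by
    funext w
    rw [ENNReal.ofReal_pow h0.le]
  rw [e1, mass_pow]
  have hc1 : c ≤ 1 := by
    rw [hc, ← ENNReal.ofReal_one]
    exact ENNReal.ofReal_le_ofReal h1.le
  have hfin : EE 0 (fun w => c ^ w.length) ≠ ∞ := by
    refine ne_top_of_le_ne_top ENNReal.one_ne_top (le_trans (EE_mono fun w _ => ?_) mass_le_one)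
    exact pow_le_one' hc1 _
  have hq := mass_quad c
  set A := EE 0 (fun w => c ^ w.length) with hA
  set a := A.toReal with ha
  have ha0 : 0 ≤ a := ENNReal.toReal_nonneg
  have hAa : A = ENNReal.ofReal a := (ENNReal.ofReal_toReal hfin).symm
  have h3 : a = 1 / 2 + 1 / 2 * (z ^ 2 * a ^ 2) := by
    have hcf : c ≠ ∞ := ENNReal.ofReal_ne_top
    have hcz : c.toReal = z := ENNReal.toReal_ofReal h0.le
    have h4 := congrArg ENNReal.toReal hq
    rw [ENNReal.toReal_add (by simp) (by finiteness), ENNReal.toReal_mul, ENNReal.toReal_mul,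
      ENNReal.toReal_pow, ENNReal.toReal_pow, hcz, ← ha] at h4
    have h5 : (1 / 2 : ℝ≥0∞).toReal = 1 / 2 := by norm_num
    rw [h5] at h4
    exact h4
  have h5 : (z ^ 2 * a - 1) ^ 2 = 1 - z ^ 2 := by
    have : z ^ 2 * a ^ 2 = 2 * a - 1 := by linarith
    calc (z ^ 2 * a - 1) ^ 2 = z ^ 2 * (z ^ 2 * a ^ 2) - 2 * z ^ 2 * a + 1 := by ring
      _ = 1 - z ^ 2 := by rw [this]; ring
  have h6 : 1 - Real.sqrt (1 - z ^ 2) ≤ z ^ 2 * a := by
    rw [← h5, Real.sqrt_sq_eq_abs]
    have := neg_abs_le (z ^ 2 * a - 1)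
    linarith
  have h7 : z ^ 2 * a ≤ z * a := by
    have : z * a * z ≤ z * a * 1 := mul_le_mul_of_nonneg_left h1.le (by positivity)
    calc z ^ 2 * a = z * a * z := by ring
      _ ≤ z * a := by linarith
  have h8 : 0 ≤ 1 - Real.sqrt (1 - z ^ 2) := by
    have : Real.sqrt (1 - z ^ 2) ≤ 1 :=
      (Real.sqrt_le_sqrt (by nlinarith)).trans_eq Real.sqrt_one
    linarith
  rw [hAa, hc, ← ENNReal.ofReal_mul h0.le, ← ENNReal.ofReal_pow (by positivity)]
  exact ENNReal.ofReal_le_ofReal (pow_le_pow_left₀ h8 (h6.trans h7) _)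

/-- the lower word is free given the upper word -/
theorem EE_lower (n : ℕ) (g : List Bool → ℝ≥0∞) (M : ℕ) (c : ℝ≥0∞)
    (hc : ∀ N ≤ M, ∑ l : Fin N → Bool, g (List.ofFn l) ≤ c * 2 ^ N) :
    EE n (fun w => if w.length ≤ M then g (lo w) else 0) ≤
      c * EE n (fun w => if w.length ≤ M then 1 else 0) := by
  classical
  rw [← EE_mul_left]
  unfold EE
  rw [← (List.equivSigmaTuple (α := Ltr)).symm.tsum_eq, ENNReal.tsum_sigma']
  conv_rhs => rw [← (List.equivSigmaTuple (α := Ltr)).symm.tsum_eq, ENNReal.tsum_sigma']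
  apply ENNReal.tsum_le_tsum
  intro N
  rw [tsum_fintype, tsum_fintype]
  have e : ∀ f : Fin N → Ltr, (List.equivSigmaTuple (α := Ltr)).symm ⟨N, f⟩ = List.ofFn f :=
    fun f => rfl
  simp only [e, List.length_ofFn]
  by_cases hN : N ≤ M
  · simp only [hN, if_true, mul_one]
    have hsum : ∀ F : (Fin N → Ltr) → ℝ≥0∞, ∑ f, F f =
        ∑ u : Fin N → Bool, ∑ l : Fin N → Bool, F (fun i => (u i, l i)) := by
      intro F
      rw [← (Equiv.arrowProdEquivProdArrow (Fin N) (fun _ => Bool) (fun _ => Bool)).symm.sum_comp,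
        Fintype.sum_prod_type]
      rfl
    rw [hsum, hsum]
    apply Finset.sum_le_sum
    intro u _
    have hu : ∀ l : Fin N → Bool, up (List.ofFn (fun i => ((u i, l i) : Ltr))) = List.ofFn u := by
      intro l
      simp [up, List.map_ofFn, Function.comp_def]
    have hl : ∀ l : Fin N → Bool, lo (List.ofFn (fun i => ((u i, l i) : Ltr))) = List.ofFn l := by
      intro l
      simp [lo, List.map_ofFn, Function.comp_def]
    simp only [Star, hu, hl]
    split_ifs with h
    · rw [← Finset.mul_sum, Finset.sum_const, Finset.card_univ, Fintype.card_fun, Fintype.card_fin,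
        Fintype.card_bool, nsmul_eq_mul]
      refine (mul_le_mul' le_rfl (hc N hN)).trans_eq ?_
      push_cast
      ring
    · simp
  · simp [hN]

end MeanderCLT
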