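import Pool.Agent.H98.M.Defs

/-!
# Weights of block sequences
-/

open scoped ENNReal

namespace MeanderCLT

open Classical in
/-- weight of a block followed by a star -/
noncomputable def om (n : ℕ) (p : Wd × Bool) : ℝ≥0∞ :=
  if Star n p.1 then (1 / 4) ^ (p.1.length + 1) else 0

open Classical in
/-- mass of a set of pairs of block sequences -/
noncomputable def mass2 (n t : ℕ) (B : (Fin t → Wd × Bool) → (Fin t → Wd × Bool) → Prop) : ℝ≥0∞ :=
  ∑' L : (Fin t → Wd × Bool) × (Fin t → Wd × Bool),
    if B L.1 L.2 then (∏ j, om n (L.1 j)) * (∏ j, om n (L.2 j)) else 0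

open Classical in
/-- uniform probability over pairs of words -/
noncomputable def Pw2 (N1 N2 : ℕ) (E : Wd → Wd → Prop) : ℝ :=
  Ew N1 (fun x => Ew N2 (fun y => if E x y then 1 else 0))

end MeanderCLT
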