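import Pool.Agent.H98.M.StarX
import Pool.Agent.H98.M.Mass
import Pool.Agent.H98.M.Om

/-!
# Chernoff bounds for sequences of blocks, and the constant kappa
-/

open scoped ENNReal
open Filter Topology

namespace MeanderCLT

/-! ### Superadditivity of the mean of `NN` -/

/-- the double mean of `NN` -/
noncomputable def chA (n : ℕ) : ℝ≥0∞ := EE n (fun v => EE n (fun w => (NN v w : ℝ≥0∞)))

theorem EE_const (n : ℕ) (c : ℝ≥0∞) : EE n (fun _ => c) = c := by
  have h := EE_mul_left n c (fun _ => 1)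
  rw [EE_one] at h
  simpa using h

theorem chA_le (n : ℕ) : chA n ≤ n := by
  unfold chA
  calc EE n (fun v => EE n (fun w => (NN v w : ℝ≥0∞)))
      ≤ EE n (fun _ => EE n (fun _ => (n : ℝ≥0∞))) := by
        apply EE_mono
        intro v hv
        apply EE_mono
        intro w hw
        exact_mod_cast NN_le hv hw
    _ = n := by rw [EE_const, EE_const]

theorem chA_ne_top (n : ℕ) : chA n ≠ ⊤ := ne_top_of_le_ne_top (ENNReal.natCast_ne_top n) (chA_le n)

theorem EE2_split (n1 n2 : ℕ) (G : Wd → Wd → ℝ≥0∞) (F1 F2 : Wd → Wd → ℝ≥0∞)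
    (h : ∀ (z z' : Bool) (v1 v2 w1 w2 : Wd), Star n1 v1 → Star n2 v2 → Star n1 w1 → Star n2 w2 →
      F1 v1 w1 + F2 v2 w2 ≤ G (v1 ++ (false, z) :: v2) (w1 ++ (false, z') :: w2)) :
    EE n1 (fun v => EE n1 (fun w => F1 v w)) + EE n2 (fun v => EE n2 (fun w => F2 v w)) ≤
      EE (n1 + 1 + n2) (fun v => EE (n1 + 1 + n2) (fun w => G v w)) := by
  have half : (1 / 2 : ℝ≥0∞) * 2 = 1 := by
    rw [one_div, ENNReal.inv_mul_cancel (by norm_num) (by norm_num)]
  -- inner step
  have inner : ∀ (z : Bool) (v1 v2 : Wd), Star n1 v1 → Star n2 v2 →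
      EE n1 (fun w => F1 v1 w) + EE n2 (fun w => F2 v2 w) ≤
        EE (n1 + 1 + n2) (fun w => G (v1 ++ (false, z) :: v2) w) := by
    intro z v1 v2 hv1 hv2
    rw [EE_split]
    have h1 : ∀ z' : Bool, EE n1 (fun w => F1 v1 w) + EE n2 (fun w => F2 v2 w) ≤
        EE n1 (fun w1 => EE n2 (fun w2 => G (v1 ++ (false, z) :: v2) (w1 ++ (false, z') :: w2))) := by
      intro z'
      calc EE n1 (fun w => F1 v1 w) + EE n2 (fun w => F2 v2 w)
          = EE n1 (fun w1 => EE n2 (fun w2 => F1 v1 w1 + F2 v2 w2)) := by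
            have h2 : ∀ w1, EE n2 (fun w2 => F1 v1 w1 + F2 v2 w2) =
                F1 v1 w1 + EE n2 (fun w2 => F2 v2 w2) := by
              intro w1
              rw [EE_add n2 (fun _ => F1 v1 w1) (fun w2 => F2 v2 w2), EE_const]
            simp only [h2]
            rw [EE_add n1 (fun w1 => F1 v1 w1) (fun _ => EE n2 (fun w2 => F2 v2 w2)), EE_const]
        _ ≤ _ := EE_mono fun w1 hw1 => EE_mono fun w2 hw2 => h z z' v1 v2 w1 w2 hv1 hv2 hw1 hw2
    calc EE n1 (fun w => F1 v1 w) + EE n2 (fun w => F2 v2 w)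
        = (1 / 2) * ∑ _z' : Bool, (EE n1 (fun w => F1 v1 w) + EE n2 (fun w => F2 v2 w)) := by
          rw [Finset.sum_const, Finset.card_univ, Fintype.card_bool, nsmul_eq_mul, ← mul_assoc]
          push_cast
          rw [half, one_mul]
      _ ≤ _ := by
          gcongr with z' _
          exact h1 z'
  rw [EE_split]
  have h1 : ∀ z : Bool, EE n1 (fun v => EE n1 (fun w => F1 v w)) +
      EE n2 (fun v => EE n2 (fun w => F2 v w)) ≤
      EE n1 (fun v1 => EE n2 (fun v2 => EE (n1 + 1 + n2) (fun w => G (v1 ++ (false, z) :: v2) w))) := by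
    intro z
    calc EE n1 (fun v => EE n1 (fun w => F1 v w)) + EE n2 (fun v => EE n2 (fun w => F2 v w))
        = EE n1 (fun v1 => EE n2 (fun v2 => EE n1 (fun w => F1 v1 w) + EE n2 (fun w => F2 v2 w))) := by
          have h2 : ∀ v1, EE n2 (fun v2 => EE n1 (fun w => F1 v1 w) + EE n2 (fun w => F2 v2 w)) =
              EE n1 (fun w => F1 v1 w) + EE n2 (fun v2 => EE n2 (fun w => F2 v2 w)) := by
            intro v1
            rw [EE_add n2 (fun _ => EE n1 (fun w => F1 v1 w)) (fun v2 => EE n2 (fun w => F2 v2 w)),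
              EE_const]
          simp only [h2]
          rw [EE_add n1 (fun v1 => EE n1 (fun w => F1 v1 w))
            (fun _ => EE n2 (fun v2 => EE n2 (fun w => F2 v2 w))), EE_const]
      _ ≤ _ := EE_mono fun v1 hv1 => EE_mono fun v2 hv2 => inner z v1 v2 hv1 hv2
  calc EE n1 (fun v => EE n1 (fun w => F1 v w)) + EE n2 (fun v => EE n2 (fun w => F2 v w))
      = (1 / 2) * ∑ _z : Bool, (EE n1 (fun v => EE n1 (fun w => F1 v w)) +
          EE n2 (fun v => EE n2 (fun w => F2 v w))) := by
        rw [Finset.sum_const, Finset.card_univ, Fintype.card_bool, nsmul_eq_mul, ← mul_assoc]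
        push_cast
        rw [half, one_mul]
    _ ≤ _ := by
        gcongr with z _
        exact h1 z

theorem chA_super (n1 n2 : ℕ) : chA n1 + chA n2 ≤ chA (n1 + 1 + n2) := by
  apply EE2_split
  intro z z' v1 v2 w1 w2 hv1 hv2 hw1 hw2
  exact_mod_cast NN_super z z' hv1 hv2 hw1 hw2

/-- minus the shifted mean -/
noncomputable def chU (N : ℕ) : ℝ := -(if N = 0 then 0 else (chA (N - 1)).toReal)

theorem chU_succ (n : ℕ) : chU (n + 1) = -(chA n).toReal := by simp [chU]

theorem chU_sub : Subadditive chU := by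
  intro m n
  rcases Nat.eq_zero_or_pos m with hm | hm
  · subst hm
    simp [chU]
  rcases Nat.eq_zero_or_pos n with hn | hn
  · subst hn
    simp [chU]
  obtain ⟨m, rfl⟩ : ∃ k, m = k + 1 := ⟨m - 1, by omega⟩
  obtain ⟨n, rfl⟩ : ∃ k, n = k + 1 := ⟨n - 1, by omega⟩
  have h1 : m + 1 + (n + 1) = (m + 1 + n) + 1 := by omega
  rw [h1, chU_succ, chU_succ, chU_succ]
  have h2 := ENNReal.toReal_mono (chA_ne_top _) (chA_super m n)
  rw [ENNReal.toReal_add (chA_ne_top _) (chA_ne_top _)] at h2
  linarith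

theorem chA_toReal_le (n : ℕ) : (chA n).toReal ≤ n := by
  have := ENNReal.toReal_mono (ENNReal.natCast_ne_top n) (chA_le n)
  simpa using this

theorem chU_bdd : BddBelow (Set.range fun n => chU n / n) := by
  refine ⟨-1, ?_⟩
  rintro _ ⟨n, rfl⟩
  simp only
  rcases Nat.eq_zero_or_pos n with hn | hn
  · subst hn
    simp
  obtain ⟨n, rfl⟩ : ∃ k, n = k + 1 := ⟨n - 1, by omega⟩
  rw [chU_succ, le_div_iff₀ (by positivity)]
  have := chA_toReal_le n
  push_cast
  linarith

theorem ratio_eq (n : ℕ) : (chA n).toReal / ((n : ℝ) + 1) = -(chU (n + 1) / ((n + 1 : ℕ) : ℝ)) := by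
  rw [chU_succ]
  push_cast
  ring

theorem ratio_le_one (n : ℕ) : (chA n).toReal / ((n : ℝ) + 1) ≤ 1 := by
  rw [div_le_one (by positivity)]
  have := chA_toReal_le n
  linarith

theorem ratio_bdd : BddAbove (Set.range fun n : ℕ => (chA n).toReal / ((n : ℝ) + 1)) := by
  refine ⟨1, ?_⟩
  rintro _ ⟨n, rfl⟩
  exact ratio_le_one n

theorem kappa_def' : kappa = ⨆ n : ℕ, (chA n).toReal / ((n : ℝ) + 1) := rfl

theorem kappa_nonneg : 0 ≤ kappa := by
  rw [kappa_def']
  exact Real.iSup_nonneg fun n => by positivity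

theorem kappa_le_one : kappa ≤ 1 := by
  rw [kappa_def']
  exact ciSup_le ratio_le_one

theorem kappa_tendsto : Tendsto (fun n : ℕ =>
    (EE n (fun v => EE n (fun w => (NN v w : ℝ≥0∞)))).toReal / ((n : ℝ) + 1)) atTop (𝓝 kappa) := by
  change Tendsto (fun n : ℕ => (chA n).toReal / ((n : ℝ) + 1)) atTop (𝓝 kappa)
  have h1 : Tendsto (fun n : ℕ => (chA n).toReal / ((n : ℝ) + 1)) atTop (𝓝 (-chU_sub.lim)) := by
    have h2 := (chU_sub.tendsto_lim chU_bdd).neg
    have h3 := h2.comp (tendsto_add_atTop_nat 1)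
    refine h3.congr fun n => ?_
    rw [ratio_eq]
    rfl
  have h4 : kappa = -chU_sub.lim := by
    apply le_antisymm
    · rw [kappa_def']
      apply ciSup_le
      intro n
      rw [ratio_eq]
      exact neg_le_neg (chU_sub.lim_le_div chU_bdd (Nat.succ_ne_zero n))
    · apply le_of_tendsto' h1
      intro n
      rw [kappa_def']
      exact le_ciSup ratio_bdd n
  rw [h4]
  exact h1

/-! ### Chernoff -/

theorem chern_tsum_pi {X : Type} (t : ℕ) (F : X → ℝ≥0∞) :
    ∑' L : Fin t → X, ∏ j, F (L j) = (∑' x, F x) ^ t := by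
  induction t with
  | zero => simp
  | succ t ih =>
    rw [← (Fin.consEquiv (fun _ : Fin (t + 1) => X)).tsum_eq, ENNReal.tsum_prod']
    simp only [Fin.consEquiv_apply, Fin.prod_univ_succ, Fin.cons_zero, Fin.cons_succ]
    simp_rw [ENNReal.tsum_mul_left]
    rw [ENNReal.tsum_mul_right, ih, pow_succ']

theorem quarter : (2 : ℝ≥0∞) * (1 / 4) = 1 / 2 := by
  rw [← ENNReal.toReal_eq_toReal_iff' (by
    apply ENNReal.mul_ne_top (by norm_num)
    simp) (by simp)]
  simp
  norm_num

theorem tsum_om (n : ℕ) (h : Wd → ℝ≥0∞) : ∑' p : Wd × Bool, om n p * h p.1 = EE n h := by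
  classical
  unfold EE om
  rw [ENNReal.tsum_prod']
  apply tsum_congr
  intro w
  rw [tsum_fintype, Fintype.sum_bool]
  simp only
  by_cases hw : Star n w
  · simp only [hw, if_true]
    rw [pow_succ, ← two_mul, ← quarter]
    ring
  · simp [hw]

theorem tsum_om2 (n : ℕ) (h : Wd → Wd → ℝ≥0∞) :
    ∑' p : (Wd × Bool) × (Wd × Bool), om n p.1 * om n p.2 * h p.1.1 p.2.1 =
      EE n (fun v => EE n (fun w => h v w)) := by
  rw [ENNReal.tsum_prod']
  simp_rw [mul_assoc, ENNReal.tsum_mul_left]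
  have h1 : ∀ a : Wd × Bool, ∑' b : Wd × Bool, om n b * h a.1 b.1 = EE n (fun w => h a.1 w) :=
    fun a => tsum_om n _
  simp_rw [h1]
  exact tsum_om n (fun v => EE n (fun w => h v w))

/-- Chernoff bound for sums over pairs of blocks -/
theorem chernoff (n t : ℕ) (g : Wd → Wd → ℝ) {b m ε T : ℝ} (hg0 : ∀ v w, 0 ≤ g v w)
    (hgb : ∀ v w, Star n v → Star n w → g v w ≤ b) (hb : 1 ≤ b)
    (hm : EE n (fun v => EE n (fun w => ENNReal.ofReal (g v w))) ≤ ENNReal.ofReal m) (hm0 : 0 ≤ m)
    (hε : 0 < ε) (hε1 : ε ≤ 1) (hT : 0 ≤ T) :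
    mass2 n t (fun L L' => t * (m + ε) + T < ∑ j, g (L j).1 (L' j).1) ≤
      ENNReal.ofReal (Real.exp (-(ε / b ^ 2) * T)) := by
  classical
  obtain ⟨l, hl⟩ : ∃ l : ℝ, l = ε / b ^ 2 := ⟨_, rfl⟩
  rw [← hl]
  have hb0 : 0 < b := by linarith
  have hl0 : 0 < l := by rw [hl]; positivity
  have hlb : l * b ≤ 1 := by
    rw [hl, div_mul_eq_mul_div, div_le_one (by positivity)]
    nlinarith
  have hlb2 : l * b ^ 2 = ε := by
    rw [hl]
    field_simp
  set F : (Wd × Bool) × (Wd × Bool) → ℝ≥0∞ := fun p =>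
    om n p.1 * om n p.2 * ENNReal.ofReal (Real.exp (l * (g p.1.1 p.2.1 - m - ε))) with hF
  -- one pair of blocks
  have hK : ∑' p, F p ≤ 1 := by
    rw [hF, tsum_om2 n (fun v w => ENNReal.ofReal (Real.exp (l * (g v w - m - ε))))]
    have hstep : ∀ v w, Star n v → Star n w →
        ENNReal.ofReal (Real.exp (l * (g v w - m - ε))) ≤
          ENNReal.ofReal (Real.exp (-(l * (m + ε)))) *
            (ENNReal.ofReal (1 + l * ε) + ENNReal.ofReal l * ENNReal.ofReal (g v w)) := by
      intro v w hv hw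
      rw [← ENNReal.ofReal_mul hl0.le, ← ENNReal.ofReal_add (by positivity)
        (mul_nonneg hl0.le (hg0 v w)), ← ENNReal.ofReal_mul (Real.exp_pos _).le]
      apply ENNReal.ofReal_le_ofReal
      have h1 : l * (g v w - m - ε) = -(l * (m + ε)) + l * g v w := by ring
      rw [h1, Real.exp_add]
      apply mul_le_mul_of_nonneg_left _ (Real.exp_pos _).le
      have hg := hgb v w hv hw
      have h2 : 0 ≤ l * g v w := mul_nonneg hl0.le (hg0 v w)
      have h3 : l * g v w ≤ l * b := mul_le_mul_of_nonneg_left hg hl0.le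
      have h4 := Real.abs_exp_sub_one_sub_id_le (x := l * g v w) (by
        rw [abs_of_nonneg h2]; linarith)
      have h5 := (abs_le.mp h4).2
      have h6 : (l * g v w) ^ 2 ≤ l * ε := by
        calc (l * g v w) ^ 2 ≤ (l * b) ^ 2 := by gcongr
          _ = l * ε := by rw [← hlb2]; ring
      linarith
    calc EE n (fun v => EE n (fun w => ENNReal.ofReal (Real.exp (l * (g v w - m - ε)))))
        ≤ EE n (fun v => EE n (fun w => ENNReal.ofReal (Real.exp (-(l * (m + ε)))) *
            (ENNReal.ofReal (1 + l * ε) + ENNReal.ofReal l * ENNReal.ofReal (g v w)))) :=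
          EE_mono fun v hv => EE_mono fun w hw => hstep v w hv hw
      _ = ENNReal.ofReal (Real.exp (-(l * (m + ε)))) * (ENNReal.ofReal (1 + l * ε) +
            ENNReal.ofReal l * EE n (fun v => EE n (fun w => ENNReal.ofReal (g v w)))) := by
          have e1 : ∀ v, EE n (fun w => ENNReal.ofReal (Real.exp (-(l * (m + ε)))) *
              (ENNReal.ofReal (1 + l * ε) + ENNReal.ofReal l * ENNReal.ofReal (g v w))) =
              ENNReal.ofReal (Real.exp (-(l * (m + ε)))) * (ENNReal.ofReal (1 + l * ε) +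
                ENNReal.ofReal l * EE n (fun w => ENNReal.ofReal (g v w))) := by
            intro v
            rw [EE_mul_left n _ (fun w => ENNReal.ofReal (1 + l * ε) +
              ENNReal.ofReal l * ENNReal.ofReal (g v w)),
              EE_add n (fun _ => ENNReal.ofReal (1 + l * ε))
                (fun w => ENNReal.ofReal l * ENNReal.ofReal (g v w)), EE_const,
              EE_mul_left n _ (fun w => ENNReal.ofReal (g v w))]
          simp only [e1]
          rw [EE_mul_left n _ (fun v => ENNReal.ofReal (1 + l * ε) +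
              ENNReal.ofReal l * EE n (fun w => ENNReal.ofReal (g v w))),
              EE_add n (fun _ => ENNReal.ofReal (1 + l * ε))
                (fun v => ENNReal.ofReal l * EE n (fun w => ENNReal.ofReal (g v w))), EE_const,
              EE_mul_left n _ (fun v => EE n (fun w => ENNReal.ofReal (g v w)))]
      _ ≤ ENNReal.ofReal (Real.exp (-(l * (m + ε)))) * (ENNReal.ofReal (1 + l * ε) +
            ENNReal.ofReal l * ENNReal.ofReal m) := by gcongr
      _ ≤ 1 := by
          rw [← ENNReal.ofReal_mul hl0.le, ← ENNReal.ofReal_add (by positivity) (by positivity),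
            ← ENNReal.ofReal_mul (Real.exp_pos _).le, ENNReal.ofReal_le_one]
          have h7 := Real.add_one_le_exp (l * (m + ε))
          calc Real.exp (-(l * (m + ε))) * (1 + l * ε + l * m)
              ≤ Real.exp (-(l * (m + ε))) * Real.exp (l * (m + ε)) := by
                apply mul_le_mul_of_nonneg_left _ (Real.exp_pos _).le
                linarith
            _ = 1 := by rw [← Real.exp_add]; simp
  unfold mass2
  have hbound : ∀ L : (Fin t → Wd × Bool) × (Fin t → Wd × Bool),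
      (if t * (m + ε) + T < ∑ j, g (L.1 j).1 (L.2 j).1 then
        (∏ j, om n (L.1 j)) * (∏ j, om n (L.2 j)) else 0) ≤
      ENNReal.ofReal (Real.exp (-l * T)) * ∏ j, F (L.1 j, L.2 j) := by
    intro L
    split_ifs with hL
    · simp only [hF]
      rw [Finset.prod_mul_distrib, Finset.prod_mul_distrib, ← ENNReal.ofReal_prod_of_nonneg
        (fun j _ => (Real.exp_pos _).le), ← Real.exp_sum, mul_comm (ENNReal.ofReal _), mul_assoc,
        ← ENNReal.ofReal_mul (Real.exp_pos _).le, ← Real.exp_add]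
      have h8 : (1 : ℝ≥0∞) ≤ ENNReal.ofReal (Real.exp
          (∑ j, l * (g (L.1 j).1 (L.2 j).1 - m - ε) + -l * T)) := by
        rw [ENNReal.one_le_ofReal, Real.one_le_exp_iff]
        rw [← Finset.mul_sum, Finset.sum_sub_distrib, Finset.sum_sub_distrib]
        simp only [Finset.sum_const, Finset.card_univ, Fintype.card_fin, nsmul_eq_mul]
        have : 0 ≤ l * (∑ j, g (L.1 j).1 (L.2 j).1 - (t * (m + ε) + T)) :=
          mul_nonneg hl0.le (by linarith)
        linarith
      calc (∏ j, om n (L.1 j)) * (∏ j, om n (L.2 j))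
          = (∏ j, om n (L.1 j)) * (∏ j, om n (L.2 j)) * 1 := by rw [mul_one]
        _ ≤ _ := by gcongr
    · exact zero_le
  calc _ ≤ ∑' L : (Fin t → Wd × Bool) × (Fin t → Wd × Bool),
        ENNReal.ofReal (Real.exp (-l * T)) * ∏ j, F (L.1 j, L.2 j) := ENNReal.tsum_le_tsum hbound
    _ = ENNReal.ofReal (Real.exp (-l * T)) * (∑' p, F p) ^ t := by
        rw [ENNReal.tsum_mul_left, ← chern_tsum_pi,
          ← (Equiv.arrowProdEquivProdArrow (Fin t) (fun _ => Wd × Bool)
            (fun _ => Wd × Bool)).tsum_eq]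
        rfl
    _ ≤ ENNReal.ofReal (Real.exp (-l * T)) * 1 := by
        gcongr
        exact pow_le_one' hK t
    _ = _ := mul_one _

end MeanderCLT
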