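import Pool.Agent.H98.M.Fiber
import Pool.Agent.H98.M.CycGlue

/-!
# Components of meandric systems
-/

namespace MeanderCLT

/-- number of components of the union of two arc systems: connected components of the graph on the
`2n` points whose edges are the upper arcs `{i, σ i}` and the lower arcs `{i, τ i}` -/
noncomputable def comps (n : ℕ) (σ τ : Fin (2 * n) → Fin (2 * n)) : ℕ :=
  Nat.card (SimpleGraph.fromRel (fun i j => σ i = j ∨ τ i = j)).ConnectedComponent

theorem comps_cl {P : Type*} {σ τ : P → P} {C : Finset P} :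
    Cl (fun i j => σ i = j) (fun i j => τ i = j) C ↔ ∀ x ∈ C, σ x ∈ C ∧ τ x ∈ C := by
  constructor
  · intro h x hx
    obtain ⟨⟨y, hy, hxy⟩, ⟨z, hz, hxz⟩⟩ := h x hx
    exact ⟨hxy ▸ hy, hxz ▸ hz⟩
  · intro h x hx
    exact ⟨⟨σ x, (h x hx).1, rfl⟩, ⟨τ x, (h x hx).2, rfl⟩⟩

theorem comps_reach {P : Type*} {σ τ : P → P} (hσ : ∀ i, σ (σ i) = i) (hτ : ∀ i, τ (τ i) = i)
    {C : Finset P} (hC : ∀ x ∈ C, σ x ∈ C ∧ τ x ∈ C) {x y : P} (hx : x ∈ C)
    (h : (SimpleGraph.fromRel (fun i j => σ i = j ∨ τ i = j)).Reachable x y) : y ∈ C := by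
  obtain ⟨p⟩ := h
  induction p with
  | nil => exact hx
  | cons hadj p ih =>
    apply ih
    rw [SimpleGraph.fromRel_adj] at hadj
    rcases hadj.2 with (h | h) | (h | h)
    · rw [← h]; exact (hC _ hx).1
    · rw [← h]; exact (hC _ hx).2
    · have := (hC _ hx).1
      rwa [← h, hσ] at this
    · have := (hC _ hx).2
      rwa [← h, hτ] at this

theorem comps_card {P : Type*} [Fintype P] (σ τ : P → P)
    (hσ : ∀ i, σ (σ i) = i) (hτ : ∀ i, τ (τ i) = i) (hσ' : ∀ i, σ i ≠ i) (hτ' : ∀ i, τ i ≠ i) :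
    (loops (fun i j => σ i = j) (fun i j => τ i = j) (Finset.univ : Finset P)).card =
      Nat.card (SimpleGraph.fromRel (fun i j => σ i = j ∨ τ i = j)).ConnectedComponent := by
  classical
  set G := SimpleGraph.fromRel (fun i j : P => σ i = j ∨ τ i = j) with hG
  have hU : IsMat (fun i j : P => σ i = j) :=
    ⟨fun {x y} h => by rw [← h, hσ], fun {x y z} h h' => h ▸ h', fun x => hσ' x⟩
  have hV : IsMat (fun i j : P => τ i = j) :=
    ⟨fun {x y} h => by rw [← h, hτ], fun {x y z} h h' => h ▸ h', fun x => hτ' x⟩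
  have hadjσ : ∀ x, G.Adj x (σ x) := by
    intro x
    rw [hG, SimpleGraph.fromRel_adj]
    exact ⟨(hσ' x).symm, Or.inl (Or.inl rfl)⟩
  have hadjτ : ∀ x, G.Adj x (τ x) := by
    intro x
    rw [hG, SimpleGraph.fromRel_adj]
    exact ⟨(hτ' x).symm, Or.inl (Or.inr rfl)⟩
  have hsupp : ∀ c : G.ConnectedComponent, Cl (fun i j : P => σ i = j) (fun i j => τ i = j)
      (Finset.univ.filter (fun i => G.connectedComponentMk i = c)) := by
    intro c
    rw [comps_cl]
    intro x hx
    rw [Finset.mem_filter] at hx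
    simp only [Finset.mem_filter, Finset.mem_univ, true_and]
    rw [← hx.2]
    exact ⟨SimpleGraph.ConnectedComponent.sound (hadjσ x).reachable.symm,
      SimpleGraph.ConnectedComponent.sound (hadjτ x).reachable.symm⟩
  have hin : ∀ c : G.ConnectedComponent,
      Finset.univ.filter (fun i => G.connectedComponentMk i = c) ∈
        loops (fun i j : P => σ i = j) (fun i j => τ i = j) Finset.univ := by
    intro c
    rw [mem_loops]
    refine ⟨Finset.subset_univ _, ?_, hsupp c, ?_⟩
    · obtain ⟨v, hv⟩ := c.exists_rep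
      exact ⟨v, Finset.mem_filter.mpr ⟨Finset.mem_univ _, hv⟩⟩
    · intro C' hC' hne hcl
      obtain ⟨x, hx⟩ := hne
      apply Finset.Subset.antisymm hC'
      intro y hy
      have hx' := hC' hx
      rw [Finset.mem_filter] at hx' hy
      have : G.Reachable x y := SimpleGraph.ConnectedComponent.exact (hx'.2.trans hy.2.symm)
      exact comps_reach hσ hτ (comps_cl.mp hcl) hx this
  rw [Nat.card_eq_fintype_card, ← Finset.card_univ]
  symm
  refine Finset.card_bij (fun c _ => Finset.univ.filter (fun i => G.connectedComponentMk i = c))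
    (fun c _ => hin c) ?_ ?_
  · intro c _ c' _ e
    obtain ⟨v, hv⟩ := c.exists_rep
    have hv' : v ∈ Finset.univ.filter (fun i => G.connectedComponentMk i = c) :=
      Finset.mem_filter.mpr ⟨Finset.mem_univ _, hv⟩
    rw [show Finset.univ.filter (fun i => G.connectedComponentMk i = c) =
      Finset.univ.filter (fun i => G.connectedComponentMk i = c') from e] at hv'
    rw [Finset.mem_filter] at hv'
    exact hv.symm.trans hv'.2
  · intro L hL
    obtain ⟨x, hx⟩ := (mem_loops.mp hL).2.1
    refine ⟨G.connectedComponentMk x, Finset.mem_univ _, ?_⟩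
    refine loop_eq hU hV (mem_loops.mp (hin _)).2 (mem_loops.mp hL).2 (x := x) ?_ hx
    simp

/-- the loops of the cyclic closure are the components of the meandric system -/
theorem ccyc_comps {n : ℕ} (z : Fin (2 * n) → Ltr) (σ τ : Fin (2 * n) → Fin (2 * n))
    (hσ : IsArcSys n σ) (hτ : IsArcSys n τ)
    (hU : ∀ i : Fin (2 * n), Or2 (Arc (up (List.ofFn z))) (cj (up (List.ofFn z))) (i : ℕ) (σ i : ℕ))
    (hV : ∀ i : Fin (2 * n), Or2 (Arc (lo (List.ofFn z))) (cj (lo (List.ofFn z))) (i : ℕ) (τ i : ℕ)) :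
    ccyc (List.ofFn z) = comps n σ τ := by
  classical
  unfold ccyc cloops comps
  rw [← comps_card σ τ hσ.1 hτ.1 hσ.2.1 hτ.2.1]
  have himg : Finset.range (List.ofFn z).length =
      (Finset.univ : Finset (Fin (2 * n))).image (fun i : Fin (2 * n) => (i : ℕ)) := by
    rw [List.length_ofFn]
    ext k
    simp only [Finset.mem_range, Finset.mem_image, Finset.mem_univ, true_and]
    constructor
    · intro h; exact ⟨⟨k, h⟩, rfl⟩
    · rintro ⟨i, rfl⟩; exact i.2
  rw [himg]
  apply card_loops_image
  · intro i _ j _ h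
    exact Fin.ext h
  · intro x _ y _
    constructor
    · intro h
      exact Fin.ext ((isMat_cyc (up (List.ofFn z))).func (hU x) h)
    · intro h
      have h' : σ x = y := h
      rw [← h']
      exact hU x
  · intro x _ y _
    constructor
    · intro h
      exact Fin.ext ((isMat_cyc (lo (List.ofFn z))).func (hV x) h)
    · intro h
      have h' : τ x = y := h
      rw [← h']
      exact hV x

end MeanderCLT
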