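import Pool.Agent.H98.M.Block
import Pool.Agent.H98.M.CycGlue

/-!
# Block lemma for the cyclic closure of a word
-/

namespace MeanderCLT

/-- offsets of the blocks -/
theorem cycb_off {n t : ℕ} (L : Fin t → Wd × Bool) (hL : ∀ j, Star n (L j).1) :
    ∃ off : Fin t → ℕ, (∀ j : Fin t, ∃ pre post, flatF L = pre ++ ((L j).1 ++ (false, (L j).2) :: post) ∧
      pre.length = off j ∧ uc (up pre) = (j : ℕ) * (n + 1) ∧ uo (up pre) = 0) ∧
      (∀ j j' : Fin t, j < j' → off j + (L j).1.length < off j') := by
  induction t with
  | zero => exact ⟨Fin.elim0, fun j => j.elim0, fun j => j.elim0⟩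
  | succ t ih =>
    obtain ⟨off, h1, h2⟩ := ih (fun j => L j.succ) (fun j => hL j.succ)
    refine ⟨Fin.cons 0 (fun j => (L 0).1.length + 1 + off j), ?_, ?_⟩
    · intro j
      refine Fin.cases ?_ (fun j => ?_) j
      · exact ⟨[], flatF (fun j => L j.succ), by rw [flatF_succ]; simp, rfl, by simp [up, uc_nil],
          by simp [up, uo_nil]⟩
      · obtain ⟨pre, post, e1, e2, e3, e4⟩ := h1 j
        have h0 := star_iff.mp (hL 0)
        refine ⟨(L 0).1 ++ (false, (L 0).2) :: pre, post, ?_, ?_, ?_, ?_⟩
        · rw [flatF_succ, e1]; simp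
        · simp [e2]; omega
        · rw [up_append, up_cons, uc_append, h0.1, h0.2]
          simp only [uc_cons_false, e3, Fin.val_succ]
          ring_nf
          omega
        · rw [up_append, up_cons, uo_append, h0.2]
          simp only [uo_cons_false, e4]
          omega
    · intro j j'
      refine Fin.cases ?_ (fun j => ?_) j
      · refine Fin.cases ?_ (fun j' => ?_) j'
        · intro h; exact absurd h (lt_irrefl _)
        · intro _
          simp only [Fin.cons_zero, Fin.cons_succ]
          omega
      · refine Fin.cases ?_ (fun j' => ?_) j'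
        · intro h; exact absurd h (Fin.not_lt_zero _)
        · intro h
          have := h2 j j' (Fin.succ_lt_succ_iff.mp h)
          simp only [Fin.cons_succ]
          omega

/-- everything one needs about the blocks at the beginning of a word -/
structure BlkPre (n t : ℕ) (L : Fin t → Wd × Bool) (y : Wd) (off : Fin t → ℕ) : Prop where
  lt : ∀ j, off j + (L j).1.length < (flatF L).length
  inj : ∀ j j' i i', i < (L j).1.length → i' < (L j').1.length → off j + i = off j' + i' →
    j = j' ∧ i = i'
  arcU : ∀ j i i', i < (L j).1.length → i' < (L j).1.length →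
    (Arc (up y) (off j + i) (off j + i') ↔ Arc (up (L j).1) i i')
  arcV : ∀ j i i', i < (L j).1.length → i' < (L j).1.length →
    (Arc (lo y) (off j + i) (off j + i') ↔ Arc (lo (L j).1) i i')
  rcs : ∀ j i k, i < (L j).1.length → (rc (up y) (off j + i) k ↔
    ∃ k', rc (up (L j).1) i k' ∧ k = (j : ℕ) * (n + 1) + k')
  sep : ∀ j : Fin t, rc (up y) (off j + (L j).1.length) ((j : ℕ) * (n + 1) + n)

theorem cycb_pre {n t : ℕ} (L : Fin t → Wd × Bool) (hL : ∀ j, Star n (L j).1) :
    ∃ off : Fin t → ℕ, ∀ r : Wd, BlkPre n t L (flatF L ++ r) off := by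
  obtain ⟨off, h1, h2⟩ := cycb_off L hL
  refine ⟨off, fun r => ⟨?_, ?_, ?_, ?_, ?_, ?_⟩⟩
  · intro j
    obtain ⟨pre, post, e1, e2, -⟩ := h1 j
    rw [e1]; simp [e2]
  · intro j j' i i' hi hi' e
    rcases lt_trichotomy j j' with h | h | h
    · have := h2 j j' h; omega
    · subst h; exact ⟨rfl, by omega⟩
    · have := h2 j' j h; omega
  · intro j i i' hi hi'
    obtain ⟨pre, post, e1, e2, -⟩ := h1 j
    have e : up (flatF L ++ r) = up pre ++ (up (L j).1 ++ up ((false, (L j).2) :: post ++ r)) := by
      rw [e1]; simp [up_append]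
    rw [e, ← e2, ← length_up pre, Arc_append_right, Arc_append_left (by rwa [length_up])
      (by rwa [length_up])]
  · intro j i i' hi hi'
    obtain ⟨pre, post, e1, e2, -⟩ := h1 j
    have e : lo (flatF L ++ r) = lo pre ++ (lo (L j).1 ++ lo ((false, (L j).2) :: post ++ r)) := by
      rw [e1]; simp [lo_append]
    rw [e, ← e2, ← length_lo pre, Arc_append_right, Arc_append_left (by rwa [length_lo])
      (by rwa [length_lo])]
  · intro j i k hi
    obtain ⟨pre, post, e1, e2, e3, e4⟩ := h1 j
    have e : up (flatF L ++ r) = up pre ++ (up (L j).1 ++ up ((false, (L j).2) :: post ++ r)) := by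
      rw [e1]; simp [up_append]
    rw [e, ← e2, ← length_up pre, rc_append_right, e3, e4]
    constructor
    · rintro ⟨k', hk', -, hk⟩
      exact ⟨k', (rc_append_left (by rwa [length_up])).mp hk', by omega⟩
    · rintro ⟨k', hk', hk⟩
      exact ⟨k', (rc_append_left (by rwa [length_up])).mpr hk', Nat.zero_le _, by omega⟩
  · intro j
    obtain ⟨pre, post, e1, e2, e3, e4⟩ := h1 j
    have h0 := star_iff.mp (hL j)
    have e : up (flatF L ++ r) = up pre ++ (up (L j).1 ++ (false :: up (post ++ r))) := by
      rw [e1]; simp [up_append, up_cons]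
    rw [e, ← e2, ← length_up pre, rc_append_right, e3, e4]
    refine ⟨n, ?_, Nat.zero_le _, by omega⟩
    have : (L j).1.length = (up (L j).1).length + 0 := by rw [length_up]; rfl
    rw [this, rc_append_right, h0.1, h0.2]
    refine ⟨0, ⟨by simp, ?_, ?_⟩, le_rfl, by omega⟩
    · rw [ht_cons, ht_zero, stp_false]; simp
    · intro t ht'
      have : t = 0 := by omega
      rw [this, ht_zero]; simp

/-- classification of unmatched closing brackets -/
theorem BlkPre.cases {n t : ℕ} {L : Fin t → Wd × Bool} (hL : ∀ j, Star n (L j).1) {y : Wd}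
    {off : Fin t → ℕ} (h : BlkPre n t L y off) {p k : ℕ} (hp : rc (up y) p k) :
    t * (n + 1) ≤ k ∨ (∃ j : Fin t, p = off j + (L j).1.length) ∨
      ∃ (j : Fin t) (i : ℕ), i < (L j).1.length ∧ p = off j + i ∧ (j : ℕ) = k / (n + 1) := by
  rcases Nat.lt_or_ge k (t * (n + 1)) with hk | hk
  · right
    have hj : k / (n + 1) < t := by
      rw [Nat.div_lt_iff_lt_mul (Nat.succ_pos n)]; exact hk
    have hdm := Nat.div_add_mod k (n + 1)
    have hm : k % (n + 1) < n + 1 := Nat.mod_lt _ (Nat.succ_pos n)
    have hcomm : (n + 1) * (k / (n + 1)) = (k / (n + 1)) * (n + 1) := Nat.mul_comm _ _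
    rcases Nat.lt_or_ge (k % (n + 1)) n with h1 | h1
    · right
      obtain ⟨i, hi⟩ := rc_exists (s := up (L ⟨k / (n + 1), hj⟩).1) (k := k % (n + 1))
        (by rw [(star_iff.mp (hL _)).1]; exact h1)
      have hil : i < (L ⟨k / (n + 1), hj⟩).1.length := by rw [← length_up]; exact hi.1
      have := (h.rcs ⟨k / (n + 1), hj⟩ i k hil).mpr ⟨_, hi, by simp only; omega⟩
      exact ⟨_, i, hil, rc_pos_unique hp this, rfl⟩
    · left
      have := h.sep ⟨k / (n + 1), hj⟩
      have e : (k / (n + 1)) * (n + 1) + n = k := by omega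
      simp only at this
      rw [e] at this
      exact ⟨_, rc_pos_unique hp this⟩
  · left; exact hk

theorem cycb_end_low {n t : ℕ} (L : Fin t → Wd × Bool) (hL : ∀ j, Star n (L j).1) (k : ℕ)
    (hk : k < (flatF L).length) :
    ht (up (flatF L)) (flatF L).length < ht (up (flatF L)) k := by
  induction t generalizing k with
  | zero => simp [flatF_zero] at hk
  | succ t ih =>
    have h0 := star_iff.mp (hL 0)
    have hend : ht (up (L 0).1) (up (L 0).1).length = -(n : ℤ) := by
      have := hh_eq (up (L 0).1)
      rw [h0.1, h0.2] at this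
      simpa [hh] using this
    have hr : ht (up (flatF fun j => L j.succ)) (flatF fun j => L j.succ).length ≤ 0 := by
      rcases Nat.eq_zero_or_pos (flatF fun j => L j.succ).length with h | h
      · rw [h, ht_zero]
      · have := ih (fun j => L j.succ) (fun j => hL j.succ) 0 h
        rw [ht_zero] at this
        exact this.le
    rw [flatF_succ] at hk ⊢
    rw [up_append, up_cons]
    have el : ((L 0).1 ++ (false, (L 0).2) :: flatF fun j => L j.succ).length =
        (up (L 0).1).length + ((flatF fun j => L j.succ).length + 1) := by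
      simp [length_up]
    rw [el, ht_append_right, ht_cons, stp_false, hend]
    rcases Nat.lt_or_ge (L 0).1.length k with h | h
    · obtain ⟨m, rfl⟩ : ∃ m, k = (up (L 0).1).length + (m + 1) :=
        ⟨k - (L 0).1.length - 1, by rw [length_up]; omega⟩
      rw [ht_append_right, ht_cons, stp_false, hend]
      have := ih (fun j => L j.succ) (fun j => hL j.succ) m (by rw [length_up] at hk; simp at hk; omega)
      omega
    · rw [ht_append_left (by rw [length_up]; exact h)]
      have := neg_uc_le_ht (up (L 0).1) k
      rw [h0.1] at this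
      omega

/-- blocks at both ends do not overlap -/
theorem cycb_split {n t : ℕ} {z : Wd} (h1 : t * (n + 1) ≤ uc (up z))
    (h2 : t * (n + 1) ≤ uo (up z)) : ∃ L L' : Fin t → Wd × Bool,
    (∀ j, Star n (L j).1) ∧ (∀ j, Star n (L' j).1) ∧
    ∃ r, z = flatF L ++ r ++ mirw (flatF L') := by
  obtain ⟨L, r0, e1, hL⟩ := blocks_exist h1
  obtain ⟨L', r1, e2, hL'⟩ := blocks_exist (n := n) (t := t) (y := mirw z)
    (by rw [up_mirw, uc_mir]; exact h2)
  refine ⟨L, L', hL, hL', ?_⟩
  have e3 : z = mirw r1 ++ mirw (flatF L') := by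
    rw [← mirw_append, ← e2, mirw_mirw]
  have hlen : (flatF L).length ≤ (mirw r1).length := by
    by_contra hcon
    push Not at hcon
    -- heights
    have ha : ht (up z) (flatF L).length = ht (up (flatF L)) (flatF L).length := by
      conv_lhs => rw [e1, up_append]
      exact ht_append_left (by rw [length_up])
    have hb : ht (up z) (mirw r1).length = ht (up (flatF L)) (mirw r1).length := by
      conv_lhs => rw [e1, up_append]
      exact ht_append_left (by rw [length_up]; exact hcon.le)
    have hlow := cycb_end_low L hL (mirw r1).length hcon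
    rw [← ha, ← hb] at hlow
    -- suffix heights are nonnegative
    obtain ⟨m, hm⟩ : ∃ m, (flatF L).length = (up (mirw r1)).length + m :=
      ⟨(flatF L).length - (mirw r1).length, by rw [length_up]; omega⟩
    have hmle : m ≤ (up (flatF L')).length := by
      have : (flatF L).length ≤ z.length := by
        conv_rhs => rw [e1]
        simp
      have h3 : z.length = (mirw r1).length + (flatF L').length := by
        conv_lhs => rw [e3]
        rw [List.length_append, length_mirw (flatF L')]
      rw [length_up] at hm ⊢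
      omega
    have hc : ht (up z) (flatF L).length =
        ht (up (mirw r1)) (up (mirw r1)).length + ht (up (mirw (flatF L'))) m := by
      rw [hm]
      conv_lhs => rw [e3, up_append]
      rw [ht_append_right]
    have hd : ht (up z) (mirw r1).length = ht (up (mirw r1)) (up (mirw r1)).length := by
      conv_lhs => rw [e3, up_append]
      rw [ht_append_left (by rw [length_up]), length_up]
    have he : 0 ≤ ht (up (mirw (flatF L'))) m := by
      rw [up_mirw, ht_mir _ hmle]
      rcases Nat.eq_zero_or_pos m with h | h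
      · subst h; simp
      · have := cycb_end_low L' hL' ((up (flatF L')).length - m) (by rw [length_up] at *; omega)
        rw [length_up] at *
        omega
    omega
  have e4 : flatF L ++ r0 = mirw r1 ++ mirw (flatF L') := by rw [← e1, ← e3]
  rw [List.append_eq_append_iff] at e4
  rcases e4 with ⟨a, ea, -⟩ | ⟨a, ea, eb⟩
  · exact ⟨a, by rw [← ea, ← e3]⟩
  · have : a = [] := by
      rw [ea, List.length_append] at hlen
      exact List.length_eq_zero_iff.mp (by omega)
    subst this
    simp only [List.append_nil] at ea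
    exact ⟨[], by rw [List.append_nil, ea, ← e3]⟩

theorem cyc_blocks (n : ℕ) (z : Wd) : ∃ L L' : Fin (kU z / (n + 1)) → Wd × Bool,
    (∀ j, Star n (L j).1) ∧ (∀ j, Star n (L' j).1) ∧
    (∃ r, z = flatF L ++ r ++ mirw (flatF L')) ∧
    ∑ j, NN (L j).1 (L' j).1 ≤ nucycP z ∧
    nucycU z ≤ ∑ j, NN (L j).1 (L' j).1 + ∑ j, (XX (L j).1 + XX (L' j).1) +
      (kU z / (n + 1) + n + 1) := by
  set t := kU z / (n + 1) with ht0
  have htk : t * (n + 1) ≤ kU z := Nat.div_mul_le_self _ _
  obtain ⟨L, L', hL, hL', r, hz⟩ := cycb_split (n := n) (t := t) (z := z)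
    (htk.trans (min_le_left _ _)) (htk.trans (min_le_right _ _))
  refine ⟨L, L', hL, hL', ⟨r, hz⟩, ?_⟩
  obtain ⟨off, hoff⟩ := cycb_pre L hL
  obtain ⟨off', hoff'⟩ := cycb_pre L' hL'
  have h1 : BlkPre n t L z off := by
    have := hoff (r ++ mirw (flatF L'))
    rw [← List.append_assoc, ← hz] at this
    exact this
  have hmz : mirw z = flatF L' ++ (mirw r ++ mirw (flatF L)) := by
    conv_lhs => rw [hz]
    rw [mirw_append, mirw_append, mirw_mirw]
  have h2 : BlkPre n t L' (mirw z) off' := by
    rw [hmz]; exact hoff' _
  have hlen : (flatF L).length + (flatF L').length ≤ z.length := by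
    conv_rhs => rw [hz]
    simp [length_mirw]
  have hl1 : ∀ j i, i < (L j).1.length → off j + i < (flatF L).length := by
    intro j i hi; have := h1.lt j; omega
  have hl2 : ∀ j i, i < (L' j).1.length → off' j + i < (flatF L').length := by
    intro j i hi; have := h2.lt j; omega
  have hB : Blocks (Arc (up z)) (cj (up z)) (Arc (lo z)) (cj (lo z)) (Finset.range z.length) n t
      (fun j => (L j).1) (fun j => (L' j).1) (fun j i => off j + i)
      (fun j i => z.length - 1 - (off' j + i)) := by
    refine ⟨isMat_cyc _, isMat_cyc _, fun x y h => (isMat_Arc _).symm h, ?_,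
      fun x y h => (isMat_Arc _).symm h, ?_, Arc_cj_disj _, Arc_cj_disj _, hL, hL',
      ?_, ?_, ?_, ?_, ?_, ?_, ?_, ?_, ?_, ?_⟩
    · rintro x y ⟨a, b, k, h | h⟩
      · exact ⟨b, a, k, Or.inr h⟩
      · exact ⟨b, a, k, Or.inl h⟩
    · rintro x y ⟨a, b, k, h | h⟩
      · exact ⟨b, a, k, Or.inr h⟩
      · exact ⟨b, a, k, Or.inl h⟩
    · intro j i hi
      have := hl1 j i hi
      simp only [Finset.mem_range]; omega
    · intro j i hi
      have := hl2 j i hi
      simp only [Finset.mem_range]; omega
    · intro j j' i i' hi hi' e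
      exact h1.inj j j' i i' hi hi' e
    · intro j j' i i' hi hi' e
      have a := hl2 j i hi
      have b := hl2 j' i' hi'
      exact h2.inj j j' i i' hi hi' (by omega)
    · intro j j' i i' hi hi' e
      have a := hl1 j i hi
      have b := hl2 j' i' hi'
      omega
    · intro j i i' hi hi'
      exact h1.arcU j i i' hi hi'
    · intro j i i' hi hi'
      exact h1.arcV j i i' hi hi'
    · intro j i i' hi hi'
      have a := hl2 j i hi
      have b := hl2 j i' hi'
      have e := Arc_mir (s := up z) (i := off' j + i) (j := off' j + i')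
        (by rw [length_up]; omega) (by rw [length_up]; omega)
      rw [length_up] at e
      rw [← e, ← up_mirw]
      exact h2.arcU j i i' hi hi'
    · intro j i i' hi hi'
      have a := hl2 j i hi
      have b := hl2 j i' hi'
      have e := Arc_mir (s := lo z) (i := off' j + i) (j := off' j + i')
        (by rw [length_lo]; omega) (by rw [length_lo]; omega)
      rw [length_lo] at e
      rw [← e, ← lo_mirw]
      exact h2.arcV j i i' hi hi'
    · intro j i i' hi hi'
      have a := hl1 j i hi
      have b := hl2 j i' hi'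
      have ee : z.length - 1 - (z.length - 1 - (off' j + i')) = off' j + i' := by omega
      constructor
      · rintro ⟨-, -, k, h | h⟩
        · rw [length_up, ee, ← up_mirw] at h
          obtain ⟨k1, hk1, e1⟩ := (h1.rcs j i k hi).mp h.1
          obtain ⟨k2, hk2, e2⟩ := (h2.rcs j i' k hi').mp h.2
          have : k1 = k2 := by omega
          subst this
          exact ⟨k1, hk1, hk2⟩
        · exfalso
          have h3 := h.2
          rw [length_up, ← up_mirw, hmz, ← List.append_assoc, up_append] at h3
          have e1 : z.length - 1 - (off j + i) = (up (flatF L' ++ mirw r)).length +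
              ((flatF L).length - 1 - (off j + i)) := by
            have : z.length = (flatF L' ++ mirw r).length + (flatF L).length := by
              conv_lhs => rw [hz]
              simp [length_mirw]; omega
            rw [length_up]; omega
          rw [e1, rc_append_right] at h3
          obtain ⟨k', hk', -⟩ := h3
          have := rc_lt hk'
          rw [up_mirw, uc_mir] at this
          have h5 : uo (up (flatF L)) = 0 := by
            have := red_flatF L hL
            rw [red_eq, Prod.mk.injEq] at this
            exact this.2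
          omega
      · rintro ⟨k, hk1, hk2⟩
        refine ⟨by rw [length_up]; omega, by rw [length_up]; omega, (j : ℕ) * (n + 1) + k,
          Or.inl ⟨(h1.rcs j i _ hi).mpr ⟨k, hk1, rfl⟩, ?_⟩⟩
        rw [length_up, ee, ← up_mirw]
        exact (h2.rcs j i' _ hi').mpr ⟨k, hk2, rfl⟩
  refine ⟨block_lower hB, ?_⟩
  classical
  -- the exceptional set
  set T1 : Finset ℕ := Finset.univ.image (fun j : Fin t => off j + (L j).1.length) with hT1
  set T2 : Finset ℕ := (Finset.Ico (t * (n + 1)) (kU z)).image
    (fun k => if h : ∃ p, rc (up z) p k then h.choose else 0) with hT2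
  have c1 : T1.card ≤ t := by
    refine Finset.card_image_le.trans ?_
    simp
  have c2 : T2.card ≤ n := by
    refine Finset.card_image_le.trans ?_
    rw [Nat.card_Ico]
    have h3 : (n + 1) * t + kU z % (n + 1) = kU z := by rw [ht0]; exact Nat.div_add_mod _ _
    have h4 : kU z % (n + 1) < n + 1 := Nat.mod_lt _ (Nat.succ_pos n)
    rw [Nat.mul_comm] at h3
    omega
  have hup := block_upper hB (T1 ∪ T2) (by
    intro x hx y hy hxy
    rw [Finset.mem_range] at hx hy
    obtain ⟨-, -, k, h⟩ := hxy
    have key : ∀ x y, x < z.length → y < z.length →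
        (rc (up z) x k ∧ rc (mir (up z)) ((up z).length - 1 - y) k) → x ∈ T1 ∪ T2 ∨
        ∃ j i i', i < (L j).1.length ∧ i' < (L' j).1.length ∧ x = off j + i ∧
          y = z.length - 1 - (off' j + i') := by
      intro x y hx hy ⟨hxk, hyk⟩
      have hk1 := rc_lt hxk
      have hk2 := rc_lt hyk
      rw [uc_mir] at hk2
      rcases h1.cases hL hxk with h3 | ⟨j, h3⟩ | ⟨j, i, hi, h3, h4⟩
      · left
        refine Finset.mem_union_right _ (Finset.mem_image.mpr ⟨k, Finset.mem_Ico.mpr
          ⟨h3, lt_min hk1 hk2⟩, ?_⟩)
        have hex : ∃ p, rc (up z) p k := ⟨x, hxk⟩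
        rw [dif_pos hex]
        exact rc_pos_unique hex.choose_spec hxk
      · left
        exact Finset.mem_union_left _ (Finset.mem_image.mpr ⟨j, Finset.mem_univ _, h3.symm⟩)
      · rw [length_up, ← up_mirw] at hyk
        obtain ⟨k1, hk1', e1⟩ := (h1.rcs j i k hi).mp (by rw [← h3]; exact hxk)
        have hk1n : k1 < n := by
          have := rc_lt hk1'
          rwa [(star_iff.mp (hL j)).1] at this
        obtain ⟨i', hi'⟩ := rc_exists (s := up (L' j).1) (k := k1)
          (by rw [(star_iff.mp (hL' j)).1]; exact hk1n)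
        have hil : i' < (L' j).1.length := by rw [← length_up]; exact hi'.1
        have h5 := (h2.rcs j i' k hil).mpr ⟨k1, hi', e1⟩
        have h6 := rc_pos_unique hyk h5
        right
        exact ⟨j, i, i', hi, hil, h3, by omega⟩
    rcases h with h | h
    · rcases key x y hx hy h with h3 | ⟨j, i, i', hi, hi', e1, e2⟩
      · exact Or.inl h3
      · exact Or.inr (Or.inr ⟨j, i, i', hi, hi', Or.inl ⟨e1, e2⟩⟩)
    · rcases key y x hy hx h with h3 | ⟨j, i, i', hi, hi', e1, e2⟩
      · exact Or.inr (Or.inl h3)
      · exact Or.inr (Or.inr ⟨j, i, i', hi, hi', Or.inr ⟨e1, e2⟩⟩))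
  refine le_trans ?_ (hup.trans ?_)
  · exact le_of_eq rfl
  · have := Finset.card_union_le T1 T2
    omega

end MeanderCLT
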