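import Mathlib

/-!
# Definitions for the central limit theorem for components of meandric systems

Letters are pairs (upper bracket, lower bracket); `true` is an opening bracket, `false` a closing one.
-/

open scoped ENNReal

namespace MeanderCLT

/-- a letter: (upper bracket, lower bracket); `true` opens, `false` closes -/
abbrev Ltr := Bool × Bool

/-- a word of letters -/
abbrev Wd := List Ltr

/-- the upper bracket word -/
def up (x : Wd) : List Bool := x.map Prod.fst

/-- the lower bracket word -/
def lo (x : Wd) : List Bool := x.map Prod.snd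

/-- exchange upper and lower -/
def sw (x : Wd) : Wd := x.map Prod.swap

/-- reverse and flip a bracket word -/
def mir (s : List Bool) : List Bool := (s.map (fun b => !b)).reverse

/-- reverse and flip a word -/
def mirw (x : Wd) : Wd := (x.map (fun p => (!p.1, !p.2))).reverse

/-- (number of unmatched closing brackets, number of unmatched opening brackets) -/
def red : List Bool → ℕ × ℕ
  | [] => (0, 0)
  | true :: s => if (red s).1 = 0 then (0, (red s).2 + 1) else ((red s).1 - 1, (red s).2)
  | false :: s => ((red s).1 + 1, (red s).2)

/-- number of unmatched closing brackets -/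
def uc (s : List Bool) : ℕ := (red s).1

/-- number of unmatched opening brackets -/
def uo (s : List Bool) : ℕ := (red s).2

/-- height after `k` letters -/
def ht (s : List Bool) (k : ℕ) : ℤ := ((s.take k).map (fun b => if b then (1 : ℤ) else -1)).sum

/-- positions `i < j` carry matched brackets -/
def arc (s : List Bool) (i j : ℕ) : Prop :=
  i < j ∧ j < s.length ∧ ht s (j + 1) = ht s i ∧ ∀ k, i < k → k ≤ j → ht s i < ht s k

/-- positions `i` and `j` carry matched brackets (symmetric version) -/
def Arc (s : List Bool) (i j : ℕ) : Prop := arc s i j ∨ arc s j i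

/-- position `i` carries the unmatched closing bracket number `k`, counted from the left from `0` -/
def rc (s : List Bool) (i k : ℕ) : Prop :=
  i < s.length ∧ ht s (i + 1) = -((k : ℤ) + 1) ∧ ∀ t, t ≤ i → -((k : ℤ) + 1) < ht s t

/-- position `i` carries an unmatched bracket -/
def ufree (s : List Bool) (i : ℕ) : Prop := i < s.length ∧ ∀ j, ¬ Arc s i j

section Abstract

variable {P Q : Type*}

/-- `C` is closed under both partner relations and everything is matched inside `C` -/
def Cl (U V : P → P → Prop) (C : Finset P) : Prop :=
  ∀ x ∈ C, (∃ y ∈ C, U x y) ∧ (∃ y ∈ C, V x y)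

/-- a closed loop: a minimal nonempty closed set -/
def IsLoop (U V : P → P → Prop) (C : Finset P) : Prop :=
  C.Nonempty ∧ Cl U V C ∧ ∀ C', C' ⊆ C → C'.Nonempty → Cl U V C' → C' = C

open Classical in
/-- the closed loops inside `A` -/
noncomputable def loops (U V : P → P → Prop) (A : Finset P) : Finset (Finset P) :=
  A.powerset.filter (fun C => IsLoop U V C)

/-- `U` is (the symmetric relation of) a matching -/
structure IsMat (U : P → P → Prop) : Prop where
  symm : ∀ {x y}, U x y → U y x
  func : ∀ {x y z}, U x y → U x z → y = z
  irrefl : ∀ x, ¬ U x x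

/-- the set `C` contains an `R` arc -/
def Has (R : P → P → Prop) (C : Finset P) : Prop := ∃ x ∈ C, ∃ y ∈ C, R x y

/-- union of two relations -/
def Or2 (R S : P → P → Prop) (x y : P) : Prop := R x y ∨ S x y

end Abstract

/-- number of closed loops of a word -/
noncomputable def cc (x : Wd) : ℕ :=
  (loops (Arc (up x)) (Arc (lo x)) (Finset.range x.length)).card

/-- number of open ends of a word -/
def ee (x : Wd) : ℕ := uc (up x) + uo (up x) + uc (lo x) + uo (lo x)

/-! ### Two words glued at their left ends -/

/-- arcs inside the two words -/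
def dj (s t : List Bool) : ℕ ⊕ ℕ → ℕ ⊕ ℕ → Prop
  | .inl i, .inl j => Arc s i j
  | .inr i, .inr j => Arc t i j
  | _, _ => False

/-- glue arcs: the `k`-th unmatched closing bracket of `s` with the `k`-th one of `t` -/
def gj (s t : List Bool) : ℕ ⊕ ℕ → ℕ ⊕ ℕ → Prop
  | .inl i, .inr j => ∃ k, rc s i k ∧ rc t j k
  | .inr i, .inl j => ∃ k, rc s j k ∧ rc t i k
  | _, _ => False

/-- the points of the glued pair -/
def pts (v w : Wd) : Finset (ℕ ⊕ ℕ) := (Finset.range v.length).disjSum (Finset.range w.length)

/-- the loops of the glued pair (glued above and below) -/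
noncomputable def gloops (v w : Wd) : Finset (Finset (ℕ ⊕ ℕ)) :=
  loops (Or2 (dj (up v) (up w)) (gj (up v) (up w))) (Or2 (dj (lo v) (lo w)) (gj (lo v) (lo w)))
    (pts v w)

/-- number of loops of the glued pair with a glue arc -/
noncomputable def nu (v w : Wd) : ℕ := by
  classical exact
    ((gloops v w).filter (fun C => Has (gj (up v) (up w)) C ∨ Has (gj (lo v) (lo w)) C)).card

/-- number of loops of the glued pair with an upper glue arc -/
noncomputable def nuU (v w : Wd) : ℕ := by
  classical exact ((gloops v w).filter (fun C => Has (gj (up v) (up w)) C)).card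

/-- number of loops of the glued pair with an upper and without lower glue arc -/
noncomputable def nuP (v w : Wd) : ℕ := by
  classical exact
    ((gloops v w).filter (fun C => Has (gj (up v) (up w)) C ∧ ¬ Has (gj (lo v) (lo w)) C)).card

/-- number of loops with a glue arc when `v`, `w` are glued above only -/
noncomputable def NN (v w : Wd) : ℕ := by
  classical exact
    ((loops (Or2 (dj (up v) (up w)) (gj (up v) (up w))) (dj (lo v) (lo w)) (pts v w)).filter
      (fun C => Has (gj (up v) (up w)) C)).card

/-- number of upper glue arcs -/
def mU (v w : Wd) : ℕ := min (uc (up v)) (uc (up w))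

/-- number of lower glue arcs -/
def mL (v w : Wd) : ℕ := min (uc (lo v)) (uc (lo w))

/-! ### Cyclic closure of a word -/

/-- cyclic arcs: the `k`-th unmatched closing bracket from the left with the `k`-th unmatched
opening bracket from the right -/
def cj (s : List Bool) (i j : ℕ) : Prop :=
  i < s.length ∧ j < s.length ∧ ∃ k, (rc s i k ∧ rc (mir s) (s.length - 1 - j) k) ∨
    (rc s j k ∧ rc (mir s) (s.length - 1 - i) k)

/-- the loops of the cyclic closure -/
noncomputable def cloops (z : Wd) : Finset (Finset ℕ) :=
  loops (Or2 (Arc (up z)) (cj (up z))) (Or2 (Arc (lo z)) (cj (lo z))) (Finset.range z.length)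

/-- number of loops of the cyclic closure -/
noncomputable def ccyc (z : Wd) : ℕ := (cloops z).card

/-- number of loops of the cyclic closure with a cyclic arc -/
noncomputable def nucyc (z : Wd) : ℕ := by
  classical exact ((cloops z).filter (fun C => Has (cj (up z)) C ∨ Has (cj (lo z)) C)).card

/-- loops of the cyclic closure with an upper cyclic arc -/
noncomputable def nucycU (z : Wd) : ℕ := by
  classical exact ((cloops z).filter (fun C => Has (cj (up z)) C)).card

/-- loops of the cyclic closure with an upper and without lower cyclic arc -/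
noncomputable def nucycP (z : Wd) : ℕ := by
  classical exact ((cloops z).filter (fun C => Has (cj (up z)) C ∧ ¬ Has (cj (lo z)) C)).card

/-- number of upper cyclic arcs -/
def kU (z : Wd) : ℕ := min (uc (up z)) (uo (up z))

/-- number of lower cyclic arcs -/
def kL (z : Wd) : ℕ := min (uc (lo z)) (uo (lo z))

/-! ### Star words -/

/-- the upper brackets have exactly `n` unmatched closing ones (stars) and no unmatched opening one -/
def Star (n : ℕ) (w : Wd) : Prop := red (up w) = (n, 0)

/-- the strand of the point `i` does not reach an unmatched lower bracket of `x` -/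
def good (x : Wd) (i : ℕ) : Prop :=
  ∃ S : Finset ℕ, i ∈ S ∧ S ⊆ Finset.range x.length ∧ (∀ y ∈ S, ∀ z, Arc (up x) y z → z ∈ S) ∧
    (∀ y ∈ S, ∃ z ∈ S, Arc (lo x) y z)

/-- number of bad unmatched upper points -/
noncomputable def XX (x : Wd) : ℕ := by
  classical exact ((Finset.range x.length).filter (fun i => ufree (up x) i ∧ ¬ good x i)).card

/-- expectation over star words with weight `4 ^ (-length) / 2` -/
noncomputable def EE (n : ℕ) (g : Wd → ℝ≥0∞) : ℝ≥0∞ := by
  classical exact ∑' w : Wd, if Star n w then (1 / 2) * (1 / 4) ^ w.length * g w else 0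

/-- the constant `κ` -/
noncomputable def kappa : ℝ :=
  ⨆ n : ℕ, (EE n (fun v => EE n (fun w => (NN v w : ℝ≥0∞)))).toReal / ((n : ℝ) + 1)

/-! ### Uniform averages over words -/

/-- uniform average over words of length `N` -/
noncomputable def Ew (N : ℕ) (g : Wd → ℝ) : ℝ :=
  (∑ x : Fin N → Ltr, g (List.ofFn x)) / 4 ^ N

/-- uniform average over words of length `N`, complex valued -/
noncomputable def EwC (N : ℕ) (g : Wd → ℂ) : ℂ :=
  (∑ x : Fin N → Ltr, g (List.ofFn x)) / 4 ^ N

open Classical in
/-- uniform probability over words of length `N` -/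
noncomputable def Pw (N : ℕ) (E : Wd → Prop) : ℝ := Ew N (fun x => if E x then 1 else 0)

/-- variance -/
noncomputable def Vw (N : ℕ) (g : Wd → ℝ) : ℝ := Ew N (fun x => (g x - Ew N g) ^ 2)

/-- standard deviation -/
noncomputable def sg (N : ℕ) (g : Wd → ℝ) : ℝ := Real.sqrt (Vw N g)

/-- the final height of a bracket word -/
def hh (s : List Bool) : ℤ := ht s s.length

/-- the almost additive functional -/
noncomputable def ff (x : Wd) : ℝ := cc x + kappa / 2 * ee x

/-- joint characteristic function of the normalised functional and the two heights -/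
noncomputable def Psi (f : Wd → ℝ) (n : ℕ) (θ a b : ℝ) : ℂ :=
  EwC n (fun x => Complex.exp (Complex.I * ((θ * (f x - Ew n f) / sg n f +
    (a * (hh (up x) : ℝ) + b * (hh (lo x) : ℝ)) / Real.sqrt n : ℝ) : ℂ)))

/-- balanced words: final heights are zero above and below -/
def Bal (z : Wd) : Prop := hh (up z) = 0 ∧ hh (lo z) = 0

open Classical in
/-- average over balanced words of length `N` -/
noncomputable def Br (N : ℕ) (g : Wd → ℝ) : ℝ :=
  (Ew N (fun z => if Bal z then g z else 0)) / Pw N Bal

open Classical in
/-- average over balanced words of length `N`, complex valued -/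
noncomputable def BrC (N : ℕ) (g : Wd → ℂ) : ℂ :=
  (EwC N (fun z => if Bal z then g z else 0)) / (Pw N Bal : ℂ)

end MeanderCLT
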