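import Pool.Agent.H98.M.LLN
import Pool.Agent.H98.M.Avg

/-!
# Moments of the defect of additivity
-/

open Filter Topology

namespace MeanderCLT

theorem ff_append_one : ∃ C : ℝ, ∀ (x : Wd) (z : Ltr), |ff (x ++ [z]) - ff x| ≤ C := by
  refine ⟨4, fun x z => ?_⟩
  have h1 := cc_append_one x z
  have h2 := ee_append_one x z
  have h3 := kappa_nonneg
  have h4 := kappa_le_one
  have a1 : (cc x : ℝ) ≤ cc (x ++ [z]) := by exact_mod_cast h1.1
  have a2 : (cc (x ++ [z]) : ℝ) ≤ cc x + 2 := by exact_mod_cast h1.2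
  have b1 : (ee (x ++ [z]) : ℝ) ≤ ee x + 2 := by exact_mod_cast h2.1
  have b2 : (ee x : ℝ) ≤ ee (x ++ [z]) + 2 := by exact_mod_cast h2.2
  unfold ff
  rw [abs_le]
  constructor <;> nlinarith

theorem ff_mirw (x : Wd) : ff (mirw x) = ff x := by
  unfold ff
  rw [cc_mirw, ee_mirw]

/-- total number of unmatched brackets, real valued -/
noncomputable def dmQ (x : Wd) : ℝ := (uc (up x) : ℝ) + uo (up x) + uc (lo x) + uo (lo x)

theorem dmQ_nonneg (x : Wd) : 0 ≤ dmQ x := by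
  unfold dmQ
  positivity

/-- the number of glue arcs -/
noncomputable def dmM (v w : Wd) : ℝ := (mU v w : ℝ) + mL v w

theorem dmM_nonneg (v w : Wd) : 0 ≤ dmM v w := by
  unfold dmM
  positivity

theorem dmM_le_right (v w : Wd) : dmM v w ≤ dmQ w := by
  have h1 : mU v w ≤ uc (up w) := min_le_right _ _
  have h2 : mL v w ≤ uc (lo w) := min_le_right _ _
  have h1' : (mU v w : ℝ) ≤ uc (up w) := by exact_mod_cast h1
  have h2' : (mL v w : ℝ) ≤ uc (lo w) := by exact_mod_cast h2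
  have h3 : (0 : ℝ) ≤ uo (up w) := Nat.cast_nonneg _
  have h4 : (0 : ℝ) ≤ uo (lo w) := Nat.cast_nonneg _
  unfold dmM dmQ
  linarith

theorem dmom_abs (v w : Wd) : |(nu v w : ℝ) - kappa * (mU v w + mL v w)| ≤ dmM v w := by
  have h1 : (nu v w : ℝ) ≤ (mU v w : ℝ) + mL v w := by exact_mod_cast nu_le v w
  have h0 : (0 : ℝ) ≤ nu v w := Nat.cast_nonneg _
  have hM := dmM_nonneg v w
  have h3 := kappa_nonneg
  have h4 := kappa_le_one
  unfold dmM at hM ⊢
  rw [abs_le]
  constructor <;> nlinarith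

/-- double averages as single averages -/
theorem dmom_E2 (a b : ℕ) (g : Wd → Wd → ℝ) :
    Ew a (fun x => Ew b (fun y => g x y)) = Ew (a + b) (fun z => g (z.take a) (z.drop a)) := by
  rw [Ew_append]
  refine Ew_congr fun x hx => Ew_congr fun y _ => ?_
  rw [← hx, List.take_left', List.drop_left'] <;> rfl

/-- the double average of a function of the second word -/
theorem dmom_E2_right (a b : ℕ) (g : Wd → ℝ) :
    Ew a (fun _ => Ew b (fun y => g y)) = Ew b g := Ew_const a _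

theorem D_four_gen : ∃ C : ℝ, 0 < C ∧ ∀ a b : ℕ,
    Ew a (fun x => Ew b (fun y => (ff (x ++ y) - ff x - ff y) ^ 4)) ≤ C * (b : ℝ) ^ 2 := by
  obtain ⟨C, hC0, hC⟩ := uc_moments
  refine ⟨C, hC0, fun a b => ?_⟩
  calc Ew a (fun x => Ew b (fun y => (ff (x ++ y) - ff x - ff y) ^ 4))
      ≤ Ew a (fun _ => C * (b : ℝ) ^ 2) := by
        refine Ew_mono fun x _ => le_trans (Ew_mono fun y _ => ?_) (hC b).1
        rw [ff_glue]
        have h1 := (dmom_abs (mirw x) y).trans (dmM_le_right (mirw x) y)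
        have h2 := pow_le_pow_left₀ (abs_nonneg _) h1 4
        rw [pow_abs, abs_of_nonneg (by positivity)] at h2
        exact h2
    _ = C * (b : ℝ) ^ 2 := Ew_const _ _

theorem D_four : ∃ C : ℝ, ∀ n : ℕ,
    Ew n (fun x => Ew n (fun y => (ff (x ++ y) - ff x - ff y) ^ 4)) ≤ C * (n : ℝ) ^ 2 := by
  obtain ⟨C, _, hC⟩ := D_four_gen
  exact ⟨C, fun n => hC n n⟩

/-- an exponential beats a polynomial -/
theorem dmom_lim (A B : ℝ) (hB : 0 < B) (δ : ℝ) (hδ : 0 < δ) : ∀ᶠ N : ℕ in atTop,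
    A * ((N : ℝ) + 1) * Real.exp (-(B * Real.sqrt N)) ≤ δ := by
  have h1 : Tendsto (fun x : ℝ => x ^ 2 * Real.exp (-B * x)) atTop (𝓝 0) := by
    have := tendsto_rpow_mul_exp_neg_mul_atTop_nhds_zero 2 B hB
    refine this.congr fun x => ?_
    norm_num
  have h0 : Tendsto (fun x : ℝ => Real.exp (-B * x)) atTop (𝓝 0) := by
    have := tendsto_rpow_mul_exp_neg_mul_atTop_nhds_zero 0 B hB
    refine this.congr fun x => ?_
    rw [Real.rpow_zero, one_mul]
  have h2 : Tendsto (fun x : ℝ => A * (x ^ 2 * Real.exp (-B * x) + Real.exp (-B * x))) atTop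
      (𝓝 0) := by
    have := (h1.add h0).const_mul A
    simpa using this
  have hs : Tendsto (fun N : ℕ => Real.sqrt N) atTop atTop :=
    Real.tendsto_sqrt_atTop.comp tendsto_natCast_atTop_atTop
  have h3 := h2.comp hs
  filter_upwards [h3.eventually (gt_mem_nhds hδ)] with N hN
  have h4 : Real.sqrt N ^ 2 = N := Real.sq_sqrt (Nat.cast_nonneg N)
  simp only [Function.comp] at hN
  rw [h4] at hN
  have e : A * ((N : ℝ) + 1) * Real.exp (-(B * Real.sqrt N)) =
      A * ((N : ℝ) * Real.exp (-B * Real.sqrt N) + Real.exp (-B * Real.sqrt N)) := by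
    rw [neg_mul]; ring
  rw [e]
  exact hN.le

theorem D_two_gen (ε : ℝ) (hε : 0 < ε) : ∀ᶠ N : ℕ in atTop, ∀ a b : ℕ, a + b = N →
    Ew a (fun x => Ew b (fun y => (ff (x ++ y) - ff x - ff y) ^ 2)) ≤ ε * N := by
  classical
  obtain ⟨C2, hC20, hC2⟩ := uc_moments
  -- small parameter
  obtain ⟨e, he0, he⟩ : ∃ e : ℝ, 0 < e ∧ 3 * e ^ 2 * (C2 + 1) ≤ ε / 4 := by
    refine ⟨min 1 (ε / (12 * (C2 + 1))), lt_min one_pos (by positivity), ?_⟩
    have h1 : min 1 (ε / (12 * (C2 + 1))) ≤ 1 := min_le_left _ _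
    have h2 : min 1 (ε / (12 * (C2 + 1))) ≤ ε / (12 * (C2 + 1)) := min_le_right _ _
    have h0 : 0 ≤ min 1 (ε / (12 * (C2 + 1))) := le_min zero_le_one (by positivity)
    have h3 : (min 1 (ε / (12 * (C2 + 1)))) ^ 2 ≤ ε / (12 * (C2 + 1)) := by nlinarith
    calc 3 * (min 1 (ε / (12 * (C2 + 1)))) ^ 2 * (C2 + 1)
        ≤ 3 * (ε / (12 * (C2 + 1))) * (C2 + 1) := by gcongr
      _ = ε / 4 := by field_simp; ring
  obtain ⟨C, hC0, hC⟩ := lln_pair e he0
  have hlim := dmom_lim (C2 * C) (e / C) (by positivity) ((ε / 4) ^ 2) (by positivity)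
  filter_upwards [hlim, tendsto_natCast_atTop_atTop.eventually_ge_atTop (12 * C ^ 2 / ε),
    eventually_gt_atTop 0] with N hN1 hN2 hN0 a b hab
  have hNr : (0 : ℝ) < N := by exact_mod_cast hN0
  -- the bad event
  obtain ⟨T, hT⟩ : ∃ T, T = e * Real.sqrt N := ⟨_, rfl⟩
  have hT0 : 0 ≤ T := by rw [hT]; positivity
  have hTsq : T ^ 2 = e ^ 2 * N := by
    rw [hT, mul_pow, Real.sq_sqrt hNr.le]
  let Bad : Wd → Wd → Prop := fun v w => C + e * (mU v w + mL v w) + T <
      |(nu v w : ℝ) - kappa * (mU v w + mL v w)|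
  have hbad : Pw2 a b Bad ≤ C * (N + 1) * Real.exp (-T / C) := by
    have := hC a b T hT0
    have e2 : (a : ℝ) + b = N := by exact_mod_cast hab
    rw [e2] at this
    exact this
  -- rewrite the left side
  have e1 : Ew a (fun x => Ew b (fun y => (ff (x ++ y) - ff x - ff y) ^ 2)) =
      Ew a (fun v => Ew b (fun w => ((nu v w : ℝ) - kappa * (mU v w + mL v w)) ^ 2)) := by
    rw [← Ew_mirw a (fun v => Ew b (fun w => ((nu v w : ℝ) - kappa * (mU v w + mL v w)) ^ 2))]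
    refine Ew_congr fun x _ => Ew_congr fun y _ => ?_
    rw [ff_glue]
  rw [e1]
  -- pointwise bound
  have hpt : ∀ v w : Wd, ((nu v w : ℝ) - kappa * (mU v w + mL v w)) ^ 2 ≤
      (3 * C ^ 2 + 3 * T ^ 2) + 3 * e ^ 2 * (dmQ w ^ 2) +
        (dmQ w ^ 2) * (if Bad v w then 1 else 0) := by
    intro v w
    have hM := dmM_nonneg v w
    have hMQ := dmM_le_right v w
    have hMQ2 : dmM v w ^ 2 ≤ dmQ w ^ 2 := pow_le_pow_left₀ hM hMQ 2
    by_cases hb : Bad v w
    · rw [if_pos hb, mul_one]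
      have h1 := pow_le_pow_left₀ (abs_nonneg _) ((dmom_abs v w).trans hMQ) 2
      rw [sq_abs] at h1
      have : 0 ≤ (3 * C ^ 2 + 3 * T ^ 2) + 3 * e ^ 2 * (dmQ w ^ 2) := by positivity
      linarith
    · rw [if_neg hb, mul_zero, add_zero]
      have h1 : |(nu v w : ℝ) - kappa * (mU v w + mL v w)| ≤ C + e * dmM v w + T := not_lt.1 hb
      have h2 := pow_le_pow_left₀ (abs_nonneg _) h1 2
      rw [sq_abs] at h2
      have h3 : (C + e * dmM v w + T) ^ 2 ≤ 3 * C ^ 2 + 3 * T ^ 2 + 3 * e ^ 2 * dmM v w ^ 2 := by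
        nlinarith [sq_nonneg (C - e * dmM v w), sq_nonneg (C - T), sq_nonneg (e * dmM v w - T)]
      have h4 : 3 * e ^ 2 * dmM v w ^ 2 ≤ 3 * e ^ 2 * dmQ w ^ 2 := by gcongr
      linarith
  have h5 : Ew a (fun v => Ew b (fun w => ((nu v w : ℝ) - kappa * (mU v w + mL v w)) ^ 2)) ≤
      (3 * C ^ 2 + 3 * T ^ 2) + 3 * e ^ 2 * (C2 * b) +
        Ew a (fun v => Ew b (fun w => (dmQ w ^ 2) * (if Bad v w then 1 else 0))) := by
    calc _ ≤ Ew a (fun v => Ew b (fun w => (3 * C ^ 2 + 3 * T ^ 2) + 3 * e ^ 2 * (dmQ w ^ 2) +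
        (dmQ w ^ 2) * (if Bad v w then 1 else 0))) :=
          Ew_mono fun v _ => Ew_mono fun w _ => hpt v w
      _ = (3 * C ^ 2 + 3 * T ^ 2) + 3 * e ^ 2 * Ew b (fun w => dmQ w ^ 2) +
        Ew a (fun v => Ew b (fun w => (dmQ w ^ 2) * (if Bad v w then 1 else 0))) := by
          have : ∀ v : Wd, Ew b (fun w => (3 * C ^ 2 + 3 * T ^ 2) + 3 * e ^ 2 * (dmQ w ^ 2) +
            (dmQ w ^ 2) * (if Bad v w then 1 else 0)) =
            ((3 * C ^ 2 + 3 * T ^ 2) + 3 * e ^ 2 * Ew b (fun w => dmQ w ^ 2)) +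
              Ew b (fun w => (dmQ w ^ 2) * (if Bad v w then 1 else 0)) := by
            intro v
            rw [Ew_add, Ew_add, Ew_const, Ew_mul_left]
          simp only [this]
          rw [Ew_add, Ew_const]
      _ ≤ _ := by
          have := (hC2 b).2.1
          have h6 : Ew b (fun w => dmQ w ^ 2) ≤ C2 * b := this
          gcongr
  -- Cauchy-Schwarz for the bad part
  have h7 : Ew a (fun v => Ew b (fun w => (dmQ w ^ 2) * (if Bad v w then 1 else 0))) ≤
      ε / 4 * N := by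
    have hE : Ew a (fun v => Ew b (fun w => (dmQ w ^ 2) * (if Bad v w then 1 else 0))) =
        Ew (a + b) (fun z => (dmQ (z.drop a) ^ 2) *
          (if Bad (z.take a) (z.drop a) then 1 else 0)) :=
      dmom_E2 a b (fun v w => (dmQ w ^ 2) * (if Bad v w then 1 else 0))
    have hcs := Ew_mul_sq_le (a + b) (fun z => dmQ (z.drop a) ^ 2)
      (fun z => if Bad (z.take a) (z.drop a) then 1 else 0)
    rw [← hE] at hcs
    have hA : Ew (a + b) (fun z => (dmQ (z.drop a) ^ 2) ^ 2) ≤ C2 * (b : ℝ) ^ 2 := by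
      have h8 := dmom_E2 a b (fun v w => (dmQ w ^ 2) ^ 2)
      rw [← h8, dmom_E2_right]
      refine le_trans (le_of_eq ?_) (hC2 b).1
      refine Ew_congr fun x _ => ?_
      rw [← pow_mul]
      rfl
    have hBd : Ew (a + b) (fun z => (if Bad (z.take a) (z.drop a) then (1 : ℝ) else 0) ^ 2) ≤
        C * (N + 1) * Real.exp (-T / C) := by
      refine le_trans (le_of_eq ?_) hbad
      have h8 := dmom_E2 a b (fun v w => (if Bad v w then (1 : ℝ) else 0))
      unfold Pw2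
      rw [h8]
      refine Ew_congr fun z _ => ?_
      split_ifs <;> norm_num
    have hb : (b : ℝ) ≤ N := by
      have : b ≤ N := by omega
      exact_mod_cast this
    have hA0 : 0 ≤ Ew (a + b) (fun z => (dmQ (z.drop a) ^ 2) ^ 2) :=
      Ew_nonneg fun z _ => by positivity
    have hsq : (Ew a (fun v => Ew b (fun w => (dmQ w ^ 2) * (if Bad v w then 1 else 0)))) ^ 2 ≤
        (ε / 4 * N) ^ 2 := by
      calc _ ≤ _ := hcs
        _ ≤ (C2 * (b : ℝ) ^ 2) * (C * (N + 1) * Real.exp (-T / C)) := by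
            refine mul_le_mul hA hBd (Ew_nonneg fun z _ => by positivity) (by positivity)
        _ ≤ (C2 * (N : ℝ) ^ 2) * (C * (N + 1) * Real.exp (-T / C)) := by gcongr
        _ = (N : ℝ) ^ 2 * (C2 * C * ((N : ℝ) + 1) * Real.exp (-(e / C * Real.sqrt N))) := by
            rw [hT]
            have : -(e * Real.sqrt N) / C = -(e / C * Real.sqrt N) := by ring
            rw [this]
            ring
        _ ≤ (N : ℝ) ^ 2 * (ε / 4) ^ 2 := by gcongr
        _ = _ := by ring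
    exact le_of_sq_le_sq hsq (by positivity)
  have hb : (b : ℝ) ≤ N := by
    have : b ≤ N := by omega
    exact_mod_cast this
  have h9 : 3 * C ^ 2 ≤ ε / 4 * N := by
    rw [div_le_iff₀ hε] at hN2
    linarith
  have h10 : 3 * e ^ 2 * (C2 * b) + 3 * T ^ 2 ≤ ε / 4 * N := by
    rw [hTsq]
    calc 3 * e ^ 2 * (C2 * b) + 3 * (e ^ 2 * N) ≤ 3 * e ^ 2 * (C2 * N) + 3 * (e ^ 2 * N) := by
          gcongr
      _ = 3 * e ^ 2 * (C2 + 1) * N := by ring
      _ ≤ ε / 4 * N := by gcongr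
  calc _ ≤ _ := h5
    _ ≤ ε / 4 * N + ε / 4 * N + ε / 4 * N := by linarith
    _ ≤ ε * N := by nlinarith

theorem D_two (ε : ℝ) (hε : 0 < ε) : ∀ᶠ n : ℕ in atTop,
    Ew n (fun x => Ew n (fun y => (ff (x ++ y) - ff x - ff y) ^ 2)) ≤ ε * n := by
  have h := D_two_gen (ε / 2) (by positivity)
  have hm : Tendsto (fun n : ℕ => n + n) atTop atTop :=
    tendsto_atTop_mono (fun n => Nat.le_add_left n n) tendsto_id
  filter_upwards [hm.eventually h] with n hn
  have h1 := hn n n rfl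
  push_cast at h1
  linarith

end MeanderCLT
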