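import Pool.Agent.H98.M.Red
import Pool.Agent.H98.M.Avg

/-!
# Almost additive functionals: variance and fourth moment
-/

open Filter Topology

namespace MeanderCLT

/-- hypotheses of the doubling argument -/
structure AlmostAdd (f : Wd → ℝ) : Prop where
  one : ∃ C : ℝ, ∀ (x : Wd) (z : Ltr), |f (x ++ [z]) - f x| ≤ C
  mirror : ∀ x, f (mirw x) = f x
  var : ∃ c : ℝ, 0 < c ∧ ∀ᶠ n : ℕ in atTop, c * n ≤ Vw n f
  four : ∃ C : ℝ, ∀ n : ℕ, Ew n (fun x => Ew n (fun y => (f (x ++ y) - f x - f y) ^ 4)) ≤ C * (n : ℝ) ^ 2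
  two : ∀ ε : ℝ, 0 < ε → ∀ᶠ n : ℕ in atTop,
    Ew n (fun x => Ew n (fun y => (f (x ++ y) - f x - f y) ^ 2)) ≤ ε * n

/-- the centred functional -/
private noncomputable def dcen (N : ℕ) (g : Wd → ℝ) : Wd → ℝ := fun x => g x - Ew N g

private theorem douba_Vw (N : ℕ) (g : Wd → ℝ) : Vw N g = Ew N (fun x => dcen N g x ^ 2) := rfl

private theorem douba_mean_cen (N : ℕ) (g : Wd → ℝ) : Ew N (dcen N g) = 0 := by
  have h := Ew_sub N g (fun _ => Ew N g)
  rw [Ew_const] at h
  unfold dcen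
  rw [h]; ring

private theorem douba_var_eq (N : ℕ) (u : Wd → ℝ) :
    Ew N (fun x => dcen N u x ^ 2) = Ew N (fun x => u x ^ 2) - (Ew N u) ^ 2 := by
  have h1 : (fun x => dcen N u x ^ 2) =
      fun x => (u x ^ 2 - (2 * Ew N u) * u x) + (Ew N u) ^ 2 := by
    funext x; unfold dcen; ring
  rw [h1, Ew_add N (fun x => u x ^ 2 - (2 * Ew N u) * u x) (fun _ => (Ew N u) ^ 2),
    Ew_sub N (fun x => u x ^ 2) (fun x => (2 * Ew N u) * u x), Ew_mul_left, Ew_const]
  ring

private theorem douba_cen_sq_le (N : ℕ) (u : Wd → ℝ) :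
    Ew N (fun x => dcen N u x ^ 2) ≤ Ew N (fun x => u x ^ 2) := by
  rw [douba_var_eq]
  nlinarith [sq_nonneg (Ew N u)]

private theorem douba_sq_mean (N : ℕ) (u : Wd → ℝ) : (Ew N u) ^ 2 ≤ Ew N (fun x => u x ^ 2) := by
  have h := douba_var_eq N u
  have h2 : 0 ≤ Ew N (fun x => dcen N u x ^ 2) := Ew_nonneg (fun x _ => sq_nonneg _)
  linarith

private theorem douba_four_mean (N : ℕ) (u : Wd → ℝ) :
    (Ew N u) ^ 4 ≤ Ew N (fun x => u x ^ 4) := by
  have h1 := douba_sq_mean N u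
  have h2 := douba_sq_mean N (fun x => u x ^ 2)
  have h3 : (fun x => (u x ^ 2) ^ 2) = fun x => u x ^ 4 := by funext x; ring
  rw [h3] at h2
  have h4 : 0 ≤ (Ew N u) ^ 2 := sq_nonneg _
  calc (Ew N u) ^ 4 = ((Ew N u) ^ 2) ^ 2 := by ring
    _ ≤ (Ew N (fun x => u x ^ 2)) ^ 2 := by gcongr
    _ ≤ _ := h2

private theorem douba_cen_four_le (N : ℕ) (u : Wd → ℝ) :
    Ew N (fun x => dcen N u x ^ 4) ≤ 16 * Ew N (fun x => u x ^ 4) := by
  have h1 : Ew N (fun x => dcen N u x ^ 4) ≤ Ew N (fun x => 8 * u x ^ 4 + 8 * (Ew N u) ^ 4) := by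
    apply Ew_mono
    intro x _
    unfold dcen
    have h (a b : ℝ) : (a - b) ^ 4 ≤ 8 * a ^ 4 + 8 * b ^ 4 := by
      have h5 : (a - b) ^ 2 ≤ 2 * a ^ 2 + 2 * b ^ 2 := by nlinarith [sq_nonneg (a + b)]
      have h6 : ((a - b) ^ 2) ^ 2 ≤ (2 * a ^ 2 + 2 * b ^ 2) ^ 2 := by gcongr
      nlinarith [sq_nonneg (a ^ 2 - b ^ 2)]
    exact h _ _
  rw [Ew_add N (fun x => 8 * u x ^ 4) (fun _ => 8 * (Ew N u) ^ 4), Ew_mul_left, Ew_const] at h1
  have h2 := douba_four_mean N u
  linarith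

/-- Minkowski for standard deviations -/
private theorem douba_mink (N : ℕ) (g h : Wd → ℝ) :
    sg N g ≤ sg N h + Real.sqrt (Ew N (fun x => (g x - h x) ^ 2)) := by
  unfold sg
  rw [douba_Vw, douba_Vw]
  have h1 := Ew_minkowski2 N (dcen N h) (dcen N (fun x => g x - h x))
  have h2 : ∀ x, dcen N h x + dcen N (fun x => g x - h x) x = dcen N g x := by
    intro x
    unfold dcen
    rw [Ew_sub N g h]; ring
  simp only [h2] at h1
  have h3 := Real.sqrt_le_sqrt (douba_cen_sq_le N (fun x => g x - h x))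
  linarith

private theorem douba_mink_abs (N : ℕ) (g h : Wd → ℝ) :
    |sg N g - sg N h| ≤ Real.sqrt (Ew N (fun x => (g x - h x) ^ 2)) := by
  have h1 := douba_mink N g h
  have h2 := douba_mink N h g
  have h3 : (fun x => (h x - g x) ^ 2) = fun x => (g x - h x) ^ 2 := by funext x; ring
  rw [h3] at h2
  rw [abs_le]
  constructor <;> linarith

private theorem douba_pow4 (a b : ℝ) : (a + b) ^ 4 ≤ 11 / 10 * a ^ 4 + 68921 * b ^ 4 := by
  have h0 : ∀ x y : ℝ, (x + y) ^ 2 ≤ 41 / 40 * x ^ 2 + 41 * y ^ 2 := by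
    intro x y
    nlinarith [sq_nonneg (x - 40 * y)]
  have h1 := h0 a b
  have h2 : ((a + b) ^ 2) ^ 2 ≤ (41 / 40 * a ^ 2 + 41 * b ^ 2) ^ 2 := by gcongr
  have h3 := h0 (41 / 40 * a ^ 2) (41 * b ^ 2)
  have h4 : 0 ≤ a ^ 4 := by positivity
  nlinarith

private theorem douba_four_step (N : ℕ) (g h : Wd → ℝ) :
    Ew N (fun x => dcen N g x ^ 4) ≤ 11 / 10 * Ew N (fun x => dcen N h x ^ 4) +
      68921 * (16 * Ew N (fun x => (g x - h x) ^ 4)) := by
  have h1 : Ew N (fun x => dcen N g x ^ 4) ≤ Ew N (fun x => 11 / 10 * dcen N h x ^ 4 +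
      68921 * dcen N (fun x => g x - h x) x ^ 4) := by
    apply Ew_mono
    intro x _
    have h2 : dcen N g x = dcen N h x + dcen N (fun x => g x - h x) x := by
      unfold dcen
      rw [Ew_sub N g h]; ring
    rw [h2]
    exact douba_pow4 _ _
  rw [Ew_add N (fun x => 11 / 10 * dcen N h x ^ 4)
    (fun x => 68921 * dcen N (fun x => g x - h x) x ^ 4), Ew_mul_left, Ew_mul_left] at h1
  have h3 := douba_cen_four_le N (fun x => g x - h x)
  linarith

/-- pairs -/
private theorem douba_pair (l m : ℕ) (G : Wd → Wd → ℝ) :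
    Ew (l + m) (fun z => G (z.take l) (z.drop l)) = Ew l (fun x => Ew m (fun y => G x y)) := by
  rw [Ew_append]
  apply Ew_congr
  intro x hx
  apply Ew_congr
  intro y _
  rw [List.take_left' hx, List.drop_left' hx]

private theorem douba_take (l m : ℕ) (G : Wd → ℝ) :
    Ew (l + m) (fun z => G (z.take l)) = Ew l G := by
  rw [douba_pair l m (fun x _ => G x)]
  apply Ew_congr
  intro x _
  exact Ew_const m (G x)

/-- the additive comparison functional -/
private noncomputable def dadd (l : ℕ) (f : Wd → ℝ) : Wd → ℝ := fun z => f (z.take l) + f (z.drop l)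

private theorem douba_dadd_mean (l : ℕ) (f : Wd → ℝ) : Ew (l + l) (dadd l f) = 2 * Ew l f := by
  unfold dadd
  rw [douba_pair l l (fun x y => f x + f y)]
  have h1 : ∀ x, Ew l (fun y => f x + f y) = f x + Ew l f := by
    intro x
    rw [Ew_add l (fun _ => f x) f, Ew_const]
  simp only [h1]
  rw [Ew_add l f (fun _ => Ew l f), Ew_const]
  ring

private theorem douba_dadd_cen (l : ℕ) (f : Wd → ℝ) (z : Wd) :
    dcen (l + l) (dadd l f) z = dcen l f (z.take l) + dcen l f (z.drop l) := by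
  have h : dcen (l + l) (dadd l f) z = dadd l f z - Ew (l + l) (dadd l f) := rfl
  rw [h, douba_dadd_mean]
  unfold dcen dadd
  ring

private theorem douba_dadd_var (l : ℕ) (f : Wd → ℝ) : Vw (l + l) (dadd l f) = 2 * Vw l f := by
  rw [douba_Vw]
  simp only [douba_dadd_cen]
  rw [douba_pair l l (fun x y => (dcen l f x + dcen l f y) ^ 2)]
  have h1 : ∀ x, Ew l (fun y => (dcen l f x + dcen l f y) ^ 2) = dcen l f x ^ 2 + Vw l f := by
    intro x
    have h2 : (fun y => (dcen l f x + dcen l f y) ^ 2) =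
        fun y => ((dcen l f x ^ 2) + (2 * dcen l f x) * dcen l f y) + dcen l f y ^ 2 := by
      funext y; ring
    rw [h2, Ew_add l (fun y => (dcen l f x ^ 2) + (2 * dcen l f x) * dcen l f y)
      (fun y => dcen l f y ^ 2), Ew_add l (fun _ => dcen l f x ^ 2)
      (fun y => (2 * dcen l f x) * dcen l f y), Ew_const, Ew_mul_left, douba_mean_cen, douba_Vw]
    ring
  simp only [h1]
  rw [Ew_add l (fun x => dcen l f x ^ 2) (fun _ => Vw l f), Ew_const, ← douba_Vw]
  ring

private theorem douba_dadd_four (l : ℕ) (f : Wd → ℝ) :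
    Ew (l + l) (fun z => dcen (l + l) (dadd l f) z ^ 4) =
      2 * Ew l (fun x => dcen l f x ^ 4) + 6 * Vw l f ^ 2 := by
  simp only [douba_dadd_cen]
  rw [douba_pair l l (fun x y => (dcen l f x + dcen l f y) ^ 4)]
  have h1 : ∀ x, Ew l (fun y => (dcen l f x + dcen l f y) ^ 4) =
      dcen l f x ^ 4 + 6 * Vw l f * dcen l f x ^ 2 +
        (4 * Ew l (fun y => dcen l f y ^ 3)) * dcen l f x + Ew l (fun y => dcen l f y ^ 4) := by
    intro x
    have h2 : (fun y => (dcen l f x + dcen l f y) ^ 4) =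
        fun y => ((((dcen l f x ^ 4) + (4 * dcen l f x ^ 3) * dcen l f y) +
          (6 * dcen l f x ^ 2) * dcen l f y ^ 2) + (4 * dcen l f x) * dcen l f y ^ 3) +
            dcen l f y ^ 4 := by
      funext y; ring
    rw [h2, Ew_add l (fun y => (((dcen l f x ^ 4) + (4 * dcen l f x ^ 3) * dcen l f y) +
          (6 * dcen l f x ^ 2) * dcen l f y ^ 2) + (4 * dcen l f x) * dcen l f y ^ 3)
      (fun y => dcen l f y ^ 4), Ew_add l (fun y => ((dcen l f x ^ 4) + (4 * dcen l f x ^ 3) *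
        dcen l f y) + (6 * dcen l f x ^ 2) * dcen l f y ^ 2)
      (fun y => (4 * dcen l f x) * dcen l f y ^ 3), Ew_add l (fun y => (dcen l f x ^ 4) +
        (4 * dcen l f x ^ 3) * dcen l f y) (fun y => (6 * dcen l f x ^ 2) * dcen l f y ^ 2),
      Ew_add l (fun _ => dcen l f x ^ 4) (fun y => (4 * dcen l f x ^ 3) * dcen l f y),
      Ew_const, Ew_mul_left, Ew_mul_left, Ew_mul_left, douba_mean_cen, douba_Vw]
    ring
  simp only [h1]
  rw [Ew_add l (fun x => dcen l f x ^ 4 + 6 * Vw l f * dcen l f x ^ 2 +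
        (4 * Ew l (fun y => dcen l f y ^ 3)) * dcen l f x)
      (fun _ => Ew l (fun y => dcen l f y ^ 4)),
    Ew_add l (fun x => dcen l f x ^ 4 + 6 * Vw l f * dcen l f x ^ 2)
      (fun x => (4 * Ew l (fun y => dcen l f y ^ 3)) * dcen l f x),
    Ew_add l (fun x => dcen l f x ^ 4) (fun x => 6 * Vw l f * dcen l f x ^ 2), Ew_const,
    Ew_mul_left, Ew_mul_left, douba_mean_cen, ← douba_Vw]
  ring

/-- the difference to the additive functional -/
private theorem douba_diff (l k : ℕ) (f : Wd → ℝ) :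
    Ew (l + l) (fun z => (f z - dadd l f z) ^ k) =
      Ew l (fun x => Ew l (fun y => (f (x ++ y) - f x - f y) ^ k)) := by
  rw [← douba_pair l l (fun x y => (f (x ++ y) - f x - f y) ^ k)]
  apply Ew_congr
  intro z _
  rw [List.take_append_drop]
  unfold dadd
  congr 1
  ring

private theorem douba_sg_nonneg (n : ℕ) (f : Wd → ℝ) : 0 ≤ sg n f := Real.sqrt_nonneg _

private theorem douba_Vw_nonneg (n : ℕ) (f : Wd → ℝ) : 0 ≤ Vw n f :=
  Ew_nonneg (fun x _ => sq_nonneg _)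

private theorem douba_sg_sq (n : ℕ) (f : Wd → ℝ) : sg n f ^ 2 = Vw n f :=
  Real.sq_sqrt (douba_Vw_nonneg n f)

/-- one more letter -/
private theorem douba_one_diff {f : Wd → ℝ} {C : ℝ}
    (hC : ∀ (x : Wd) (z : Ltr), |f (x ++ [z]) - f x| ≤ C) (n : ℕ) (z : Wd)
    (hz : z.length = n + 1) : |f z - f (z.take n)| ≤ C := by
  have h1 : z = z.take n ++ [z[n]'(by omega)] := by
    rw [← List.take_succ_eq_append_getElem (by omega)]
    rw [List.take_of_length_le (by omega)]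
  conv_lhs => rw [h1]
  have h2 : (z.take n ++ [z[n]'(by omega)]).take n = z.take n := by
    rw [← h1]
  rw [h2]
  exact hC _ _

private theorem douba_one_sg {f : Wd → ℝ} {C : ℝ} (hC0 : 0 ≤ C)
    (hC : ∀ (x : Wd) (z : Ltr), |f (x ++ [z]) - f x| ≤ C) (n : ℕ) :
    |sg (n + 1) f - sg n f| ≤ C := by
  have h1 := douba_mink_abs (n + 1) f (fun z => f (z.take n))
  have h2 : sg (n + 1) (fun z => f (z.take n)) = sg n f := by
    unfold sg Vw
    rw [douba_take n 1 f, douba_take n 1 (fun x => (f x - Ew n f) ^ 2)]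
  rw [h2] at h1
  refine le_trans h1 ?_
  rw [← Real.sqrt_sq hC0]
  apply Real.sqrt_le_sqrt
  have h3 : Ew (n + 1) (fun x => (f x - f (x.take n)) ^ 2) ≤ Ew (n + 1) (fun _ => C ^ 2) := by
    apply Ew_mono
    intro x hx
    have h4 := douba_one_diff hC n x hx
    rw [← sq_abs]
    gcongr
  rwa [Ew_const] at h3

private theorem douba_one_four {f : Wd → ℝ} {C : ℝ}
    (hC : ∀ (x : Wd) (z : Ltr), |f (x ++ [z]) - f x| ≤ C) (n : ℕ) :
    Ew (n + 1) (fun x => dcen (n + 1) f x ^ 4) ≤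
      11 / 10 * Ew n (fun x => dcen n f x ^ 4) + 68921 * (16 * C ^ 4) := by
  have h1 := douba_four_step (n + 1) f (fun z => f (z.take n))
  have h2 : Ew (n + 1) (fun x => dcen (n + 1) (fun z => f (z.take n)) x ^ 4) =
      Ew n (fun x => dcen n f x ^ 4) := by
    unfold dcen
    rw [douba_take n 1 f, douba_take n 1 (fun x => (f x - Ew n f) ^ 4)]
  rw [h2] at h1
  have h3 : Ew (n + 1) (fun x => (f x - f (x.take n)) ^ 4) ≤ Ew (n + 1) (fun _ => C ^ 4) := by
    apply Ew_mono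
    intro x hx
    have h4 := douba_one_diff hC n x hx
    have h5 : (f x - f (x.take n)) ^ 4 = |f x - f (x.take n)| ^ 4 := by
      rw [← abs_pow]
      exact (abs_of_nonneg (by positivity)).symm
    rw [h5]
    gcongr
  rw [Ew_const] at h3
  linarith

private theorem douba_two_sg {f : Wd → ℝ} (l : ℕ) :
    |sg (l + l) f - Real.sqrt 2 * sg l f| ≤
      Real.sqrt (Ew l (fun x => Ew l (fun y => (f (x ++ y) - f x - f y) ^ 2))) := by
  have h1 := douba_mink_abs (l + l) f (dadd l f)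
  have h2 : sg (l + l) (dadd l f) = Real.sqrt 2 * sg l f := by
    unfold sg
    rw [douba_dadd_var, Real.sqrt_mul (by norm_num)]
  rw [h2, douba_diff l 2 f] at h1
  exact h1

theorem sg_half {f : Wd → ℝ} (h : AlmostAdd f) :
    Tendsto (fun n : ℕ => sg n f / sg (n / 2) f) atTop (𝓝 (Real.sqrt 2)) := by
  obtain ⟨C0, hC0⟩ := h.one
  obtain ⟨c, hc, hvar⟩ := h.var
  have hC : ∀ (x : Wd) (z : Ltr), |f (x ++ [z]) - f x| ≤ |C0| :=
    fun x z => le_trans (hC0 x z) (le_abs_self _)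
  rw [Metric.tendsto_atTop]
  intro ε hε
  -- choose the precision
  have hδ : 0 < c * (ε / 4) ^ 2 := by positivity
  obtain ⟨n1, hn1⟩ := eventually_atTop.1 (h.two _ hδ)
  obtain ⟨n2, hn2⟩ := eventually_atTop.1 hvar
  obtain ⟨n3, hn3⟩ := exists_nat_gt ((4 * (|C0| + 1) / ε) ^ 2 / c)
  refine ⟨2 * (n1 + n2 + n3 + 1) + 1, ?_⟩
  intro n hn
  set l := n / 2 with hl
  have hl1 : n1 ≤ l := by omega
  have hl2 : n2 ≤ l := by omega
  have hl3 : n3 ≤ l := by omega
  have hl0 : 1 ≤ l := by omega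
  have hlR : (1 : ℝ) ≤ l := by exact_mod_cast hl0
  have hV : c * l ≤ Vw l f := hn2 l hl2
  have hcl : 0 < c * l := by positivity
  have hsg : Real.sqrt (c * l) ≤ sg l f := Real.sqrt_le_sqrt hV
  have hsq0 : 0 < Real.sqrt (c * l) := Real.sqrt_pos.2 hcl
  have hsgpos : 0 < sg l f := lt_of_lt_of_le hsq0 hsg
  have h1 : |sg (l + l) f - Real.sqrt 2 * sg l f| ≤ ε / 4 * sg l f := by
    refine le_trans (douba_two_sg l) ?_
    calc Real.sqrt (Ew l (fun x => Ew l (fun y => (f (x ++ y) - f x - f y) ^ 2)))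
        ≤ Real.sqrt (c * (ε / 4) ^ 2 * l) := Real.sqrt_le_sqrt (hn1 l hl1)
      _ = ε / 4 * Real.sqrt (c * l) := by
          rw [show c * (ε / 4) ^ 2 * l = (ε / 4) ^ 2 * (c * l) by ring,
            Real.sqrt_mul (by positivity), Real.sqrt_sq (by positivity)]
      _ ≤ ε / 4 * sg l f := by gcongr
  have h2 : |C0| + 1 ≤ ε / 4 * sg l f := by
    have h3 : (4 * (|C0| + 1) / ε) ^ 2 / c < l := lt_of_lt_of_le hn3 (by exact_mod_cast hl3)
    rw [div_lt_iff₀ hc] at h3
    have h4 : 4 * (|C0| + 1) / ε ≤ Real.sqrt (c * l) := by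
      apply Real.le_sqrt_of_sq_le
      linarith
    have h5 : 4 * (|C0| + 1) / ε ≤ sg l f := le_trans h4 hsg
    rw [div_le_iff₀ hε] at h5
    linarith
  have h3 : |sg n f - Real.sqrt 2 * sg l f| ≤ ε / 2 * sg l f := by
    rcases Nat.even_or_odd' n with ⟨k, hk | hk⟩
    · have : n = l + l := by omega
      rw [this]
      have : 0 ≤ ε / 4 * sg l f := by positivity
      linarith
    · have hn' : n = (l + l) + 1 := by omega
      rw [hn']
      have h4 := douba_one_sg (abs_nonneg C0) hC (l + l)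
      have h5 : |sg (l + l + 1) f - Real.sqrt 2 * sg l f| ≤
          |sg (l + l + 1) f - sg (l + l) f| + |sg (l + l) f - Real.sqrt 2 * sg l f| := by
        have := abs_add_le (sg (l + l + 1) f - sg (l + l) f) (sg (l + l) f - Real.sqrt 2 * sg l f)
        simpa using this
      linarith
  rw [Real.dist_eq]
  have h6 : sg n f / sg l f - Real.sqrt 2 = (sg n f - Real.sqrt 2 * sg l f) / sg l f := by
    field_simp
  rw [h6, abs_div, abs_of_pos hsgpos, div_lt_iff₀ hsgpos]
  have : ε / 2 * sg l f < ε * sg l f := by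
    have := mul_pos hε hsgpos
    linarith
  linarith

/-- bounded fourth moment ratio -/
theorem fourth_ratio {f : Wd → ℝ} (h : AlmostAdd f) : ∃ C : ℝ, ∀ᶠ n : ℕ in atTop,
    Ew n (fun x => (f x - Ew n f) ^ 4) ≤ C * (sg n f) ^ 4 := by
  obtain ⟨C0, hC0⟩ := h.one
  obtain ⟨c, hc, hvar⟩ := h.var
  obtain ⟨C4, hC4⟩ := h.four
  have hC : ∀ (x : Wd) (z : Ltr), |f (x ++ [z]) - f x| ≤ |C0| :=
    fun x z => le_trans (hC0 x z) (le_abs_self _)
  -- the ratio of the standard deviations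
  have hr := sg_half h
  have hsq3 : Real.sqrt (Real.sqrt 3) < Real.sqrt 2 := by
    apply Real.sqrt_lt_sqrt (Real.sqrt_nonneg _)
    rw [Real.sqrt_lt' (by norm_num)]; norm_num
  have hr' : ∀ᶠ n : ℕ in atTop, Real.sqrt (Real.sqrt 3) < sg n f / sg (n / 2) f :=
    hr.eventually (lt_mem_nhds hsq3)
  obtain ⟨n1, hn1⟩ := eventually_atTop.1 hr'
  obtain ⟨n2, hn2⟩ := eventually_atTop.1 hvar
  -- the recursion
  set K : ℝ := 10 + (68921 * (16 * |C4|)) * 2 / c ^ 2 + 68921 * (16 * |C0| ^ 4) / c ^ 2 with hK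
  have hKnn : 0 ≤ K := by positivity
  have hrec : ∀ n : ℕ, 2 * (n1 + n2 + 1) ≤ n →
      Ew n (fun x => dcen n f x ^ 4) / (sg n f) ^ 4 ≤
        (9 / 10) * (Ew (n / 2) (fun x => dcen (n / 2) f x ^ 4) / (sg (n / 2) f) ^ 4) + K := by
    intro n hn
    set l := n / 2 with hl
    have hl0 : 1 ≤ l := by omega
    have hlR : (1 : ℝ) ≤ l := by exact_mod_cast hl0
    have hV : c * l ≤ Vw l f := hn2 l (by omega)
    have hcl : 0 < c * l := by positivity
    have hsgpos : 0 < sg l f := lt_of_lt_of_le (Real.sqrt_pos.2 hcl) (Real.sqrt_le_sqrt hV)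
    have hsg4 : sg l f ^ 4 = Vw l f ^ 2 := by rw [← douba_sg_sq]; ring
    have hQ : 0 ≤ Ew l (fun x => dcen l f x ^ 4) := Ew_nonneg (fun x _ => by positivity)
    -- lower bound of the denominator
    have hden : 3 * sg l f ^ 4 ≤ sg n f ^ 4 := by
      have h1 := hn1 n (by omega)
      rw [← hl, lt_div_iff₀ hsgpos] at h1
      have h2 : (Real.sqrt (Real.sqrt 3) * sg l f) ^ 4 ≤ sg n f ^ 4 := by
        gcongr
      have h3 : (Real.sqrt (Real.sqrt 3)) ^ 4 = 3 := by
        have h4 : (Real.sqrt (Real.sqrt 3)) ^ 2 = Real.sqrt 3 := Real.sq_sqrt (Real.sqrt_nonneg _)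
        have h5 : (Real.sqrt 3) ^ 2 = 3 := Real.sq_sqrt (by norm_num)
        calc (Real.sqrt (Real.sqrt 3)) ^ 4 = ((Real.sqrt (Real.sqrt 3)) ^ 2) ^ 2 := by ring
          _ = 3 := by rw [h4, h5]
      rw [mul_pow, h3] at h2
      exact h2
    -- upper bound of the numerator
    have hnum : Ew n (fun x => dcen n f x ^ 4) ≤
        (27 / 10) * Ew l (fun x => dcen l f x ^ 4) + 3 * (K * sg l f ^ 4) := by
      have h1 := douba_four_step (l + l) f (dadd l f)
      rw [douba_dadd_four, douba_diff l 4 f] at h1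
      have h2 := hC4 l
      have h3 : C4 * (l : ℝ) ^ 2 ≤ |C4| / c ^ 2 * Vw l f ^ 2 := by
        have h4 : (c * l) ^ 2 ≤ Vw l f ^ 2 := by gcongr
        calc C4 * (l : ℝ) ^ 2 ≤ |C4| * (l : ℝ) ^ 2 := by
              gcongr; exact le_abs_self _
          _ = |C4| / c ^ 2 * (c * l) ^ 2 := by field_simp
          _ ≤ |C4| / c ^ 2 * Vw l f ^ 2 := by gcongr
      have h5 : |C0| ^ 4 ≤ |C0| ^ 4 / c ^ 2 * Vw l f ^ 2 := by
        have h4 : c ^ 2 ≤ Vw l f ^ 2 := by
          have : c ≤ Vw l f := le_trans (by nlinarith) hV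
          gcongr
        calc |C0| ^ 4 = |C0| ^ 4 / c ^ 2 * c ^ 2 := by field_simp
          _ ≤ _ := by gcongr
      have hV2 : 0 ≤ Vw l f ^ 2 := sq_nonneg _
      have h6 : Ew (l + l) (fun x => dcen (l + l) f x ^ 4) ≤
          (11 / 10) * (2 * Ew l (fun x => dcen l f x ^ 4) + 6 * Vw l f ^ 2) +
            68921 * (16 * (|C4| / c ^ 2 * Vw l f ^ 2)) := by linarith
      have h7 : Ew n (fun x => dcen n f x ^ 4) ≤
          (11 / 10) * Ew (l + l) (fun x => dcen (l + l) f x ^ 4) + 68921 * (16 * |C0| ^ 4) := by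
        rcases Nat.even_or_odd' n with ⟨k, hk | hk⟩
        · have : n = l + l := by omega
          rw [this]
          have h8 : 0 ≤ Ew (l + l) (fun x => dcen (l + l) f x ^ 4) :=
            Ew_nonneg (fun x _ => by positivity)
          have h9 : 0 ≤ 68921 * (16 * |C0| ^ 4) := by positivity
          linarith
        · have : n = (l + l) + 1 := by omega
          rw [this]
          exact douba_one_four hC (l + l)
      rw [hsg4, hK]
      have e1 : 3 * ((10 + (68921 * (16 * |C4|)) * 2 / c ^ 2 +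
          68921 * (16 * |C0| ^ 4) / c ^ 2) * Vw l f ^ 2) =
          30 * Vw l f ^ 2 + 6 * (68921 * (16 * (|C4| / c ^ 2 * Vw l f ^ 2))) +
            3 * (68921 * (16 * (|C0| ^ 4 / c ^ 2 * Vw l f ^ 2))) := by
        field_simp
        ring
      rw [e1]
      have h10 : 0 ≤ |C4| / c ^ 2 * Vw l f ^ 2 := by positivity
      have h11 : 0 ≤ |C0| ^ 4 / c ^ 2 * Vw l f ^ 2 := by positivity
      nlinarith
    have hs4 : 0 < sg l f ^ 4 := by positivity
    have hsn4 : 0 < sg n f ^ 4 := lt_of_lt_of_le (by positivity) hden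
    rw [div_le_iff₀ hsn4]
    have h12 : 0 ≤ (9 / 10) * (Ew l (fun x => dcen l f x ^ 4) / (sg l f) ^ 4) + K := by positivity
    calc Ew n (fun x => dcen n f x ^ 4)
        ≤ (27 / 10) * Ew l (fun x => dcen l f x ^ 4) + 3 * (K * sg l f ^ 4) := hnum
      _ = ((9 / 10) * (Ew l (fun x => dcen l f x ^ 4) / (sg l f) ^ 4) + K) *
            (3 * sg l f ^ 4) := by
          field_simp
          ring
      _ ≤ _ := by gcongr
  -- conclusion
  set n0 := n1 + n2 + 1 with hn0
  obtain ⟨B, hB⟩ : ∃ B : ℝ, ∀ m ∈ Finset.range (2 * n0),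
      Ew m (fun x => dcen m f x ^ 4) / (sg m f) ^ 4 ≤ B := by
    obtain ⟨B, hB⟩ := ((Finset.range (2 * n0)).image
      (fun m => Ew m (fun x => dcen m f x ^ 4) / (sg m f) ^ 4)).bddAbove
    exact ⟨B, fun m hm => hB (Finset.mem_coe.2 (Finset.mem_image_of_mem _ hm))⟩
  have hall : ∀ n : ℕ, Ew n (fun x => dcen n f x ^ 4) / (sg n f) ^ 4 ≤ max B (10 * K) := by
    intro n
    induction n using Nat.strong_induction_on with
    | _ n ih =>
      by_cases hn : n < 2 * n0
      · exact le_trans (hB n (Finset.mem_range.2 hn)) (le_max_left _ _)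
      · have h1 := hrec n (by omega)
        have h2 := ih (n / 2) (by omega)
        have h3 : K ≤ (1 / 10) * max B (10 * K) := by
          have := le_max_right B (10 * K)
          linarith
        linarith
  refine ⟨max B (10 * K), ?_⟩
  rw [eventually_atTop]
  refine ⟨n2 + 1, ?_⟩
  intro n hn
  have hV : c * n ≤ Vw n f := hn2 n (by omega)
  have hnR : (1 : ℝ) ≤ n := by exact_mod_cast (by omega : 1 ≤ n)
  have hcn : 0 < c * n := by positivity
  have hsgpos : 0 < sg n f := lt_of_lt_of_le (Real.sqrt_pos.2 hcn) (Real.sqrt_le_sqrt hV)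
  have h1 := hall n
  rw [div_le_iff₀ (by positivity)] at h1
  exact h1

end MeanderCLT
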