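import Pool.Agent.H98.M.DoubA

/-!
# Doubling of the characteristic function
-/

open Filter Topology

namespace MeanderCLT

/-! ### triple averages -/

/-- triple averages -/
noncomputable def doubb3 (l r : ℕ) (g : Wd → Wd → Wd → ℝ) : ℝ :=
  Ew l (fun x => Ew l (fun y => Ew r (fun w => g x y w)))

theorem doubb3_mono {l r : ℕ} {g h : Wd → Wd → Wd → ℝ}
    (H : ∀ x y w, x.length = l → y.length = l → w.length = r → g x y w ≤ h x y w) :
    doubb3 l r g ≤ doubb3 l r h :=
  Ew_mono fun x hx => Ew_mono fun y hy => Ew_mono fun w hw => H x y w hx hy hw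

theorem doubb3_add (l r : ℕ) (g h : Wd → Wd → Wd → ℝ) :
    doubb3 l r (fun x y w => g x y w + h x y w) = doubb3 l r g + doubb3 l r h := by
  unfold doubb3
  simp only [Ew_add]

theorem doubb3_sub (l r : ℕ) (g h : Wd → Wd → Wd → ℝ) :
    doubb3 l r (fun x y w => g x y w - h x y w) = doubb3 l r g - doubb3 l r h := by
  unfold doubb3
  simp only [Ew_sub]

theorem doubb3_mul (l r : ℕ) (c : ℝ) (g : Wd → Wd → Wd → ℝ) :
    doubb3 l r (fun x y w => c * g x y w) = c * doubb3 l r g := by
  unfold doubb3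
  simp only [Ew_mul_left]

theorem doubb3_const (l r : ℕ) (c : ℝ) : doubb3 l r (fun _ _ _ => c) = c := by
  unfold doubb3
  simp only [Ew_const]

theorem doubb3_x (l r : ℕ) (g : Wd → ℝ) : doubb3 l r (fun x _ _ => g x) = Ew l g := by
  unfold doubb3
  simp only [Ew_const]

theorem doubb3_y (l r : ℕ) (g : Wd → ℝ) : doubb3 l r (fun _ y _ => g y) = Ew l g := by
  unfold doubb3
  simp only [Ew_const]

theorem doubb3_xy (l r : ℕ) (g : Wd → Wd → ℝ) :
    doubb3 l r (fun x y _ => g x y) = Ew l (fun x => Ew l (fun y => g x y)) := by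
  unfold doubb3
  simp only [Ew_const]

theorem doubb3_nonneg {l r : ℕ} {g : Wd → Wd → Wd → ℝ} (h : ∀ x y w, 0 ≤ g x y w) :
    0 ≤ doubb3 l r g :=
  Ew_nonneg fun x _ => Ew_nonneg fun y _ => Ew_nonneg fun w _ => h x y w

theorem doubb3_abs_sub (l r : ℕ) (g : Wd → Wd → Wd → ℝ) :
    doubb3 l r (fun x y w => |g x y w - doubb3 l r g|) ≤
      2 * doubb3 l r (fun x y w => |g x y w|) := by
  have h1 : |doubb3 l r g| ≤ doubb3 l r (fun x y w => |g x y w|) := by
    rw [abs_le]
    constructor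
    · have h2 : doubb3 l r (fun x y w => (-1) * |g x y w|) ≤ doubb3 l r g :=
        doubb3_mono fun x y w _ _ _ => by linarith [neg_abs_le (g x y w)]
      rw [doubb3_mul] at h2
      linarith
    · exact doubb3_mono fun x y w _ _ _ => le_abs_self _
  have h2 : doubb3 l r (fun x y w => |g x y w - doubb3 l r g|) ≤
      doubb3 l r (fun x y w => |g x y w| + |doubb3 l r g|) :=
    doubb3_mono fun x y w _ _ _ => abs_sub _ _
  rw [doubb3_add, doubb3_const] at h2
  linarith

theorem doubb3_Ew (l r : ℕ) (g : Wd → ℝ) :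
    Ew (l + l + r) g = doubb3 l r (fun x y w => g (x ++ y ++ w)) := by
  unfold doubb3
  rw [Ew_append (l + l) r, Ew_append l l]

/-! ### complex averages -/

theorem doubb_EwC_mul_left (N : ℕ) (c : ℂ) (g : Wd → ℂ) :
    EwC N (fun x => c * g x) = c * EwC N g := by
  unfold EwC
  rw [← Finset.mul_sum, mul_div_assoc]

theorem doubb_EwC_mul_right (N : ℕ) (c : ℂ) (g : Wd → ℂ) :
    EwC N (fun x => g x * c) = EwC N g * c := by
  unfold EwC
  rw [← Finset.sum_mul, div_mul_eq_mul_div]

theorem doubb_EwC_const (N : ℕ) (c : ℂ) : EwC N (fun _ => c) = c := by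
  have h := EwC_ofReal N (fun _ => 1)
  rw [Ew_const] at h
  have h2 := doubb_EwC_mul_left N c (fun _ => ((1 : ℝ) : ℂ))
  rw [h] at h2
  simpa using h2

/-! ### one letter words -/

theorem doubb_Ew_zero (g : Wd → ℝ) : Ew 0 g = g [] := by
  unfold Ew
  simp

theorem doubb_Ew_one (g : Wd → ℝ) : Ew 1 g =
    (g [(true, true)] + g [(true, false)] + (g [(false, true)] + g [(false, false)])) / 4 := by
  unfold Ew
  rw [pow_one]
  congr 1
  have h1 : ∑ x : Fin 1 → Ltr, g (List.ofFn x) = ∑ z : Ltr, g [z] := by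
    refine Fintype.sum_equiv (Equiv.funUnique (Fin 1) Ltr) _ _ ?_
    intro x
    congr 1
  rw [h1, Fintype.sum_prod_type]
  simp only [Fintype.sum_bool]

theorem doubb_hh_append (s t : List Bool) : hh (s ++ t) = hh s + hh t := by
  unfold hh
  rw [ht_length_append]

theorem doubb_hh_true : hh [true] = 1 := by
  rw [hh_cons]
  rfl

theorem doubb_hh_false : hh [false] = -1 := by
  rw [hh_cons]
  rfl

theorem doubb_hh1 (N : ℕ) : Ew N (fun x => (hh (up x) : ℝ)) = 0 ∧
    Ew N (fun x => (hh (up x) : ℝ) ^ 2) = N := by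
  induction N with
  | zero =>
    rw [doubb_Ew_zero, doubb_Ew_zero]
    simp [hh, up, ht_nil]
  | succ N ih =>
    obtain ⟨h1, h2⟩ := ih
    have e : ∀ (x : Wd) (z : Ltr), (hh (up (x ++ [z])) : ℝ) = hh (up x) + hh [z.1] := by
      intro x z
      rw [up_append, doubb_hh_append]
      push_cast
      rfl
    constructor
    · rw [Ew_append N 1]
      have : ∀ x, Ew 1 (fun y => (hh (up (x ++ y)) : ℝ)) = hh (up x) := by
        intro x
        rw [doubb_Ew_one]
        simp only [e, doubb_hh_true, doubb_hh_false]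
        push_cast
        ring
      simp only [this]
      exact h1
    · rw [Ew_append N 1]
      have : ∀ x, Ew 1 (fun y => (hh (up (x ++ y)) : ℝ) ^ 2) = (hh (up x) : ℝ) ^ 2 + 1 := by
        intro x
        rw [doubb_Ew_one]
        simp only [e, doubb_hh_true, doubb_hh_false]
        push_cast
        ring
      simp only [this]
      rw [Ew_add, Ew_const, h2]
      push_cast
      ring

theorem doubb_abs_le (N : ℕ) (g : Wd → ℝ) :
    Ew N (fun x => |g x|) ≤ Real.sqrt (Ew N (fun x => g x ^ 2)) := by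
  apply Real.le_sqrt_of_sq_le
  have h := Ew_mul_sq_le N (fun x => |g x|) (fun _ => 1)
  simp only [mul_one, one_pow, sq_abs, Ew_const] at h
  exact h

theorem doubb_up (N : ℕ) : Ew N (fun x => |(hh (up x) : ℝ)|) ≤ Real.sqrt N := by
  have h := doubb_abs_le N (fun x => (hh (up x) : ℝ))
  rwa [(doubb_hh1 N).2] at h

theorem doubb_lo (N : ℕ) : Ew N (fun x => |(hh (lo x) : ℝ)|) ≤ Real.sqrt N := by
  have h := Ew_sw N (fun x => |(hh (lo x) : ℝ)|)
  rw [← h]
  simp only [lo_sw]
  exact doubb_up N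

theorem doubb_abs_hh (s : List Bool) : |(hh s : ℝ)| ≤ s.length := by
  have h1 := uc_add_uo_le s
  have h2 := hh_eq s
  have h3 : |hh s| ≤ (s.length : ℤ) := by
    rw [abs_le]
    constructor <;> omega
  exact_mod_cast h3

theorem doubb_exp_sub (u v : ℝ) :
    ‖Complex.exp (Complex.I * (u : ℂ)) - Complex.exp (Complex.I * (v : ℂ))‖ ≤ |u - v| := by
  have e : Complex.exp (Complex.I * (u : ℂ)) - Complex.exp (Complex.I * (v : ℂ)) =
      Complex.exp (Complex.I * (v : ℂ)) * (Complex.exp (Complex.I * ((u - v : ℝ) : ℂ)) - 1) := by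
    rw [mul_sub, mul_one, ← Complex.exp_add]
    congr 2
    push_cast
    ring
  rw [e, norm_mul, Complex.norm_exp_I_mul_ofReal, one_mul]
  exact Real.norm_exp_I_mul_ofReal_sub_one_le

/-- the bound for one pair of lengths -/
theorem doubb_key (f : Wd → ℝ) (l r : ℕ) (hr : r ≤ 1) (C : ℝ)
    (hC : ∀ x w : Wd, w.length = r → |f (x ++ w) - f x| ≤ C) (θ a b : ℝ) (hl : 0 < l)
    (hs : 0 < sg l f) (hsn : 0 < sg (l + l + r) f) :
    ‖Psi f (l + l + r) θ a b -
      (Psi f l (θ / Real.sqrt 2) (a / Real.sqrt 2) (b / Real.sqrt 2)) ^ 2‖ ≤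
    |θ| * (2 * (Ew l (fun x => Ew l (fun y => |f (x ++ y) - f x - f y|)) + C) /
        sg (l + l + r) f) +
      |θ| * (2 * |sg l f / sg (l + l + r) f - 1 / Real.sqrt 2|) +
      (|a| + |b|) * (1 / Real.sqrt (l + l + r : ℕ) +
        2 * |Real.sqrt l / Real.sqrt (l + l + r : ℕ) - 1 / Real.sqrt 2|) := by
  set n : ℕ := l + l + r with hn
  set σn := sg n f with hσn
  set σl := sg l f with hσl
  set μn := Ew n f with hμn
  set μl := Ew l f with hμl
  set u : Wd → ℝ := fun z => θ * (f z - μn) / σn +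
    (a * (hh (up z) : ℝ) + b * (hh (lo z) : ℝ)) / Real.sqrt n with hu
  set p : Wd → ℝ := fun x => θ / Real.sqrt 2 * (f x - μl) / σl +
    (a / Real.sqrt 2 * (hh (up x) : ℝ) + b / Real.sqrt 2 * (hh (lo x) : ℝ)) / Real.sqrt l with hp
  have hs2 : (0 : ℝ) < Real.sqrt 2 := Real.sqrt_pos.mpr (by norm_num)
  have hlr : (0 : ℝ) < Real.sqrt l := Real.sqrt_pos.mpr (by exact_mod_cast hl)
  have hnr : (0 : ℝ) < Real.sqrt n := Real.sqrt_pos.mpr (by
    have : 0 < n := by omega
    exact_mod_cast this)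
  -- the characteristic functions as triple averages
  have e1 : Psi f n θ a b = EwC l (fun x => EwC l (fun y => EwC r (fun w =>
      Complex.exp (Complex.I * (u (x ++ y ++ w) : ℂ))))) := by
    unfold Psi
    rw [hn, EwC_append (l + l) r, EwC_append l l]
  have e2 : (Psi f l (θ / Real.sqrt 2) (a / Real.sqrt 2) (b / Real.sqrt 2)) ^ 2 =
      EwC l (fun x => EwC l (fun y => EwC r (fun _ =>
        Complex.exp (Complex.I * ((p x + p y : ℝ) : ℂ))))) := by
    have e3 : ∀ x y, Complex.exp (Complex.I * ((p x + p y : ℝ) : ℂ)) =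
        Complex.exp (Complex.I * (p x : ℂ)) * Complex.exp (Complex.I * (p y : ℂ)) := by
      intro x y
      rw [← Complex.exp_add]
      congr 1
      push_cast
      ring
    simp only [e3, doubb_EwC_const, doubb_EwC_mul_left, doubb_EwC_mul_right]
    rw [pow_two]
    rfl
  have e4 : ‖Psi f n θ a b -
      (Psi f l (θ / Real.sqrt 2) (a / Real.sqrt 2) (b / Real.sqrt 2)) ^ 2‖ ≤
      doubb3 l r (fun x y w => |u (x ++ y ++ w) - (p x + p y)|) := by
    rw [e1, e2]
    simp only [← EwC_sub]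
    unfold doubb3
    refine (EwC_norm_le _ _).trans (Ew_mono fun x _ => ?_)
    refine (EwC_norm_le _ _).trans (Ew_mono fun y _ => ?_)
    refine (EwC_norm_le _ _).trans (Ew_mono fun w _ => ?_)
    exact doubb_exp_sub _ _
  refine e4.trans ?_
  -- the pointwise bound
  set m : ℝ := doubb3 l r (fun x y w => f (x ++ y ++ w) - f x - f y) with hm
  have hm' : m = μn - μl - μl := by
    rw [hm, doubb3_sub, doubb3_sub, doubb3_x, doubb3_y, ← doubb3_Ew]
  set K1 := |θ| / σn with hK1
  set K2 := |θ| * |1 / σn - 1 / (Real.sqrt 2 * σl)| with hK2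
  set K3 := (|a| + |b|) / Real.sqrt n with hK3
  set K4 := |1 / Real.sqrt n - 1 / (Real.sqrt 2 * Real.sqrt l)| with hK4
  have hpt : ∀ x y w : Wd, x.length = l → y.length = l → w.length = r →
      |u (x ++ y ++ w) - (p x + p y)| ≤
        K1 * |f (x ++ y ++ w) - f x - f y - m| + (K2 * |f x - μl| + K2 * |f y - μl|) + K3 +
        ((|a| * K4) * |(hh (up x) : ℝ)| + (|a| * K4) * |(hh (up y) : ℝ)| +
          ((|b| * K4) * |(hh (lo x) : ℝ)| + (|b| * K4) * |(hh (lo y) : ℝ)|)) := by
    intro x y w _ _ hw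
    have hup : (hh (up (x ++ y ++ w)) : ℝ) = hh (up x) + hh (up y) + hh (up w) := by
      rw [up_append, up_append, doubb_hh_append, doubb_hh_append]
      push_cast
      ring
    have hlo : (hh (lo (x ++ y ++ w)) : ℝ) = hh (lo x) + hh (lo y) + hh (lo w) := by
      rw [lo_append, lo_append, doubb_hh_append, doubb_hh_append]
      push_cast
      ring
    have hw1 : |(hh (up w) : ℝ)| ≤ 1 := by
      refine (doubb_abs_hh _).trans ?_
      rw [length_up, hw]
      exact_mod_cast hr
    have hw2 : |(hh (lo w) : ℝ)| ≤ 1 := by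
      refine (doubb_abs_hh _).trans ?_
      rw [length_lo, hw]
      exact_mod_cast hr
    have hdec : u (x ++ y ++ w) - (p x + p y) =
        θ / σn * (f (x ++ y ++ w) - f x - f y - m) +
        (θ * (1 / σn - 1 / (Real.sqrt 2 * σl))) * (f x - μl) +
        (θ * (1 / σn - 1 / (Real.sqrt 2 * σl))) * (f y - μl) +
        (a * hh (up w) + b * hh (lo w)) / Real.sqrt n +
        (a * (1 / Real.sqrt n - 1 / (Real.sqrt 2 * Real.sqrt l))) * hh (up x) +
        (a * (1 / Real.sqrt n - 1 / (Real.sqrt 2 * Real.sqrt l))) * hh (up y) +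
        (b * (1 / Real.sqrt n - 1 / (Real.sqrt 2 * Real.sqrt l))) * hh (lo x) +
        (b * (1 / Real.sqrt n - 1 / (Real.sqrt 2 * Real.sqrt l))) * hh (lo y) := by
      rw [hm', hu, hp]
      simp only [hup, hlo]
      field_simp
      ring
    have hK3' : |(a * hh (up w) + b * hh (lo w)) / Real.sqrt n| ≤ K3 := by
      rw [abs_div, abs_of_pos hnr, hK3]
      apply div_le_div_of_nonneg_right _ hnr.le
      refine (abs_add_le _ _).trans ?_
      rw [abs_mul, abs_mul]
      have h1 := mul_le_mul_of_nonneg_left hw1 (abs_nonneg a)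
      have h2 := mul_le_mul_of_nonneg_left hw2 (abs_nonneg b)
      linarith
    rw [hdec]
    have t1 : |θ / σn * (f (x ++ y ++ w) - f x - f y - m)| =
        K1 * |f (x ++ y ++ w) - f x - f y - m| := by
      rw [abs_mul, abs_div, abs_of_pos hsn]
    have t2 : ∀ z : ℝ, |(θ * (1 / σn - 1 / (Real.sqrt 2 * σl))) * z| = K2 * |z| := by
      intro z
      rw [abs_mul, abs_mul]
    have t3 : ∀ c z : ℝ, |(c * (1 / Real.sqrt n - 1 / (Real.sqrt 2 * Real.sqrt l))) * z| =
        (|c| * K4) * |z| := by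
      intro c z
      rw [abs_mul, abs_mul]
    refine (abs_add_le _ _).trans ?_
    rw [t3]
    refine (add_le_add_left (abs_add_le _ _) _).trans ?_
    rw [t3]
    refine (add_le_add_left (add_le_add_left (abs_add_le _ _) _) _).trans ?_
    rw [t3]
    refine (add_le_add_left (add_le_add_left (add_le_add_left (abs_add_le _ _) _) _) _).trans ?_
    rw [t3]
    refine (add_le_add_left (add_le_add_left (add_le_add_left (add_le_add_left
      (abs_add_le _ _) _) _) _) _).trans ?_
    refine (add_le_add_left (add_le_add_left (add_le_add_left (add_le_add_left (add_le_add_left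
      (abs_add_le _ _) _) _) _) _) _).trans ?_
    rw [t2]
    refine (add_le_add_left (add_le_add_left (add_le_add_left (add_le_add_left (add_le_add_left
      (add_le_add_left (abs_add_le _ _) _) _) _) _) _) _).trans ?_
    rw [t2, t1]
    linarith
  refine (doubb3_mono hpt).trans ?_
  rw [doubb3_add, doubb3_add, doubb3_add, doubb3_add, doubb3_mul, doubb3_mul, doubb3_mul,
    doubb3_const, doubb3_add, doubb3_add, doubb3_add, doubb3_mul, doubb3_mul, doubb3_mul,
    doubb3_mul]
  rw [doubb3_x l r (fun x => |f x - μl|), doubb3_y l r (fun x => |f x - μl|),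
    doubb3_x l r (fun x => |(hh (up x) : ℝ)|), doubb3_y l r (fun x => |(hh (up x) : ℝ)|),
    doubb3_x l r (fun x => |(hh (lo x) : ℝ)|), doubb3_y l r (fun x => |(hh (lo x) : ℝ)|)]
  have q1 : doubb3 l r (fun x y w => |f (x ++ y ++ w) - f x - f y - m|) ≤
      2 * (Ew l (fun x => Ew l (fun y => |f (x ++ y) - f x - f y|)) + C) := by
    refine (doubb3_abs_sub l r _).trans ?_
    have h1 : doubb3 l r (fun x y w => |f (x ++ y ++ w) - f x - f y|) ≤
        doubb3 l r (fun x y _ => |f (x ++ y) - f x - f y| + C) := by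
      refine doubb3_mono fun x y w _ _ hw => ?_
      have h2 : f (x ++ y ++ w) - f x - f y =
          (f (x ++ y) - f x - f y) + (f (x ++ y ++ w) - f (x ++ y)) := by ring
      rw [h2]
      exact (abs_add_le _ _).trans (by linarith [hC (x ++ y) w hw])
    rw [doubb3_xy l r (fun x y => |f (x ++ y) - f x - f y| + C)] at h1
    simp only [Ew_add, Ew_const] at h1
    linarith
  have q2 : Ew l (fun x => |f x - μl|) ≤ σl := doubb_abs_le l (fun x => f x - μl)
  have q3 := doubb_up l
  have q4 := doubb_lo l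
  have hK1' : 0 ≤ K1 := by positivity
  have hK2' : 0 ≤ K2 := by positivity
  have hK4' : 0 ≤ K4 := abs_nonneg _
  have r1 : K1 * (2 * (Ew l (fun x => Ew l (fun y => |f (x ++ y) - f x - f y|)) + C)) =
      |θ| * (2 * (Ew l (fun x => Ew l (fun y => |f (x ++ y) - f x - f y|)) + C) / σn) := by
    rw [hK1]
    ring
  have r2 : K2 * σl = |θ| * |σl / σn - 1 / Real.sqrt 2| := by
    rw [hK2, mul_assoc]
    congr 1
    rw [← abs_of_pos hs, ← abs_mul, abs_of_pos hs]
    congr 1
    field_simp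
  have r4 : K4 * Real.sqrt l = |Real.sqrt l / Real.sqrt n - 1 / Real.sqrt 2| := by
    rw [hK4]
    rw [← abs_of_pos hlr, ← abs_mul, abs_of_pos hlr]
    congr 1
    field_simp
  have s1 := mul_le_mul_of_nonneg_left q1 hK1'
  have s2 := mul_le_mul_of_nonneg_left q2 hK2'
  have s3 : |a| * K4 * Ew l (fun x => |(hh (up x) : ℝ)|) ≤ |a| * K4 * Real.sqrt l :=
    mul_le_mul_of_nonneg_left q3 (mul_nonneg (abs_nonneg _) hK4')
  have s4 : |b| * K4 * Ew l (fun x => |(hh (lo x) : ℝ)|) ≤ |b| * K4 * Real.sqrt l :=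
    mul_le_mul_of_nonneg_left q4 (mul_nonneg (abs_nonneg _) hK4')
  have s3' : |a| * K4 * Real.sqrt l = |a| * |Real.sqrt l / Real.sqrt n - 1 / Real.sqrt 2| := by
    rw [mul_assoc, r4]
  have s4' : |b| * K4 * Real.sqrt l = |b| * |Real.sqrt l / Real.sqrt n - 1 / Real.sqrt 2| := by
    rw [mul_assoc, r4]
  have s5 : K3 = (|a| + |b|) * (1 / Real.sqrt n) := by rw [hK3]; ring
  rw [r1] at s1
  rw [r2] at s2
  rw [s3'] at s3
  rw [s4'] at s4
  rw [s5]
  linarith

/-! ### limits -/

theorem doubb_lim_one {f : Wd → ℝ} (h : AlmostAdd f) :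
    Tendsto (fun n : ℕ => Ew n (fun x => Ew n (fun y => |f (x ++ y) - f x - f y|)) / Real.sqrt n)
      atTop (𝓝 0) := by
  rw [Metric.tendsto_atTop]
  intro ε hε
  have h2 := h.two ((ε / 2) ^ 2) (by positivity)
  rw [eventually_atTop] at h2
  obtain ⟨N, hN⟩ := h2
  refine ⟨max N 1, fun n hn => ?_⟩
  have hn1 : 1 ≤ n := (le_max_right _ _).trans hn
  have hb := hN n ((le_max_left _ _).trans hn)
  have hnr : (0 : ℝ) < Real.sqrt n := Real.sqrt_pos.mpr (by exact_mod_cast hn1)
  have hsq : Real.sqrt n ^ 2 = n := Real.sq_sqrt (Nat.cast_nonneg _)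
  set s : ℝ := ε / 2 * Real.sqrt n with hs
  have hs0 : 0 < s := by positivity
  have hle : Ew n (fun x => Ew n (fun y => |f (x ++ y) - f x - f y|)) ≤ s := by
    have h1 : Ew n (fun x => Ew n (fun y => |f (x ++ y) - f x - f y|)) ≤
        Ew n (fun x => Ew n (fun y => s / 2 + 1 / (2 * s) * (f (x ++ y) - f x - f y) ^ 2)) := by
      refine Ew_mono fun x _ => Ew_mono fun y _ => ?_
      have : s / 2 + 1 / (2 * s) * (f (x ++ y) - f x - f y) ^ 2 -
          |f (x ++ y) - f x - f y| = (|f (x ++ y) - f x - f y| - s) ^ 2 / (2 * s) := by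
        rw [← sq_abs (f (x ++ y) - f x - f y)]
        field_simp
        ring
      have h3 : 0 ≤ (|f (x ++ y) - f x - f y| - s) ^ 2 / (2 * s) := by positivity
      linarith
    simp only [Ew_add, Ew_const, Ew_mul_left] at h1
    have h4 : 1 / (2 * s) * Ew n (fun x => Ew n (fun y => (f (x ++ y) - f x - f y) ^ 2)) ≤
        1 / (2 * s) * ((ε / 2) ^ 2 * n) := mul_le_mul_of_nonneg_left hb (by positivity)
    have h5 : 1 / (2 * s) * ((ε / 2) ^ 2 * n) = s / 2 := by
      rw [← hsq, hs]
      field_simp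
    linarith
  have hnn : 0 ≤ Ew n (fun x => Ew n (fun y => |f (x ++ y) - f x - f y|)) :=
    Ew_nonneg fun x _ => Ew_nonneg fun y _ => abs_nonneg _
  rw [Real.dist_eq, sub_zero, abs_of_nonneg (by positivity)]
  calc Ew n (fun x => Ew n (fun y => |f (x ++ y) - f x - f y|)) / Real.sqrt n
      ≤ s / Real.sqrt n := div_le_div_of_nonneg_right hle hnr.le
    _ = ε / 2 := by rw [hs]; field_simp
    _ < ε := by linarith

theorem doubb_half_tendsto : Tendsto (fun n : ℕ => n / 2) atTop atTop :=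
  Nat.tendsto_div_const_atTop (by norm_num)

theorem doubb_lim_half :
    Tendsto (fun n : ℕ => Real.sqrt ((n / 2 : ℕ) : ℝ) / Real.sqrt n) atTop
      (𝓝 (1 / Real.sqrt 2)) := by
  have h1 : Tendsto (fun n : ℕ => ((n / 2 : ℕ) : ℝ) / n) atTop (𝓝 (1 / 2)) := by
    have h2 : Tendsto (fun n : ℕ => (1 / 2 : ℝ) - 1 / n) atTop (𝓝 (1 / 2 - 0)) :=
      tendsto_const_nhds.sub tendsto_one_div_atTop_nhds_zero_nat
    rw [sub_zero] at h2
    refine tendsto_of_tendsto_of_tendsto_of_le_of_le' h2 tendsto_const_nhds ?_ ?_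
    · filter_upwards [eventually_ge_atTop 1] with n hn
      have hn0 : (0 : ℝ) < n := by exact_mod_cast hn
      have h3 : n ≤ 2 * (n / 2) + 1 := by omega
      have h4 : (n : ℝ) ≤ 2 * ((n / 2 : ℕ) : ℝ) + 1 := by exact_mod_cast h3
      rw [le_div_iff₀ hn0, sub_mul, one_div_mul_cancel hn0.ne']
      linarith
    · filter_upwards [eventually_ge_atTop 1] with n hn
      have hn0 : (0 : ℝ) < n := by exact_mod_cast hn
      have h3 : 2 * (n / 2) ≤ n := by omega
      have h4 : 2 * ((n / 2 : ℕ) : ℝ) ≤ n := by exact_mod_cast h3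
      rw [div_le_iff₀ hn0]
      linarith
  have h2 := (Real.continuous_sqrt.tendsto (1 / 2)).comp h1
  have h3 : Real.sqrt (1 / 2) = 1 / Real.sqrt 2 := by
    rw [Real.sqrt_div (by norm_num), Real.sqrt_one]
  rw [h3] at h2
  refine h2.congr fun n => ?_
  simp only [Function.comp_apply]
  rw [Real.sqrt_div (Nat.cast_nonneg _)]

/-- doubling of the characteristic function -/
theorem Psi_double {f : Wd → ℝ} (h : AlmostAdd f) (θ a b : ℝ) :
    Tendsto (fun n : ℕ => Psi f n θ a b -
      (Psi f (n / 2) (θ / Real.sqrt 2) (a / Real.sqrt 2) (b / Real.sqrt 2)) ^ 2) atTop (𝓝 0) := by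
  obtain ⟨C, hC⟩ := h.one
  obtain ⟨c, hc, hvar⟩ := h.var
  have hC0 : 0 ≤ |C| := abs_nonneg C
  -- lower bound for `sg`
  have hsg : ∀ᶠ n : ℕ in atTop, Real.sqrt c * Real.sqrt n ≤ sg n f := by
    filter_upwards [hvar] with n hn
    rw [← Real.sqrt_mul hc.le]
    exact Real.sqrt_le_sqrt hn
  have hsc : 0 < Real.sqrt c := Real.sqrt_pos.mpr hc
  have hsqrt_top : Tendsto (fun n : ℕ => Real.sqrt n) atTop atTop :=
    Real.tendsto_sqrt_atTop.comp tendsto_natCast_atTop_atTop
  have hinv : Tendsto (fun n : ℕ => 1 / Real.sqrt n) atTop (𝓝 0) := by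
    refine hsqrt_top.inv_tendsto_atTop.congr fun n => ?_
    rw [Pi.inv_apply, one_div]
  have hsg_pos : ∀ᶠ n : ℕ in atTop, 0 < sg n f := by
    filter_upwards [hsg, eventually_ge_atTop 1] with n hn hn1
    refine lt_of_lt_of_le ?_ hn
    exact mul_pos hsc (Real.sqrt_pos.mpr (by exact_mod_cast hn1))
  have hsg_half_pos : ∀ᶠ n : ℕ in atTop, 0 < sg (n / 2) f := doubb_half_tendsto.eventually hsg_pos
  -- the sequences
  set ED : ℕ → ℝ := fun l => Ew l (fun x => Ew l (fun y => |f (x ++ y) - f x - f y|)) with hED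
  have hED0 : ∀ l, 0 ≤ ED l := fun l =>
    Ew_nonneg fun x _ => Ew_nonneg fun y _ => abs_nonneg _
  have L1 : Tendsto (fun n : ℕ => 2 * (ED (n / 2) + |C|) / sg n f) atTop (𝓝 0) := by
    have g1 := (doubb_lim_one h).comp doubb_half_tendsto
    have g2 : Tendsto (fun n : ℕ => (2 / Real.sqrt c) * (ED (n / 2) / Real.sqrt ((n / 2 : ℕ) : ℝ)) +
        (2 * |C| / Real.sqrt c) * (1 / Real.sqrt n)) atTop (𝓝 0) := by
      have := (g1.const_mul (2 / Real.sqrt c)).add (hinv.const_mul (2 * |C| / Real.sqrt c))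
      simpa using this
    refine squeeze_zero' ?_ ?_ g2
    · filter_upwards [hsg_pos] with n hn
      have := hED0 (n / 2)
      positivity
    · filter_upwards [hsg, hsg_pos, eventually_ge_atTop 2] with n h1 h2 h3
      have hn0 : (0 : ℝ) < Real.sqrt n := Real.sqrt_pos.mpr (by
        have : 0 < n := by omega
        exact_mod_cast this)
      have hl0 : (0 : ℝ) < Real.sqrt ((n / 2 : ℕ) : ℝ) := Real.sqrt_pos.mpr (by
        have : 0 < n / 2 := by omega
        exact_mod_cast this)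
      have hln : Real.sqrt ((n / 2 : ℕ) : ℝ) ≤ Real.sqrt n := by
        apply Real.sqrt_le_sqrt
        exact_mod_cast Nat.div_le_self n 2
      have a0 := hED0 (n / 2)
      have a1 : ED (n / 2) / sg n f ≤ (1 / Real.sqrt c) * (ED (n / 2) / Real.sqrt ((n / 2 : ℕ) : ℝ)) := by
        have : (1 / Real.sqrt c) * (ED (n / 2) / Real.sqrt ((n / 2 : ℕ) : ℝ)) =
            ED (n / 2) / (Real.sqrt c * Real.sqrt ((n / 2 : ℕ) : ℝ)) := by
          field_simp
        rw [this]
        apply div_le_div_of_nonneg_left a0 (by positivity)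
        exact (mul_le_mul_of_nonneg_left hln hsc.le).trans h1
      have a2 : |C| / sg n f ≤ (|C| / Real.sqrt c) * (1 / Real.sqrt n) := by
        have : (|C| / Real.sqrt c) * (1 / Real.sqrt n) = |C| / (Real.sqrt c * Real.sqrt n) := by
          field_simp
        rw [this]
        exact div_le_div_of_nonneg_left hC0 (by positivity) h1
      have a3 : 2 * (ED (n / 2) + |C|) / sg n f = 2 * (ED (n / 2) / sg n f) + 2 * (|C| / sg n f) := by
        ring
      rw [a3]
      have a4 : (2 / Real.sqrt c) * (ED (n / 2) / Real.sqrt ((n / 2 : ℕ) : ℝ)) +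
        (2 * |C| / Real.sqrt c) * (1 / Real.sqrt n) =
        2 * ((1 / Real.sqrt c) * (ED (n / 2) / Real.sqrt ((n / 2 : ℕ) : ℝ))) +
          2 * ((|C| / Real.sqrt c) * (1 / Real.sqrt n)) := by ring
      rw [a4]
      linarith
  have L2 : Tendsto (fun n : ℕ => 2 * |sg (n / 2) f / sg n f - 1 / Real.sqrt 2|) atTop (𝓝 0) := by
    have g1 := (sg_half h).inv₀ (Real.sqrt_pos.mpr (by norm_num)).ne'
    have g2 : Tendsto (fun n : ℕ => sg (n / 2) f / sg n f - 1 / Real.sqrt 2) atTop (𝓝 0) := by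
      have g3 : Tendsto (fun n : ℕ => sg (n / 2) f / sg n f) atTop (𝓝 (1 / Real.sqrt 2)) := by
        rw [one_div]
        refine g1.congr fun n => ?_
        simp only [inv_div]
      have := g3.sub (tendsto_const_nhds (x := 1 / Real.sqrt 2))
      rwa [sub_self] at this
    have := g2.abs.const_mul 2
    simpa using this
  have L3 : Tendsto (fun n : ℕ => 1 / Real.sqrt n +
      2 * |Real.sqrt ((n / 2 : ℕ) : ℝ) / Real.sqrt n - 1 / Real.sqrt 2|) atTop (𝓝 0) := by
    have g1 := doubb_lim_half.sub (tendsto_const_nhds (x := 1 / Real.sqrt 2))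
    rw [sub_self] at g1
    have := hinv.add (g1.abs.const_mul 2)
    simpa using this
  have L : Tendsto (fun n : ℕ => |θ| * (2 * (ED (n / 2) + |C|) / sg n f) +
      |θ| * (2 * |sg (n / 2) f / sg n f - 1 / Real.sqrt 2|) +
      (|a| + |b|) * (1 / Real.sqrt n +
        2 * |Real.sqrt ((n / 2 : ℕ) : ℝ) / Real.sqrt n - 1 / Real.sqrt 2|)) atTop (𝓝 0) := by
    have := ((L1.const_mul |θ|).add (L2.const_mul |θ|)).add (L3.const_mul (|a| + |b|))
    simpa using this
  refine squeeze_zero_norm' ?_ L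
  filter_upwards [hsg_pos, hsg_half_pos, eventually_ge_atTop 2] with n h1 h2 h3
  have hn : n / 2 + n / 2 + n % 2 = n := by omega
  have hCC : ∀ x w : Wd, w.length = n % 2 → |f (x ++ w) - f x| ≤ |C| := by
    intro x w hw
    rcases Nat.mod_two_eq_zero_or_one n with h0 | h0
    · rw [h0] at hw
      rw [List.length_eq_zero_iff.mp hw, List.append_nil, sub_self, abs_zero]
      exact hC0
    · rw [h0] at hw
      obtain ⟨z, rfl⟩ := List.length_eq_one_iff.mp hw
      exact (hC x z).trans (le_abs_self C)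
  have key := doubb_key f (n / 2) (n % 2) (by omega) |C| hCC θ a b (by omega) h2
    (by rw [hn]; exact h1)
  rw [hn] at key
  exact key

end MeanderCLT
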