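import Pool.Agent.H98.M.Defs

/-!
# The two ends lemma and the bound on bad points (abstract)
-/

namespace MeanderCLT

variable {P : Type*}

theorem Ends_aux : ∀ (n : ℕ) {U V : P → P → Prop} (_ : IsMat U) (_ : IsMat V) (A : Finset P)
    (_ : A.card = n)
    (_ : ∀ x ∈ A, ∀ y, U x y → y ∈ A) (_ : ∀ x ∈ A, ∀ y, V x y → y ∈ A) {i : P} (_ : i ∈ A)
    (_ : ∀ y, ¬ U i y),
    (∃ S ⊆ A, ∃ i' ∈ S, i ∈ S ∧ i' ≠ i ∧ (∀ y, ¬ U i' y) ∧
      (∀ x ∈ S, x ≠ i → x ≠ i' → ∃ y ∈ S, U x y) ∧ (∀ x ∈ S, ∃ y ∈ S, V x y)) ∨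
    (∃ S ⊆ A, ∃ j ∈ S, i ∈ S ∧ (∀ y, ¬ V j y) ∧
      (∀ x ∈ S, x ≠ i → ∃ y ∈ S, U x y) ∧ (∀ x ∈ S, x ≠ j → ∃ y ∈ S, V x y)) := by
  classical
  intro n
  induction n with
  | zero =>
    intro U V _ _ A hA _ _ i hi _
    rw [Finset.card_eq_zero] at hA
    rw [hA] at hi
    exact absurd hi (Finset.notMem_empty i)
  | succ n ih =>
    intro U V hU hV A hA hUA hVA i hi hfree
    by_cases hVi : ∀ y, ¬ V i y
    · right
      refine ⟨{i}, Finset.singleton_subset_iff.2 hi, i, Finset.mem_singleton_self i,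
        Finset.mem_singleton_self i, hVi, ?_, ?_⟩
      · intro x hx hxi
        exact absurd (Finset.mem_singleton.1 hx) hxi
      · intro x hx hxi
        exact absurd (Finset.mem_singleton.1 hx) hxi
    · push Not at hVi
      obtain ⟨i', hi'⟩ := hVi
      have hne : i' ≠ i := by
        rintro rfl
        exact hV.irrefl _ hi'
      let V' : P → P → Prop := fun x y => V x y ∧ x ≠ i ∧ y ≠ i
      have hV' : IsMat V' :=
        { symm := fun h => ⟨hV.symm h.1, h.2.2, h.2.1⟩
          func := fun h1 h2 => hV.func h1.1 h2.1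
          irrefl := fun x h => hV.irrefl x h.1 }
      have hi'A : i' ∈ A := hVA i hi i' hi'
      have hi'A' : i' ∈ A.erase i := Finset.mem_erase.2 ⟨hne, hi'A⟩
      have hcard : (A.erase i).card = n := by
        rw [Finset.card_erase_of_mem hi, hA]
        rfl
      have hUA' : ∀ x ∈ A.erase i, ∀ y, U x y → y ∈ A.erase i := by
        intro x hx y hxy
        refine Finset.mem_erase.2 ⟨?_, hUA x (Finset.mem_of_mem_erase hx) y hxy⟩
        rintro rfl
        exact hfree x (hU.symm hxy)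
      have hVA' : ∀ x ∈ A.erase i, ∀ y, V' x y → y ∈ A.erase i := by
        intro x hx y hxy
        exact Finset.mem_erase.2 ⟨hxy.2.2, hVA x (Finset.mem_of_mem_erase hx) y hxy.1⟩
      have hfree' : ∀ y, ¬ V' i' y := by
        intro y hy
        exact hy.2.2 (hV.func hy.1 (hV.symm hi'))
      rcases ih hV' hU (A.erase i) hcard hVA' hUA' hi'A' hfree' with
        ⟨S, hSA, i2, hi2S, hi'S, hi2ne, hi2free, hS1, hS2⟩ |
        ⟨S, hSA, j, hjS, hi'S, hjfree, hS1, hS2⟩
      · right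
        have hiS : ∀ x ∈ S, x ≠ i := fun x hx => Finset.ne_of_mem_erase (hSA hx)
        refine ⟨insert i S, ?_, i2, Finset.mem_insert_of_mem hi2S, Finset.mem_insert_self i S,
          ?_, ?_, ?_⟩
        · intro x hx
          rcases Finset.mem_insert.1 hx with rfl | hx
          · exact hi
          · exact Finset.mem_of_mem_erase (hSA hx)
        · intro y hy
          by_cases hyi : y = i
          · rw [hyi] at hy
            exact hi2ne (hV.func (hV.symm hy) hi')
          · exact hi2free y ⟨hy, hiS _ hi2S, hyi⟩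
        · intro x hx hxi
          rcases Finset.mem_insert.1 hx with rfl | hx
          · exact absurd rfl hxi
          · obtain ⟨y, hy, hxy⟩ := hS2 x hx
            exact ⟨y, Finset.mem_insert_of_mem hy, hxy⟩
        · intro x hx hxj
          rcases Finset.mem_insert.1 hx with rfl | hx
          · exact ⟨i', Finset.mem_insert_of_mem hi'S, hi'⟩
          · by_cases hxi' : x = i'
            · rw [hxi']
              exact ⟨i, Finset.mem_insert_self i S, hV.symm hi'⟩
            · obtain ⟨y, hy, hxy⟩ := hS1 x hx hxi' hxj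
              exact ⟨y, Finset.mem_insert_of_mem hy, hxy.1⟩
      · left
        have hiS : ∀ x ∈ S, x ≠ i := fun x hx => Finset.ne_of_mem_erase (hSA hx)
        refine ⟨insert i S, ?_, j, Finset.mem_insert_of_mem hjS, Finset.mem_insert_self i S,
          hiS j hjS, hjfree, ?_, ?_⟩
        · intro x hx
          rcases Finset.mem_insert.1 hx with rfl | hx
          · exact hi
          · exact Finset.mem_of_mem_erase (hSA hx)
        · intro x hx hxi hxj
          rcases Finset.mem_insert.1 hx with rfl | hx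
          · exact absurd rfl hxi
          · obtain ⟨y, hy, hxy⟩ := hS2 x hx hxj
            exact ⟨y, Finset.mem_insert_of_mem hy, hxy⟩
        · intro x hx
          rcases Finset.mem_insert.1 hx with rfl | hx
          · exact ⟨i', Finset.mem_insert_of_mem hi'S, hi'⟩
          · by_cases hxi' : x = i'
            · rw [hxi']
              exact ⟨i, Finset.mem_insert_self i S, hV.symm hi'⟩
            · obtain ⟨y, hy, hxy⟩ := hS1 x hx hxi'
              exact ⟨y, Finset.mem_insert_of_mem hy, hxy.1⟩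

/-- the strand of a `U`-free point `i` ends either at another `U`-free point or at a `V`-free point -/
theorem two_ends {U V : P → P → Prop} (hU : IsMat U) (hV : IsMat V) (A : Finset P)
    (hUA : ∀ x ∈ A, ∀ y, U x y → y ∈ A) (hVA : ∀ x ∈ A, ∀ y, V x y → y ∈ A) {i : P} (hi : i ∈ A)
    (hfree : ∀ y, ¬ U i y) :
    (∃ S ⊆ A, ∃ i' ∈ S, i ∈ S ∧ i' ≠ i ∧ (∀ y, ¬ U i' y) ∧
      (∀ x ∈ S, x ≠ i → x ≠ i' → ∃ y ∈ S, U x y) ∧ (∀ x ∈ S, ∃ y ∈ S, V x y)) ∨
    (∃ S ⊆ A, ∃ j ∈ S, i ∈ S ∧ (∀ y, ¬ V j y) ∧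
      (∀ x ∈ S, x ≠ i → ∃ y ∈ S, U x y) ∧ (∀ x ∈ S, x ≠ j → ∃ y ∈ S, V x y)) :=
  Ends_aux A.card hU hV A rfl hUA hVA hi hfree

/-- a set perfectly matched by a matching has even cardinality -/
theorem Ends_even {R : P → P → Prop} (hR : IsMat R) (T : Finset P)
    (h : ∀ x ∈ T, ∃ y ∈ T, R x y) : Even T.card := by
  classical
  choose! g hg hRg using h
  have : ((T.card : ℕ) : ZMod 2) = 0 := by
    have h1 : ∑ _x ∈ T, (1 : ZMod 2) = 0 := by
      refine Finset.sum_involution (fun a _ => g a) ?_ ?_ ?_ ?_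
      · intro a _
        decide
      · intro a ha _ hga
        have h2 := hRg a ha
        rw [hga] at h2
        exact hR.irrefl a h2
      · intro a ha
        exact hg a ha
      · intro a ha
        exact hR.func (hRg (g a) (hg a ha)) (hR.symm (hRg a ha))
    rw [Finset.sum_const, nsmul_eq_mul, mul_one] at h1
    exact h1
  exact (ZMod.natCast_eq_zero_iff_even).1 this

open Classical in
/-- the number of bad `U`-free points is at most the number of `V`-free points -/
theorem card_bad_le {U V : P → P → Prop} (hU : IsMat U) (hV : IsMat V) (A : Finset P)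
    (hUA : ∀ x ∈ A, ∀ y, U x y → y ∈ A) (hVA : ∀ x ∈ A, ∀ y, V x y → y ∈ A) :
    (A.filter (fun i => (∀ y, ¬ U i y) ∧ ¬ ∃ S : Finset P, i ∈ S ∧ S ⊆ A ∧
      (∀ y ∈ S, ∀ z, U y z → z ∈ S) ∧ (∀ y ∈ S, ∃ z ∈ S, V y z))).card ≤
    (A.filter (fun j => ∀ y, ¬ V j y)).card := by
  set B := A.filter (fun i => (∀ y, ¬ U i y) ∧ ¬ ∃ S : Finset P, i ∈ S ∧ S ⊆ A ∧
      (∀ y ∈ S, ∀ z, U y z → z ∈ S) ∧ (∀ y ∈ S, ∃ z ∈ S, V y z)) with hB
  have key : ∀ i ∈ B, ∃ S ⊆ A, ∃ j ∈ S, i ∈ S ∧ (∀ y, ¬ V j y) ∧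
      (∀ x ∈ S, x ≠ i → ∃ y ∈ S, U x y) ∧ (∀ x ∈ S, x ≠ j → ∃ y ∈ S, V x y) := by
    intro i hiB
    rw [hB, Finset.mem_filter] at hiB
    obtain ⟨hiA, hfree, hbad⟩ := hiB
    rcases two_ends hU hV A hUA hVA hiA hfree with
      ⟨S, hSA, i', hi'S, hiS, hne, hi'free, hS1, hS2⟩ | h
    · exfalso
      refine hbad ⟨S, hiS, hSA, ?_, hS2⟩
      intro y hy z hyz
      by_cases h1 : y = i
      · rw [h1] at hyz
        exact absurd hyz (hfree z)
      · by_cases h2 : y = i'
        · rw [h2] at hyz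
          exact absurd hyz (hi'free z)
        · obtain ⟨w, hw, hyw⟩ := hS1 y hy h1 h2
          rw [hU.func hyz hyw]
          exact hw
    · exact h
  choose! S hSA j hjS hiS hjfree hS1 hS2 using key
  have hBfree : ∀ i ∈ B, ∀ y, ¬ U i y := by
    intro i hiB
    rw [hB, Finset.mem_filter] at hiB
    exact hiB.2.1
  refine Finset.card_le_card_of_injOn j ?_ ?_
  · intro i hiB
    exact Finset.mem_coe.2 (Finset.mem_filter.2 ⟨hSA i hiB (hjS i hiB), hjfree i hiB⟩)
  · intro a haB b hbB hab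
    have haB' : a ∈ B := Finset.mem_coe.1 haB
    have hbB' : b ∈ B := Finset.mem_coe.1 hbB
    by_contra hne
    have ha2 : a ∉ S b := by
      intro h
      obtain ⟨y, _, hy⟩ := hS1 b hbB' a h hne
      exact hBfree a haB' y hy
    have hb2 : b ∉ S a := by
      intro h
      obtain ⟨y, _, hy⟩ := hS1 a haB' b h (fun h => hne h.symm)
      exact hBfree b hbB' y hy
    set T := S a ∩ S b with hT
    have hjT : j a ∈ T := Finset.mem_inter.2 ⟨hjS a haB', by rw [hab]; exact hjS b hbB'⟩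
    have e1 : Even T.card := by
      refine Ends_even hU T ?_
      intro x hx
      obtain ⟨hxa, hxb⟩ := Finset.mem_inter.1 hx
      obtain ⟨y, hy, hxy⟩ := hS1 a haB' x hxa (by rintro rfl; exact ha2 hxb)
      obtain ⟨z, hz, hxz⟩ := hS1 b hbB' x hxb (by rintro rfl; exact hb2 hxa)
      rw [← hU.func hxy hxz] at hz
      exact ⟨y, Finset.mem_inter.2 ⟨hy, hz⟩, hxy⟩
    have e2 : Even (T.erase (j a)).card := by
      refine Ends_even hV _ ?_
      intro x hx
      obtain ⟨hxj, hxT⟩ := Finset.mem_erase.1 hx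
      obtain ⟨hxa, hxb⟩ := Finset.mem_inter.1 hxT
      obtain ⟨y, hy, hxy⟩ := hS2 a haB' x hxa hxj
      obtain ⟨z, hz, hxz⟩ := hS2 b hbB' x hxb (by rw [← hab]; exact hxj)
      rw [← hV.func hxy hxz] at hz
      refine ⟨y, Finset.mem_erase.2 ⟨?_, Finset.mem_inter.2 ⟨hy, hz⟩⟩, hxy⟩
      rintro rfl
      exact hjfree a haB' x (hV.symm hxy)
    have e3 := Finset.card_erase_add_one hjT
    rw [← e3] at e1
    exact (Nat.even_add_one.1 e1) e2

end MeanderCLT
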