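import Pool.Agent.H98.M.Red

/-!
# Tails and moments of the number of unmatched brackets
-/

namespace MeanderCLT

/-- sum over words by the first letter -/
theorem tail_sum_succ {α M : Type*} [Fintype α] [AddCommMonoid M] (N : ℕ) (F : List α → M) :
    ∑ x : Fin (N + 1) → α, F (List.ofFn x) = ∑ a : α, ∑ x : Fin N → α, F (a :: List.ofFn x) := by
  rw [← Fintype.sum_prod_type' (f := fun a (x : Fin N → α) => F (a :: List.ofFn x))]
  rw [← (Fin.consEquiv (fun _ : Fin (N + 1) => α)).sum_comp]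
  apply Finset.sum_congr rfl
  rintro ⟨a, x⟩ _
  congr 1
  exact List.ofFn_cons a x

theorem tail_ofFn_rev {α : Type*} {N : ℕ} (x : Fin N → α) :
    List.ofFn (fun i => x (Fin.rev i)) = (List.ofFn x).reverse := by
  apply List.ext_getElem
  · simp
  · intro i h1 h2
    simp only [List.getElem_ofFn, List.getElem_reverse, List.length_ofFn]
    congr 1
    apply Fin.ext
    simp only [Fin.val_rev]
    omega

theorem tail_sum_rev {α M : Type*} [Fintype α] [AddCommMonoid M] (N : ℕ) (F : List α → M) :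
    ∑ x : Fin N → α, F (List.ofFn x).reverse = ∑ x : Fin N → α, F (List.ofFn x) := by
  rw [← (Equiv.arrowCongr (Fin.revPerm (n := N)) (Equiv.refl α)).sum_comp
    (fun x => F (List.ofFn x))]
  apply Finset.sum_congr rfl
  intro x _
  rw [← tail_ofFn_rev]
  rfl

/-- the harmonic function of the reflected walk -/
noncomputable def tphi (θ : ℝ) (k : ℕ) : ℝ := Real.cosh (θ * (k + 1 / 2))

theorem tphi_step (θ : ℝ) (k : ℕ) : tphi θ (k - 1) + tphi θ (k + 1) = 2 * Real.cosh θ * tphi θ k := by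
  unfold tphi
  have h : ∀ x y : ℝ, Real.cosh (x - y) + Real.cosh (x + y) = 2 * Real.cosh y * Real.cosh x := by
    intro x y; rw [Real.cosh_sub, Real.cosh_add]; ring
  rcases Nat.eq_zero_or_pos k with hk | hk
  · subst hk
    rw [← h]
    have e1 : θ * (((0 : ℕ) : ℝ) + 1 / 2) - θ = -(θ * (((0 - 1 : ℕ) : ℝ) + 1 / 2)) := by
      simp; ring
    rw [e1, Real.cosh_neg]
    congr 2
    push_cast; ring
  · rw [← h]
    congr 2
    · rw [Nat.cast_sub hk]; push_cast; ring
    · push_cast; ring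

theorem tail_sum {α : Type*} [Fintype α] (pr : α → Bool) (m : ℝ)
    (hm : ∀ F : Bool → ℝ, ∑ a, F (pr a) = m * (F true + F false)) (θ : ℝ) (N : ℕ) :
    ∑ x : Fin N → α, tphi θ (uc ((List.ofFn x).map pr)) = (2 * m * Real.cosh θ) ^ N * tphi θ 0 := by
  induction N with
  | zero => simp [uc_nil]
  | succ N ih =>
    rw [tail_sum_succ N (fun l => tphi θ (uc (l.map pr)))]
    simp only [List.map_cons]
    rw [Finset.sum_comm]
    have : ∀ x : Fin N → α, ∑ a : α, tphi θ (uc (pr a :: List.map pr (List.ofFn x)))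
        = 2 * m * Real.cosh θ * tphi θ (uc (List.map pr (List.ofFn x))) := by
      intro x
      rw [hm (fun b => tphi θ (uc (b :: List.map pr (List.ofFn x)))), uc_cons_true, uc_cons_false,
        tphi_step]
      ring
    rw [Finset.sum_congr rfl (fun x _ => this x), ← Finset.mul_sum, ih]
    ring

theorem tail_sum_uo {α : Type*} [Fintype α] (pr : α → Bool) (m : ℝ)
    (hm : ∀ F : Bool → ℝ, ∑ a, F (pr a) = m * (F true + F false)) (θ : ℝ) (N : ℕ) :
    ∑ x : Fin N → α, tphi θ (uo ((List.ofFn x).map pr)) = (2 * m * Real.cosh θ) ^ N * tphi θ 0 := by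
  have h1 : ∀ l : List α, uo (l.map pr) = uc ((l.reverse).map (fun a => !(pr a))) := by
    intro l
    rw [← uc_mir]
    unfold mir
    rw [List.map_map, List.map_reverse]
    rfl
  simp only [h1]
  rw [tail_sum_rev N (fun l => tphi θ (uc (l.map (fun a => !(pr a)))))]
  apply tail_sum
  intro F
  rw [hm (fun b => F (!b))]
  simp only [Bool.not_true, Bool.not_false]
  ring

theorem tail_pow_le (n : ℕ) {x : ℝ} (hx : 0 ≤ x) : x ^ n ≤ 2 * n.factorial * Real.cosh x := by
  have h1 := Real.pow_div_factorial_le_exp x hx n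
  have h2 : Real.exp x ≤ 2 * Real.cosh x := by
    rw [Real.cosh_eq]
    have := Real.exp_pos (-x)
    linarith
  have h3 : (0 : ℝ) < n.factorial := by exact_mod_cast n.factorial_pos
  rw [div_le_iff₀ h3] at h1
  nlinarith

theorem tail_tphi_le {N : ℕ} (hN : 1 ≤ N) :
    Real.cosh (1 / Real.sqrt N) ^ N * tphi (1 / Real.sqrt N) 0 ≤ 3 := by
  have hN' : (1 : ℝ) ≤ N := by exact_mod_cast hN
  have hs : 0 < Real.sqrt N := Real.sqrt_pos.2 (by linarith)
  have hs1 : 1 ≤ Real.sqrt N := by rw [← Real.sqrt_one]; exact Real.sqrt_le_sqrt hN'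
  have hsq : Real.sqrt N ^ 2 = N := Real.sq_sqrt (by linarith)
  have h1 : Real.cosh (1 / Real.sqrt N) ^ N ≤ Real.exp (1 / 2) := by
    calc Real.cosh (1 / Real.sqrt N) ^ N ≤ (Real.exp ((1 / Real.sqrt N) ^ 2 / 2)) ^ N :=
          pow_le_pow_left₀ (Real.cosh_pos _).le (Real.cosh_le_exp_half_sq _) _
      _ = Real.exp (1 / 2) := by
          rw [← Real.exp_nat_mul]
          congr 1
          rw [div_pow, hsq]
          field_simp
  have h2 : tphi (1 / Real.sqrt N) 0 ≤ Real.exp (1 / 2) := by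
    unfold tphi
    refine (Real.cosh_le_exp_half_sq _).trans (Real.exp_le_exp.2 ?_)
    have h3 : 1 / Real.sqrt N ≤ 1 := by rw [div_le_one hs]; exact hs1
    have h4 : 0 < 1 / Real.sqrt N := by positivity
    simp only [Nat.cast_zero, zero_add]
    nlinarith
  calc _ ≤ Real.exp (1 / 2) * Real.exp (1 / 2) :=
        mul_le_mul h1 h2 (Real.cosh_pos _).le (Real.exp_pos _).le
    _ = Real.exp 1 := by rw [← Real.exp_add]; norm_num
    _ ≤ 3 := by have := Real.exp_one_lt_d9; linarith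

/-- moments -/
theorem tail_moment {α : Type*} [Fintype α] (g : List α → ℕ) (m : ℝ)
    (hg : ∀ (θ : ℝ) (N : ℕ), ∑ x : Fin N → α, tphi θ (g (List.ofFn x))
      = (2 * m * Real.cosh θ) ^ N * tphi θ 0) (hm : 0 ≤ m) (n : ℕ) {N : ℕ} (hN : 1 ≤ N) :
    ∑ x : Fin N → α, (g (List.ofFn x) : ℝ) ^ n ≤
      6 * n.factorial * Real.sqrt N ^ n * (2 * m) ^ N := by
  have hN' : (1 : ℝ) ≤ N := by exact_mod_cast hN
  have hs : 0 < Real.sqrt N := Real.sqrt_pos.2 (by linarith)
  have h1 : ∀ k : ℕ, (k : ℝ) ^ n ≤ 2 * n.factorial * Real.sqrt N ^ n * tphi (1 / Real.sqrt N) k := by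
    intro k
    have hx : 0 ≤ 1 / Real.sqrt N * ((k : ℝ) + 1 / 2) := by positivity
    have h2 := tail_pow_le n hx
    have h3 : (k : ℝ) ^ n ≤ (Real.sqrt N * (1 / Real.sqrt N * ((k : ℝ) + 1 / 2))) ^ n := by
      apply pow_le_pow_left₀ (by positivity)
      have : Real.sqrt N * (1 / Real.sqrt N * ((k : ℝ) + 1 / 2)) = (k : ℝ) + 1 / 2 := by
        field_simp
      rw [this]; linarith
    rw [mul_pow] at h3
    unfold tphi
    calc (k : ℝ) ^ n ≤ Real.sqrt N ^ n * (1 / Real.sqrt N * ((k : ℝ) + 1 / 2)) ^ n := h3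
      _ ≤ Real.sqrt N ^ n * (2 * n.factorial * Real.cosh (1 / Real.sqrt N * ((k : ℝ) + 1 / 2))) :=
          mul_le_mul_of_nonneg_left h2 (by positivity)
      _ = _ := by ring
  calc ∑ x : Fin N → α, (g (List.ofFn x) : ℝ) ^ n
      ≤ ∑ x : Fin N → α, 2 * n.factorial * Real.sqrt N ^ n *
          tphi (1 / Real.sqrt N) (g (List.ofFn x)) := Finset.sum_le_sum fun x _ => h1 _
    _ = 2 * n.factorial * Real.sqrt N ^ n * ((2 * m) ^ N *
        (Real.cosh (1 / Real.sqrt N) ^ N * tphi (1 / Real.sqrt N) 0)) := by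
        rw [← Finset.mul_sum, hg, mul_pow]; ring
    _ ≤ 2 * n.factorial * Real.sqrt N ^ n * ((2 * m) ^ N * 3) := by
        gcongr
        exact tail_tphi_le hN
    _ = _ := by ring

/-- first letter recursion -/
theorem uc_tail (N k : ℕ) {θ : ℝ} (hθ : 0 ≤ θ) :
    ((Finset.univ.filter (fun s : Fin N → Bool => k ≤ uc (List.ofFn s))).card : ℝ) ≤
      Real.exp (-θ * k) * (2 * Real.cosh θ) ^ N := by
  have hcard : ∀ (N k : ℕ), ((Finset.univ.filter (fun s : Fin N → Bool =>
      k ≤ uc (List.ofFn s))).card : ℝ) = ∑ s : Fin N → Bool, if k ≤ uc (List.ofFn s) then (1 : ℝ) else 0 := by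
    intro N k; rw [Finset.sum_boole]
  rw [hcard]
  induction N generalizing k with
  | zero =>
    rcases Nat.eq_zero_or_pos k with hk | hk
    · subst hk; simp [uc_nil]
    · have : ¬ k ≤ 0 := by omega
      simp [uc_nil, this, Real.exp_nonneg]
  | succ N ih =>
    rcases Nat.eq_zero_or_pos k with hk | hk
    · subst hk
      simp only [Nat.zero_le, if_true, Finset.sum_const, Finset.card_univ, Fintype.card_fun,
        Fintype.card_bool, Fintype.card_fin, Nat.cast_zero, mul_zero, Real.exp_zero, one_mul,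
        nsmul_eq_mul, mul_one]
      push_cast
      apply pow_le_pow_left₀ (by norm_num)
      have := Real.one_le_cosh θ
      linarith
    · rw [tail_sum_succ N (fun l => if k ≤ uc l then (1 : ℝ) else 0)]
      simp only [Fintype.sum_bool, uc_cons_true, uc_cons_false]
      have e1 : ∀ j : ℕ, (k ≤ j - 1) ↔ (k + 1 ≤ j) := by intro j; omega
      have e2 : ∀ j : ℕ, (k ≤ j + 1) ↔ (k - 1 ≤ j) := by intro j; omega
      simp only [e1, e2]
      have h1 := ih (k + 1)
      have h2 := ih (k - 1)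
      rw [Nat.cast_sub hk] at h2
      push_cast at h1 h2
      calc _ ≤ Real.exp (-θ * (k + 1)) * (2 * Real.cosh θ) ^ N
            + Real.exp (-θ * (k - 1)) * (2 * Real.cosh θ) ^ N := add_le_add h1 h2
        _ = Real.exp (-θ * k) * (2 * Real.cosh θ) ^ (N + 1) := by
          rw [pow_succ, Real.cosh_eq]
          have a1 : Real.exp (-θ * (k + 1)) = Real.exp (-θ * k) * Real.exp (-θ) := by
            rw [← Real.exp_add]; congr 1; ring
          have a2 : Real.exp (-θ * (k - 1)) = Real.exp (-θ * k) * Real.exp θ := by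
            rw [← Real.exp_add]; congr 1; ring
          rw [a1, a2]; ring

/-- first moment of the number of unmatched brackets of a uniform bracket word -/
theorem uc_uo_mean : ∃ C : ℝ, 0 < C ∧ ∀ N : ℕ,
    ∑ s : Fin N → Bool, ((uc (List.ofFn s) : ℝ) + uo (List.ofFn s)) ≤ C * Real.sqrt N * 2 ^ N := by
  refine ⟨12, by norm_num, fun N => ?_⟩
  rcases Nat.eq_zero_or_pos N with hN | hN
  · subst hN; simp [uc_nil, uo_nil]
  · have hid : ∀ F : Bool → ℝ, ∑ a, F (id a) = 1 * (F true + F false) := by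
      intro F; simp
    have h1 := tail_moment (α := Bool) (fun l => uc l) 1 (fun θ N => by
      have := tail_sum id 1 hid θ N
      simpa using this) zero_le_one 1 hN
    have h2 := tail_moment (α := Bool) (fun l => uo l) 1 (fun θ N => by
      have := tail_sum_uo id 1 hid θ N
      simpa using this) zero_le_one 1 hN
    rw [Finset.sum_add_distrib]
    simp only [pow_one, Nat.factorial_one, Nat.cast_one, mul_one] at h1 h2
    linarith

theorem tail_Ltr (F : Bool → ℝ) : ∑ a : Ltr, F a.1 = 2 * (F true + F false) ∧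
    ∑ a : Ltr, F a.2 = 2 * (F true + F false) := by
  rw [Fintype.sum_prod_type, Fintype.sum_prod_type]
  simp only [Fintype.sum_bool]
  constructor <;> ring

/-- moments of the four counts over uniform words -/
theorem tail_moments_word (n : ℕ) {N : ℕ} (hN : 1 ≤ N) :
    Ew N (fun x => (uc (up x) : ℝ) ^ n) ≤ 6 * n.factorial * Real.sqrt N ^ n ∧
    Ew N (fun x => (uo (up x) : ℝ) ^ n) ≤ 6 * n.factorial * Real.sqrt N ^ n ∧
    Ew N (fun x => (uc (lo x) : ℝ) ^ n) ≤ 6 * n.factorial * Real.sqrt N ^ n ∧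
    Ew N (fun x => (uo (lo x) : ℝ) ^ n) ≤ 6 * n.factorial * Real.sqrt N ^ n := by
  have h4 : ((2 : ℝ) * 2) ^ N = 4 ^ N := by norm_num
  have hpos : (0 : ℝ) < 4 ^ N := by positivity
  unfold Ew
  refine ⟨?_, ?_, ?_, ?_⟩
  · rw [div_le_iff₀ hpos, ← h4]
    exact tail_moment (α := Ltr) (fun l => uc (up l)) 2
      (fun θ N => tail_sum (fun a : Ltr => a.1) 2 (fun F => (tail_Ltr F).1) θ N) (by norm_num) n hN
  · rw [div_le_iff₀ hpos, ← h4]
    exact tail_moment (α := Ltr) (fun l => uo (up l)) 2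
      (fun θ N => tail_sum_uo (fun a : Ltr => a.1) 2 (fun F => (tail_Ltr F).1) θ N) (by norm_num) n hN
  · rw [div_le_iff₀ hpos, ← h4]
    exact tail_moment (α := Ltr) (fun l => uc (lo l)) 2
      (fun θ N => tail_sum (fun a : Ltr => a.2) 2 (fun F => (tail_Ltr F).2) θ N) (by norm_num) n hN
  · rw [div_le_iff₀ hpos, ← h4]
    exact tail_moment (α := Ltr) (fun l => uo (lo l)) 2
      (fun θ N => tail_sum_uo (fun a : Ltr => a.2) 2 (fun F => (tail_Ltr F).2) θ N) (by norm_num) n hN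

theorem tail_Ew4 (N : ℕ) (a b c d h : Wd → ℝ) (K B : ℝ) (hK : 0 ≤ K)
    (hh : ∀ x, h x ≤ K * (a x + b x + c x + d x)) (ha : Ew N a ≤ B) (hb : Ew N b ≤ B)
    (hc : Ew N c ≤ B) (hd : Ew N d ≤ B) : Ew N h ≤ K * (4 * B) := by
  have hpos : (0 : ℝ) < 4 ^ N := by positivity
  unfold Ew at *
  rw [div_le_iff₀ hpos] at *
  calc ∑ x : Fin N → Ltr, h (List.ofFn x)
      ≤ ∑ x : Fin N → Ltr, K * (a (List.ofFn x) + b (List.ofFn x) + c (List.ofFn x)
          + d (List.ofFn x)) := Finset.sum_le_sum fun x _ => hh _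
    _ = K * (∑ x : Fin N → Ltr, a (List.ofFn x) + ∑ x : Fin N → Ltr, b (List.ofFn x)
        + ∑ x : Fin N → Ltr, c (List.ofFn x) + ∑ x : Fin N → Ltr, d (List.ofFn x)) := by
        rw [← Finset.mul_sum, Finset.sum_add_distrib, Finset.sum_add_distrib,
          Finset.sum_add_distrib]
    _ ≤ K * (B * 4 ^ N + B * 4 ^ N + B * 4 ^ N + B * 4 ^ N) := by gcongr
    _ = _ := by ring

/-- first and fourth moments over uniform words -/
theorem uc_moments : ∃ C : ℝ, 0 < C ∧ ∀ N : ℕ,
    Ew N (fun x => ((uc (up x) : ℝ) + uo (up x) + uc (lo x) + uo (lo x)) ^ 4) ≤ C * (N : ℝ) ^ 2 ∧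
    Ew N (fun x => ((uc (up x) : ℝ) + uo (up x) + uc (lo x) + uo (lo x)) ^ 2) ≤ C * (N : ℝ) ∧
    Ew N (fun x => ((uc (up x) : ℝ) + uo (up x) + uc (lo x) + uo (lo x))) ≤ C * Real.sqrt N := by
  refine ⟨64 * (4 * (6 * 24)), by norm_num, fun N => ?_⟩
  rcases Nat.eq_zero_or_pos N with hN | hN
  · subst hN; simp [Ew, up, lo, uc_nil, uo_nil]
  · have hN' : (1 : ℝ) ≤ N := by exact_mod_cast hN
    have hsq : Real.sqrt N ^ 2 = N := Real.sq_sqrt (by linarith)
    have hs4 : Real.sqrt N ^ 4 = (N : ℝ) ^ 2 := by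
      have : Real.sqrt N ^ 4 = (Real.sqrt N ^ 2) ^ 2 := by ring
      rw [this, hsq]
    have hs0 : 0 ≤ Real.sqrt N := Real.sqrt_nonneg _
    refine ⟨?_, ?_, ?_⟩
    · obtain ⟨m1, m2, m3, m4⟩ := tail_moments_word 4 hN
      have hf : ((Nat.factorial 4 : ℕ) : ℝ) = 24 := by norm_num [Nat.factorial]
      rw [hf, hs4] at m1 m2 m3 m4
      have := tail_Ew4 N _ _ _ _ (fun x => ((uc (up x) : ℝ) + uo (up x) + uc (lo x) + uo (lo x)) ^ 4)
        64 _ (by norm_num) ?_ m1 m2 m3 m4
      · linarith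
      · intro x
        have key : ∀ p q r s : ℝ, (p + q + r + s) ^ 4 ≤ 64 * (p ^ 4 + q ^ 4 + r ^ 4 + s ^ 4) := by
          intro p q r s
          have s1 : ∀ u v : ℝ, (u + v) ^ 2 ≤ 2 * (u ^ 2 + v ^ 2) := by
            intro u v; nlinarith [sq_nonneg (u - v)]
          have h1 : (p + q + r + s) ^ 2 ≤ 4 * (p ^ 2 + q ^ 2 + r ^ 2 + s ^ 2) := by
            have := s1 (p + q) (r + s)
            have a := s1 p q
            have b := s1 r s
            have e : p + q + (r + s) = p + q + r + s := by ring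
            rw [e] at this; linarith
          have h2 : (p ^ 2 + q ^ 2 + r ^ 2 + s ^ 2) ^ 2 ≤ 4 * (p ^ 4 + q ^ 4 + r ^ 4 + s ^ 4) := by
            have := s1 (p ^ 2 + q ^ 2) (r ^ 2 + s ^ 2)
            have a := s1 (p ^ 2) (q ^ 2)
            have b := s1 (r ^ 2) (s ^ 2)
            have e : p ^ 2 + q ^ 2 + (r ^ 2 + s ^ 2) = p ^ 2 + q ^ 2 + r ^ 2 + s ^ 2 := by ring
            rw [e] at this
            nlinarith
          have h3 : ((p + q + r + s) ^ 2) ^ 2 ≤ (4 * (p ^ 2 + q ^ 2 + r ^ 2 + s ^ 2)) ^ 2 :=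
            pow_le_pow_left₀ (sq_nonneg _) h1 2
          nlinarith
        exact key _ _ _ _
    · obtain ⟨m1, m2, m3, m4⟩ := tail_moments_word 2 hN
      have hf : ((Nat.factorial 2 : ℕ) : ℝ) = 2 := by norm_num [Nat.factorial]
      rw [hf, hsq] at m1 m2 m3 m4
      have := tail_Ew4 N _ _ _ _ (fun x => ((uc (up x) : ℝ) + uo (up x) + uc (lo x) + uo (lo x)) ^ 2)
        4 _ (by norm_num) ?_ m1 m2 m3 m4
      · nlinarith
      · intro x
        have s1 : ∀ u v : ℝ, (u + v) ^ 2 ≤ 2 * (u ^ 2 + v ^ 2) := by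
          intro u v; nlinarith [sq_nonneg (u - v)]
        have key : ∀ p q r s : ℝ, (p + q + r + s) ^ 2 ≤ 4 * (p ^ 2 + q ^ 2 + r ^ 2 + s ^ 2) := by
          intro p q r s
          have := s1 (p + q) (r + s)
          have a := s1 p q
          have b := s1 r s
          have e : p + q + (r + s) = p + q + r + s := by ring
          rw [e] at this; linarith
        exact key _ _ _ _
    · obtain ⟨m1, m2, m3, m4⟩ := tail_moments_word 1 hN
      rw [pow_one, Nat.factorial_one, Nat.cast_one, mul_one] at m1 m2 m3 m4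
      have := tail_Ew4 N _ _ _ _ (fun x => ((uc (up x) : ℝ) + uo (up x) + uc (lo x) + uo (lo x)))
        1 _ (by norm_num) ?_ m1 m2 m3 m4
      · nlinarith
      · intro x; simp only [pow_one]; linarith

end MeanderCLT
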