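import Pool.Agent.H98.M.StarX
import Pool.Agent.H98.M.Mass
import Pool.Agent.H98.M.Tail

/-!
# Key lemma: strands leaving through the lower side have density zero
-/

open scoped ENNReal
open Filter

namespace MeanderCLT

theorem F1_const (n : ℕ) (c : ℝ≥0∞) : EE n (fun _ => c) = c := by
  have h := EE_mul_left n c (fun _ => 1)
  simp only [mul_one] at h
  rw [h, EE_one, mul_one]

theorem F1_prod (n1 n2 : ℕ) (A B : Wd → ℝ≥0∞) :
    EE n1 (fun w1 => EE n2 (fun w2 => A w1 * B w2)) = EE n1 A * EE n2 B := by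
  have h1 : (fun w1 => EE n2 (fun w2 => A w1 * B w2)) = fun w1 => EE n2 B * A w1 := by
    funext w1
    rw [EE_mul_left, mul_comm]
  rw [h1, EE_mul_left, mul_comm]

theorem F1_half (x : ℝ≥0∞) : (1 / 2) * ∑ _z : Bool, x = x := by
  rw [Fintype.sum_bool, ← two_mul, ← mul_assoc,
    ENNReal.div_mul_cancel two_ne_zero ENNReal.ofNat_ne_top, one_mul]

theorem F1_block (n1 n2 : ℕ) (g A B : Wd → ℝ≥0∞)
    (h : ∀ w1 w2 z, Star n1 w1 → Star n2 w2 → g (w1 ++ (false, z) :: w2) ≤ A w1 * B w2) :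
    EE (n1 + 1 + n2) g ≤ EE n1 A * EE n2 B := by
  rw [EE_split]
  have h1 : ∀ z : Bool, EE n1 (fun w1 => EE n2 (fun w2 => g (w1 ++ (false, z) :: w2))) ≤
      EE n1 A * EE n2 B := by
    intro z
    rw [← F1_prod]
    exact EE_mono (fun w1 hw1 => EE_mono (fun w2 hw2 => h w1 w2 z hw1 hw2))
  calc (1 / 2) * ∑ z : Bool, EE n1 (fun w1 => EE n2 (fun w2 => g (w1 ++ (false, z) :: w2)))
      ≤ (1 / 2) * ∑ _z : Bool, EE n1 A * EE n2 B := by
        gcongr with z
        exact h1 z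
    _ = EE n1 A * EE n2 B := F1_half _

theorem F1_sub (n1 n2 : ℕ) : EE (n1 + 1 + n2) (fun w => (XX w : ℝ≥0∞)) ≤
    EE n1 (fun w => (XX w : ℝ≥0∞)) + 1 + EE n2 (fun w => (XX w : ℝ≥0∞)) := by
  rw [EE_split]
  have h1 : ∀ z : Bool, EE n1 (fun w1 => EE n2 (fun w2 =>
      (XX (w1 ++ (false, z) :: w2) : ℝ≥0∞))) ≤
      EE n1 (fun w => (XX w : ℝ≥0∞)) + 1 + EE n2 (fun w => (XX w : ℝ≥0∞)) := by
    intro z
    calc EE n1 (fun w1 => EE n2 (fun w2 => (XX (w1 ++ (false, z) :: w2) : ℝ≥0∞)))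
        ≤ EE n1 (fun w1 => EE n2 (fun w2 => ((XX w1 : ℝ≥0∞) + 1) + (XX w2 : ℝ≥0∞))) := by
          apply EE_mono
          intro w1 hw1
          apply EE_mono
          intro w2 hw2
          have := XX_sub z hw1 hw2
          exact_mod_cast this
      _ = EE n1 (fun w1 => ((XX w1 : ℝ≥0∞) + 1) + EE n2 (fun w => (XX w : ℝ≥0∞))) := by
          congr 1
          funext w1
          rw [EE_add, F1_const]
      _ = EE n1 (fun w => (XX w : ℝ≥0∞)) + 1 + EE n2 (fun w => (XX w : ℝ≥0∞)) := by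
          rw [EE_add, EE_add, F1_const, F1_const]
  calc (1 / 2) * ∑ z : Bool, EE n1 (fun w1 => EE n2 (fun w2 =>
        (XX (w1 ++ (false, z) :: w2) : ℝ≥0∞)))
      ≤ (1 / 2) * ∑ _z : Bool, (EE n1 (fun w => (XX w : ℝ≥0∞)) + 1 +
          EE n2 (fun w => (XX w : ℝ≥0∞))) := by
        gcongr with z
        exact h1 z
    _ = _ := F1_half _

theorem F1_exp_bound {u : ℝ} (h0 : 0 ≤ u) (h1 : u ≤ 1) : Real.exp u ≤ 1 + u + u ^ 2 := by
  have h := Real.abs_exp_sub_one_sub_id_le (x := u) (by rw [abs_of_nonneg h0]; exact h1)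
  have := (abs_le.mp h).2
  linarith

/-- exponential moment of one block -/
theorem F1_H (b : ℕ) {x lam : ℝ} (hx : EE b (fun w => (XX w : ℝ≥0∞)) ≤ ENNReal.ofReal x)
    (hx0 : 0 ≤ x) (hl : 0 < lam) (hl1 : lam * (b + 1) ≤ 1) :
    EE b (fun w => ENNReal.ofReal (Real.exp (lam * (XX w + 1)))) ≤
      ENNReal.ofReal (Real.exp (lam * (x + 1) + lam ^ 2 * (b + 1) ^ 2)) := by
  have hpt : ∀ w, Star b w → ENNReal.ofReal (Real.exp (lam * (XX w + 1))) ≤
      ENNReal.ofReal (1 + lam + lam ^ 2 * (b + 1) ^ 2) + ENNReal.ofReal lam * (XX w : ℝ≥0∞) := by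
    intro w hw
    have hXX : (XX w : ℝ) ≤ b := by exact_mod_cast XX_le_star hw
    have hX0 : (0 : ℝ) ≤ XX w := Nat.cast_nonneg _
    have hu1 : lam * (XX w + 1) ≤ lam * (b + 1) := by
      apply mul_le_mul_of_nonneg_left _ hl.le
      linarith
    have hu0 : 0 ≤ lam * ((XX w : ℝ) + 1) := by positivity
    have h1 := F1_exp_bound hu0 (hu1.trans hl1)
    have h2 : (lam * ((XX w : ℝ) + 1)) ^ 2 ≤ lam ^ 2 * (b + 1) ^ 2 := by
      rw [← mul_pow]
      exact pow_le_pow_left₀ hu0 hu1 2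
    have h3 : Real.exp (lam * (XX w + 1)) ≤ (1 + lam + lam ^ 2 * (b + 1) ^ 2) + lam * XX w := by
      linarith
    calc ENNReal.ofReal (Real.exp (lam * (XX w + 1)))
        ≤ ENNReal.ofReal ((1 + lam + lam ^ 2 * (b + 1) ^ 2) + lam * XX w) :=
          ENNReal.ofReal_le_ofReal h3
      _ = ENNReal.ofReal (1 + lam + lam ^ 2 * (b + 1) ^ 2) + ENNReal.ofReal (lam * XX w) :=
          ENNReal.ofReal_add (by positivity) (by positivity)
      _ = _ := by rw [ENNReal.ofReal_mul hl.le, ENNReal.ofReal_natCast]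
  calc EE b (fun w => ENNReal.ofReal (Real.exp (lam * (XX w + 1))))
      ≤ EE b (fun w => ENNReal.ofReal (1 + lam + lam ^ 2 * (b + 1) ^ 2) +
          ENNReal.ofReal lam * (XX w : ℝ≥0∞)) := EE_mono hpt
    _ = ENNReal.ofReal (1 + lam + lam ^ 2 * (b + 1) ^ 2) +
          ENNReal.ofReal lam * EE b (fun w => (XX w : ℝ≥0∞)) := by
        rw [EE_add, F1_const, EE_mul_left]
    _ ≤ ENNReal.ofReal (1 + lam + lam ^ 2 * (b + 1) ^ 2) +
          ENNReal.ofReal lam * ENNReal.ofReal x := by gcongr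
    _ = ENNReal.ofReal (1 + lam + lam ^ 2 * (b + 1) ^ 2 + lam * x) := by
        rw [← ENNReal.ofReal_mul hl.le, ← ENNReal.ofReal_add (by positivity) (by positivity)]
    _ ≤ _ := by
        apply ENNReal.ofReal_le_ofReal
        have := Real.add_one_le_exp (lam * (x + 1) + lam ^ 2 * (b + 1) ^ 2)
        linarith

/-- exponential moment of many blocks -/
theorem F1_G (b t : ℕ) {lam : ℝ} (hl : 0 < lam) :
    EE (t * (b + 1) + b) (fun w => ENNReal.ofReal (Real.exp (lam * XX w))) ≤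
      (EE b (fun w => ENNReal.ofReal (Real.exp (lam * (XX w + 1))))) ^ (t + 1) := by
  induction t with
  | zero =>
    simp only [zero_mul, zero_add, pow_one]
    apply EE_mono
    intro w _
    apply ENNReal.ofReal_le_ofReal
    apply Real.exp_le_exp.mpr
    nlinarith
  | succ t ih =>
    have e : (t + 1) * (b + 1) + b = b + 1 + (t * (b + 1) + b) := by ring
    rw [e]
    refine (F1_block b (t * (b + 1) + b) _
      (fun w => ENNReal.ofReal (Real.exp (lam * (XX w + 1))))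
      (fun w => ENNReal.ofReal (Real.exp (lam * XX w))) ?_).trans ?_
    · intro w1 w2 z h1 h2
      have h := XX_sub z h1 h2
      have h' : (XX (w1 ++ (false, z) :: w2) : ℝ) ≤ XX w1 + 1 + XX w2 := by exact_mod_cast h
      rw [← ENNReal.ofReal_mul (Real.exp_nonneg _), ← Real.exp_add]
      apply ENNReal.ofReal_le_ofReal
      apply Real.exp_le_exp.mpr
      nlinarith
    · rw [pow_succ' _ (t + 1)]
      gcongr

/-- Chernoff bound for the number of bad stars of a star word made of `t` blocks with `b` stars -/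
theorem XX_chernoff (b t : ℕ) {x lam : ℝ} (hx : EE b (fun w => (XX w : ℝ≥0∞)) ≤ ENNReal.ofReal x)
    (hx0 : 0 ≤ x) (hl : 0 < lam) (hl1 : lam * (b + 1) ≤ 1) (c : ℝ) :
    EE (t * (b + 1) + b) (fun w => if c < XX w then 1 else 0) ≤
      ENNReal.ofReal (Real.exp (-lam * c + (t + 1) * (lam * (x + 1) + lam ^ 2 * (b + 1) ^ 2))) := by
  calc EE (t * (b + 1) + b) (fun w => if c < XX w then 1 else 0)
      ≤ EE (t * (b + 1) + b) (fun w => ENNReal.ofReal (Real.exp (-lam * c)) *
          ENNReal.ofReal (Real.exp (lam * XX w))) := by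
        apply EE_mono
        intro w _
        rw [← ENNReal.ofReal_mul (Real.exp_nonneg _), ← Real.exp_add]
        split_ifs with h
        · rw [← ENNReal.ofReal_one]
          apply ENNReal.ofReal_le_ofReal
          apply Real.one_le_exp
          nlinarith
        · exact bot_le
    _ = ENNReal.ofReal (Real.exp (-lam * c)) *
          EE (t * (b + 1) + b) (fun w => ENNReal.ofReal (Real.exp (lam * XX w))) := by
        rw [EE_mul_left]
    _ ≤ ENNReal.ofReal (Real.exp (-lam * c)) *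
          (ENNReal.ofReal (Real.exp (lam * (x + 1) + lam ^ 2 * (b + 1) ^ 2))) ^ (t + 1) := by
        gcongr
        exact (F1_G b t hl).trans (by gcongr; exact F1_H b hx hx0 hl hl1)
    _ = _ := by
        rw [← ENNReal.ofReal_pow (Real.exp_nonneg _), ← Real.exp_nat_mul,
          ← ENNReal.ofReal_mul (Real.exp_nonneg _), ← Real.exp_add]
        congr 2
        push_cast
        ring

theorem F1_one_sub_ge {x : ℝ} (h0 : 0 ≤ x) (h1 : x ≤ 1 / 2) : Real.exp (-(2 * x)) ≤ 1 - x := by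
  have h2 : 1 + 2 * x ≤ Real.exp (2 * x) := by
    have := Real.add_one_le_exp (2 * x)
    linarith
  have h3 : 0 < Real.exp (2 * x) := Real.exp_pos _
  rw [Real.exp_neg]
  rw [inv_le_comm₀ h3 (by linarith)]
  refine le_trans ?_ h2
  rw [inv_le_comm₀ (by linarith) (by linarith)]
  rw [inv_eq_one_div, div_le_iff₀ (by linarith)]
  nlinarith

/-- with probability bounded below a star word has length at most `η (n+1)^2` -/
theorem F1_short (η : ℝ) (hη : 0 < η) : ∃ q : ℝ, 0 < q ∧ ∀ᶠ n : ℕ in atTop,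
    ENNReal.ofReal q ≤ EE n (fun w => if w.length ≤ ⌊η * (n + 1) ^ 2⌋₊ then 1 else 0) := by
  obtain ⟨β, hβ⟩ : ∃ β, β = 16 / η ^ 2 := ⟨_, rfl⟩
  have hβ0 : 0 < β := by rw [hβ]; positivity
  obtain ⟨s, hs⟩ : ∃ s, s = Real.sqrt (2 * β) := ⟨_, rfl⟩
  have hs0 : 0 < s := by rw [hs]; exact Real.sqrt_pos.mpr (by positivity)
  have hs2 : s ^ 2 = 2 * β := by rw [hs]; exact Real.sq_sqrt (by positivity)
  have hcmp : 2 * s < β * η := by
    have h1 : (2 * s) ^ 2 < (β * η) ^ 2 := by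
      have e1 : (2 * s) ^ 2 = 8 * β := by rw [mul_pow, hs2]; ring
      have e2 : (β * η) ^ 2 = 16 * β := by
        have : β * η ^ 2 = 16 := by rw [hβ]; field_simp
        calc (β * η) ^ 2 = (β * η ^ 2) * β := by ring
          _ = 16 * β := by rw [this]
      rw [e1, e2]; linarith
    exact lt_of_pow_lt_pow_left₀ 2 (by positivity) h1
  refine ⟨Real.exp (-(2 * s)) - Real.exp (-(β * η)), ?_, ?_⟩
  · have := Real.exp_lt_exp.mpr (neg_lt_neg hcmp)
    linarith
  · filter_upwards [eventually_ge_atTop (⌈2 * s⌉₊)] with n hn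
    have hn1 : (0 : ℝ) < (n : ℝ) + 1 := by positivity
    have hns : 2 * s ≤ (n : ℝ) + 1 := by
      have h1 : 2 * s ≤ (n : ℝ) := (Nat.le_ceil _).trans (by exact_mod_cast hn)
      linarith
    obtain ⟨z, hz⟩ : ∃ z, z = Real.exp (-(β / (n + 1) ^ 2)) := ⟨_, rfl⟩
    have hz0 : 0 < z := by rw [hz]; exact Real.exp_pos _
    have hz1 : z < 1 := by
      rw [hz]
      apply Real.exp_lt_one_iff.mpr
      have : 0 < β / ((n : ℝ) + 1) ^ 2 := by positivity
      linarith
    have hL := EE_laplace n hz0 hz1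
    have hzz : 1 - z ^ 2 ≤ (s / (n + 1)) ^ 2 := by
      have e1 : z ^ 2 = Real.exp (-(2 * β / (n + 1) ^ 2)) := by
        rw [hz, ← Real.exp_nat_mul]
        congr 1
        push_cast
        ring
      have := Real.add_one_le_exp (-(2 * β / ((n : ℝ) + 1) ^ 2))
      rw [e1, div_pow, hs2]
      linarith
    have hsq : Real.sqrt (1 - z ^ 2) ≤ s / (n + 1) := Real.sqrt_le_iff.mpr ⟨by positivity, hzz⟩
    have hx2 : s / ((n : ℝ) + 1) ≤ 1 / 2 := by
      rw [div_le_iff₀ hn1]; linarith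
    have hlow : Real.exp (-(2 * s)) ≤ (1 - Real.sqrt (1 - z ^ 2)) ^ (n + 1) := by
      have h1 : Real.exp (-(2 * (s / (n + 1)))) ≤ 1 - Real.sqrt (1 - z ^ 2) :=
        (F1_one_sub_ge (by positivity) hx2).trans (by linarith)
      calc Real.exp (-(2 * s)) = (Real.exp (-(2 * (s / (n + 1))))) ^ (n + 1) := by
            rw [← Real.exp_nat_mul]
            congr 1
            push_cast
            field_simp
        _ ≤ _ := pow_le_pow_left₀ (Real.exp_nonneg _) h1 _
    obtain ⟨M, hM⟩ : ∃ M, M = ⌊η * ((n : ℝ) + 1) ^ 2⌋₊ := ⟨_, rfl⟩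
    have hMlt : η * ((n : ℝ) + 1) ^ 2 < (M : ℝ) + 1 := by rw [hM]; exact Nat.lt_floor_add_one _
    have hzM : z ^ (M + 1) ≤ Real.exp (-(β * η)) := by
      rw [hz, ← Real.exp_nat_mul]
      apply Real.exp_le_exp.mpr
      push_cast
      have h1 : β * η ≤ ((M : ℝ) + 1) * (β / (n + 1) ^ 2) := by
        rw [mul_div_assoc', le_div_iff₀ (by positivity)]
        nlinarith
      linarith
    have hpt : EE n (fun w => ENNReal.ofReal (z ^ (w.length + 1))) ≤
        EE n (fun w => if w.length ≤ M then 1 else 0) + ENNReal.ofReal (Real.exp (-(β * η))) := by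
      rw [← F1_const n (ENNReal.ofReal (Real.exp (-(β * η)))), ← EE_add]
      apply EE_mono
      intro w _
      split_ifs with h
      · refine le_trans ?_ le_self_add
        rw [← ENNReal.ofReal_one]
        apply ENNReal.ofReal_le_ofReal
        exact pow_le_one₀ hz0.le hz1.le
      · rw [zero_add]
        apply ENNReal.ofReal_le_ofReal
        refine le_trans ?_ hzM
        exact pow_le_pow_of_le_one hz0.le hz1.le (by omega)
    rw [← hM]
    have h3 : ENNReal.ofReal (Real.exp (-(2 * s))) ≤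
        EE n (fun w => if w.length ≤ M then 1 else 0) + ENNReal.ofReal (Real.exp (-(β * η))) :=
      (ENNReal.ofReal_le_ofReal hlow).trans (hL.trans hpt)
    rw [ENNReal.ofReal_sub _ (Real.exp_nonneg _)]
    exact tsub_le_iff_right.mpr h3

/-- with probability bounded below a star word has few bad stars -/
theorem XX_small (δ : ℝ) (hδ : 0 < δ) : ∃ p : ℝ, 0 < p ∧ ∀ᶠ n : ℕ in atTop,
    ENNReal.ofReal p ≤ EE n (fun w => if (XX w : ℝ) ≤ δ * (n + 1) then 1 else 0) := by
  obtain ⟨C, hC, hmean⟩ := uc_uo_mean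
  obtain ⟨η, hη⟩ : ∃ η, η = (δ / (2 * C)) ^ 2 := ⟨_, rfl⟩
  have hη0 : 0 < η := by rw [hη]; positivity
  obtain ⟨q, hq, hev⟩ := F1_short η hη0
  refine ⟨q / 2, by positivity, ?_⟩
  filter_upwards [hev] with n hn
  obtain ⟨M, hM⟩ : ∃ M, M = ⌊η * ((n : ℝ) + 1) ^ 2⌋₊ := ⟨_, rfl⟩
  rw [← hM] at hn
  obtain ⟨P, hP⟩ : ∃ P, P = EE n (fun w => if w.length ≤ M then 1 else 0) := ⟨_, rfl⟩
  have hP1 : P ≤ 1 := by
    rw [hP]
    refine le_trans (EE_mono (h := fun _ => 1) ?_) (EE_one n).le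
    intro w _
    split_ifs
    · exact le_rfl
    · exact bot_le
  have hn1 : (0 : ℝ) < (n : ℝ) + 1 := by positivity
  have hsM : C * Real.sqrt M ≤ δ * (n + 1) / 2 := by
    have h1 : (M : ℝ) ≤ η * ((n : ℝ) + 1) ^ 2 := by rw [hM]; exact Nat.floor_le (by positivity)
    have h2 : Real.sqrt M ≤ δ / (2 * C) * (n + 1) := by
      apply Real.sqrt_le_iff.mpr
      refine ⟨by positivity, ?_⟩
      rw [mul_pow, ← hη]
      exact h1
    calc C * Real.sqrt M ≤ C * (δ / (2 * C) * (n + 1)) := by gcongr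
      _ = δ * (n + 1) / 2 := by field_simp
  have hlow := EE_lower n (fun s => (((uc s + uo s : ℕ) : ℝ≥0∞))) M
    (ENNReal.ofReal (δ * (n + 1) / 2)) (by
      intro N hN
      have h1 := hmean N
      have h2 : ∑ s : Fin N → Bool, ((uc (List.ofFn s) : ℝ) + uo (List.ofFn s)) ≤
          δ * (n + 1) / 2 * 2 ^ N := by
        refine h1.trans ?_
        gcongr
        refine le_trans ?_ hsM
        gcongr
      calc ∑ l : Fin N → Bool, (((uc (List.ofFn l) + uo (List.ofFn l) : ℕ)) : ℝ≥0∞)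
          = ENNReal.ofReal (∑ s : Fin N → Bool, ((uc (List.ofFn s) : ℝ) + uo (List.ofFn s))) := by
            rw [ENNReal.ofReal_sum_of_nonneg (fun _ _ => by positivity)]
            apply Finset.sum_congr rfl
            intro s _
            rw [← Nat.cast_add, ENNReal.ofReal_natCast]
        _ ≤ ENNReal.ofReal (δ * (n + 1) / 2 * 2 ^ N) := ENNReal.ofReal_le_ofReal h2
        _ = _ := by
            rw [ENNReal.ofReal_mul (by positivity), ENNReal.ofReal_pow (by norm_num)]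
            norm_num)
  have hpt : P ≤ EE n (fun w => if (XX w : ℝ) ≤ δ * (n + 1) then 1 else 0) +
      ENNReal.ofReal (1 / (δ * (n + 1))) *
        EE n (fun w => if w.length ≤ M then (((uc (lo w) + uo (lo w) : ℕ)) : ℝ≥0∞) else 0) := by
    rw [← EE_mul_left, ← EE_add, hP]
    apply EE_mono
    intro w _
    by_cases h1 : w.length ≤ M
    · by_cases h2 : (XX w : ℝ) ≤ δ * (n + 1)
      · rw [if_pos h1, if_pos h2]
        exact le_self_add
      · rw [if_pos h1, if_neg h2, if_pos h1, zero_add]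
        push Not at h2
        rw [← ENNReal.ofReal_natCast, ← ENNReal.ofReal_mul (by positivity), ← ENNReal.ofReal_one]
        apply ENNReal.ofReal_le_ofReal
        rw [one_div, inv_mul_eq_div, le_div_iff₀ (by positivity), one_mul]
        refine h2.le.trans ?_
        exact_mod_cast XX_le_lower w
    · rw [if_neg h1]
      exact bot_le
  have h4 : P ≤ EE n (fun w => if (XX w : ℝ) ≤ δ * (n + 1) then 1 else 0) +
      ENNReal.ofReal (1 / 2) * P := by
    refine hpt.trans (add_le_add le_rfl ?_)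
    calc ENNReal.ofReal (1 / (δ * (n + 1))) *
        EE n (fun w => if w.length ≤ M then (((uc (lo w) + uo (lo w) : ℕ)) : ℝ≥0∞) else 0)
        ≤ ENNReal.ofReal (1 / (δ * (n + 1))) * (ENNReal.ofReal (δ * (n + 1) / 2) * P) := by
          rw [hP]
          gcongr
      _ = ENNReal.ofReal (1 / 2) * P := by
          rw [← mul_assoc, ← ENNReal.ofReal_mul (by positivity)]
          congr 2
          field_simp
  -- pass to real numbers
  have hPfin : P ≠ ⊤ := ne_top_of_le_ne_top ENNReal.one_ne_top hP1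
  obtain ⟨Q, hQ⟩ : ∃ Q, Q = EE n (fun w => if (XX w : ℝ) ≤ δ * (n + 1) then 1 else 0) := ⟨_, rfl⟩
  have hQ1 : Q ≤ 1 := by
    rw [hQ]
    refine le_trans (EE_mono (h := fun _ => 1) ?_) (EE_one n).le
    intro w _
    split_ifs
    · exact le_rfl
    · exact bot_le
  have hQfin : Q ≠ ⊤ := ne_top_of_le_ne_top ENNReal.one_ne_top hQ1
  rw [← hQ] at h4 ⊢
  rw [← hP] at hn
  have hn' : q ≤ P.toReal := (ENNReal.ofReal_le_iff_le_toReal hPfin).mp hn
  have h5 : P.toReal ≤ Q.toReal + 1 / 2 * P.toReal := by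
    have := ENNReal.toReal_mono (ENNReal.add_ne_top.mpr ⟨hQfin, ENNReal.mul_ne_top
      ENNReal.ofReal_ne_top hPfin⟩) h4
    rwa [ENNReal.toReal_add hQfin (ENNReal.mul_ne_top ENNReal.ofReal_ne_top hPfin),
      ENNReal.toReal_mul, ENNReal.toReal_ofReal (by norm_num)] at this
  rw [ENNReal.ofReal_le_iff_le_toReal hQfin]
  linarith

/-- the mean number of bad stars as a real number -/
noncomputable def F1_u (N : ℕ) : ℝ := (EE (N - 1) (fun w => (XX w : ℝ≥0∞))).toReal + 1

theorem F1_le (n : ℕ) : EE n (fun w => (XX w : ℝ≥0∞)) ≤ n := by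
  rw [← F1_const n (n : ℝ≥0∞)]
  apply EE_mono
  intro w hw
  exact_mod_cast XX_le_star hw

theorem F1_fin (n : ℕ) : EE n (fun w => (XX w : ℝ≥0∞)) ≠ ⊤ :=
  ne_top_of_le_ne_top (ENNReal.natCast_ne_top n) (F1_le n)

theorem F1_u_nonneg (N : ℕ) : 0 ≤ F1_u N := by
  have : 0 ≤ (EE (N - 1) (fun w => (XX w : ℝ≥0∞))).toReal := ENNReal.toReal_nonneg
  unfold F1_u; linarith

theorem F1_u_sub : Subadditive F1_u := by
  intro m n
  rcases Nat.eq_zero_or_pos m with hm | hm
  · subst hm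
    rw [zero_add]
    have := F1_u_nonneg 0
    linarith
  rcases Nat.eq_zero_or_pos n with hn | hn
  · subst hn
    rw [add_zero]
    have := F1_u_nonneg 0
    linarith
  have e : m + n - 1 = (m - 1) + 1 + (n - 1) := by omega
  have h := F1_sub (m - 1) (n - 1)
  have h2 := ENNReal.toReal_mono (ENNReal.add_ne_top.mpr ⟨ENNReal.add_ne_top.mpr
    ⟨F1_fin (m - 1), ENNReal.one_ne_top⟩, F1_fin (n - 1)⟩) h
  rw [ENNReal.toReal_add (ENNReal.add_ne_top.mpr ⟨F1_fin (m - 1), ENNReal.one_ne_top⟩)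
    (F1_fin (n - 1)), ENNReal.toReal_add (F1_fin (m - 1)) ENNReal.one_ne_top,
    ENNReal.toReal_one] at h2
  unfold F1_u
  rw [e]
  linarith

theorem F1_bdd : BddBelow (Set.range fun n => F1_u n / n) :=
  ⟨0, by rintro _ ⟨n, rfl⟩; exact div_nonneg (F1_u_nonneg n) (Nat.cast_nonneg n)⟩

theorem F1_toReal_one {n : ℕ} {g : Wd → ℝ≥0∞} (hg : ∀ w, g w ≤ 1) : EE n g ≤ 1 := by
  rw [← EE_one n]
  exact EE_mono (fun w _ => hg w)

/-- the limit of the mean density of bad stars is zero -/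
theorem F1_lim : F1_u_sub.lim ≤ 0 := by
  by_contra hpos
  push Not at hpos
  obtain ⟨φ, hφ⟩ : ∃ φ, φ = F1_u_sub.lim := ⟨_, rfl⟩
  rw [← hφ] at hpos
  have hlim : Tendsto (fun n => F1_u n / n) atTop (nhds φ) := by
    rw [hφ]; exact F1_u_sub.tendsto_lim F1_bdd
  have hle : ∀ n : ℕ, φ * (n + 1) ≤ (EE n (fun w => (XX w : ℝ≥0∞))).toReal + 1 := by
    intro n
    have h := F1_u_sub.lim_le_div F1_bdd (n := n + 1) (by omega)
    rw [← hφ, le_div_iff₀ (by positivity)] at h
    simpa [F1_u] using h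
  obtain ⟨p, hp, hsmall⟩ := XX_small (φ / 2) (by positivity)
  obtain ⟨ε, hε⟩ : ∃ ε, ε = min 1 (φ * p / 8) := ⟨_, rfl⟩
  have hε0 : 0 < ε := by rw [hε]; positivity
  have hε1 : ε ≤ 1 := by rw [hε]; exact min_le_left _ _
  have hε2 : ε ≤ φ * p / 8 := by rw [hε]; exact min_le_right _ _
  -- choose the block size
  obtain ⟨b, hb⟩ : ∃ b : ℕ, F1_u (b + 1) ≤ (φ + ε) * (b + 1) := by
    have h1 : ∀ᶠ n : ℕ in atTop, F1_u n / n < φ + ε :=
      hlim.eventually (gt_mem_nhds (by linarith))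
    obtain ⟨N, hN⟩ := (h1.and (eventually_ge_atTop 1)).exists
    refine ⟨N - 1, ?_⟩
    have hN1 : N - 1 + 1 = N := by omega
    have hNr : ((N - 1 : ℕ) : ℝ) + 1 = N := by exact_mod_cast hN1
    rw [hN1, hNr]
    have hNpos : (0 : ℝ) < N := by exact_mod_cast hN.2
    exact ((div_lt_iff₀ hNpos).mp hN.1).le
  obtain ⟨x, hx⟩ : ∃ x, x = (EE b (fun w => (XX w : ℝ≥0∞))).toReal := ⟨_, rfl⟩
  have hx0 : 0 ≤ x := by rw [hx]; exact ENNReal.toReal_nonneg
  have hxE : EE b (fun w => (XX w : ℝ≥0∞)) ≤ ENNReal.ofReal x := by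
    rw [hx, ENNReal.ofReal_toReal (F1_fin b)]
  have hxb : x + 1 ≤ (φ + ε) * (b + 1) := by
    have : F1_u (b + 1) = x + 1 := by simp [F1_u, hx]
    rw [← this]; exact hb
  have hb1 : (0 : ℝ) < (b : ℝ) + 1 := by positivity
  obtain ⟨lam, hlam⟩ : ∃ lam, lam = ε / (2 * ((b : ℝ) + 1)) := ⟨_, rfl⟩
  have hlam0 : 0 < lam := by rw [hlam]; positivity
  have hlamb : lam * (b + 1) = ε / 2 := by rw [hlam]; field_simp
  -- tail bound along the blocks
  have htail : ∀ t : ℕ, EE (t * (b + 1) + b)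
      (fun w => if (φ + 2 * ε) * ((t + 1) * (b + 1)) < XX w then 1 else 0) ≤
      ENNReal.ofReal (Real.exp (-(ε ^ 2 / 4) * (t + 1))) := by
    intro t
    refine (XX_chernoff b t hxE hx0 hlam0 (by rw [hlamb]; linarith)
      ((φ + 2 * ε) * ((t + 1) * (b + 1)))).trans ?_
    apply ENNReal.ofReal_le_ofReal
    apply Real.exp_le_exp.mpr
    have h1 : lam * (x + 1) ≤ (φ + ε) * (ε / 2) := by
      rw [← hlamb]; nlinarith
    have h2 : lam ^ 2 * ((b : ℝ) + 1) ^ 2 = (ε / 2) ^ 2 := by rw [← mul_pow, hlamb]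
    have h3 : -lam * ((φ + 2 * ε) * ((t + 1) * ((b : ℝ) + 1))) =
        -((φ + 2 * ε) * (ε / 2)) * (t + 1) := by rw [← hlamb]; ring
    rw [h2, h3]
    have ht : (0 : ℝ) < (t : ℝ) + 1 := by positivity
    nlinarith
  -- the main inequality
  have hmain : ∀ᶠ t : ℕ in atTop, φ * p / 4 ≤
      Real.exp (-(ε ^ 2 / 4) * (t + 1)) + 1 / ((t + 1) * ((b : ℝ) + 1)) := by
    have hsub : Tendsto (fun t : ℕ => t * (b + 1) + b) atTop atTop := by
      apply tendsto_atTop_mono (f := fun t => t) _ tendsto_id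
      intro t
      nlinarith [Nat.zero_le b, Nat.zero_le t]
    filter_upwards [hsub.eventually hsmall] with t ht
    obtain ⟨n, hn⟩ : ∃ n, n = t * (b + 1) + b := ⟨_, rfl⟩
    have hnr : (n : ℝ) + 1 = (t + 1) * (b + 1) := by rw [hn]; push_cast; ring
    have hT := htail t
    rw [← hn] at ht hT
    rw [← hnr] at hT ⊢
    have hn1 : (0 : ℝ) < (n : ℝ) + 1 := by positivity
    obtain ⟨A, hA⟩ : ∃ A, A = EE n (fun w => if (XX w : ℝ) ≤ φ / 2 * (n + 1) then 1 else 0) :=
      ⟨_, rfl⟩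
    obtain ⟨B, hB⟩ : ∃ B, B = EE n (fun w => if (φ + 2 * ε) * ((n : ℝ) + 1) < XX w then 1 else 0) :=
      ⟨_, rfl⟩
    have hA1 : A ≤ 1 := by
      rw [hA]; apply F1_toReal_one; intro w; split_ifs
      · exact le_rfl
      · exact bot_le
    have hB1 : B ≤ 1 := by
      rw [hB]; apply F1_toReal_one; intro w; split_ifs
      · exact le_rfl
      · exact bot_le
    have hAf : A ≠ ⊤ := ne_top_of_le_ne_top ENNReal.one_ne_top hA1
    have hBf : B ≠ ⊤ := ne_top_of_le_ne_top ENNReal.one_ne_top hB1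
    rw [← hA] at ht
    rw [← hB] at hT
    have hpt : EE n (fun w => (XX w : ℝ≥0∞)) + ENNReal.ofReal (φ / 2 * (n + 1)) * A ≤
        ENNReal.ofReal ((φ + 2 * ε) * (n + 1)) + n * B := by
      rw [hA, hB, ← EE_mul_left, ← EE_add, ← EE_mul_left, ← F1_const n
        (ENNReal.ofReal ((φ + 2 * ε) * (n + 1))), ← EE_add]
      apply EE_mono
      intro w hw
      have hXn : (XX w : ℝ) ≤ n := by exact_mod_cast XX_le_star hw
      by_cases h1 : (XX w : ℝ) ≤ φ / 2 * (n + 1)
      · rw [if_pos h1, mul_one]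
        refine le_trans ?_ le_self_add
        rw [← ENNReal.ofReal_natCast, ← ENNReal.ofReal_add (by positivity) (by positivity)]
        apply ENNReal.ofReal_le_ofReal
        nlinarith
      · rw [if_neg h1, mul_zero, add_zero]
        by_cases h2 : (φ + 2 * ε) * ((n : ℝ) + 1) < XX w
        · rw [if_pos h2, mul_one]
          refine le_trans ?_ le_add_self
          exact_mod_cast XX_le_star hw
        · rw [if_neg h2, mul_zero, add_zero]
          push Not at h2
          rw [← ENNReal.ofReal_natCast]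
          exact ENNReal.ofReal_le_ofReal h2
    have hreal : (EE n (fun w => (XX w : ℝ≥0∞))).toReal + φ / 2 * (n + 1) * A.toReal ≤
        (φ + 2 * ε) * (n + 1) + n * B.toReal := by
      have h1 := ENNReal.toReal_mono (ENNReal.add_ne_top.mpr ⟨ENNReal.ofReal_ne_top,
        ENNReal.mul_ne_top (ENNReal.natCast_ne_top n) hBf⟩) hpt
      rwa [ENNReal.toReal_add (F1_fin n) (ENNReal.mul_ne_top ENNReal.ofReal_ne_top hAf),
        ENNReal.toReal_add ENNReal.ofReal_ne_top
          (ENNReal.mul_ne_top (ENNReal.natCast_ne_top n) hBf),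
        ENNReal.toReal_mul, ENNReal.toReal_mul, ENNReal.toReal_ofReal (by positivity),
        ENNReal.toReal_ofReal (by positivity), ENNReal.toReal_natCast] at h1
    have hAp : p ≤ A.toReal := (ENNReal.ofReal_le_iff_le_toReal hAf).mp ht
    have hBp : B.toReal ≤ Real.exp (-(ε ^ 2 / 4) * (t + 1)) := by
      have := ENNReal.toReal_mono ENNReal.ofReal_ne_top hT
      rwa [ENNReal.toReal_ofReal (Real.exp_nonneg _)] at this
    have hB0 : 0 ≤ B.toReal := ENNReal.toReal_nonneg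
    have hX := hle n
    have h5 : φ / 2 * p * (n + 1) ≤ 2 * ε * (n + 1) + 1 + (n + 1) * B.toReal := by
      have h6 : φ / 2 * (n + 1) * p ≤ φ / 2 * (n + 1) * A.toReal := by gcongr
      nlinarith
    have h7 : φ * p / 4 * (n + 1) ≤ 1 + (n + 1) * B.toReal := by
      nlinarith
    have h8 : φ * p / 4 ≤ 1 / ((n : ℝ) + 1) + B.toReal := by
      rw [← mul_le_mul_iff_left₀ hn1]
      have : (1 / ((n : ℝ) + 1) + B.toReal) * (n + 1) = 1 + (n + 1) * B.toReal := by
        field_simp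
      rw [this]; exact h7
    linarith
  have hto : Tendsto (fun t : ℕ => Real.exp (-(ε ^ 2 / 4) * (t + 1)) +
      1 / ((t + 1) * ((b : ℝ) + 1))) atTop (nhds (0 + 0)) := by
    apply Tendsto.add
    · apply Real.tendsto_exp_atBot.comp
      have h1 : Tendsto (fun t : ℕ => (t : ℝ) + 1) atTop atTop :=
        tendsto_atTop_add_const_right _ _ tendsto_natCast_atTop_atTop
      exact h1.const_mul_atTop_of_neg (by nlinarith [sq_nonneg ε, pow_pos hε0 2])
    · have h1 : Tendsto (fun t : ℕ => 1 / ((t : ℝ) + 1)) atTop (nhds 0) :=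
        tendsto_one_div_add_atTop_nhds_zero_nat
      have h2 := h1.mul_const (1 / ((b : ℝ) + 1))
      rw [zero_mul] at h2
      refine h2.congr ?_
      intro t
      rw [one_div_mul_one_div]
  rw [add_zero] at hto
  have := ge_of_tendsto hto hmain
  have h9 : 0 < φ * p / 4 := by positivity
  linarith

/-- key lemma -/
theorem F1 (ε : ℝ) (hε : 0 < ε) : ∀ᶠ n : ℕ in atTop,
    EE n (fun w => (XX w : ℝ≥0∞)) ≤ ENNReal.ofReal (ε * (n + 1)) := by
  have hlim : Tendsto (fun n => F1_u n / n) atTop (nhds F1_u_sub.lim) :=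
    F1_u_sub.tendsto_lim F1_bdd
  have h1 : ∀ᶠ n : ℕ in atTop, F1_u n / n < ε :=
    hlim.eventually (gt_mem_nhds (lt_of_le_of_lt F1_lim hε))
  have h2 := (tendsto_add_atTop_nat 1).eventually h1
  filter_upwards [h2] with n hn
  have hn1 : (0 : ℝ) < ((n + 1 : ℕ) : ℝ) := by positivity
  have h3 := ((div_lt_iff₀ hn1).mp hn).le
  rw [← ENNReal.ofReal_toReal (F1_fin n)]
  apply ENNReal.ofReal_le_ofReal
  have h4 : F1_u (n + 1) = (EE n (fun w => (XX w : ℝ≥0∞))).toReal + 1 := by simp [F1_u]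
  rw [h4] at h3
  push_cast at h3
  linarith

end MeanderCLT
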