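import Pool.Agent.H98.M.Rec

/-!
# The cyclic matching of a balanced bracket word is an arc system
-/

namespace MeanderCLT

/-- arc systems of size `n`: noncrossing perfect matchings of `2n` points, given by the partner map -/
def IsArcSys (n : ℕ) (σ : Fin (2 * n) → Fin (2 * n)) : Prop :=
  (∀ i, σ (σ i) = i) ∧ (∀ i, σ i ≠ i) ∧ ∀ i j, i < j → j < σ i → σ j < σ i

theorem Fib_cj_symm {s : List Bool} {i j : ℕ} (h : cj s i j) : cj s j i := by
  obtain ⟨h1, h2, k, h3⟩ := h
  exact ⟨h2, h1, k, h3.symm⟩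

theorem Fib_cj_ufree {s : List Bool} {i j : ℕ} (h : cj s i j) : ufree s i := by
  obtain ⟨h1, h2, k, h3 | h3⟩ := h
  · exact rc_ufree h3.1
  · exact rc_mir_ufree h1 h3.2

/-- heights of an unmatched opening bracket of a balanced word -/
theorem Fib_mir {s : List Bool} (hs : hh s = 0) {j k : ℕ} (hj : j < s.length)
    (h : rc (mir s) (s.length - 1 - j) k) :
    ht s j = -((k : ℤ) + 1) ∧ ∀ u, j < u → u ≤ s.length → -((k : ℤ) + 1) < ht s u := by
  obtain ⟨_, h2, h3⟩ := h
  have hs' : ht s s.length = 0 := hs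
  constructor
  · rw [ht_mir s (by omega), hs'] at h2
    have e : s.length - (s.length - 1 - j + 1) = j := by omega
    rw [e] at h2
    omega
  · intro u hu hu'
    have := h3 (s.length - u) (by omega)
    rw [ht_mir s (by omega), hs'] at this
    have e : s.length - (s.length - u) = u := by omega
    rw [e] at this
    omega

theorem Fib_cj_func {s : List Bool} {i j k : ℕ} (h : cj s i j) (h' : cj s i k) : j = k := by
  obtain ⟨h1, h2, a, h3⟩ := h
  obtain ⟨_, h2', b, h3'⟩ := h'
  rcases h3 with h3 | h3 <;> rcases h3' with h3' | h3'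
  · have := rc_idx_unique h3.1 h3'.1
    subst this
    have := rc_pos_unique h3.2 h3'.2
    omega
  · have e1 := rc_letter h3.1
    have e2 := rc_mir_letter h1 h3'.2
    rw [e1] at e2
    simp at e2
  · have e1 := rc_letter h3'.1
    have e2 := rc_mir_letter h1 h3.2
    rw [e1] at e2
    simp at e2
  · have := rc_idx_unique h3.2 h3'.2
    subst this
    exact rc_pos_unique h3.1 h3'.1

theorem Fib_isMat (s : List Bool) : IsMat (Or2 (Arc s) (cj s)) := by
  refine ⟨?_, ?_, ?_⟩
  · rintro x y (h | h)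
    · exact Or.inl ((isMat_Arc s).symm h)
    · exact Or.inr (Fib_cj_symm h)
  · rintro x y z (h | h) (h' | h')
    · exact (isMat_Arc s).func h h'
    · exact absurd h ((Fib_cj_ufree h').2 y)
    · exact absurd h' ((Fib_cj_ufree h).2 z)
    · exact Fib_cj_func h h'
  · rintro x (h | h)
    · exact (isMat_Arc s).irrefl x h
    · obtain ⟨h1, _, k, h3 | h3⟩ := h
      · have e1 := rc_letter h3.1
        have e2 := rc_mir_letter h1 h3.2
        rw [e1] at e2
        simp at e2
      · have e1 := rc_letter h3.1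
        have e2 := rc_mir_letter h1 h3.2
        rw [e1] at e2
        simp at e2

theorem Fib_exists {s : List Bool} (hs : hh s = 0) {i : ℕ} (hi : i < s.length) :
    ∃ j, j < s.length ∧ Or2 (Arc s) (cj s) i j := by
  have huu : uo s = uc s := by
    have := hh_eq s
    omega
  by_cases hu : ∃ j, Arc s i j
  · obtain ⟨j, hj⟩ := hu
    exact ⟨j, (Arc_lt hj).2, Or.inl hj⟩
  · push Not at hu
    have huf : ufree s i := ⟨hi, hu⟩
    rcases ht_step hi with ⟨hb, _⟩ | ⟨hb, _⟩
    · obtain ⟨k, hk⟩ := ufree_true huf hb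
      have h1 := rc_lt hk
      rw [uc_mir, huu] at h1
      obtain ⟨j, hj⟩ := rc_exists h1
      exact ⟨j, hj.1, Or.inr ⟨hi, hj.1, k, Or.inr ⟨hj, hk⟩⟩⟩
    · obtain ⟨k, hk⟩ := ufree_false huf hb
      have h1 := rc_lt hk
      rw [← huu, ← uc_mir] at h1
      obtain ⟨j, hj⟩ := rc_exists h1
      have h2 := hj.1
      rw [length_mir] at h2
      refine ⟨s.length - 1 - j, by omega, Or.inr ⟨hi, by omega, k, Or.inl ⟨hk, ?_⟩⟩⟩
      have e : s.length - 1 - (s.length - 1 - j) = j := by omega
      rw [e]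
      exact hj

/-- a cyclic arc from left to right starts at a closing bracket -/
theorem Fib_type {s : List Bool} (hs : hh s = 0) {i b : ℕ} (hib : i < b) (h : cj s i b) :
    b < s.length ∧ ∃ k : ℕ, ht s (i + 1) = -((k : ℤ) + 1) ∧ (∀ t, t ≤ i → -((k : ℤ) + 1) < ht s t) ∧
      ht s b = -((k : ℤ) + 1) ∧ ∀ u, b < u → u ≤ s.length → -((k : ℤ) + 1) < ht s u := by
  obtain ⟨h1, h2, k, h3 | h3⟩ := h
  · obtain ⟨m1, m2⟩ := Fib_mir hs h2 h3.2
    exact ⟨h2, k, h3.1.2.1, h3.1.2.2, m1, m2⟩
  · obtain ⟨m1, m2⟩ := Fib_mir hs h1 h3.2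
    have := h3.1.2.2 i hib.le
    omega

theorem Fib_noncross {s : List Bool} (hs : hh s = 0) {i b j m : ℕ}
    (hib : Or2 (Arc s) (cj s) i b) (hjm : Or2 (Arc s) (cj s) j m) (h1 : i < j) (h2 : j < b)
    (h3 : b < m) : False := by
  rcases hib with h | h
  · rcases h with h | h
    · obtain ⟨_, a2, a3, a4⟩ := h
      have a5 := a4 j h1 (by omega)
      rcases hjm with h | h
      · rcases h with h | h
        · have := h.2.2.2 (b + 1) (by omega) (by omega)
          omega
        · have := h.1; omega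
      · obtain ⟨c1, k, c2, c3, c4, c5⟩ := Fib_type hs (by omega) h
        have d1 := c3 i (by omega)
        have d2 := a4 (j + 1) (by omega) (by omega)
        omega
    · have := h.1; omega
  · obtain ⟨b1, k, b2, b3, b4, b5⟩ := Fib_type hs (by omega) h
    rcases hjm with h | h
    · rcases h with h | h
      · have hm := h.2.1
        have c1 := b5 (m + 1) (by omega) (by omega)
        have c2 := h.2.2.1
        have c3 := h.2.2.2 b (by omega) (by omega)
        omega
      · have := h.1; omega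
    · obtain ⟨c1, k', c2, c3, c4, c5⟩ := Fib_type hs (by omega) h
      have d1 := c3 (i + 1) (by omega)
      have d2 := b5 m (by omega) (by omega)
      omega

/-- the cyclic matching of a balanced bracket word is an arc system -/
theorem fiber_exists {n : ℕ} (s : Fin (2 * n) → Bool) (hs : hh (List.ofFn s) = 0) :
    ∃ σ, IsArcSys n σ ∧ ∀ i : Fin (2 * n), Or2 (Arc (List.ofFn s)) (cj (List.ofFn s)) (i : ℕ) (σ i : ℕ) := by
  have hlen : (List.ofFn s).length = 2 * n := List.length_ofFn
  have hex : ∀ i : Fin (2 * n), ∃ j : Fin (2 * n),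
      Or2 (Arc (List.ofFn s)) (cj (List.ofFn s)) (i : ℕ) (j : ℕ) := by
    intro i
    obtain ⟨j, hj, h⟩ := Fib_exists hs (i := (i : ℕ)) (by rw [hlen]; exact i.2)
    exact ⟨⟨j, by rw [hlen] at hj; exact hj⟩, h⟩
  choose σ hσ using hex
  have hM := Fib_isMat (List.ofFn s)
  have hinv : ∀ i, σ (σ i) = i := by
    intro i
    apply Fin.ext
    exact hM.func (hσ (σ i)) (hM.symm (hσ i))
  refine ⟨σ, ⟨hinv, ?_, ?_⟩, hσ⟩
  · intro i h
    have := hσ i
    rw [h] at this
    exact hM.irrefl _ this
  · intro i j hij hj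
    by_contra hcon
    have hne : σ j ≠ σ i := by
      intro h
      have := congrArg σ h
      rw [hinv, hinv] at this
      exact absurd this hij.ne'
    have hlt : σ i < σ j := lt_of_le_of_ne (not_lt.1 hcon) (Ne.symm hne)
    exact Fib_noncross hs (hσ i) (hσ j) hij hj hlt

end MeanderCLT
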