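import Pool.Agent.H98.M.BridgeCLT
import Pool.Agent.H98.M.ArcAvg

/-!
# Asymptotic normality of the number of components
-/

open Filter Topology MeasureTheory ProbabilityTheory

namespace MeanderCLT

open Classical in
/-- the number of meandric systems of size `n` whose number of components `c` satisfies
`(c - a) / b ≤ t`, divided by the number of all meandric systems of size `n` -/
noncomputable def distFun (n : ℕ) (a b t : ℝ) : ℝ :=
  ((Finset.univ.filter (fun p : (Fin (2 * n) → Fin (2 * n)) × (Fin (2 * n) → Fin (2 * n)) =>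
      IsArcSys n p.1 ∧ IsArcSys n p.2 ∧ ((comps n p.1 p.2 : ℝ) - a) / b ≤ t)).card : ℝ) /
    ((Finset.univ.filter (fun p : (Fin (2 * n) → Fin (2 * n)) × (Fin (2 * n) → Fin (2 * n)) =>
      IsArcSys n p.1 ∧ IsArcSys n p.2)).card : ℝ)

section Weak

open Classical in
/-- the uniform law of `X` on the finite set `S` (a Dirac mass when `S` is empty) -/
noncomputable def finLaw {Ω : Type*} (S : Finset Ω) (X : Ω → ℝ) : Measure ℝ :=
  if S.Nonempty then (S.card : ENNReal)⁻¹ • ∑ p ∈ S, Measure.dirac (X p) else Measure.dirac 0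

instance finLaw_prob {Ω : Type*} (S : Finset Ω) (X : Ω → ℝ) : IsProbabilityMeasure (finLaw S X) := by
  unfold finLaw
  split_ifs with h
  · constructor
    rw [Measure.smul_apply, Measure.finsetSum_apply]
    simp only [measure_univ, Finset.sum_const, nsmul_eq_mul, mul_one, smul_eq_mul]
    apply ENNReal.inv_mul_cancel
    · simpa using h.ne_empty
    · simp
  · infer_instance

theorem finLaw_charFun {Ω : Type*} (S : Finset Ω) (X : Ω → ℝ) (h : S.Nonempty) (θ : ℝ) :
    charFun (finLaw S X) θ =
      (∑ p ∈ S, Complex.exp (Complex.I * ((θ * X p : ℝ) : ℂ))) / (S.card : ℂ) := by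
  unfold finLaw
  rw [if_pos h, charFun_apply_real, integral_smul_measure, integral_finsetSum_measure]
  · simp only [integral_dirac]
    rw [ENNReal.toReal_inv, ENNReal.toReal_natCast]
    rw [Complex.real_smul, div_eq_inv_mul]
    push_cast
    congr 1
    refine Finset.sum_congr rfl fun p _ => ?_
    congr 1
    ring
  · intro p _
    exact integrable_dirac (by simp)

open Classical in
theorem finLaw_Iic {Ω : Type*} (S : Finset Ω) (X : Ω → ℝ) (h : S.Nonempty) (t : ℝ) :
    (finLaw S X).real (Set.Iic t) =
      ((S.filter (fun p => X p ≤ t)).card : ℝ) / (S.card : ℝ) := by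
  unfold finLaw
  rw [if_pos h, Measure.real, Measure.smul_apply, Measure.finsetSum_apply]
  have e : ∑ p ∈ S, (Measure.dirac (X p)) (Set.Iic t) =
      (((S.filter (fun p => X p ≤ t)).card : ℕ) : ENNReal) := by
    rw [Finset.card_filter]
    push_cast
    refine Finset.sum_congr rfl fun p _ => ?_
    rw [Measure.dirac_apply' _ measurableSet_Iic]
    by_cases hp : X p ≤ t
    · simp [hp]
    · simp [hp]
  rw [e, smul_eq_mul, ENNReal.toReal_mul, ENNReal.toReal_inv, ENNReal.toReal_natCast,
    ENNReal.toReal_natCast, div_eq_inv_mul]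

open Classical in
/-- Levy's theorem for uniform laws on finite sets -/
theorem final_weak {Ω : ℕ → Type} (S : ∀ n, Finset (Ω n)) (X : ∀ n, Ω n → ℝ)
    (hne : ∀ᶠ n in atTop, (S n).Nonempty)
    (hchar : ∀ θ : ℝ, Tendsto (fun n => (∑ p ∈ S n,
      Complex.exp (Complex.I * ((θ * X n p : ℝ) : ℂ))) / ((S n).card : ℂ)) atTop
      (𝓝 ((Real.exp (-θ ^ 2 / 2) : ℝ) : ℂ))) (t : ℝ) :
    Tendsto (fun n => (((S n).filter (fun p => X n p ≤ t)).card : ℝ) / ((S n).card : ℝ)) atTop
      (𝓝 ((gaussianReal 0 1).real (Set.Iic t))) := by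
  set μs : ℕ → ProbabilityMeasure ℝ := fun n => ⟨finLaw (S n) (X n), inferInstance⟩ with hμs
  set μ : ProbabilityMeasure ℝ := ⟨gaussianReal 0 1, inferInstance⟩ with hμ
  have hlim : Tendsto μs atTop (𝓝 μ) := by
    refine ProbabilityMeasure.tendsto_iff_tendsto_charFun.2 fun θ => ?_
    have e1 : charFun (μ : Measure ℝ) θ = ((Real.exp (-θ ^ 2 / 2) : ℝ) : ℂ) := by
      change charFun (gaussianReal 0 1) θ = _
      rw [charFun_gaussianReal]
      push_cast
      congr 1
      simp
      ring
    rw [e1]
    refine (hchar θ).congr' ?_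
    filter_upwards [hne] with n hn
    exact (finLaw_charFun (S n) (X n) hn θ).symm
  have : NullSingletonClass (gaussianReal 0 1) := nullSingletonClass_gaussianReal one_ne_zero
  have h0 : (μ : Measure ℝ) (frontier (Set.Iic t)) = 0 := by
    change (gaussianReal 0 1) (frontier (Set.Iic t)) = 0
    rw [frontier_Iic]
    exact measure_singleton t
  have h1 := ProbabilityMeasure.tendsto_measure_of_null_frontier_of_tendsto' hlim h0
  have h2 : Tendsto (fun n => (finLaw (S n) (X n)).real (Set.Iic t)) atTop
      (𝓝 ((gaussianReal 0 1).real (Set.Iic t))) := by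
    unfold Measure.real
    exact (ENNReal.tendsto_toReal (measure_ne_top _ _)).comp h1
  refine h2.congr' ?_
  filter_upwards [hne] with n hn
  exact finLaw_Iic (S n) (X n) hn t

end Weak

open Classical in
/-- the set of meandric systems -/
noncomputable def finS (n : ℕ) : Finset ((Fin (2 * n) → Fin (2 * n)) × (Fin (2 * n) → Fin (2 * n))) :=
  Finset.univ.filter (fun p => IsArcSys n p.1 ∧ IsArcSys n p.2)

theorem finS_nonempty (n : ℕ) : (finS n).Nonempty := by
  classical
  obtain ⟨c, hc, hp⟩ := bridge_prob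
  have hpos : 0 < Pw (2 * n) Bal := lt_of_lt_of_le (by positivity) (hp n)
  by_contra hcon
  rw [Finset.not_nonempty_iff_eq_empty] at hcon
  have h1 := BrC_arcs n (fun _ => (1 : ℂ))
  have h2 : (Finset.univ.filter
      (fun p : (Fin (2 * n) → Fin (2 * n)) × (Fin (2 * n) → Fin (2 * n)) =>
        IsArcSys n p.1 ∧ IsArcSys n p.2)) = ∅ := by
    rw [← hcon]
    rfl
  rw [h2] at h1
  simp only [Finset.sum_empty, Finset.card_empty, Nat.cast_zero, div_zero] at h1
  unfold BrC at h1
  have h3 : EwC (2 * n) (fun z => if Bal z then (1 : ℂ) else 0) = ((Pw (2 * n) Bal : ℝ) : ℂ) := by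
    unfold EwC Pw Ew
    push_cast
    congr 1
    refine Finset.sum_congr rfl fun x _ => ?_
    split_ifs <;> simp
  rw [h3, div_self (by exact_mod_cast hpos.ne')] at h1
  exact one_ne_zero h1

/-- main theorem -/
theorem main_clt : ∃ a b : ℕ → ℝ, (∀ n, 0 < b n) ∧ ∀ t : ℝ,
    Tendsto (fun n => distFun n (a n) (b n) t) atTop
      (𝓝 ((gaussianReal 0 1).real (Set.Iic t))) := by
  classical
  refine ⟨fun n => Ew (2 * n) ff, fun n => if 0 < sg (2 * n) ff then sg (2 * n) ff else 1, ?_, ?_⟩
  · intro n
    dsimp only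
    split_ifs with h
    · exact h
    · exact one_pos
  · intro t
    have hsg : ∀ᶠ n : ℕ in atTop, 0 < sg (2 * n) ff := by
      obtain ⟨c, hc, hv⟩ := var_lower (kappa / 2)
      have h2 : Tendsto (fun n : ℕ => 2 * n) atTop atTop :=
        tendsto_id.const_mul_atTop' (by norm_num)
      filter_upwards [h2.eventually hv, eventually_gt_atTop 0] with n hn hn0
      have : 0 < Vw (2 * n) ff := by
        refine lt_of_lt_of_le ?_ hn
        have : (0 : ℝ) < ((2 * n : ℕ) : ℝ) := by exact_mod_cast (by omega : 0 < 2 * n)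
        positivity
      exact Real.sqrt_pos.mpr this
    have key := final_weak (fun n => finS n)
      (fun n p => ((comps n p.1 p.2 : ℝ) - Ew (2 * n) ff) /
        (if 0 < sg (2 * n) ff then sg (2 * n) ff else 1))
      (Eventually.of_forall finS_nonempty) (by
        intro θ
        refine (bridge_clt θ).congr' ?_
        filter_upwards [hsg] with n hn
        have e := BrC_arcs n (fun x => Complex.exp (Complex.I *
          ((θ * (x - Ew (2 * n) ff) / sg (2 * n) ff : ℝ) : ℂ)))
        rw [e]
        have hS : (Finset.univ.filter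
          (fun p : (Fin (2 * n) → Fin (2 * n)) × (Fin (2 * n) → Fin (2 * n)) =>
            IsArcSys n p.1 ∧ IsArcSys n p.2)) = finS n := rfl
        rw [hS]
        congr 1
        refine Finset.sum_congr rfl fun p _ => ?_
        rw [if_pos hn, mul_div_assoc]) t
    refine key.congr fun n => ?_
    unfold distFun finS
    rw [Finset.filter_filter]
    congr 4
    ext p
    simp only [and_assoc]

end MeanderCLT
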