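import Pool.Agent.H98.M.Rec
import Pool.Agent.H98.M.Loops

/-!
# Gluing words: loops and ends
-/

namespace MeanderCLT

theorem isMat_dj (s t : List Bool) : IsMat (dj s t) := by
  refine ⟨?_, ?_, ?_⟩
  · rintro (i | i) (j | j) h
    · exact (isMat_Arc s).symm h
    · exact h.elim
    · exact h.elim
    · exact (isMat_Arc t).symm h
  · rintro (i | i) (j | j) (k | k) h h'
    · rw [(isMat_Arc s).func h h']
    · exact h'.elim
    · exact h.elim
    · exact h.elim
    · exact h.elim
    · exact h.elim
    · exact h'.elim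
    · rw [(isMat_Arc t).func h h']
  · rintro (i | i) h
    · exact (isMat_Arc s).irrefl _ h
    · exact (isMat_Arc t).irrefl _ h

theorem glue_isMat_gj (s t : List Bool) : IsMat (gj s t) := by
  refine ⟨?_, ?_, ?_⟩
  · rintro (i | i) (j | j) h
    · exact h.elim
    · exact h
    · exact h
    · exact h.elim
  · rintro (i | i) (j | j) (k | k) h h'
    · exact h.elim
    · exact h.elim
    · exact h'.elim
    · obtain ⟨a, h1, h2⟩ := h
      obtain ⟨b, h3, h4⟩ := h'
      have := rc_idx_unique h1 h3
      subst this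
      rw [rc_pos_unique h2 h4]
    · obtain ⟨a, h1, h2⟩ := h
      obtain ⟨b, h3, h4⟩ := h'
      have := rc_idx_unique h2 h4
      subst this
      rw [rc_pos_unique h1 h3]
    · exact h'.elim
    · exact h.elim
    · exact h.elim
  · rintro (i | i) h
    · exact h.elim
    · exact h.elim

theorem glue_not_both (s t : List Bool) {x y z : ℕ ⊕ ℕ} (h : dj s t x y) (h' : gj s t x z) :
    False := by
  rcases x with i | i <;> rcases y with j | j <;> rcases z with k | k
  · exact h'.elim
  · obtain ⟨a, h1, _⟩ := h'
    exact (rc_ufree h1).2 j h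
  · exact h.elim
  · exact h.elim
  · exact h.elim
  · exact h.elim
  · obtain ⟨a, _, h2⟩ := h'
    exact (rc_ufree h2).2 j h
  · exact h'.elim

theorem isMat_glue (s t : List Bool) : IsMat (Or2 (dj s t) (gj s t)) := by
  have hd := isMat_dj s t
  have hg := glue_isMat_gj s t
  refine ⟨?_, ?_, ?_⟩
  · rintro x y (h | h)
    · exact Or.inl (hd.symm h)
    · exact Or.inr (hg.symm h)
  · rintro x y z (h | h) (h' | h')
    · exact hd.func h h'
    · exact (glue_not_both s t h h').elim
    · exact (glue_not_both s t h' h).elim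
    · exact hg.func h h'
  · rintro x (h | h)
    · exact hd.irrefl _ h
    · exact hg.irrefl _ h

theorem dj_gj_disj (s t : List Bool) (x y : ℕ ⊕ ℕ) : ¬ (dj s t x y ∧ gj s t x y) := by
  rintro ⟨h, h'⟩
  exact glue_not_both s t h h'

theorem cc_mirw (x : Wd) : cc (mirw x) = cc x := by
  classical
  unfold cc
  have hA : (Finset.range x.length).image (fun i => x.length - 1 - i) = Finset.range x.length := by
    ext i
    simp only [Finset.mem_image, Finset.mem_range]
    constructor
    · rintro ⟨j, hj, rfl⟩; omega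
    · intro hi; exact ⟨x.length - 1 - i, by omega, by omega⟩
  have key : ∀ s : List Bool, s.length = x.length → ∀ i ∈ Finset.range x.length,
      ∀ j ∈ Finset.range x.length,
      (Arc (mir s) (x.length - 1 - i) (x.length - 1 - j) ↔ Arc s i j) := by
    intro s hs i hi j hj
    rw [Finset.mem_range] at hi hj
    rw [Arc_mir (by omega) (by omega), hs]
    have e1 : x.length - 1 - (x.length - 1 - i) = i := by omega
    have e2 : x.length - 1 - (x.length - 1 - j) = j := by omega
    rw [e1, e2]
  have h := card_loops_image (U := Arc (up x)) (V := Arc (lo x)) (U' := Arc (mir (up x)))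
    (V' := Arc (mir (lo x))) (A := Finset.range x.length) (φ := fun i => x.length - 1 - i)
    (by
      intro i hi j hj e
      simp only [Finset.coe_range, Set.mem_Iio] at hi hj
      simp only at e
      omega)
    (key (up x) (length_up x)) (key (lo x) (length_lo x))
  rw [hA] at h
  rw [up_mirw, lo_mirw, length_mirw]
  exact h

/-- embedding of the points of the glued pair in the positions of the word -/
def glueφ (n : ℕ) : ℕ ⊕ ℕ → ℕ
  | .inl i => n - 1 - i
  | .inr j => n + j

theorem glue_arc_iff (s t : List Bool) {x y : ℕ ⊕ ℕ}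
    (hx : x ∈ (Finset.range s.length).disjSum (Finset.range t.length))
    (hy : y ∈ (Finset.range s.length).disjSum (Finset.range t.length)) :
    Arc (mir s ++ t) (glueφ s.length x) (glueφ s.length y) ↔ Or2 (dj s t) (gj s t) x y := by
  have hl := length_mir s
  rcases x with i | i <;> rcases y with j | j
  · rw [Finset.inl_mem_disjSum, Finset.mem_range] at hx hy
    simp only [glueφ]
    rw [Arc_append_left (by omega) (by omega), Arc_mir (by omega) (by omega)]
    have e1 : s.length - 1 - (s.length - 1 - i) = i := by omega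
    have e2 : s.length - 1 - (s.length - 1 - j) = j := by omega
    rw [e1, e2]
    exact ⟨fun h => Or.inl h, fun h => h.elim id (fun h' => h'.elim)⟩
  · rw [Finset.inl_mem_disjSum, Finset.mem_range] at hx
    rw [Finset.inr_mem_disjSum, Finset.mem_range] at hy
    simp only [glueφ]
    rw [glue_iff hx hy]
    exact ⟨fun h => Or.inr h, fun h => h.elim (fun h' => h'.elim) id⟩
  · rw [Finset.inl_mem_disjSum, Finset.mem_range] at hy
    rw [Finset.inr_mem_disjSum, Finset.mem_range] at hx
    simp only [glueφ]
    have hsym : Arc (mir s ++ t) (s.length + i) (s.length - 1 - j) ↔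
        Arc (mir s ++ t) (s.length - 1 - j) (s.length + i) :=
      ⟨fun h => (isMat_Arc _).symm h, fun h => (isMat_Arc _).symm h⟩
    rw [hsym, glue_iff hy hx]
    exact ⟨fun h => Or.inr h, fun h => h.elim (fun h' => h'.elim) id⟩
  · simp only [glueφ]
    have h := Arc_append_right (s := mir s) (t := t) (i := i) (j := j)
    rw [hl] at h
    rw [h]
    exact ⟨fun h => Or.inl h, fun h => h.elim id (fun h' => h'.elim)⟩

theorem glue_loops_dj (s t s' t' : List Bool) (A B : Finset ℕ) :
    (loops (dj s t) (dj s' t') (A.disjSum B)).card =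
      (loops (Arc s) (Arc s') A).card + (loops (Arc t) (Arc t') B).card := by
  classical
  have h1 : (loops (dj s t) (dj s' t') (A.image Sum.inl)).card = (loops (Arc s) (Arc s') A).card :=
    card_loops_image (Sum.inl_injective.injOn) (fun x _ y _ => Iff.rfl) (fun x _ y _ => Iff.rfl)
  have h2 : (loops (dj s t) (dj s' t') (B.image Sum.inr)).card = (loops (Arc t) (Arc t') B).card :=
    card_loops_image (Sum.inr_injective.injOn) (fun x _ y _ => Iff.rfl) (fun x _ y _ => Iff.rfl)
  rw [← h1, ← h2, ← Finset.card_union_of_disjoint]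
  · congr 1
    ext C
    rw [Finset.mem_union, mem_loops, mem_loops, mem_loops]
    constructor
    · rintro ⟨hC, hL⟩
      obtain ⟨x, hx⟩ := hL.1
      rcases x with i | i
      · left
        refine ⟨?_, hL⟩
        have hcl : Cl (dj s t) (dj s' t') (C.filter (fun z => z.isLeft)) := by
          intro y hy
          rw [Finset.mem_filter] at hy
          rcases y with j | j
          · obtain ⟨⟨y1, hy1, hu⟩, ⟨y2, hy2, hv⟩⟩ := hL.2.1 _ hy.1
            refine ⟨⟨y1, ?_, hu⟩, ⟨y2, ?_, hv⟩⟩
            · rcases y1 with k | k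
              · exact Finset.mem_filter.mpr ⟨hy1, rfl⟩
              · exact hu.elim
            · rcases y2 with k | k
              · exact Finset.mem_filter.mpr ⟨hy2, rfl⟩
              · exact hv.elim
          · simp at hy
        have heq := hL.2.2 (C.filter (fun z => z.isLeft)) (Finset.filter_subset _ _)
          ⟨_, Finset.mem_filter.mpr ⟨hx, rfl⟩⟩ hcl
        intro y hy
        rw [← heq, Finset.mem_filter] at hy
        rcases y with j | j
        · have := hC hy.1
          rw [Finset.inl_mem_disjSum] at this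
          exact Finset.mem_image_of_mem _ this
        · simp at hy
      · right
        refine ⟨?_, hL⟩
        have hcl : Cl (dj s t) (dj s' t') (C.filter (fun z => z.isRight)) := by
          intro y hy
          rw [Finset.mem_filter] at hy
          rcases y with j | j
          · simp at hy
          · obtain ⟨⟨y1, hy1, hu⟩, ⟨y2, hy2, hv⟩⟩ := hL.2.1 _ hy.1
            refine ⟨⟨y1, ?_, hu⟩, ⟨y2, ?_, hv⟩⟩
            · rcases y1 with k | k
              · exact hu.elim
              · exact Finset.mem_filter.mpr ⟨hy1, rfl⟩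
            · rcases y2 with k | k
              · exact hv.elim
              · exact Finset.mem_filter.mpr ⟨hy2, rfl⟩
        have heq := hL.2.2 (C.filter (fun z => z.isRight)) (Finset.filter_subset _ _)
          ⟨_, Finset.mem_filter.mpr ⟨hx, rfl⟩⟩ hcl
        intro y hy
        rw [← heq, Finset.mem_filter] at hy
        rcases y with j | j
        · simp at hy
        · have := hC hy.1
          rw [Finset.inr_mem_disjSum] at this
          exact Finset.mem_image_of_mem _ this
    · rintro (⟨hC, hL⟩ | ⟨hC, hL⟩)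
      · refine ⟨fun y hy => ?_, hL⟩
        obtain ⟨i, hi, rfl⟩ := Finset.mem_image.mp (hC hy)
        exact Finset.inl_mem_disjSum.mpr hi
      · refine ⟨fun y hy => ?_, hL⟩
        obtain ⟨i, hi, rfl⟩ := Finset.mem_image.mp (hC hy)
        exact Finset.inr_mem_disjSum.mpr hi
  · rw [Finset.disjoint_left]
    intro C h h'
    rw [mem_loops] at h h'
    obtain ⟨x, hx⟩ := h.2.1
    obtain ⟨i, hi, e⟩ := Finset.mem_image.mp (h.1 hx)
    obtain ⟨j, hj, e'⟩ := Finset.mem_image.mp (h'.1 hx)
    rw [← e] at e'
    simp at e'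

theorem cc_glue (v w : Wd) : cc (mirw v ++ w) = cc v + cc w + nu v w := by
  classical
  have hφ : Set.InjOn (glueφ v.length) (pts v w : Finset (ℕ ⊕ ℕ)) := by
    intro x hx y hy e
    rw [Finset.mem_coe] at hx hy
    unfold pts at hx hy
    rcases x with i | i <;> rcases y with j | j
    · rw [Finset.inl_mem_disjSum, Finset.mem_range] at hx hy
      simp only [glueφ] at e
      congr 1; omega
    · rw [Finset.inl_mem_disjSum, Finset.mem_range] at hx
      simp only [glueφ] at e
      omega
    · rw [Finset.inl_mem_disjSum, Finset.mem_range] at hy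
      simp only [glueφ] at e
      omega
    · simp only [glueφ] at e
      congr 1; omega
  have hA : (pts v w).image (glueφ v.length) = Finset.range (mirw v ++ w).length := by
    ext i
    rw [Finset.mem_image, Finset.mem_range, List.length_append, length_mirw]
    unfold pts
    constructor
    · rintro ⟨x | x, hx, rfl⟩
      · rw [Finset.inl_mem_disjSum, Finset.mem_range] at hx
        simp only [glueφ]; omega
      · rw [Finset.inr_mem_disjSum, Finset.mem_range] at hx
        simp only [glueφ]; omega
    · intro hi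
      rcases Nat.lt_or_ge i v.length with h | h
      · refine ⟨Sum.inl (v.length - 1 - i), ?_, ?_⟩
        · rw [Finset.inl_mem_disjSum, Finset.mem_range]; omega
        · simp only [glueφ]; omega
      · refine ⟨Sum.inr (i - v.length), ?_, ?_⟩
        · rw [Finset.inr_mem_disjSum, Finset.mem_range]; omega
        · simp only [glueφ]; omega
  have h := card_loops_image (U := Or2 (dj (up v) (up w)) (gj (up v) (up w)))
    (V := Or2 (dj (lo v) (lo w)) (gj (lo v) (lo w))) (U' := Arc (mir (up v) ++ up w))
    (V' := Arc (mir (lo v) ++ lo w)) (A := pts v w) (φ := glueφ v.length) hφ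
    (by
      intro x hx y hy
      have := glue_arc_iff (up v) (up w) (x := x) (y := y)
        (by rw [length_up, length_up]; exact hx) (by rw [length_up, length_up]; exact hy)
      rw [length_up] at this
      exact this)
    (by
      intro x hx y hy
      have := glue_arc_iff (lo v) (lo w) (x := x) (y := y)
        (by rw [length_lo, length_lo]; exact hx) (by rw [length_lo, length_lo]; exact hy)
      rw [length_lo] at this
      exact this)
  rw [hA] at h
  have h1 := card_loops_glue (isMat_glue (up v) (up w)) (isMat_glue (lo v) (lo w))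
    (dj_gj_disj (up v) (up w)) (dj_gj_disj (lo v) (lo w)) (pts v w)
  rw [h1, pts, glue_loops_dj] at h
  unfold cc
  rw [up_append, lo_append, up_mirw, lo_mirw, h]
  rfl

theorem ee_mirw (x : Wd) : ee (mirw x) = ee x := by
  unfold ee
  rw [up_mirw, lo_mirw, uc_mir, uc_mir, uo_mir, uo_mir]
  omega

theorem ee_glue (v w : Wd) : ee (mirw v ++ w) + 2 * (mU v w + mL v w) = ee v + ee w := by
  unfold ee mU mL
  rw [up_append, lo_append, up_mirw, lo_mirw, uc_append, uc_append, uo_append, uo_append,
    uc_mir, uc_mir, uo_mir, uo_mir]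
  omega

/-- the left ends of the glue arcs -/
theorem glue_hit (s t : List Bool) : ∃ T : Finset (ℕ ⊕ ℕ), T.card ≤ min (uc s) (uc t) ∧
    ∀ C : Finset (ℕ ⊕ ℕ), Has (gj s t) C → ∃ x ∈ C, x ∈ T := by
  classical
  choose! f hf using fun k (hk : k < uc s) => rc_exists (s := s) hk
  refine ⟨(Finset.range (min (uc s) (uc t))).image (fun k => Sum.inl (f k)), ?_, ?_⟩
  · exact Finset.card_image_le.trans (by rw [Finset.card_range])
  · intro C hC
    have key : ∀ i j, gj s t (Sum.inl i) (Sum.inr j) →
        Sum.inl i ∈ (Finset.range (min (uc s) (uc t))).image (fun k => (Sum.inl (f k) : ℕ ⊕ ℕ)) := by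
      rintro i j ⟨k, h1, h2⟩
      have hk1 := rc_lt h1
      have hk2 := rc_lt h2
      refine Finset.mem_image.mpr ⟨k, Finset.mem_range.mpr (by omega), ?_⟩
      rw [rc_pos_unique (hf k hk1) h1]
    obtain ⟨x, hx, y, hy, hxy⟩ := hC
    rcases x with i | i <;> rcases y with j | j
    · exact hxy.elim
    · exact ⟨_, hx, key i j hxy⟩
    · exact ⟨_, hy, key j i hxy⟩
    · exact hxy.elim

theorem nu_le (v w : Wd) : nu v w ≤ mU v w + mL v w := by
  classical
  obtain ⟨T, hT, hT'⟩ := glue_hit (up v) (up w)
  obtain ⟨S, hS, hS'⟩ := glue_hit (lo v) (lo w)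
  have h := card_le_of_hit (isMat_glue (up v) (up w)) (isMat_glue (lo v) (lo w))
    (F := (gloops v w).filter (fun C => Has (gj (up v) (up w)) C ∨ Has (gj (lo v) (lo w)) C))
    (T := T ∪ S)
    (fun C hC => (mem_loops.mp (Finset.mem_filter.mp hC).1).2)
    (by
      intro C hC
      rcases (Finset.mem_filter.mp hC).2 with h | h
      · obtain ⟨x, hx, hx'⟩ := hT' C h
        exact ⟨x, hx, Finset.mem_union_left _ hx'⟩
      · obtain ⟨x, hx, hx'⟩ := hS' C h
        exact ⟨x, hx, Finset.mem_union_right _ hx'⟩)
  have h2 := Finset.card_union_le T S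
  unfold mU mL
  have h3 : nu v w = ((gloops v w).filter
      (fun C => Has (gj (up v) (up w)) C ∨ Has (gj (lo v) (lo w)) C)).card := by
    rfl
  rw [h3]
  omega

theorem nuU_le (v w : Wd) : nuU v w ≤ mU v w := by
  classical
  obtain ⟨T, hT, hT'⟩ := glue_hit (up v) (up w)
  have h := card_le_of_hit (isMat_glue (up v) (up w)) (isMat_glue (lo v) (lo w))
    (F := (gloops v w).filter (fun C => Has (gj (up v) (up w)) C)) (T := T)
    (fun C hC => (mem_loops.mp (Finset.mem_filter.mp hC).1).2)
    (by
      intro C hC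
      exact hT' C (Finset.mem_filter.mp hC).2)
  unfold mU
  have h3 : nuU v w = ((gloops v w).filter (fun C => Has (gj (up v) (up w)) C)).card := by
    rfl
  rw [h3]
  omega

theorem glue_IsLoop_swap {P : Type*} (U V : P → P → Prop) (C : Finset P) :
    IsLoop U V C ↔ IsLoop V U C := by
  have h : ∀ C : Finset P, Cl U V C ↔ Cl V U C := by
    intro C
    exact ⟨fun h x hx => ⟨(h x hx).2, (h x hx).1⟩, fun h x hx => ⟨(h x hx).2, (h x hx).1⟩⟩
  unfold IsLoop
  rw [h C]
  constructor
  · rintro ⟨h1, h2, h3⟩
    exact ⟨h1, h2, fun C' a b c => h3 C' a b ((h C').mpr c)⟩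
  · rintro ⟨h1, h2, h3⟩
    exact ⟨h1, h2, fun C' a b c => h3 C' a b ((h C').mp c)⟩

theorem glue_gloops_sw (v w : Wd) : gloops (sw v) (sw w) = gloops v w := by
  classical
  ext C
  unfold gloops
  rw [mem_loops, mem_loops, up_sw, up_sw, lo_sw, lo_sw, glue_IsLoop_swap]
  unfold pts
  rw [length_sw, length_sw]

/-- upper and lower loops: `nuP v w + nuP (sw v) (sw w) ≤ nu v w ≤ nuU v w + nuU (sw v) (sw w)` -/
theorem nu_bounds (v w : Wd) :
    nuP v w + nuP (sw v) (sw w) ≤ nu v w ∧ nu v w ≤ nuU v w + nuU (sw v) (sw w) := by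
  classical
  unfold nuP nuU nu
  rw [glue_gloops_sw, up_sw, up_sw, lo_sw, lo_sw]
  constructor
  · rw [← Finset.card_union_of_disjoint]
    · apply Finset.card_le_card
      intro C hC
      rw [Finset.mem_union, Finset.mem_filter, Finset.mem_filter] at hC
      rw [Finset.mem_filter]
      rcases hC with ⟨h1, h2, _⟩ | ⟨h1, h2, _⟩
      · exact ⟨h1, Or.inl h2⟩
      · exact ⟨h1, Or.inr h2⟩
    · rw [Finset.disjoint_left]
      intro C h h'
      rw [Finset.mem_filter] at h h'
      exact h'.2.2 h.2.1
  · rw [Finset.filter_or]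
    exact Finset.card_union_le _ _

theorem glue_cc_one (z : Ltr) : cc [z] = 0 := by
  classical
  unfold cc
  rw [Finset.card_eq_zero]
  apply Finset.eq_empty_of_forall_notMem
  intro C hC
  rw [mem_loops] at hC
  obtain ⟨x, hx⟩ := hC.2.1
  obtain ⟨⟨y, hy, hxy⟩, _⟩ := hC.2.2.1 x hx
  have h1 := Finset.mem_range.mp (hC.1 hx)
  have h2 := Finset.mem_range.mp (hC.1 hy)
  simp only [List.length_cons, List.length_nil] at h1 h2
  have : x = y := by omega
  subst this
  exact (isMat_Arc _).irrefl _ hxy

/-- adding one letter -/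
theorem cc_append_one (x : Wd) (z : Ltr) : cc x ≤ cc (x ++ [z]) ∧ cc (x ++ [z]) ≤ cc x + 2 := by
  have h := cc_glue (mirw x) [z]
  rw [mirw_mirw, cc_mirw, glue_cc_one] at h
  have h1 := nu_le (mirw x) [z]
  unfold mU mL at h1
  have h2 := uc_add_uo_le (up [z])
  have h3 := uc_add_uo_le (lo [z])
  rw [length_up] at h2
  rw [length_lo] at h3
  simp only [List.length_cons, List.length_nil] at h2 h3
  omega

theorem ee_append_one (x : Wd) (z : Ltr) : ee (x ++ [z]) ≤ ee x + 2 ∧ ee x ≤ ee (x ++ [z]) + 2 := by
  have h := ee_glue (mirw x) [z]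
  rw [mirw_mirw, ee_mirw] at h
  unfold mU mL at h
  have h2 := uc_add_uo_le (up [z])
  have h3 := uc_add_uo_le (lo [z])
  have h4 : ee [z] = uc (up [z]) + uo (up [z]) + uc (lo [z]) + uo (lo [z]) := rfl
  rw [length_up] at h2
  rw [length_lo] at h3
  simp only [List.length_cons, List.length_nil] at h2 h3
  omega

/-- the defect of additivity -/
theorem ff_glue (x y : Wd) : ff (x ++ y) - ff x - ff y =
    (nu (mirw x) y : ℝ) - kappa * (mU (mirw x) y + mL (mirw x) y) := by
  have h1 := cc_glue (mirw x) y
  have h2 := ee_glue (mirw x) y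
  rw [mirw_mirw, cc_mirw] at h1
  rw [mirw_mirw, ee_mirw] at h2
  have h1' : (cc (x ++ y) : ℝ) = cc x + cc y + nu (mirw x) y := by rw [h1]; push_cast; ring
  have h2' : (ee (x ++ y) : ℝ) + 2 * (mU (mirw x) y + mL (mirw x) y) = ee x + ee y := by
    exact_mod_cast h2
  unfold ff
  rw [h1']
  have h3 : (ee (x ++ y) : ℝ) = ee x + ee y - 2 * (mU (mirw x) y + mL (mirw x) y) := by linarith
  rw [h3]
  ring

end MeanderCLT
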