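import Pool.Agent.H98.M.Defs

/-!
# Basic facts on heights
-/

namespace MeanderCLT

/-- step of a bracket -/
def stp (b : Bool) : ℤ := if b then 1 else -1

theorem stp_true : stp true = 1 := rfl
theorem stp_false : stp false = -1 := rfl
theorem stp_not (b : Bool) : stp (!b) = - stp b := by cases b <;> simp [stp]

theorem ht_zero (s : List Bool) : ht s 0 = 0 := by simp [ht]

theorem ht_nil (k : ℕ) : ht [] k = 0 := by simp [ht]

theorem ht_cons (b : Bool) (s : List Bool) (k : ℕ) : ht (b :: s) (k + 1) = stp b + ht s k := by
  simp [ht, stp]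

theorem ht_succ {s : List Bool} {k : ℕ} (hk : k < s.length) :
    ht s (k + 1) = ht s k + stp (s[k]) := by
  unfold ht
  rw [List.take_succ_eq_append_getElem hk, List.map_append, List.sum_append]
  simp [stp]

theorem ht_succ_true {s : List Bool} {k : ℕ} (h : s[k]? = some true) : ht s (k + 1) = ht s k + 1 := by
  obtain ⟨hk, e⟩ := List.getElem?_eq_some_iff.mp h
  rw [ht_succ hk, e]; rfl

theorem ht_succ_false {s : List Bool} {k : ℕ} (h : s[k]? = some false) :
    ht s (k + 1) = ht s k - 1 := by
  obtain ⟨hk, e⟩ := List.getElem?_eq_some_iff.mp h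
  rw [ht_succ hk, e]; rfl

theorem ht_step {s : List Bool} {k : ℕ} (hk : k < s.length) :
    (s[k]? = some true ∧ ht s (k + 1) = ht s k + 1) ∨
      (s[k]? = some false ∧ ht s (k + 1) = ht s k - 1) := by
  rcases hb : s[k] with _ | _
  · right
    have : s[k]? = some false := by rw [List.getElem?_eq_getElem hk, hb]
    exact ⟨this, ht_succ_false this⟩
  · left
    have : s[k]? = some true := by rw [List.getElem?_eq_getElem hk, hb]
    exact ⟨this, ht_succ_true this⟩

theorem ht_of_length_le {s : List Bool} {k : ℕ} (hk : s.length ≤ k) : ht s k = ht s s.length := by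
  unfold ht
  rw [List.take_of_length_le hk, List.take_length]

theorem ht_append_left {s t : List Bool} {k : ℕ} (hk : k ≤ s.length) : ht (s ++ t) k = ht s k := by
  unfold ht
  rw [List.take_append_of_le_length hk]

theorem ht_append_right (s t : List Bool) (k : ℕ) :
    ht (s ++ t) (s.length + k) = ht s s.length + ht t k := by
  unfold ht
  rw [List.take_length_add_append]
  simp

theorem ht_length_append (s t : List Bool) :
    ht (s ++ t) (s ++ t).length = ht s s.length + ht t t.length := by
  rw [List.length_append, ht_append_right]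

theorem length_mir (s : List Bool) : (mir s).length = s.length := by simp [mir]

theorem length_mirw (x : Wd) : (mirw x).length = x.length := by simp [mirw]

theorem mir_mir (s : List Bool) : mir (mir s) = s := by
  simp [mir, List.map_reverse, Function.comp_def]

theorem mirw_mirw (x : Wd) : mirw (mirw x) = x := by
  simp [mirw, List.map_reverse, Function.comp_def]

theorem up_mirw (x : Wd) : up (mirw x) = mir (up x) := by
  simp [up, mir, mirw, List.map_reverse, Function.comp_def]

theorem lo_mirw (x : Wd) : lo (mirw x) = mir (lo x) := by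
  simp [lo, mir, mirw, List.map_reverse, Function.comp_def]

theorem length_up (x : Wd) : (up x).length = x.length := by simp [up]

theorem length_lo (x : Wd) : (lo x).length = x.length := by simp [lo]

theorem length_sw (x : Wd) : (sw x).length = x.length := by simp [sw]

theorem up_sw (x : Wd) : up (sw x) = lo x := by simp [up, sw, lo]

theorem lo_sw (x : Wd) : lo (sw x) = up x := by simp [up, sw, lo]

theorem sw_sw (x : Wd) : sw (sw x) = x := by simp [sw]

theorem up_append (x y : Wd) : up (x ++ y) = up x ++ up y := by simp [up]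

theorem lo_append (x y : Wd) : lo (x ++ y) = lo x ++ lo y := by simp [lo]

theorem sw_append (x y : Wd) : sw (x ++ y) = sw x ++ sw y := by simp [sw]

theorem up_cons (z : Ltr) (x : Wd) : up (z :: x) = z.1 :: up x := rfl

theorem lo_cons (z : Ltr) (x : Wd) : lo (z :: x) = z.2 :: lo x := rfl

theorem mir_append (s t : List Bool) : mir (s ++ t) = mir t ++ mir s := by simp [mir]

theorem mirw_append (x y : Wd) : mirw (x ++ y) = mirw y ++ mirw x := by simp [mirw]

theorem mir_cons (b : Bool) (s : List Bool) : mir (b :: s) = mir s ++ [!b] := by simp [mir]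

theorem mirw_cons (z : Ltr) (x : Wd) : mirw (z :: x) = mirw x ++ [(!z.1, !z.2)] := by simp [mirw]

theorem mirw_sw (x : Wd) : mirw (sw x) = sw (mirw x) := by
  simp [mirw, sw, List.map_reverse, Function.comp_def]

theorem mir_getElem? {s : List Bool} {i : ℕ} (hi : i < s.length) :
    (mir s)[i]? = (s[s.length - 1 - i]?).map (fun b => !b) := by
  unfold mir
  rw [List.getElem?_reverse (by simpa using hi)]
  simp

/-- height of the mirrored word -/
theorem ht_mir (s : List Bool) {k : ℕ} (hk : k ≤ s.length) :
    ht (mir s) k = ht s (s.length - k) - ht s s.length := by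
  induction s generalizing k with
  | nil => simp at hk; subst hk; simp [mir, ht_nil]
  | cons b s ih =>
    rw [mir_cons]
    rcases Nat.lt_or_ge s.length k with h | h
    · have hk' : k = s.length + 1 := by simp at hk; omega
      subst hk'
      have h1 : ht (mir s ++ [!b]) (s.length + 1) = ht (mir s) (mir s).length + ht [!b] 1 := by
        rw [← ht_append_right, length_mir]
      rw [h1, length_mir, ih le_rfl]
      simp only [List.length_cons, Nat.sub_self, ht_zero]
      rw [ht_cons, ht_cons, ht_nil, stp_not]; ring
    · rw [ht_append_left (by rw [length_mir]; exact h), ih h]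
      simp only [List.length_cons]
      rw [ht_cons]
      have : s.length + 1 - k = (s.length - k) + 1 := by omega
      rw [this, ht_cons]; ring

/-- a path that goes from above `c` to at most `c` hits `c` (downwards) -/
theorem ht_ivt_down {s : List Bool} {i j : ℕ} {c : ℤ} (hij : i ≤ j) (hj : j ≤ s.length)
    (hi : c ≤ ht s i) (hc : ht s j ≤ c) : ∃ k, i ≤ k ∧ k ≤ j ∧ ht s k = c ∧
      ∀ l, i ≤ l → l < k → c < ht s l := by
  classical
  have hex : ∃ k, i ≤ k ∧ ht s k ≤ c := ⟨j, hij, hc⟩
  refine ⟨Nat.find hex, (Nat.find_spec hex).1, Nat.find_min' hex ⟨hij, hc⟩, ?_, ?_⟩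
  · apply le_antisymm (Nat.find_spec hex).2
    rcases Nat.eq_or_lt_of_le (Nat.find_spec hex).1 with h | h
    · rw [← h]; exact hi
    · obtain ⟨m, hm⟩ : ∃ m, Nat.find hex = m + 1 := ⟨Nat.find hex - 1, by omega⟩
      have hmj : m + 1 ≤ j := hm ▸ Nat.find_min' hex ⟨hij, hc⟩
      have hmin := Nat.find_min hex (m := m) (by omega)
      have h1 : c < ht s m := by
        by_contra hcon
        exact hmin ⟨by omega, by omega⟩
      rcases ht_step (s := s) (k := m) (by omega) with ⟨_, h2⟩ | ⟨_, h2⟩ <;> rw [hm] <;> omega
  · intro l h1 h2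
    have := Nat.find_min hex h2
    by_contra hcon
    exact this ⟨h1, by omega⟩

/-- a path that goes from at most `c` to above `c`: last visit of `c` -/
theorem ht_ivt_last {s : List Bool} {i j : ℕ} {c : ℤ} (hij : i ≤ j) (hj : j ≤ s.length)
    (hi : ht s i ≤ c) (hc : c ≤ ht s j) : ∃ k, i ≤ k ∧ k ≤ j ∧ ht s k = c ∧
      ∀ l, k < l → l ≤ j → c < ht s l := by
  induction j with
  | zero =>
    have : i = 0 := by omega
    subst this
    exact ⟨0, le_rfl, le_rfl, by omega, by intro l h1 h2; omega⟩
  | succ j ih =>
    rcases eq_or_lt_of_le hc with h | h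
    · exact ⟨j + 1, hij, le_rfl, h.symm, by intro l h1 h2; omega⟩
    · have hij' : i ≤ j := by
        rcases Nat.eq_or_lt_of_le hij with h' | h'
        · subst h'; omega
        · omega
      have hcj : c ≤ ht s j := by
        rcases ht_step (s := s) (k := j) (by omega) with ⟨_, h2⟩ | ⟨_, h2⟩ <;> omega
      obtain ⟨k, h1, h2, h3, h4⟩ := ih hij' (by omega) hcj
      refine ⟨k, h1, by omega, h3, ?_⟩
      intro l h5 h6
      rcases Nat.eq_or_lt_of_le h6 with h7 | h7
      · rw [h7]; exact h
      · exact h4 l h5 (by omega)

end MeanderCLT
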