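import Pool.Agent.H98.M.Ht

/-!
# Reduction of bracket words; decomposition at stars
-/

namespace MeanderCLT

theorem uc_nil : uc [] = 0 := rfl
theorem uo_nil : uo [] = 0 := rfl

theorem uc_cons_true (s : List Bool) : uc (true :: s) = uc s - 1 := by
  unfold uc
  simp only [red]
  split_ifs with h
  · simp [h]
  · rfl

theorem uc_cons_false (s : List Bool) : uc (false :: s) = uc s + 1 := rfl

theorem uo_cons_false (s : List Bool) : uo (false :: s) = uo s := rfl

theorem uo_cons_true (s : List Bool) : uo (true :: s) = if uc s = 0 then uo s + 1 else uo s := by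
  unfold uc uo
  simp only [red]
  split_ifs with h <;> simp

theorem red_eq (s : List Bool) : red s = (uc s, uo s) := rfl

theorem uc_uo_append (s t : List Bool) : uc (s ++ t) = uc s + (uc t - uo s) ∧
    uo (s ++ t) = uo t + (uo s - uc t) := by
  induction s with
  | nil => simp [uc_nil, uo_nil]
  | cons b s ih =>
    obtain ⟨h1, h2⟩ := ih
    cases b with
    | true =>
      rw [List.cons_append, uc_cons_true, uo_cons_true, uc_cons_true, uo_cons_true, h1, h2]
      split_ifs <;> constructor <;> omega
    | false =>
      rw [List.cons_append, uc_cons_false, uo_cons_false, uc_cons_false, uo_cons_false, h1, h2]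
      constructor <;> omega

theorem uc_append (s t : List Bool) : uc (s ++ t) = uc s + (uc t - uo s) := (uc_uo_append s t).1

theorem uo_append (s t : List Bool) : uo (s ++ t) = uo t + (uo s - uc t) := (uc_uo_append s t).2

theorem uc_uo_mir (s : List Bool) : uc (mir s) = uo s ∧ uo (mir s) = uc s := by
  induction s with
  | nil => simp [mir, uc_nil, uo_nil]
  | cons b s ih =>
    obtain ⟨h1, h2⟩ := ih
    rw [mir_cons, uc_append, uo_append, h1, h2]
    cases b with
    | true =>
      rw [uc_cons_true, uo_cons_true]
      simp only [Bool.not_true, uc_cons_false, uo_cons_false, uc_nil, uo_nil]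
      split_ifs <;> constructor <;> omega
    | false =>
      rw [uc_cons_false, uo_cons_false]
      simp only [Bool.not_false, uc_cons_true, uo_cons_true, uc_nil, uo_nil]
      constructor <;> simp
      omega

theorem uc_mir (s : List Bool) : uc (mir s) = uo s := (uc_uo_mir s).1

theorem uo_mir (s : List Bool) : uo (mir s) = uc s := (uc_uo_mir s).2

theorem hh_cons (b : Bool) (s : List Bool) : hh (b :: s) = stp b + hh s := by
  unfold hh
  rw [List.length_cons, ht_cons]

theorem hh_eq (s : List Bool) : hh s = (uo s : ℤ) - uc s := by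
  induction s with
  | nil => simp [hh, ht_nil, uc_nil, uo_nil]
  | cons b s ih =>
    rw [hh_cons, ih]
    cases b with
    | true =>
      rw [uc_cons_true, uo_cons_true, stp_true]
      split_ifs <;> omega
    | false =>
      rw [uc_cons_false, uo_cons_false, stp_false]
      push_cast; ring

theorem neg_uc_le_ht (s : List Bool) (k : ℕ) : -(uc s : ℤ) ≤ ht s k := by
  induction s generalizing k with
  | nil => simp [ht_nil, uc_nil]
  | cons b s ih =>
    cases k with
    | zero => rw [ht_zero]; omega
    | succ k =>
      rw [ht_cons]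
      have := ih k
      cases b with
      | true => rw [uc_cons_true, stp_true]; omega
      | false => rw [uc_cons_false, stp_false]; push_cast; omega

theorem exists_ht_eq_neg_uc (s : List Bool) : ∃ k, k ≤ s.length ∧ ht s k = -(uc s : ℤ) := by
  induction s with
  | nil => exact ⟨0, le_rfl, by simp [ht_nil, uc_nil]⟩
  | cons b s ih =>
    obtain ⟨k, hk, hk'⟩ := ih
    cases b with
    | true =>
      by_cases h : uc s = 0
      · exact ⟨0, Nat.zero_le _, by rw [ht_zero, uc_cons_true, h]; simp⟩
      · refine ⟨k + 1, by simpa using hk, ?_⟩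
        rw [ht_cons, hk', uc_cons_true, stp_true]
        omega
    | false =>
      refine ⟨k + 1, by simpa using hk, ?_⟩
      rw [ht_cons, hk', uc_cons_false, stp_false]
      push_cast; ring

theorem uc_add_uo_le (s : List Bool) : uc s + uo s ≤ s.length := by
  induction s with
  | nil => simp [uc_nil, uo_nil]
  | cons b s ih =>
    cases b with
    | true =>
      rw [uc_cons_true, uo_cons_true, List.length_cons]
      split_ifs <;> omega
    | false =>
      rw [uc_cons_false, uo_cons_false, List.length_cons]; omega

theorem star_iff {n : ℕ} {w : Wd} : Star n w ↔ uc (up w) = n ∧ uo (up w) = 0 := by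
  unfold Star
  rw [red_eq, Prod.mk.injEq]

/-- cutting a word at its unmatched upper closing bracket number `n` -/
theorem star_split {n : ℕ} {y : Wd} (h : n + 1 ≤ uc (up y)) :
    ∃ β z r, y = β ++ (false, z) :: r ∧ Star n β := by
  induction y generalizing n with
  | nil => simp [up, uc_nil] at h
  | cons a y ih =>
    obtain ⟨b, z⟩ := a
    rw [up_cons] at h
    cases b with
    | true =>
      simp only [uc_cons_true] at h
      obtain ⟨β, z', r, e, hβ⟩ := ih (n := n + 1) (by omega)
      refine ⟨(true, z) :: β, z', r, by rw [e]; rfl, ?_⟩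
      rw [star_iff] at hβ ⊢
      rw [up_cons]
      simp only [uc_cons_true, uo_cons_true, hβ.1, hβ.2]
      simp
    | false =>
      simp only [uc_cons_false] at h
      cases n with
      | zero => exact ⟨[], z, y, rfl, by simp [Star, up, red]⟩
      | succ m =>
        obtain ⟨β, z', r, e, hβ⟩ := ih (n := m) (by omega)
        refine ⟨(false, z) :: β, z', r, by rw [e]; rfl, ?_⟩
        rw [star_iff] at hβ ⊢
        rw [up_cons]
        simp only [uc_cons_false, uo_cons_false, hβ.1, hβ.2]
        simp

theorem star_unique_aux {n : ℕ} {β c : Wd} {z : Bool} (h1 : Star n β)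
    (h2 : Star n (β ++ (false, z) :: c)) : False := by
  rw [star_iff] at h1 h2
  rw [up_append, up_cons, uc_append] at h2
  simp only [uc_cons_false, h1.1, h1.2] at h2
  omega

theorem star_unique {n : ℕ} {β β' r r' : Wd} {z z' : Bool}
    (h : β ++ (false, z) :: r = β' ++ (false, z') :: r') (h1 : Star n β) (h2 : Star n β') :
    β = β' ∧ z = z' ∧ r = r' := by
  rw [List.append_eq_append_iff] at h
  rcases h with ⟨a, e1, e2⟩ | ⟨a, e1, e2⟩
  · cases a with
    | nil =>
      simp only [List.append_nil] at e1
      simp only [List.nil_append, List.cons.injEq, Prod.mk.injEq, true_and] at e2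
      exact ⟨e1.symm, e2.1, e2.2⟩
    | cons b a =>
      simp only [List.cons_append, List.cons.injEq] at e2
      rw [← e2.1] at e1
      rw [e1] at h2
      exact (star_unique_aux h1 h2).elim
  · cases a with
    | nil =>
      simp only [List.append_nil] at e1
      simp only [List.nil_append, List.cons.injEq, Prod.mk.injEq, true_and] at e2
      exact ⟨e1, e2.1.symm, e2.2.symm⟩
    | cons b a =>
      simp only [List.cons_append, List.cons.injEq] at e2
      rw [← e2.1] at e1
      rw [e1] at h1
      exact (star_unique_aux h2 h1).elim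

theorem star_join {n1 n2 : ℕ} {w1 w2 : Wd} (z : Bool) (h1 : Star n1 w1) (h2 : Star n2 w2) :
    Star (n1 + 1 + n2) (w1 ++ (false, z) :: w2) := by
  rw [star_iff] at *
  rw [up_append, up_cons, uc_append, uo_append]
  simp only [uc_cons_false, uo_cons_false, h1.1, h1.2, h2.1, h2.2]
  constructor <;> omega

theorem star_cut {n1 n2 : ℕ} {w : Wd} (h : Star (n1 + 1 + n2) w) :
    ∃ w1 z w2, w = w1 ++ (false, z) :: w2 ∧ Star n1 w1 ∧ Star n2 w2 := by
  have h' := star_iff.mp h
  obtain ⟨w1, z, w2, e, hw1⟩ := star_split (n := n1) (y := w) (by omega)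
  refine ⟨w1, z, w2, e, hw1, ?_⟩
  rw [star_iff] at hw1 ⊢
  rw [e, up_append, up_cons, uc_append, uo_append] at h'
  simp only [uc_cons_false, uo_cons_false, hw1.1, hw1.2] at h'
  constructor <;> omega

/-- concatenation of blocks, each followed by a star -/
def flatF {t : ℕ} (L : Fin t → Wd × Bool) : Wd :=
  (List.ofFn (fun j => (L j).1 ++ [((false, (L j).2) : Ltr)])).flatten

theorem flatF_zero (L : Fin 0 → Wd × Bool) : flatF L = [] := by
  simp [flatF]

theorem flatF_succ {t : ℕ} (L : Fin (t + 1) → Wd × Bool) :
    flatF L = (L 0).1 ++ (false, (L 0).2) :: flatF (fun j => L j.succ) := by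
  simp [flatF, List.ofFn_succ]

theorem red_flatF {n t : ℕ} (L : Fin t → Wd × Bool) (h : ∀ j, Star n (L j).1) :
    red (up (flatF L)) = (t * (n + 1), 0) := by
  induction t with
  | zero => simp [flatF_zero, up, red]
  | succ t ih =>
    have ih' := ih (fun j => L j.succ) (fun j => h j.succ)
    rw [red_eq, Prod.mk.injEq] at ih'
    have h0 := star_iff.mp (h 0)
    rw [flatF_succ, red_eq, Prod.mk.injEq, up_append, up_cons, uc_append, uo_append]
    simp only [uc_cons_false, uo_cons_false, h0.1, h0.2, ih'.1, ih'.2]
    constructor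
    · rw [Nat.add_mul]; omega
    · simp

theorem blocks_exist {n t : ℕ} {y : Wd} (h : t * (n + 1) ≤ uc (up y)) :
    ∃ (L : Fin t → Wd × Bool) (r : Wd), y = flatF L ++ r ∧ ∀ j, Star n (L j).1 := by
  induction t generalizing y with
  | zero => exact ⟨Fin.elim0, y, by simp [flatF_zero], fun j => j.elim0⟩
  | succ t ih =>
    rw [Nat.add_mul] at h
    obtain ⟨β, z, r, e, hβ⟩ := star_split (n := n) (y := y) (by omega)
    have h0 := star_iff.mp hβ
    have hr : t * (n + 1) ≤ uc (up r) := by
      rw [e, up_append, up_cons, uc_append] at h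
      simp only [uc_cons_false, h0.1, h0.2] at h
      omega
    obtain ⟨L, r', e', hL⟩ := ih hr
    refine ⟨Fin.cons (β, z) L, r', ?_, ?_⟩
    · rw [flatF_succ]
      simp only [Fin.cons_zero, Fin.cons_succ]
      rw [e, e']
      simp
    · intro j
      refine Fin.cases ?_ (fun j => ?_) j
      · simpa using hβ
      · simpa using hL j

end MeanderCLT
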