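import Pool.Agent.H98.M.Avg
import Pool.Agent.H98.M.Om
import Pool.Agent.H98.M.Red

/-!
# Blocks of uniform words are dominated by independent blocks
-/

open scoped ENNReal
open Filter Topology

namespace MeanderCLT

open Classical in
theorem massb_count (N : ℕ) (F G : Wd) :
    (1 / 4 : ℝ≥0∞) ^ N *
      ((Finset.univ.filter (fun z : Fin N → Ltr => ∃ r, List.ofFn z = F ++ r ++ G)).card : ℝ≥0∞) ≤
      (1 / 4) ^ F.length * (1 / 4) ^ G.length := by
  by_cases h : F.length + G.length ≤ N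
  · obtain ⟨M, hM⟩ : ∃ M, N = F.length + M + G.length := ⟨N - (F.length + G.length), by omega⟩
    have hsub : (Finset.univ.filter (fun z : Fin N → Ltr => ∃ r, List.ofFn z = F ++ r ++ G)) ⊆
        Finset.univ.image (fun (r : Fin M → Ltr) (i : Fin N) =>
          (F ++ List.ofFn r ++ G).getD i.1 (true, true)) := by
      intro z hz
      rw [Finset.mem_filter] at hz
      obtain ⟨-, r, hr⟩ := hz
      have hlen : r.length = M := by
        have := congrArg List.length hr
        simp only [List.length_ofFn, List.length_append] at this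
        omega
      rw [Finset.mem_image]
      subst hlen
      refine ⟨fun i => r.get i, Finset.mem_univ _, ?_⟩
      funext i
      rw [List.ofFn_get, ← hr]
      simp [List.getD]
    have hcard : (Finset.univ.filter (fun z : Fin N → Ltr => ∃ r, List.ofFn z = F ++ r ++ G)).card ≤
        4 ^ M := by
      refine (Finset.card_le_card hsub).trans (Finset.card_image_le.trans ?_)
      rw [Finset.card_univ, Fintype.card_fun, Fintype.card_fin]
      exact le_of_eq rfl
    have h1 : ((Finset.univ.filter (fun z : Fin N → Ltr => ∃ r, List.ofFn z = F ++ r ++ G)).card :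
        ℝ≥0∞) ≤ 4 ^ M := by exact_mod_cast hcard
    calc (1 / 4 : ℝ≥0∞) ^ N *
        ((Finset.univ.filter (fun z : Fin N → Ltr => ∃ r, List.ofFn z = F ++ r ++ G)).card : ℝ≥0∞)
        ≤ (1 / 4 : ℝ≥0∞) ^ N * 4 ^ M := by gcongr
      _ = (1 / 4) ^ F.length * (1 / 4) ^ G.length * ((1 / 4) ^ M * 4 ^ M) := by
        rw [hM]; ring
      _ = (1 / 4) ^ F.length * (1 / 4) ^ G.length := by
        rw [← mul_pow]
        have : (1 / 4 : ℝ≥0∞) * 4 = 1 := by
          rw [ENNReal.div_mul_cancel] <;> norm_num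
        rw [this, one_pow, mul_one]
  · have hemp : (Finset.univ.filter (fun z : Fin N → Ltr => ∃ r, List.ofFn z = F ++ r ++ G)) = ∅ := by
      rw [Finset.filter_eq_empty_iff]
      rintro z - ⟨r, hr⟩
      have := congrArg List.length hr
      simp only [List.length_ofFn, List.length_append] at this
      omega
    rw [hemp]
    simp

theorem massb_flat {t : ℕ} (n : ℕ) (L : Fin t → Wd × Bool) (h : ∀ j, Star n (L j).1) :
    ∏ j, om n (L j) = (1 / 4) ^ (flatF L).length := by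
  induction t with
  | zero => simp [flatF_zero]
  | succ t ih =>
    rw [Fin.prod_univ_succ, ih (fun j => L j.succ) (fun j => h j.succ), flatF_succ]
    simp only [om, if_pos (h 0), List.length_append, List.length_cons]
    rw [← pow_add]
    congr 1
    omega

open Classical in
theorem massb_Pw (N : ℕ) (E : Wd → Prop) : ENNReal.ofReal (Pw N E) =
    (1 / 4 : ℝ≥0∞) ^ N * ((Finset.univ.filter (fun z : Fin N → Ltr => E (List.ofFn z))).card : ℝ≥0∞) := by
  unfold Pw Ew
  rw [Finset.sum_boole, ENNReal.ofReal_div_of_pos (by positivity), ENNReal.ofReal_natCast,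
    ENNReal.ofReal_pow (by norm_num), ENNReal.div_eq_inv_mul, one_div, ENNReal.inv_pow]
  norm_num

open Classical in
theorem massb_Pw2 (N1 N2 : ℕ) (E : Wd → Wd → Prop) : ENNReal.ofReal (Pw2 N1 N2 E) =
    (1 / 4 : ℝ≥0∞) ^ N1 * ((1 / 4 : ℝ≥0∞) ^ N2 *
      ((Finset.univ.filter (fun z : (Fin N1 → Ltr) × (Fin N2 → Ltr) =>
        E (List.ofFn z.1) (List.ofFn z.2))).card : ℝ≥0∞)) := by
  unfold Pw2 Ew
  rw [← Finset.sum_div]
  have h : ∑ x : Fin N1 → Ltr, ∑ y : Fin N2 → Ltr,
      (if E (List.ofFn x) (List.ofFn y) then (1 : ℝ) else 0) =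
      ((Finset.univ.filter (fun z : (Fin N1 → Ltr) × (Fin N2 → Ltr) =>
        E (List.ofFn z.1) (List.ofFn z.2))).card : ℝ) := by
    rw [← Finset.sum_boole, Fintype.sum_prod_type]
  rw [h, ENNReal.ofReal_div_of_pos (by positivity), ENNReal.ofReal_div_of_pos (by positivity),
    ENNReal.ofReal_natCast, ENNReal.ofReal_pow (by norm_num), ENNReal.ofReal_pow (by norm_num),
    ENNReal.div_eq_inv_mul, ENNReal.div_eq_inv_mul, one_div, ENNReal.inv_pow, ENNReal.inv_pow]
  norm_num

open Classical in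
theorem massb_union {Z I : Type*} [Fintype Z] (R : Z → I → Prop) (c : ℝ≥0∞) :
    c * ((Finset.univ.filter (fun z : Z => ∃ i, R z i)).card : ℝ≥0∞) ≤
      ∑' i, c * ((Finset.univ.filter (fun z : Z => R z i)).card : ℝ≥0∞) := by
  rw [ENNReal.tsum_mul_left]
  gcongr
  have h1 : ∀ P : Z → Prop, ((Finset.univ.filter P).card : ℝ≥0∞) = ∑ z : Z, if P z then 1 else 0 := by
    intro P
    rw [Finset.sum_boole]
  rw [h1]
  simp_rw [h1]
  rw [← tsum_fintype (L := .unconditional _)]
  simp_rw [← tsum_fintype (L := .unconditional _)]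
  rw [ENNReal.tsum_comm]
  refine ENNReal.tsum_le_tsum fun z => ?_
  split_ifs with h
  · obtain ⟨i, hi⟩ := h
    refine le_trans ?_ (ENNReal.le_tsum i)
    rw [if_pos hi]
  · simp

theorem massb_mono {Z : Type*} [Fintype Z] {P Q : Z → Prop} (iP : DecidablePred P)
    (iQ : DecidablePred Q) (h : ∀ z, P z → Q z) :
    (@Finset.filter Z P iP Finset.univ).card ≤ (@Finset.filter Z Q iQ Finset.univ).card := by
  apply Finset.card_le_card
  intro z hz
  rw [Finset.mem_filter] at hz ⊢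
  exact ⟨hz.1, h z hz.2⟩

theorem massb_prod {Z W : Type*} [Fintype Z] [Fintype W] {P : Z × W → Prop} {Q : Z → Prop}
    {Q' : W → Prop} (iP : DecidablePred P) (iQ : DecidablePred Q) (iQ' : DecidablePred Q')
    (h : ∀ z, P z → Q z.1 ∧ Q' z.2) :
    (@Finset.filter _ P iP Finset.univ).card ≤
      (@Finset.filter Z Q iQ Finset.univ).card * (@Finset.filter W Q' iQ' Finset.univ).card := by
  rw [← Finset.card_product]
  apply Finset.card_le_card
  intro z hz
  rw [Finset.mem_filter] at hz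
  rw [Finset.mem_product, Finset.mem_filter, Finset.mem_filter]
  exact ⟨⟨Finset.mem_univ _, (h z hz.2).1⟩, ⟨Finset.mem_univ _, (h z hz.2).2⟩⟩

theorem massb_empty {Z : Type*} [Fintype Z] {P : Z → Prop} (iP : DecidablePred P)
    (h : ∀ z, ¬ P z) : (@Finset.filter Z P iP Finset.univ).card = 0 := by
  rw [Finset.card_eq_zero, Finset.filter_eq_empty_iff]
  exact fun z _ => h z

/-- union bound: blocks at the left ends of two uniform words -/
theorem pair_mass (N1 N2 n t : ℕ) (B : (Fin t → Wd × Bool) → (Fin t → Wd × Bool) → Prop) :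
    ENNReal.ofReal (Pw2 N1 N2 (fun v w => ∃ L L' : Fin t → Wd × Bool, (∀ j, Star n (L j).1) ∧
      (∀ j, Star n (L' j).1) ∧ (∃ r, v = flatF L ++ r) ∧ (∃ r, w = flatF L' ++ r) ∧ B L L')) ≤
      mass2 n t B := by
  classical
  rw [massb_Pw2, ← mul_assoc]
  have h0 : (Finset.univ.filter (fun z : (Fin N1 → Ltr) × (Fin N2 → Ltr) =>
      ∃ L L' : Fin t → Wd × Bool, (∀ j, Star n (L j).1) ∧ (∀ j, Star n (L' j).1) ∧
        (∃ r, List.ofFn z.1 = flatF L ++ r) ∧ (∃ r, List.ofFn z.2 = flatF L' ++ r) ∧ B L L')) =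
      (Finset.univ.filter (fun z : (Fin N1 → Ltr) × (Fin N2 → Ltr) =>
      ∃ i : (Fin t → Wd × Bool) × (Fin t → Wd × Bool), (∀ j, Star n (i.1 j).1) ∧
        (∀ j, Star n (i.2 j).1) ∧ (∃ r, List.ofFn z.1 = flatF i.1 ++ r) ∧
        (∃ r, List.ofFn z.2 = flatF i.2 ++ r) ∧ B i.1 i.2)) := by
    apply Finset.filter_congr
    intro z _
    constructor
    · rintro ⟨L, L', h⟩; exact ⟨(L, L'), h⟩
    · rintro ⟨⟨L, L'⟩, h⟩; exact ⟨L, L', h⟩
  rw [h0]
  refine (massb_union _ _).trans ?_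
  unfold mass2
  refine ENNReal.tsum_le_tsum fun i => ?_
  by_cases hS : (∀ j, Star n (i.1 j).1) ∧ (∀ j, Star n (i.2 j).1) ∧ B i.1 i.2
  · obtain ⟨hS1, hS2, hB⟩ := hS
    rw [if_pos hB, massb_flat n i.1 hS1, massb_flat n i.2 hS2]
    have h3 := massb_count N1 (flatF i.1) []
    have h4 := massb_count N2 (flatF i.2) []
    simp only [List.length_nil, pow_zero, mul_one] at h3 h4
    calc _ ≤ (1 / 4 : ℝ≥0∞) ^ N1 * (1 / 4) ^ N2 * (((Finset.univ.filter (fun z : Fin N1 → Ltr =>
          ∃ r, List.ofFn z = flatF i.1 ++ r ++ [])).card *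
          (Finset.univ.filter (fun z : Fin N2 → Ltr =>
            ∃ r, List.ofFn z = flatF i.2 ++ r ++ [])).card : ℕ) : ℝ≥0∞) := by
          refine mul_le_mul' le_rfl (Nat.cast_le.2 (massb_prod _ _ _ ?_))
          rintro z ⟨-, -, ⟨r, hr⟩, ⟨r', hr'⟩, -⟩
          exact ⟨⟨r, by rw [hr, List.append_nil]⟩, ⟨r', by rw [hr', List.append_nil]⟩⟩
      _ = ((1 / 4 : ℝ≥0∞) ^ N1 * ((Finset.univ.filter (fun z : Fin N1 → Ltr =>
          ∃ r, List.ofFn z = flatF i.1 ++ r ++ [])).card : ℝ≥0∞)) *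
          ((1 / 4) ^ N2 * ((Finset.univ.filter (fun z : Fin N2 → Ltr =>
            ∃ r, List.ofFn z = flatF i.2 ++ r ++ [])).card : ℝ≥0∞)) := by
          push_cast; ring
      _ ≤ _ := mul_le_mul' h3 h4
  · rw [massb_empty _ (by rintro z ⟨h1, h2, -, -, h5⟩; exact hS ⟨h1, h2, h5⟩)]
    simp

/-- union bound: blocks at both ends of a uniform word -/
theorem cyc_mass (N n t : ℕ) (B : (Fin t → Wd × Bool) → (Fin t → Wd × Bool) → Prop) :
    ENNReal.ofReal (Pw N (fun z => ∃ L L' : Fin t → Wd × Bool, (∀ j, Star n (L j).1) ∧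
      (∀ j, Star n (L' j).1) ∧ (∃ r, z = flatF L ++ r ++ mirw (flatF L')) ∧ B L L')) ≤
      mass2 n t B := by
  classical
  rw [massb_Pw]
  have h0 : (Finset.univ.filter (fun z : Fin N → Ltr =>
      ∃ L L' : Fin t → Wd × Bool, (∀ j, Star n (L j).1) ∧ (∀ j, Star n (L' j).1) ∧
        (∃ r, List.ofFn z = flatF L ++ r ++ mirw (flatF L')) ∧ B L L')) =
      (Finset.univ.filter (fun z : Fin N → Ltr =>
      ∃ i : (Fin t → Wd × Bool) × (Fin t → Wd × Bool), (∀ j, Star n (i.1 j).1) ∧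
        (∀ j, Star n (i.2 j).1) ∧ (∃ r, List.ofFn z = flatF i.1 ++ r ++ mirw (flatF i.2)) ∧
        B i.1 i.2)) := by
    apply Finset.filter_congr
    intro z _
    constructor
    · rintro ⟨L, L', h⟩; exact ⟨(L, L'), h⟩
    · rintro ⟨⟨L, L'⟩, h⟩; exact ⟨L, L', h⟩
  rw [h0]
  refine (massb_union _ _).trans ?_
  unfold mass2
  refine ENNReal.tsum_le_tsum fun i => ?_
  by_cases hS : (∀ j, Star n (i.1 j).1) ∧ (∀ j, Star n (i.2 j).1) ∧ B i.1 i.2
  · obtain ⟨hS1, hS2, hB⟩ := hS
    rw [if_pos hB, massb_flat n i.1 hS1, massb_flat n i.2 hS2]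
    have h3 := massb_count N (flatF i.1) (mirw (flatF i.2))
    have h4 : (mirw (flatF i.2)).length = (flatF i.2).length := by simp [mirw]
    rw [h4] at h3
    refine le_trans (mul_le_mul' le_rfl (Nat.cast_le.2 (massb_mono _ _ ?_))) h3
    rintro z ⟨-, -, h, -⟩
    exact h
  · rw [massb_empty _ (by rintro z ⟨h1, h2, -, h5⟩; exact hS ⟨h1, h2, h5⟩)]
    simp

end MeanderCLT
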