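import Pool.Agent.H98.M.Block
import Pool.Agent.H98.M.Glue

/-!
# Block lemma for two words glued at their left ends
-/

namespace MeanderCLT

/-- the position of the first letter of the block number `j` -/
def pb_off {t : ℕ} (L : Fin t → Wd × Bool) (j : ℕ) : ℕ :=
  ∑ i ∈ Finset.univ.filter (fun i : Fin t => (i : ℕ) < j), ((L i).1.length + 1)

theorem pb_off_zero {t : ℕ} (L : Fin t → Wd × Bool) : pb_off L 0 = 0 := by
  simp [pb_off]

theorem pb_off_succ {t : ℕ} (L : Fin t → Wd × Bool) (j : Fin t) :
    pb_off L (j + 1) = pb_off L j + ((L j).1.length + 1) := by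
  unfold pb_off
  have : Finset.univ.filter (fun i : Fin t => (i : ℕ) < j + 1) =
      insert j (Finset.univ.filter (fun i : Fin t => (i : ℕ) < j)) := by
    ext i
    simp only [Finset.mem_filter, Finset.mem_univ, true_and, Finset.mem_insert]
    constructor
    · intro h
      rcases Nat.lt_succ_iff_lt_or_eq.1 h with h | h
      · exact Or.inr h
      · exact Or.inl (Fin.ext h)
    · rintro (rfl | h)
      · exact Nat.lt_succ_self _
      · exact Nat.lt_succ_of_lt h
  rw [this, Finset.sum_insert (by simp)]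
  ring

theorem pb_off_mono {t : ℕ} (L : Fin t → Wd × Bool) {j j' : ℕ} (h : j ≤ j') :
    pb_off L j ≤ pb_off L j' := by
  unfold pb_off
  refine Finset.sum_le_sum_of_subset ?_
  intro i hi
  simp only [Finset.mem_filter, Finset.mem_univ, true_and] at hi ⊢
  omega

theorem pb_inj {t : ℕ} (L : Fin t → Wd × Bool) {j j' : Fin t} {i i' : ℕ}
    (hi : i < (L j).1.length) (hi' : i' < (L j').1.length)
    (h : pb_off L j + i = pb_off L j' + i') : j = j' ∧ i = i' := by
  rcases lt_trichotomy (j : ℕ) j' with hl | hl | hl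
  · have h1 := pb_off_mono L (show (j : ℕ) + 1 ≤ j' by omega)
    rw [pb_off_succ] at h1
    omega
  · have hj : j = j' := Fin.ext hl
    subst hj
    exact ⟨rfl, by omega⟩
  · have h1 := pb_off_mono L (show (j' : ℕ) + 1 ≤ j by omega)
    rw [pb_off_succ] at h1
    omega

/-- cutting a concatenation of blocks at the block `j` -/
theorem pb_cut {n t : ℕ} (L : Fin t → Wd × Bool) (hL : ∀ j, Star n (L j).1) (j : Fin t) :
    ∃ s u : Wd, flatF L = s ++ ((L j).1 ++ (false, (L j).2) :: u) ∧ s.length = pb_off L j ∧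
      uc (up s) = j * (n + 1) ∧ uo (up s) = 0 := by
  induction t with
  | zero => exact j.elim0
  | succ t ih =>
    rw [flatF_succ]
    refine Fin.cases ?_ (fun j => ?_) j
    · refine ⟨[], flatF (fun j => L j.succ), by simp, ?_, ?_, ?_⟩
      · simp [pb_off]
      · simp [up, uc_nil]
      · simp [up, uo_nil]
    · obtain ⟨s, u, h1, h2, h3, h4⟩ := ih (fun j => L j.succ) (fun j => hL j.succ) j
      have h0 := star_iff.mp (hL 0)
      refine ⟨(L 0).1 ++ (false, (L 0).2) :: s, u, ?_, ?_, ?_, ?_⟩
      · rw [h1]; simp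
      · rw [List.length_append, List.length_cons, h2]
        unfold pb_off
        rw [Finset.sum_filter, Finset.sum_filter, Fin.sum_univ_succ]
        simp only [Fin.val_zero, Fin.val_succ, Nat.succ_pos, if_true, Nat.add_lt_add_iff_right]
        ring
      · rw [up_append, up_cons, uc_append]
        simp only [uc_cons_false, h0.1, h0.2, h3, Fin.val_succ]
        ring_nf
        omega
      · rw [up_append, up_cons, uo_append]
        simp only [uc_cons_false, uo_cons_false, h0.2, h4]
        omega

/-- all facts on a block of a word -/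
theorem pb_facts {n t : ℕ} {v r : Wd} (L : Fin t → Wd × Bool) (hL : ∀ j, Star n (L j).1)
    (hv : v = flatF L ++ r) (j : Fin t) :
    (∀ i, i < (L j).1.length → pb_off L j + i < v.length) ∧
    (∀ i i', i < (L j).1.length → i' < (L j).1.length →
      (Arc (up v) (pb_off L j + i) (pb_off L j + i') ↔ Arc (up (L j).1) i i')) ∧
    (∀ i i', i < (L j).1.length → i' < (L j).1.length →
      (Arc (lo v) (pb_off L j + i) (pb_off L j + i') ↔ Arc (lo (L j).1) i i')) ∧
    (∀ i k, i < (L j).1.length → (rc (up v) (pb_off L j + i) k ↔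
      ∃ k', rc (up (L j).1) i k' ∧ k = j * (n + 1) + k')) := by
  obtain ⟨s, u, h1, h2, h3, h4⟩ := pb_cut L hL j
  have hv' : v = s ++ ((L j).1 ++ ((false, (L j).2) :: u ++ r)) := by
    rw [hv, h1]; simp
  have hup : up v = up s ++ (up (L j).1 ++ up ((false, (L j).2) :: u ++ r)) := by
    rw [hv', up_append, up_append]
  have hlo : lo v = lo s ++ (lo (L j).1 ++ lo ((false, (L j).2) :: u ++ r)) := by
    rw [hv', lo_append, lo_append]
  refine ⟨?_, ?_, ?_, ?_⟩
  · intro i hi
    rw [hv', List.length_append, List.length_append, h2]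
    omega
  · intro i i' hi hi'
    rw [hup, ← h2, ← length_up s, Arc_append_right, Arc_append_left (by rw [length_up]; exact hi)
      (by rw [length_up]; exact hi')]
  · intro i i' hi hi'
    rw [hlo, ← h2, ← length_lo s, Arc_append_right, Arc_append_left (by rw [length_lo]; exact hi)
      (by rw [length_lo]; exact hi')]
  · intro i k hi
    rw [hup, ← h2, ← length_up s, rc_append_right]
    constructor
    · rintro ⟨k', h5, h6, h7⟩
      rw [rc_append_left (by rw [length_up]; exact hi)] at h5
      exact ⟨k', h5, by omega⟩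
    · rintro ⟨k', h5, h6⟩
      refine ⟨k', ?_, by omega, by omega⟩
      rw [rc_append_left (by rw [length_up]; exact hi)]
      exact h5

theorem pb_aux (n : ℕ) (v w : Wd) (t : ℕ) (ht : t * (n + 1) ≤ mU v w)
    (ht2 : mU v w < t * (n + 1) + (n + 1)) : ∃ L L' : Fin t → Wd × Bool,
    (∀ j, Star n (L j).1) ∧ (∀ j, Star n (L' j).1) ∧
    (∃ r, v = flatF L ++ r) ∧ (∃ r, w = flatF L' ++ r) ∧
    ∑ j, NN (L j).1 (L' j).1 ≤ nuP v w ∧
    nuU v w ≤ ∑ j, NN (L j).1 (L' j).1 + ∑ j, (XX (L j).1 + XX (L' j).1) +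
      (t + n + 1) := by
  classical
  have hm1 : mU v w ≤ uc (up v) := min_le_left _ _
  have hm2 : mU v w ≤ uc (up w) := min_le_right _ _
  obtain ⟨L, r, hv, hL⟩ := blocks_exist (n := n) (ht.trans hm1)
  obtain ⟨L', r', hw, hL'⟩ := blocks_exist (n := n) (ht.trans hm2)
  refine ⟨L, L', hL, hL', ⟨r, hv⟩, ⟨r', hw⟩, ?_⟩
  have hB : Blocks (dj (up v) (up w)) (gj (up v) (up w)) (dj (lo v) (lo w)) (gj (lo v) (lo w))
      (pts v w) n t (fun j => (L j).1) (fun j => (L' j).1)
      (fun j i => Sum.inl (pb_off L j + i)) (fun j i => Sum.inr (pb_off L' j + i)) := by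
    refine { matU := isMat_glue _ _, matV := isMat_glue _ _, symU0 := ?_, symU1 := ?_,
             symV0 := ?_, symV1 := ?_, disU := dj_gj_disj _ _, disV := dj_gj_disj _ _,
             star_v := hL, star_w := hL', mem_v := ?_, mem_w := ?_, inj_v := ?_, inj_w := ?_,
             inj_vw := ?_, U0_v := ?_, V0_v := ?_, U0_w := ?_, V0_w := ?_, U1_vw := ?_ }
    · exact fun x y h => (isMat_dj _ _).symm h
    · rintro (x | x) (y | y) h
      · exact h
      · exact h
      · exact h
      · exact h
    · exact fun x y h => (isMat_dj _ _).symm h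
    · rintro (x | x) (y | y) h
      · exact h
      · exact h
      · exact h
      · exact h
    · intro j i hi
      exact Finset.inl_mem_disjSum.2 (Finset.mem_range.2 ((pb_facts L hL hv j).1 i hi))
    · intro j i hi
      exact Finset.inr_mem_disjSum.2 (Finset.mem_range.2 ((pb_facts L' hL' hw j).1 i hi))
    · intro j j' i i' hi hi' h
      exact pb_inj L hi hi' (Sum.inl_injective h)
    · intro j j' i i' hi hi' h
      exact pb_inj L' hi hi' (Sum.inr_injective h)
    · intro j j' i i' _ _ h
      exact Sum.inl_ne_inr h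
    · intro j i i' hi hi'
      exact (pb_facts L hL hv j).2.1 i i' hi hi'
    · intro j i i' hi hi'
      exact (pb_facts L hL hv j).2.2.1 i i' hi hi'
    · intro j i i' hi hi'
      exact (pb_facts L' hL' hw j).2.1 i i' hi hi'
    · intro j i i' hi hi'
      exact (pb_facts L' hL' hw j).2.2.1 i i' hi hi'
    · intro j i i' hi hi'
      change (∃ k, rc (up v) (pb_off L j + i) k ∧ rc (up w) (pb_off L' j + i') k) ↔ _
      constructor
      · rintro ⟨k, h1, h2⟩
        obtain ⟨k1, h3, h4⟩ := ((pb_facts L hL hv j).2.2.2 i k hi).1 h1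
        obtain ⟨k2, h5, h6⟩ := ((pb_facts L' hL' hw j).2.2.2 i' k hi').1 h2
        have : k1 = k2 := by omega
        subst this
        exact ⟨k1, h3, h5⟩
      · rintro ⟨k, h1, h2⟩
        exact ⟨j * (n + 1) + k, ((pb_facts L hL hv j).2.2.2 i _ hi).2 ⟨k, h1, rfl⟩,
          ((pb_facts L' hL' hw j).2.2.2 i' _ hi').2 ⟨k, h2, rfl⟩⟩
  -- the glue arcs outside the blocks
  let K : Finset ℕ := (Finset.range t).image (fun j => j * (n + 1) + n) ∪
    Finset.Ico (t * (n + 1)) (mU v w)
  let pos : ℕ → ℕ ⊕ ℕ := fun k => if h : ∃ a, rc (up v) a k then Sum.inl h.choose else Sum.inl 0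
  have hpos : ∀ a k, rc (up v) a k → pos k = Sum.inl a := by
    intro a k h
    have hex : ∃ a, rc (up v) a k := ⟨a, h⟩
    change (if h : ∃ a, rc (up v) a k then Sum.inl h.choose else Sum.inl 0) = Sum.inl a
    rw [dif_pos hex, rc_pos_unique hex.choose_spec h]
  have hT1 : (K.image pos).card ≤ t + n + 1 := by
    have h1 : (K.image pos).card ≤ K.card := Finset.card_image_le
    have h2 : K.card ≤ ((Finset.range t).image (fun j => j * (n + 1) + n)).card +
        (Finset.Ico (t * (n + 1)) (mU v w)).card := Finset.card_union_le _ _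
    have h3 : ((Finset.range t).image (fun j => j * (n + 1) + n)).card ≤ t := by
      refine Finset.card_image_le.trans ?_
      rw [Finset.card_range]
    rw [Nat.card_Ico] at h2
    omega
  have hcase : ∀ a b k, rc (up v) a k → rc (up w) b k → k ∈ K ∨
      ∃ (j : Fin t) (i i' : ℕ), i < (L j).1.length ∧ i' < (L' j).1.length ∧
        a = pb_off L j + i ∧ b = pb_off L' j + i' := by
    intro a b k ha hb
    have hk1 := rc_lt ha
    have hk2 := rc_lt hb
    by_cases hk : t * (n + 1) ≤ k
    · left
      refine Finset.mem_union_right _ (Finset.mem_Ico.2 ⟨hk, ?_⟩)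
      exact lt_min hk1 hk2
    · push Not at hk
      have hj : k / (n + 1) < t := (Nat.div_lt_iff_lt_mul (Nat.succ_pos n)).2 hk
      have hmod : k % (n + 1) < n + 1 := Nat.mod_lt _ (Nat.succ_pos n)
      have hdm : (n + 1) * (k / (n + 1)) + k % (n + 1) = k := Nat.div_add_mod k (n + 1)
      by_cases hkn : k % (n + 1) = n
      · left
        refine Finset.mem_union_left _ (Finset.mem_image.2 ⟨k / (n + 1), Finset.mem_range.2 hj, ?_⟩)
        rw [hkn] at hdm
        rw [mul_comm]
        exact hdm
      · right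
        let j : Fin t := ⟨k / (n + 1), hj⟩
        have hlt : k % (n + 1) < n := by omega
        have hs := star_iff.1 (hL j)
        have hs' := star_iff.1 (hL' j)
        obtain ⟨i, hi⟩ := rc_exists (s := up (L j).1) (k := k % (n + 1)) (by rw [hs.1]; exact hlt)
        obtain ⟨i', hi'⟩ := rc_exists (s := up (L' j).1) (k := k % (n + 1))
          (by rw [hs'.1]; exact hlt)
        have hil : i < (L j).1.length := by
          have := hi.1
          rwa [length_up] at this
        have hil' : i' < (L' j).1.length := by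
          have := hi'.1
          rwa [length_up] at this
        have hkk : k = (j : ℕ) * (n + 1) + k % (n + 1) := by
          change k = (k / (n + 1)) * (n + 1) + k % (n + 1)
          rw [mul_comm]
          exact hdm.symm
        refine ⟨j, i, i', hil, hil', ?_, ?_⟩
        · exact rc_pos_unique ha (((pb_facts L hL hv j).2.2.2 i k hil).2 ⟨_, hi, hkk⟩)
        · exact rc_pos_unique hb (((pb_facts L' hL' hw j).2.2.2 i' k hil').2 ⟨_, hi', hkk⟩)
  have hlow := block_lower hB
  have hupp := block_upper hB (K.image pos) (by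
    rintro (a | a) _ (b | b) _ h
    · exact h.elim
    · obtain ⟨k, ha, hb⟩ := h
      rcases hcase a b k ha hb with hk | ⟨j, i, i', h1, h2, h3, h4⟩
      · left
        exact Finset.mem_image.2 ⟨k, hk, hpos a k ha⟩
      · right; right
        exact ⟨j, i, i', h1, h2, Or.inl ⟨by rw [h3], by rw [h4]⟩⟩
    · obtain ⟨k, hb, ha⟩ := h
      rcases hcase b a k hb ha with hk | ⟨j, i, i', h1, h2, h3, h4⟩
      · right; left
        exact Finset.mem_image.2 ⟨k, hk, hpos b k hb⟩
      · right; right
        exact ⟨j, i, i', h1, h2, Or.inr ⟨by rw [h3], by rw [h4]⟩⟩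
    · exact h.elim)
  refine ⟨hlow, ?_⟩
  refine le_trans ?_ (hupp.trans (Nat.add_le_add_left hT1 _))
  exact le_rfl

theorem pair_blocks (n : ℕ) (v w : Wd) : ∃ L L' : Fin (mU v w / (n + 1)) → Wd × Bool,
    (∀ j, Star n (L j).1) ∧ (∀ j, Star n (L' j).1) ∧
    (∃ r, v = flatF L ++ r) ∧ (∃ r, w = flatF L' ++ r) ∧
    ∑ j, NN (L j).1 (L' j).1 ≤ nuP v w ∧
    nuU v w ≤ ∑ j, NN (L j).1 (L' j).1 + ∑ j, (XX (L j).1 + XX (L' j).1) +
      (mU v w / (n + 1) + n + 1) :=
  pb_aux n v w _ (Nat.div_mul_le_self _ _) (Nat.lt_div_mul_add (Nat.succ_pos n))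

end MeanderCLT
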