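import Pool.Agent.H98.M.Chern
import Pool.Agent.H98.M.F1
import Pool.Agent.H98.M.PairBlocks
import Pool.Agent.H98.M.CycBlocks
import Pool.Agent.H98.M.MassB

/-!
# Law of large numbers at a seam, with exponential tails
-/

open scoped ENNReal
open Filter Topology

namespace MeanderCLT

/-! ### averages of sums -/

theorem lln_Ew_sum {ι : Type*} (N : ℕ) (s : Finset ι) (g : ι → Wd → ℝ) :
    Ew N (fun x => ∑ i ∈ s, g i x) = ∑ i ∈ s, Ew N (g i) := by
  unfold Ew
  rw [Finset.sum_comm, Finset.sum_div]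

open Classical in
theorem lln_Pw2_le {N1 N2 K : ℕ} {F : Wd → Wd → Prop} {A : ℕ → Wd → Wd → Prop} {c : ℝ}
    (h : ∀ v w, v.length = N1 → w.length = N2 → F v w →
      ∃ t, t ≤ K ∧ (A t v w ∨ A t (sw v) (sw w)))
    (hA : ∀ t, Pw2 N1 N2 (A t) ≤ c) : Pw2 N1 N2 F ≤ 2 * (K + 1) * c := by
  have h1 : Pw2 N1 N2 F ≤ Ew N1 (fun x => Ew N2 (fun y =>
      ∑ t ∈ Finset.range (K + 1), ((if A t x y then (1 : ℝ) else 0) +
        (if A t (sw x) (sw y) then (1 : ℝ) else 0)))) := by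
    unfold Pw2
    apply Ew_mono
    intro x hx
    apply Ew_mono
    intro y hy
    have hnn : ∀ t ∈ Finset.range (K + 1), 0 ≤ ((if A t x y then (1 : ℝ) else 0) +
        (if A t (sw x) (sw y) then (1 : ℝ) else 0)) := by
      intro t _
      split_ifs <;> norm_num
    split_ifs with hF
    · obtain ⟨t, ht, hAt⟩ := h x y hx hy hF
      refine le_trans ?_ (Finset.single_le_sum hnn (Finset.mem_range.mpr (by omega : t < K + 1)))
      rcases hAt with hAt | hAt
      · rw [if_pos hAt]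
        split_ifs <;> norm_num
      · rw [if_pos hAt]
        split_ifs <;> norm_num
    · exact Finset.sum_nonneg hnn
  have h2 : Ew N1 (fun x => Ew N2 (fun y =>
      ∑ t ∈ Finset.range (K + 1), ((if A t x y then (1 : ℝ) else 0) +
        (if A t (sw x) (sw y) then (1 : ℝ) else 0)))) =
      ∑ t ∈ Finset.range (K + 1), (Pw2 N1 N2 (A t) + Pw2 N1 N2 (A t)) := by
    simp_rw [lln_Ew_sum, Ew_add]
    apply Finset.sum_congr rfl
    intro t _
    congr 1
    unfold Pw2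
    have e1 : ∀ x : Wd, Ew N2 (fun y => if A t (sw x) (sw y) then (1 : ℝ) else 0) =
        Ew N2 (fun y => if A t (sw x) y then (1 : ℝ) else 0) := by
      intro x
      exact Ew_sw N2 (fun y => if A t (sw x) y then (1 : ℝ) else 0)
    simp_rw [e1]
    exact Ew_sw N1 (fun x => Ew N2 (fun y => if A t x y then (1 : ℝ) else 0))
  rw [h2] at h1
  refine le_trans h1 ?_
  calc ∑ t ∈ Finset.range (K + 1), (Pw2 N1 N2 (A t) + Pw2 N1 N2 (A t))
      ≤ ∑ _t ∈ Finset.range (K + 1), (c + c) :=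
        Finset.sum_le_sum (fun t _ => add_le_add (hA t) (hA t))
    _ = 2 * (K + 1) * c := by
        rw [Finset.sum_const, Finset.card_range, nsmul_eq_mul]; push_cast; ring

open Classical in
theorem lln_Pw_le {N K : ℕ} {F : Wd → Prop} {A : ℕ → Wd → Prop} {c : ℝ}
    (h : ∀ z, z.length = N → F z → ∃ t, t ≤ K ∧ (A t z ∨ A t (sw z)))
    (hA : ∀ t, Pw N (A t) ≤ c) : Pw N F ≤ 2 * (K + 1) * c := by
  have h1 : Pw N F ≤ Ew N (fun x =>
      ∑ t ∈ Finset.range (K + 1), ((if A t x then (1 : ℝ) else 0) +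
        (if A t (sw x) then (1 : ℝ) else 0))) := by
    unfold Pw
    apply Ew_mono
    intro x hx
    have hnn : ∀ t ∈ Finset.range (K + 1), 0 ≤ ((if A t x then (1 : ℝ) else 0) +
        (if A t (sw x) then (1 : ℝ) else 0)) := by
      intro t _
      split_ifs <;> norm_num
    split_ifs with hF
    · obtain ⟨t, ht, hAt⟩ := h x hx hF
      refine le_trans ?_ (Finset.single_le_sum hnn (Finset.mem_range.mpr (by omega : t < K + 1)))
      rcases hAt with hAt | hAt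
      · rw [if_pos hAt]
        split_ifs <;> norm_num
      · rw [if_pos hAt]
        split_ifs <;> norm_num
    · exact Finset.sum_nonneg hnn
  have h2 : Ew N (fun x =>
      ∑ t ∈ Finset.range (K + 1), ((if A t x then (1 : ℝ) else 0) +
        (if A t (sw x) then (1 : ℝ) else 0))) =
      ∑ t ∈ Finset.range (K + 1), (Pw N (A t) + Pw N (A t)) := by
    simp_rw [lln_Ew_sum, Ew_add]
    apply Finset.sum_congr rfl
    intro t _
    congr 1
    exact Ew_sw N (fun x => if A t x then (1 : ℝ) else 0)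
  rw [h2] at h1
  refine le_trans h1 ?_
  calc ∑ t ∈ Finset.range (K + 1), (Pw N (A t) + Pw N (A t))
      ≤ ∑ _t ∈ Finset.range (K + 1), (c + c) :=
        Finset.sum_le_sum (fun t _ => add_le_add (hA t) (hA t))
    _ = 2 * (K + 1) * c := by
        rw [Finset.sum_const, Finset.card_range, nsmul_eq_mul]; push_cast; ring

/-! ### the bad events -/

theorem lln_mass2_or (n t : ℕ) (B1 B2 : (Fin t → Wd × Bool) → (Fin t → Wd × Bool) → Prop) :
    mass2 n t (fun L L' => B1 L L' ∨ B2 L L') ≤ mass2 n t B1 + mass2 n t B2 := by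
  classical
  unfold mass2
  rw [← ENNReal.tsum_add]
  apply ENNReal.tsum_le_tsum
  intro L
  by_cases h1 : B1 L.1 L.2
  · rw [if_pos (Or.inl h1), if_pos h1]
    exact le_self_add
  · by_cases h2 : B2 L.1 L.2
    · rw [if_pos (Or.inr h2), if_pos h2]
      exact le_add_self
    · rw [if_neg (by tauto)]
      exact zero_le

/-- the bad event for block sequences -/
def llnBad (n t : ℕ) (k δ T : ℝ) (L L' : Fin t → Wd × Bool) : Prop :=
  (t * (k + δ) + T < ∑ j, (NN (L j).1 (L' j).1 : ℝ)) ∨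
  (t * ((n - k) + δ) + T < ∑ j, max ((n : ℝ) - NN (L j).1 (L' j).1) 0) ∨
  (t * (2 * δ * (n + 1) + δ) + T < ∑ j, ((XX (L j).1 : ℝ) + XX (L' j).1))

theorem lln_EE_const (n : ℕ) (c : ℝ≥0∞) : EE n (fun _ => c) = c := by
  have h := EE_mul_left n c (fun _ => 1)
  rw [EE_one, mul_one] at h
  simpa using h

theorem lln_EE_congr {n : ℕ} {g h : Wd → ℝ≥0∞} (hgh : ∀ w, Star n w → g w = h w) :
    EE n g = EE n h :=
  le_antisymm (EE_mono (fun w hw => (hgh w hw).le)) (EE_mono (fun w hw => (hgh w hw).ge))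

theorem lln_bad (n t : ℕ) (k δ T : ℝ) (hδ : 0 < δ) (hδ1 : δ ≤ 1) (hT : 0 ≤ T)
    (hk : k = (EE n (fun v => EE n (fun w => (NN v w : ℝ≥0∞)))).toReal)
    (hX : EE n (fun w => (XX w : ℝ≥0∞)) ≤ ENNReal.ofReal (δ * (n + 1))) :
    mass2 n t (llnBad n t k δ T) ≤
      ENNReal.ofReal (3 * Real.exp (-(δ / (2 * (n + 1)) ^ 2) * T)) := by
  have hn0 : (0 : ℝ) ≤ n := Nat.cast_nonneg n
  have hfin : EE n (fun v => EE n (fun w => (NN v w : ℝ≥0∞))) ≤ (n : ℝ≥0∞) := by
    calc EE n (fun v => EE n (fun w => (NN v w : ℝ≥0∞)))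
        ≤ EE n (fun _ => EE n (fun _ => (n : ℝ≥0∞))) := by
          apply EE_mono
          intro v hv
          apply EE_mono
          intro w hw
          exact_mod_cast NN_le hv hw
      _ = (n : ℝ≥0∞) := by rw [lln_EE_const, lln_EE_const]
  have hne : EE n (fun v => EE n (fun w => (NN v w : ℝ≥0∞))) ≠ ⊤ :=
    ne_top_of_le_ne_top (ENNReal.natCast_ne_top n) hfin
  have hkof : ENNReal.ofReal k = EE n (fun v => EE n (fun w => (NN v w : ℝ≥0∞))) := by
    rw [hk, ENNReal.ofReal_toReal hne]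
  have hk0 : 0 ≤ k := by rw [hk]; exact ENNReal.toReal_nonneg
  have hkn : k ≤ n := by
    have := ENNReal.toReal_mono (ENNReal.natCast_ne_top n) hfin
    rw [← hk, ENNReal.toReal_natCast] at this
    exact this
  -- first event
  have e1 := chernoff n t (fun v w => (NN v w : ℝ)) (b := 2 * (n + 1)) (m := k) (ε := δ) (T := T)
    (fun v w => Nat.cast_nonneg _)
    (fun v w hv hw => by
      have : (NN v w : ℝ) ≤ n := by exact_mod_cast NN_le hv hw
      linarith)
    (by linarith)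
    (by
      rw [hkof]
      apply EE_mono
      intro v _
      apply EE_mono
      intro w _
      rw [ENNReal.ofReal_natCast])
    hk0 hδ hδ1 hT
  -- second event
  have hsum : EE n (fun v => EE n (fun w => ENNReal.ofReal (max ((n : ℝ) - NN v w) 0))) +
      ENNReal.ofReal k = (n : ℝ≥0∞) := by
    rw [hkof, ← EE_add]
    have : ∀ v, EE n (fun w => ENNReal.ofReal (max ((n : ℝ) - NN v w) 0)) +
        EE n (fun w => (NN v w : ℝ≥0∞)) =
        EE n (fun w => ENNReal.ofReal (max ((n : ℝ) - NN v w) 0) + (NN v w : ℝ≥0∞)) := by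
      intro v
      rw [EE_add]
    simp_rw [this]
    rw [lln_EE_congr (h := fun _ => EE n (fun _ => (n : ℝ≥0∞))), lln_EE_const, lln_EE_const]
    intro v hv
    apply lln_EE_congr
    intro w hw
    have h1 : (NN v w : ℝ) ≤ n := by exact_mod_cast NN_le hv hw
    rw [max_eq_left (by linarith), ← ENNReal.ofReal_natCast (NN v w),
      ← ENNReal.ofReal_add (by linarith) (Nat.cast_nonneg _), sub_add_cancel,
      ENNReal.ofReal_natCast]
  have e2 := chernoff n t (fun v w => max ((n : ℝ) - NN v w) 0) (b := 2 * (n + 1)) (m := n - k)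
    (ε := δ) (T := T)
    (fun v w => le_max_right _ _)
    (fun v w hv hw => by
      apply max_le
      · have : (0 : ℝ) ≤ NN v w := Nat.cast_nonneg _
        linarith
      · linarith)
    (by linarith)
    (by
      have h1 : EE n (fun v => EE n (fun w => ENNReal.ofReal (max ((n : ℝ) - NN v w) 0))) =
          (n : ℝ≥0∞) - ENNReal.ofReal k := by
        rw [← hsum, ENNReal.add_sub_cancel_right ENNReal.ofReal_ne_top]
      rw [h1, ENNReal.ofReal_sub _ hk0, ENNReal.ofReal_natCast])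
    (by linarith) hδ hδ1 hT
  -- third event
  have e3 := chernoff n t (fun v w => (XX v : ℝ) + XX w) (b := 2 * (n + 1))
    (m := 2 * δ * (n + 1)) (ε := δ) (T := T)
    (fun v w => add_nonneg (Nat.cast_nonneg _) (Nat.cast_nonneg _))
    (fun v w hv hw => by
      have h1 : (XX v : ℝ) ≤ n := by exact_mod_cast XX_le_star hv
      have h2 : (XX w : ℝ) ≤ n := by exact_mod_cast XX_le_star hw
      linarith)
    (by linarith)
    (by
      have h1 : ∀ v, EE n (fun w => ENNReal.ofReal ((XX v : ℝ) + XX w)) =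
          (XX v : ℝ≥0∞) + EE n (fun w => (XX w : ℝ≥0∞)) := by
        intro v
        have : ∀ w, ENNReal.ofReal ((XX v : ℝ) + XX w) = (XX v : ℝ≥0∞) + (XX w : ℝ≥0∞) := by
          intro w
          rw [ENNReal.ofReal_add (Nat.cast_nonneg _) (Nat.cast_nonneg _),
            ENNReal.ofReal_natCast, ENNReal.ofReal_natCast]
        simp_rw [this]
        rw [EE_add, lln_EE_const]
      simp_rw [h1]
      rw [EE_add, lln_EE_const]
      calc EE n (fun w => (XX w : ℝ≥0∞)) + EE n (fun w => (XX w : ℝ≥0∞))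
          ≤ ENNReal.ofReal (δ * (n + 1)) + ENNReal.ofReal (δ * (n + 1)) := add_le_add hX hX
        _ = ENNReal.ofReal (2 * δ * (n + 1)) := by
          rw [← ENNReal.ofReal_add (by positivity) (by positivity)]
          congr 1; ring)
    (by positivity) hδ hδ1 hT
  have hexp : 0 ≤ Real.exp (-(δ / (2 * ((n : ℝ) + 1)) ^ 2) * T) := (Real.exp_pos _).le
  calc mass2 n t (llnBad n t k δ T)
      ≤ mass2 n t (fun L L' => t * (k + δ) + T < ∑ j, (NN (L j).1 (L' j).1 : ℝ)) +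
        (mass2 n t (fun L L' => t * ((n - k) + δ) + T <
            ∑ j, max ((n : ℝ) - NN (L j).1 (L' j).1) 0) +
          mass2 n t (fun L L' => t * (2 * δ * (n + 1) + δ) + T <
            ∑ j, ((XX (L j).1 : ℝ) + XX (L' j).1))) :=
        le_trans (lln_mass2_or n t _ _) (add_le_add le_rfl (lln_mass2_or n t _ _))
    _ ≤ ENNReal.ofReal (Real.exp (-(δ / (2 * ((n : ℝ) + 1)) ^ 2) * T)) +
        (ENNReal.ofReal (Real.exp (-(δ / (2 * ((n : ℝ) + 1)) ^ 2) * T)) +
          ENNReal.ofReal (Real.exp (-(δ / (2 * ((n : ℝ) + 1)) ^ 2) * T))) :=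
        add_le_add e1 (add_le_add e2 e3)
    _ = ENNReal.ofReal (3 * Real.exp (-(δ / (2 * (n + 1)) ^ 2) * T)) := by
        rw [← ENNReal.ofReal_add hexp hexp, ← ENNReal.ofReal_add hexp (by linarith)]
        congr 1; ring

/-- deterministic part -/
theorem lln_det {n t m a c : ℕ} {k δ T : ℝ} (hδ : 0 < δ) (hδ1 : δ ≤ 1)
    (hk1 : |k / ((n : ℝ) + 1) - kappa| ≤ δ) (hn : 1 ≤ δ * ((n : ℝ) + 1)) (ht : t = m / (n + 1))
    (L L' : Fin t → Wd × Bool)
    (ha : ∑ j, NN (L j).1 (L' j).1 ≤ a)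
    (hc : c ≤ ∑ j, NN (L j).1 (L' j).1 + ∑ j, (XX (L j).1 + XX (L' j).1) + (t + n + 1))
    (hbad : ¬ llnBad n t k δ T L L') :
    kappa * m - (6 * δ * m + 2 * T + (n + 1)) ≤ a ∧
      (c : ℝ) ≤ kappa * m + (6 * δ * m + 2 * T + (n + 1)) := by
  unfold llnBad at hbad
  push Not at hbad
  obtain ⟨b1, b2, b3⟩ := hbad
  have hn1 : (0 : ℝ) < (n : ℝ) + 1 := by positivity
  have htm : t * (n + 1) ≤ m := by rw [ht]; exact Nat.div_mul_le_self _ _
  have htm2 : m < (n + 1) * (t + 1) := by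
    rw [ht]; exact Nat.lt_mul_div_succ _ (Nat.succ_pos _)
  have htmR : (t : ℝ) * (n + 1) ≤ m := by exact_mod_cast htm
  have htmR2 : (m : ℝ) < (n + 1) * (t + 1) := by exact_mod_cast htm2
  have ht0 : (0 : ℝ) ≤ t := Nat.cast_nonneg t
  have hm0 : (0 : ℝ) ≤ m := Nat.cast_nonneg m
  have htt : (t : ℝ) ≤ δ * m := by
    have h1 := mul_le_mul_of_nonneg_left hn ht0
    have h2 := mul_le_mul_of_nonneg_left htmR hδ.le
    nlinarith
  have ht1 : (t : ℝ) ≤ m := by
    have h1 : δ * m ≤ 1 * m := mul_le_mul_of_nonneg_right hδ1 hm0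
    linarith
  have hκ0 := kappa_nonneg
  have hκ1 := kappa_le_one
  rw [abs_le] at hk1
  have hka : (kappa - δ) * (n + 1) ≤ k := by
    have : kappa - δ ≤ k / ((n : ℝ) + 1) := by linarith
    rwa [le_div_iff₀ hn1] at this
  have hkb : k ≤ (kappa + δ) * (n + 1) := by
    have : k / ((n : ℝ) + 1) ≤ kappa + δ := by linarith
    rwa [div_le_iff₀ hn1] at this
  have s2 : (t : ℝ) * n - ∑ j, (NN (L j).1 (L' j).1 : ℝ) ≤
      ∑ j, max ((n : ℝ) - NN (L j).1 (L' j).1) 0 := by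
    have : (t : ℝ) * n - ∑ j, (NN (L j).1 (L' j).1 : ℝ) =
        ∑ j, ((n : ℝ) - NN (L j).1 (L' j).1) := by
      rw [Finset.sum_sub_distrib, Finset.sum_const, Finset.card_univ, Fintype.card_fin,
        nsmul_eq_mul]
    rw [this]
    exact Finset.sum_le_sum (fun j _ => le_max_left _ _)
  have haR : ∑ j, (NN (L j).1 (L' j).1 : ℝ) ≤ a := by exact_mod_cast ha
  have hcR : (c : ℝ) ≤ ∑ j, (NN (L j).1 (L' j).1 : ℝ) +
      ∑ j, ((XX (L j).1 : ℝ) + XX (L' j).1) + (t + n + 1) := by exact_mod_cast hc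
  have p1 : (t : ℝ) * ((kappa - δ) * (n + 1)) ≤ t * k := mul_le_mul_of_nonneg_left hka ht0
  have p2 : (t : ℝ) * k ≤ t * ((kappa + δ) * (n + 1)) := mul_le_mul_of_nonneg_left hkb ht0
  have p3 : kappa * (t * ((n : ℝ) + 1)) ≤ kappa * m := mul_le_mul_of_nonneg_left htmR hκ0
  have p4 : δ * (t * ((n : ℝ) + 1)) ≤ δ * m := mul_le_mul_of_nonneg_left htmR hδ.le
  have p5 : δ * (t : ℝ) ≤ δ * m := mul_le_mul_of_nonneg_left ht1 hδ.le
  have p6 : kappa * m ≤ kappa * ((n + 1) * (t + 1)) := mul_le_mul_of_nonneg_left htmR2.le hκ0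
  have p7 : kappa * ((n : ℝ) + 1) ≤ 1 * ((n : ℝ) + 1) := mul_le_mul_of_nonneg_right hκ1 hn1.le
  have p8 : 0 ≤ δ * m := by positivity
  constructor
  · have q1 : (t : ℝ) * ((kappa - δ) * (n + 1)) = kappa * (t * ((n : ℝ) + 1)) -
      δ * (t * ((n : ℝ) + 1)) := by ring
    have q2 : kappa * (((n : ℝ) + 1) * (t + 1)) = kappa * (t * ((n : ℝ) + 1)) +
      kappa * ((n : ℝ) + 1) := by ring
    have q3 : (t : ℝ) * ((n - k) + δ) = t * n - t * k + δ * t := by ring
    by_cases hT : 0 ≤ T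
    · linarith
    · linarith
  · have q1 : (t : ℝ) * ((kappa + δ) * (n + 1)) = kappa * (t * ((n : ℝ) + 1)) +
      δ * (t * ((n : ℝ) + 1)) := by ring
    have q3 : (t : ℝ) * (k + δ) = t * k + δ * t := by ring
    have q4 : (t : ℝ) * (2 * δ * (n + 1) + δ) = 2 * (δ * (t * ((n : ℝ) + 1))) + δ * t := by ring
    linarith

/-- choice of the block size -/
theorem lln_choose (ε : ℝ) (hε : 0 < ε) : ∃ (δ : ℝ) (n : ℕ) (k : ℝ), 0 < δ ∧ δ ≤ 1 ∧
    6 * δ ≤ ε ∧ k = (EE n (fun v => EE n (fun w => (NN v w : ℝ≥0∞)))).toReal ∧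
    EE n (fun w => (XX w : ℝ≥0∞)) ≤ ENNReal.ofReal (δ * (n + 1)) ∧
    |k / ((n : ℝ) + 1) - kappa| ≤ δ ∧ 1 ≤ δ * ((n : ℝ) + 1) := by
  obtain ⟨δ, hδ⟩ : ∃ δ, δ = min ε 1 / 6 := ⟨_, rfl⟩
  have hm : 0 < min ε 1 := lt_min hε one_pos
  have hδ0 : 0 < δ := by rw [hδ]; positivity
  have h1 := F1 δ hδ0
  have h2 : ∀ᶠ n : ℕ in atTop, |(EE n (fun v => EE n (fun w => (NN v w : ℝ≥0∞)))).toReal /
      ((n : ℝ) + 1) - kappa| < δ := by
    have := Metric.tendsto_nhds.mp kappa_tendsto δ hδ0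
    simpa [Real.dist_eq] using this
  have h3 : ∀ᶠ n : ℕ in atTop, 1 ≤ δ * ((n : ℝ) + 1) := by
    obtain ⟨M, hM⟩ := exists_nat_ge (1 / δ)
    filter_upwards [eventually_ge_atTop M] with n hn
    have : (M : ℝ) ≤ n := by exact_mod_cast hn
    have h4 : 1 / δ ≤ (n : ℝ) + 1 := by linarith
    rw [div_le_iff₀ hδ0] at h4
    linarith
  obtain ⟨n, g1, g2, g3⟩ := (h1.and (h2.and h3)).exists
  refine ⟨δ, n, _, hδ0, ?_, ?_, rfl, g1, g2.le, g3⟩
  · rw [hδ]; linarith [min_le_right ε 1]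
  · rw [hδ]; linarith [min_le_left ε 1]

theorem lln_mU_sw (v w : Wd) : mU (sw v) (sw w) = mL v w := by
  unfold mU mL
  rw [up_sw, up_sw]

theorem lln_kU_sw (z : Wd) : kU (sw z) = kL z := by
  unfold kU kL
  rw [up_sw]

/-- law of large numbers at the seam of two words -/
theorem lln_pair (ε : ℝ) (hε : 0 < ε) : ∃ C : ℝ, 0 < C ∧ ∀ (N1 N2 : ℕ) (T : ℝ), 0 ≤ T →
    Pw2 N1 N2 (fun v w => C + ε * (mU v w + mL v w) + T <
      |(nu v w : ℝ) - kappa * (mU v w + mL v w)|) ≤ C * (N1 + N2 + 1) * Real.exp (-T / C) := by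
  obtain ⟨δ, n, k, hδ, hδ1, hδε, hk, hX, hk1, hn⟩ := lln_choose ε hε
  have hn1 : (0 : ℝ) < (n : ℝ) + 1 := by positivity
  obtain ⟨C, hC⟩ : ∃ C : ℝ, C = 6 + 2 * ((n : ℝ) + 1) + 4 * (2 * ((n : ℝ) + 1)) ^ 2 / δ := ⟨_, rfl⟩
  have hCpos : 0 < C := by rw [hC]; positivity
  have hC6 : 6 ≤ C := by
    rw [hC]
    have : 0 ≤ 4 * (2 * ((n : ℝ) + 1)) ^ 2 / δ := by positivity
    linarith
  have hCn : 2 * ((n : ℝ) + 1) ≤ C := by
    rw [hC]
    have : 0 ≤ 4 * (2 * ((n : ℝ) + 1)) ^ 2 / δ := by positivity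
    linarith
  have hCd : 4 * (2 * ((n : ℝ) + 1)) ^ 2 / δ ≤ C := by
    rw [hC]; linarith
  refine ⟨C, hCpos, ?_⟩
  intro N1 N2 T hT
  have hexp : Real.exp (-(δ / (2 * ((n : ℝ) + 1)) ^ 2) * (T / 4)) ≤ Real.exp (-T / C) := by
    apply Real.exp_le_exp.mpr
    have h1 : 1 / C ≤ δ / (4 * (2 * ((n : ℝ) + 1)) ^ 2) := by
      rw [div_le_div_iff₀ hCpos (by positivity)]
      rw [div_le_iff₀ hδ] at hCd
      linarith
    have h2 := mul_le_mul_of_nonneg_right h1 hT
    have e1 : -T / C = -(1 / C * T) := by ring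
    have e2 : -(δ / (2 * ((n : ℝ) + 1)) ^ 2) * (T / 4) =
      -(δ / (4 * (2 * ((n : ℝ) + 1)) ^ 2) * T) := by
      field_simp
    rw [e1, e2]
    linarith
  have key := lln_Pw2_le (N1 := N1) (N2 := N2) (K := N1)
    (F := fun v w => C + ε * (mU v w + mL v w) + T <
      |(nu v w : ℝ) - kappa * (mU v w + mL v w)|)
    (A := fun t v w => ∃ L L' : Fin t → Wd × Bool, (∀ j, Star n (L j).1) ∧
      (∀ j, Star n (L' j).1) ∧ (∃ r, v = flatF L ++ r) ∧ (∃ r, w = flatF L' ++ r) ∧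
      llnBad n t k δ (T / 4) L L')
    (c := 3 * Real.exp (-(δ / (2 * ((n : ℝ) + 1)) ^ 2) * (T / 4)))
    (by
      intro v w hv hw hF
      by_contra hcon
      push Not at hcon
      have hlen : ∀ v' w' : Wd, v'.length = N1 → mU v' w' / (n + 1) ≤ N1 := by
        intro v' w' hv'
        have h1 : mU v' w' ≤ uc (up v') := min_le_left _ _
        have h2 := uc_add_uo_le (up v')
        rw [length_up, hv'] at h2
        exact le_trans (Nat.div_le_self _ _) (by omega)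
      obtain ⟨L, L', a1, a2, a3, a4, a5, a6⟩ := pair_blocks n v w
      obtain ⟨M, M', c1, c2, c3, c4, c5, c6⟩ := pair_blocks n (sw v) (sw w)
      have d1 := (hcon _ (hlen v w hv)).1 L L' a1 a2 a3 a4
      have d2 := (hcon _ (hlen (sw v) (sw w) (by rw [length_sw, hv]))).2 M M' c1 c2 c3 c4
      have r1 := lln_det hδ hδ1 hk1 hn rfl L L' a5 a6 d1
      have r2 := lln_det hδ hδ1 hk1 hn rfl M M' c5 c6 d2
      rw [lln_mU_sw] at r2
      obtain ⟨nb1, nb2⟩ := nu_bounds v w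
      have nb1' : (nuP v w : ℝ) + nuP (sw v) (sw w) ≤ nu v w := by exact_mod_cast nb1
      have nb2' : (nu v w : ℝ) ≤ nuU v w + nuU (sw v) (sw w) := by exact_mod_cast nb2
      have hm0 : (0 : ℝ) ≤ (mU v w : ℝ) + mL v w := by positivity
      have hε' : 6 * δ * ((mU v w : ℝ) + mL v w) ≤ ε * (mU v w + mL v w) :=
        mul_le_mul_of_nonneg_right hδε hm0
      have hF' : |(nu v w : ℝ) - kappa * (mU v w + mL v w)| ≤
          C + ε * (mU v w + mL v w) + T := by
        rw [abs_le]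
        constructor <;> linarith [r1.1, r1.2, r2.1, r2.2]
      exact absurd hF (not_lt.mpr hF'))
    (by
      intro t
      have h1 := le_trans (pair_mass N1 N2 n t (llnBad n t k δ (T / 4)))
        (lln_bad n t k δ (T / 4) hδ hδ1 (by positivity) hk hX)
      rwa [ENNReal.ofReal_le_ofReal_iff (by positivity)] at h1)
  refine le_trans key ?_
  have hN : (0 : ℝ) ≤ N2 := Nat.cast_nonneg _
  have hN1 : (0 : ℝ) ≤ N1 := Nat.cast_nonneg _
  calc 2 * ((N1 : ℝ) + 1) * (3 * Real.exp (-(δ / (2 * ((n : ℝ) + 1)) ^ 2) * (T / 4)))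
      = 6 * ((N1 : ℝ) + 1) * Real.exp (-(δ / (2 * ((n : ℝ) + 1)) ^ 2) * (T / 4)) := by ring
    _ ≤ C * (N1 + N2 + 1) * Real.exp (-T / C) := by
        apply mul_le_mul _ hexp (Real.exp_pos _).le (by positivity)
        apply mul_le_mul hC6 (by linarith) (by linarith) hCpos.le

/-- law of large numbers at the cyclic seam -/
theorem lln_cyc (ε : ℝ) (hε : 0 < ε) : ∃ C : ℝ, 0 < C ∧ ∀ (N : ℕ) (T : ℝ), 0 ≤ T →
    Pw N (fun z => C + ε * (kU z + kL z) + T <
      |(nucyc z : ℝ) - kappa * (kU z + kL z)|) ≤ C * (N + 1) * Real.exp (-T / C) := by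
  obtain ⟨δ, n, k, hδ, hδ1, hδε, hk, hX, hk1, hn⟩ := lln_choose ε hε
  have hn1 : (0 : ℝ) < (n : ℝ) + 1 := by positivity
  obtain ⟨C, hC⟩ : ∃ C : ℝ, C = 6 + 2 * ((n : ℝ) + 1) + 4 * (2 * ((n : ℝ) + 1)) ^ 2 / δ := ⟨_, rfl⟩
  have hCpos : 0 < C := by rw [hC]; positivity
  have hC6 : 6 ≤ C := by
    rw [hC]
    have : 0 ≤ 4 * (2 * ((n : ℝ) + 1)) ^ 2 / δ := by positivity
    linarith
  have hCn : 2 * ((n : ℝ) + 1) ≤ C := by
    rw [hC]
    have : 0 ≤ 4 * (2 * ((n : ℝ) + 1)) ^ 2 / δ := by positivity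
    linarith
  have hCd : 4 * (2 * ((n : ℝ) + 1)) ^ 2 / δ ≤ C := by
    rw [hC]; linarith
  refine ⟨C, hCpos, ?_⟩
  intro N T hT
  have hexp : Real.exp (-(δ / (2 * ((n : ℝ) + 1)) ^ 2) * (T / 4)) ≤ Real.exp (-T / C) := by
    apply Real.exp_le_exp.mpr
    have h1 : 1 / C ≤ δ / (4 * (2 * ((n : ℝ) + 1)) ^ 2) := by
      rw [div_le_div_iff₀ hCpos (by positivity)]
      rw [div_le_iff₀ hδ] at hCd
      linarith
    have h2 := mul_le_mul_of_nonneg_right h1 hT
    have e1 : -T / C = -(1 / C * T) := by ring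
    have e2 : -(δ / (2 * ((n : ℝ) + 1)) ^ 2) * (T / 4) =
      -(δ / (4 * (2 * ((n : ℝ) + 1)) ^ 2) * T) := by
      field_simp
    rw [e1, e2]
    linarith
  have key := lln_Pw_le (N := N) (K := N)
    (F := fun z => C + ε * (kU z + kL z) + T <
      |(nucyc z : ℝ) - kappa * (kU z + kL z)|)
    (A := fun t z => ∃ L L' : Fin t → Wd × Bool, (∀ j, Star n (L j).1) ∧
      (∀ j, Star n (L' j).1) ∧ (∃ r, z = flatF L ++ r ++ mirw (flatF L')) ∧
      llnBad n t k δ (T / 4) L L')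
    (c := 3 * Real.exp (-(δ / (2 * ((n : ℝ) + 1)) ^ 2) * (T / 4)))
    (by
      intro z hz hF
      by_contra hcon
      push Not at hcon
      have hlen : ∀ z' : Wd, z'.length = N → kU z' / (n + 1) ≤ N := by
        intro z' hz'
        have h1 : kU z' ≤ uc (up z') := min_le_left _ _
        have h2 := uc_add_uo_le (up z')
        rw [length_up, hz'] at h2
        exact le_trans (Nat.div_le_self _ _) (by omega)
      obtain ⟨L, L', a1, a2, a3, a5, a6⟩ := cyc_blocks n z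
      obtain ⟨M, M', c1, c2, c3, c5, c6⟩ := cyc_blocks n (sw z)
      have d1 := (hcon _ (hlen z hz)).1 L L' a1 a2 a3
      have d2 := (hcon _ (hlen (sw z) (by rw [length_sw, hz]))).2 M M' c1 c2 c3
      have r1 := lln_det hδ hδ1 hk1 hn rfl L L' a5 a6 d1
      have r2 := lln_det hδ hδ1 hk1 hn rfl M M' c5 c6 d2
      rw [lln_kU_sw] at r2
      obtain ⟨nb1, nb2⟩ := nucyc_bounds z
      have nb1' : (nucycP z : ℝ) + nucycP (sw z) ≤ nucyc z := by exact_mod_cast nb1
      have nb2' : (nucyc z : ℝ) ≤ nucycU z + nucycU (sw z) := by exact_mod_cast nb2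
      have hm0 : (0 : ℝ) ≤ (kU z : ℝ) + kL z := by positivity
      have hε' : 6 * δ * ((kU z : ℝ) + kL z) ≤ ε * (kU z + kL z) :=
        mul_le_mul_of_nonneg_right hδε hm0
      have hF' : |(nucyc z : ℝ) - kappa * (kU z + kL z)| ≤
          C + ε * (kU z + kL z) + T := by
        rw [abs_le]
        constructor <;> linarith [r1.1, r1.2, r2.1, r2.2]
      exact absurd hF (not_lt.mpr hF'))
    (by
      intro t
      have h1 := le_trans (cyc_mass N n t (llnBad n t k δ (T / 4)))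
        (lln_bad n t k δ (T / 4) hδ hδ1 (by positivity) hk hX)
      rwa [ENNReal.ofReal_le_ofReal_iff (by positivity)] at h1)
  refine le_trans key ?_
  have hN1 : (0 : ℝ) ≤ N := Nat.cast_nonneg _
  calc 2 * ((N : ℝ) + 1) * (3 * Real.exp (-(δ / (2 * ((n : ℝ) + 1)) ^ 2) * (T / 4)))
      = 6 * ((N : ℝ) + 1) * Real.exp (-(δ / (2 * ((n : ℝ) + 1)) ^ 2) * (T / 4)) := by ring
    _ ≤ C * (N + 1) * Real.exp (-T / C) := by
        apply mul_le_mul _ hexp (Real.exp_pos _).le (by positivity)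
        apply mul_le_mul hC6 le_rfl (by linarith) hCpos.le

end MeanderCLT
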