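import Pool.Agent.H98.M.Red
import Pool.Agent.H98.M.Arcs

/-!
# Unmatched brackets and glue arcs
-/

namespace MeanderCLT

theorem rc_lt {s : List Bool} {i k : ℕ} (h : rc s i k) : k < uc s := by
  have h1 := neg_uc_le_ht s (i + 1)
  rw [h.2.1] at h1
  omega

theorem rc_exists {s : List Bool} {k : ℕ} (h : k < uc s) : ∃ i, rc s i k := by
  obtain ⟨j, hj, hj'⟩ := exists_ht_eq_neg_uc s
  obtain ⟨p, _, hp, hp1, hp2⟩ := ht_ivt_down (s := s) (i := 0) (j := j) (c := -((k : ℤ) + 1))
    (Nat.zero_le _) hj (by rw [ht_zero]; omega) (by rw [hj']; omega)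
  have hp0 : p ≠ 0 := by
    rintro rfl
    rw [ht_zero] at hp1; omega
  obtain ⟨i, rfl⟩ : ∃ i, p = i + 1 := ⟨p - 1, by omega⟩
  exact ⟨i, by omega, hp1, fun t ht => hp2 t (Nat.zero_le _) (by omega)⟩

theorem rc_pos_unique {s : List Bool} {i i' k : ℕ} (h : rc s i k) (h' : rc s i' k) : i = i' := by
  rcases lt_trichotomy i i' with hl | hl | hl
  · have := h'.2.2 (i + 1) (by omega)
    rw [h.2.1] at this; omega
  · exact hl
  · have := h.2.2 (i' + 1) (by omega)
    rw [h'.2.1] at this; omega

theorem rc_idx_unique {s : List Bool} {i k k' : ℕ} (h : rc s i k) (h' : rc s i k') : k = k' := by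
  have h1 := h.2.1
  rw [h'.2.1] at h1
  omega

theorem rc_letter {s : List Bool} {i k : ℕ} (h : rc s i k) : s[i]? = some false := by
  rcases ht_step h.1 with ⟨_, h2⟩ | ⟨h1, _⟩
  · have h3 := h.2.2 i le_rfl
    have h4 := h.2.1
    omega
  · exact h1

theorem rc_ufree {s : List Bool} {i k : ℕ} (h : rc s i k) : ufree s i := by
  refine ⟨h.1, ?_⟩
  rintro j (hj | hj)
  · have h1 := (arc_letter hj).1
    rw [rc_letter h] at h1
    simp at h1
  · have h1 := h.2.2 j (by have := hj.1; omega)
    have h2 := hj.2.2.1
    rw [h.2.1] at h2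
    omega

theorem ufree_false {s : List Bool} {i : ℕ} (h : ufree s i) (hb : s[i]? = some false) :
    ∃ k, rc s i k := by
  have hs := ht_succ_false hb
  have key : ∀ t, t ≤ i → ht s (i + 1) < ht s t := by
    intro t ht'
    by_contra hcon
    obtain ⟨k, h1, h2, h3, h4⟩ := ht_ivt_last (s := s) (i := t) (j := i) (c := ht s (i + 1))
      ht' (by have := h.1; omega) (by omega) (by omega)
    have hki : k ≠ i := by
      rintro rfl; omega
    exact h.2 k (Or.inr ⟨by omega, h.1, by omega, fun l hl hl' => by rw [h3]; exact h4 l hl hl'⟩)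
  have h0 := key 0 (Nat.zero_le _)
  rw [ht_zero] at h0
  refine ⟨(-ht s (i + 1) - 1).toNat, h.1, by omega, ?_⟩
  intro t ht'
  have := key t ht'
  omega

theorem ufree_mir {s : List Bool} {i : ℕ} (hi : i < s.length) :
    ufree (mir s) (s.length - 1 - i) ↔ ufree s i := by
  constructor
  · rintro ⟨_, h⟩
    refine ⟨hi, fun j hj => ?_⟩
    have hj' := (Arc_lt hj).2
    refine h (s.length - 1 - j) ?_
    rw [Arc_mir (by omega) (by omega)]
    have e1 : s.length - 1 - (s.length - 1 - i) = i := by omega
    have e2 : s.length - 1 - (s.length - 1 - j) = j := by omega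
    rw [e1, e2]; exact hj
  · rintro ⟨_, h⟩
    refine ⟨by rw [length_mir]; omega, fun j hj => ?_⟩
    have hj' := (Arc_lt hj).2
    rw [length_mir] at hj'
    rw [Arc_mir (by omega) hj'] at hj
    have e1 : s.length - 1 - (s.length - 1 - i) = i := by omega
    rw [e1] at hj
    exact h _ hj

theorem rc_mir_letter {s : List Bool} {i k : ℕ} (hi : i < s.length)
    (h : rc (mir s) (s.length - 1 - i) k) : s[i]? = some true := by
  have h1 := rc_letter h
  rw [mir_getElem? (by omega)] at h1
  have e1 : s.length - 1 - (s.length - 1 - i) = i := by omega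
  rw [e1] at h1
  rw [List.getElem?_eq_getElem hi] at h1 ⊢
  simpa using h1

theorem rc_mir_ufree {s : List Bool} {i k : ℕ} (hi : i < s.length)
    (h : rc (mir s) (s.length - 1 - i) k) : ufree s i :=
  (ufree_mir hi).mp (rc_ufree h)

theorem ufree_true {s : List Bool} {i : ℕ} (h : ufree s i) (hb : s[i]? = some true) :
    ∃ k, rc (mir s) (s.length - 1 - i) k := by
  have hi := h.1
  apply ufree_false ((ufree_mir hi).mpr h)
  rw [mir_getElem? (by omega)]
  have e1 : s.length - 1 - (s.length - 1 - i) = i := by omega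
  rw [e1, hb]
  rfl

open Classical in
theorem card_rc (s : List Bool) :
    ((Finset.range s.length).filter (fun i => ∃ k, rc s i k)).card = uc s := by
  symm
  rw [← Finset.card_range (uc s)]
  refine Finset.card_bij (fun k hk => (rc_exists (Finset.mem_range.mp hk)).choose) ?_ ?_ ?_
  · intro k hk
    have h := (rc_exists (Finset.mem_range.mp hk)).choose_spec
    exact Finset.mem_filter.mpr ⟨Finset.mem_range.mpr h.1, k, h⟩
  · intro k hk k' hk' e
    have h := (rc_exists (Finset.mem_range.mp hk)).choose_spec
    have h' := (rc_exists (Finset.mem_range.mp hk')).choose_spec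
    rw [e] at h
    exact rc_idx_unique h h'
  · intro i hi
    obtain ⟨_, k, hk⟩ := Finset.mem_filter.mp hi
    refine ⟨k, Finset.mem_range.mpr (rc_lt hk), ?_⟩
    exact rc_pos_unique (rc_exists (rc_lt hk)).choose_spec hk

open Classical in
theorem card_rc_mir (s : List Bool) :
    ((Finset.range s.length).filter (fun i => ∃ k, rc (mir s) (s.length - 1 - i) k)).card = uo s := by
  rw [← uc_mir, ← card_rc (mir s)]
  refine Finset.card_bij (fun i _ => s.length - 1 - i) ?_ ?_ ?_
  · intro i hi
    obtain ⟨h1, k, hk⟩ := Finset.mem_filter.mp hi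
    exact Finset.mem_filter.mpr ⟨Finset.mem_range.mpr hk.1, k, hk⟩
  · intro i hi j hj e
    have h1 := Finset.mem_range.mp (Finset.mem_filter.mp hi).1
    have h2 := Finset.mem_range.mp (Finset.mem_filter.mp hj).1
    omega
  · intro i hi
    obtain ⟨h1, k, hk⟩ := Finset.mem_filter.mp hi
    rw [Finset.mem_range, length_mir] at h1
    refine ⟨s.length - 1 - i, Finset.mem_filter.mpr ⟨Finset.mem_range.mpr (by omega), k, ?_⟩,
      by omega⟩
    have e1 : s.length - 1 - (s.length - 1 - i) = i := by omega
    rw [e1]; exact hk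

open Classical in
theorem card_ufree (s : List Bool) :
    ((Finset.range s.length).filter (fun i => ufree s i)).card = uc s + uo s := by
  rw [← card_rc s, ← card_rc_mir s, ← Finset.card_union_of_disjoint]
  · congr 1
    ext i
    simp only [Finset.mem_filter, Finset.mem_union, Finset.mem_range]
    constructor
    · rintro ⟨hi, h⟩
      rcases ht_step hi with ⟨hb, _⟩ | ⟨hb, _⟩
      · exact Or.inr ⟨hi, ufree_true h hb⟩
      · exact Or.inl ⟨hi, ufree_false h hb⟩
    · rintro (⟨hi, k, hk⟩ | ⟨hi, k, hk⟩)
      · exact ⟨hi, rc_ufree hk⟩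
      · exact ⟨hi, rc_mir_ufree hi hk⟩
  · rw [Finset.disjoint_left]
    intro i h1 h2
    obtain ⟨_, k, hk⟩ := Finset.mem_filter.mp h1
    obtain ⟨hi, k', hk'⟩ := Finset.mem_filter.mp h2
    have e1 := rc_letter hk
    have e2 := rc_mir_letter (Finset.mem_range.mp hi) hk'
    rw [e1] at e2
    simp at e2

theorem rc_append_left {s t : List Bool} {i k : ℕ} (hi : i < s.length) :
    rc (s ++ t) i k ↔ rc s i k := by
  unfold rc
  rw [ht_append_left (by omega), List.length_append]
  constructor
  · rintro ⟨_, h2, h3⟩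
    refine ⟨hi, h2, fun u hu => ?_⟩
    have := h3 u hu
    rwa [ht_append_left (by omega)] at this
  · rintro ⟨_, h2, h3⟩
    refine ⟨by omega, h2, fun u hu => ?_⟩
    rw [ht_append_left (by omega)]
    exact h3 u hu

theorem rc_append_right {s t : List Bool} {j k : ℕ} :
    rc (s ++ t) (s.length + j) k ↔ ∃ k', rc t j k' ∧ uo s ≤ k' ∧ k + uo s = k' + uc s := by
  have hH : ht s s.length = (uo s : ℤ) - uc s := hh_eq s
  constructor
  · rintro ⟨h1, h2, h3⟩
    rw [List.length_append] at h1
    rw [Nat.add_assoc, ht_append_right, hH] at h2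
    obtain ⟨p, hp, hp'⟩ := exists_ht_eq_neg_uc s
    have h4 := h3 p (by omega)
    rw [ht_append_left hp, hp'] at h4
    have h5 := h3 s.length (by omega)
    refine ⟨k + uo s - uc s, ⟨by omega, by omega, fun u hu => ?_⟩, by omega, by omega⟩
    have h6 := h3 (s.length + u) (by omega)
    rw [ht_append_right, hH] at h6
    omega
  · rintro ⟨k', ⟨h1, h2, h3⟩, h4, h5⟩
    refine ⟨by rw [List.length_append]; omega, ?_, ?_⟩
    · rw [Nat.add_assoc, ht_append_right, hH, h2]
      omega
    · intro u hu
      rcases Nat.lt_or_ge s.length u with h | h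
      · obtain ⟨u', rfl⟩ : ∃ u', u = s.length + u' := ⟨u - s.length, by omega⟩
        rw [ht_append_right, hH]
        have := h3 u' (by omega)
        omega
      · rw [ht_append_left h]
        have := neg_uc_le_ht s u
        omega

/-- the arcs over the seam of `mir s ++ t` -/
theorem glue_iff {s t : List Bool} {i j : ℕ} (hi : i < s.length) (hj : j < t.length) :
    Arc (mir s ++ t) (s.length - 1 - i) (s.length + j) ↔ ∃ k, rc s i k ∧ rc t j k := by
  have hl : (mir s).length = s.length := length_mir s
  have hp : ht (mir s ++ t) (s.length - 1 - i) = ht s (i + 1) - ht s s.length := by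
    rw [ht_append_left (by omega), ht_mir s (by omega)]
    congr 2; omega
  have hM : ht (mir s) (mir s).length = - ht s s.length := by
    rw [hl, ht_mir s le_rfl, Nat.sub_self, ht_zero]; ring
  have hR : ∀ u, ht (mir s ++ t) (s.length + u) = - ht s s.length + ht t u := by
    intro u
    have := ht_append_right (mir s) t u
    rw [hl] at this
    rw [this]
    rw [hl] at hM
    rw [hM]
  have hL : ∀ u, u ≤ s.length → ht (mir s ++ t) (s.length - u) = ht s u - ht s s.length := by
    intro u hu
    rw [ht_append_left (by omega), ht_mir s (by omega)]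
    congr 2; omega
  constructor
  · rintro (h | h)
    · obtain ⟨h1, h2, h3, h4⟩ := h
      rw [hp, Nat.add_assoc, hR] at h3
      have h5 : ∀ u, u ≤ i → ht s (i + 1) < ht s u := by
        intro u hu
        have := h4 (s.length - u) (by omega) (by omega)
        rw [hp, hL u (by omega)] at this
        omega
      have h6 : ∀ u, u ≤ j → ht t (j + 1) < ht t u := by
        intro u hu
        have := h4 (s.length + u) (by omega) (by omega)
        rw [hp, hR u] at this
        omega
      have h0 := h5 0 (Nat.zero_le _)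
      rw [ht_zero] at h0
      refine ⟨(-ht s (i + 1) - 1).toNat, ⟨hi, by omega, fun u hu => ?_⟩, ⟨hj, by omega, fun u hu => ?_⟩⟩
      · have := h5 u hu; omega
      · have := h6 u hu; omega
    · have := h.1; omega
  · rintro ⟨k, ⟨_, h1, h2⟩, ⟨_, h3, h4⟩⟩
    left
    refine ⟨by omega, by rw [List.length_append, hl]; omega, ?_, ?_⟩
    · rw [hp, Nat.add_assoc, hR, h1, h3]; ring
    · intro l hl1 hl2
      rw [hp, h1]
      rcases Nat.lt_or_ge s.length l with h | h
      · obtain ⟨u, rfl⟩ : ∃ u, l = s.length + u := ⟨l - s.length, by omega⟩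
        rw [hR]
        have := h4 u (by omega)
        omega
      · obtain ⟨u, hu, rfl⟩ : ∃ u, u ≤ s.length ∧ l = s.length - u := ⟨s.length - l, by omega, by omega⟩
        rw [hL u hu]
        have := h2 u (by omega)
        omega

/-- no arc crosses a star: left part `s` without unmatched opening brackets -/
theorem no_cross_star {s t : List Bool} (hs : uo s = 0) {i j : ℕ} (hi : i < s.length)
    (hj : s.length ≤ j) : ¬ Arc (s ++ t) i j := by
  rintro (h | h)
  · have h1 := h.2.2.2 s.length hi hj
    rw [ht_append_left (by omega), ht_append_left le_rfl] at h1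
    have h2 := neg_uc_le_ht s i
    have h3 : ht s s.length = (uo s : ℤ) - uc s := hh_eq s
    omega
  · have := h.1; omega

end MeanderCLT
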