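import Pool.Agent.H98.M.Block
import Pool.Agent.H98.M.Glue
import Pool.Agent.H98.M.Ends

/-!
# Bounds for `NN` and `XX` on star words
-/

namespace MeanderCLT

theorem NN_le {n : ℕ} {v w : Wd} (hv : Star n v) (hw : Star n w) : NN v w ≤ n := by
  classical
  obtain ⟨T, hT, hit⟩ := glue_hit (up v) (up w)
  rw [(star_iff.mp hv).1, (star_iff.mp hw).1, min_self] at hT
  unfold NN
  refine (card_le_of_hit (isMat_glue (up v) (up w)) (isMat_dj (lo v) (lo w)) ?_ ?_).trans hT
  · intro C hC
    exact (mem_loops.mp (Finset.mem_filter.mp hC).1).2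
  · intro C hC
    exact hit C (Finset.mem_filter.mp hC).2

theorem sx_Or2_false {P : Type*} (R : P → P → Prop) : Or2 R (fun _ _ => False) = R := by
  funext x y
  exact propext ⟨fun h => h.elim id False.elim, Or.inl⟩

theorem sx_up (w1 w2 : Wd) (z : Bool) :
    up (w1 ++ (false, z) :: w2) = (up w1 ++ [false]) ++ up w2 := by
  rw [up_append, up_cons]; simp

theorem sx_lo (w1 w2 : Wd) (z : Bool) :
    lo (w1 ++ (false, z) :: w2) = (lo w1 ++ [z]) ++ lo w2 := by
  rw [lo_append, lo_cons]; simp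

theorem sx_uc {n : ℕ} {w : Wd} (h : Star n w) : uc (up w ++ [false]) = n + 1 := by
  rw [uc_append, (star_iff.mp h).1, (star_iff.mp h).2, uc_cons_false, uc_nil]

theorem sx_uo {n : ℕ} {w : Wd} (h : Star n w) : uo (up w ++ [false]) = 0 := by
  rw [uo_append, (star_iff.mp h).2, uo_cons_false, uo_nil]; simp

theorem sx_arc_up_l {w1 w2 : Wd} {z : Bool} {i j : ℕ} (hi : i < w1.length) (hj : j < w1.length) :
    Arc (up (w1 ++ (false, z) :: w2)) i j ↔ Arc (up w1) i j := by
  rw [up_append]
  exact Arc_append_left (by rw [length_up]; exact hi) (by rw [length_up]; exact hj)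

theorem sx_arc_lo_l {w1 w2 : Wd} {z : Bool} {i j : ℕ} (hi : i < w1.length) (hj : j < w1.length) :
    Arc (lo (w1 ++ (false, z) :: w2)) i j ↔ Arc (lo w1) i j := by
  rw [lo_append]
  exact Arc_append_left (by rw [length_lo]; exact hi) (by rw [length_lo]; exact hj)

theorem sx_arc_up_r {w1 w2 : Wd} {z : Bool} {i j : ℕ} :
    Arc (up (w1 ++ (false, z) :: w2)) (w1.length + 1 + i) (w1.length + 1 + j) ↔
      Arc (up w2) i j := by
  rw [sx_up]
  have h := Arc_append_right (s := up w1 ++ [false]) (t := up w2) (i := i) (j := j)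
  rw [List.length_append, length_up] at h
  exact h

theorem sx_arc_lo_r {w1 w2 : Wd} {z : Bool} {i j : ℕ} :
    Arc (lo (w1 ++ (false, z) :: w2)) (w1.length + 1 + i) (w1.length + 1 + j) ↔
      Arc (lo w2) i j := by
  rw [sx_lo]
  have h := Arc_append_right (s := lo w1 ++ [z]) (t := lo w2) (i := i) (j := j)
  rw [List.length_append, length_lo] at h
  exact h

theorem sx_rc_l {w1 w2 : Wd} {z : Bool} {i k : ℕ} (hi : i < w1.length) :
    rc (up (w1 ++ (false, z) :: w2)) i k ↔ rc (up w1) i k := by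
  rw [up_append]
  exact rc_append_left (by rw [length_up]; exact hi)

theorem sx_rc_r {n : ℕ} {w1 w2 : Wd} {z : Bool} (h1 : Star n w1) {i k : ℕ} :
    rc (up (w1 ++ (false, z) :: w2)) (w1.length + 1 + i) k ↔
      ∃ k', rc (up w2) i k' ∧ k = k' + (n + 1) := by
  rw [sx_up]
  have h := rc_append_right (s := up w1 ++ [false]) (t := up w2) (j := i) (k := k)
  rw [List.length_append, length_up, sx_uc h1, sx_uo h1] at h
  rw [show w1.length + [false].length + i = w1.length + 1 + i from rfl] at h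
  rw [h]
  constructor
  · rintro ⟨k', h1, _, h3⟩
    exact ⟨k', h1, by omega⟩
  · rintro ⟨k', h1, h3⟩
    exact ⟨k', h1, by omega, by omega⟩

open Classical in
theorem sx_two {P : Type*} {U0 U1 V0 V1 : P → P → Prop} {A : Finset P} {n1 n2 : ℕ}
    {v1 w1 v2 w2 : Wd} {lam1 rho1 lam2 rho2 : Fin 1 → ℕ → P}
    (hA : Blocks U0 U1 V0 V1 A n1 1 (fun _ => v1) (fun _ => w1) lam1 rho1)
    (hB : Blocks U0 U1 V0 V1 A n2 1 (fun _ => v2) (fun _ => w2) lam2 rho2)
    (hd : ∀ a ∈ pts v1 w1, ∀ b ∈ pts v2 w2, bphi lam1 rho1 0 a ≠ bphi lam2 rho2 0 b) :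
    NN v1 w1 + NN v2 w2 ≤
      ((loops (Or2 U0 U1) (Or2 V0 V1) A).filter (fun C => Has U1 C ∧ ¬ Has V1 C)).card := by
  rw [← card_blkF hA 0, ← card_blkF hB 0, ← Finset.card_union_of_disjoint]
  · exact Finset.card_le_card (Finset.union_subset (blkF_sub hA 0) (blkF_sub hB 0))
  · rw [Finset.disjoint_left]
    intro X hX hX'
    obtain ⟨C, hC, rfl⟩ := Finset.mem_image.mp hX
    obtain ⟨C', hC', e⟩ := Finset.mem_image.mp hX'
    obtain ⟨h1, h2⟩ := mem_loops.mp (Finset.mem_filter.mp hC).1
    obtain ⟨h1', -⟩ := mem_loops.mp (Finset.mem_filter.mp hC').1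
    obtain ⟨a, ha⟩ := h2.1
    have e' := (Finset.ext_iff.mp e (bphi lam1 rho1 0 a)).mpr (Finset.mem_image_of_mem _ ha)
    obtain ⟨b, hb, e2⟩ := Finset.mem_image.mp e'
    exact hd a (h1 ha) b (h1' hb) e2.symm

theorem NN_super {n1 n2 : ℕ} {v1 v2 w1 w2 : Wd} (z z' : Bool) (hv1 : Star n1 v1) (hv2 : Star n2 v2)
    (hw1 : Star n1 w1) (hw2 : Star n2 w2) :
    NN v1 w1 + NN v2 w2 ≤ NN (v1 ++ (false, z) :: v2) (w1 ++ (false, z') :: w2) := by
  classical
  set V := v1 ++ (false, z) :: v2 with hV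
  set W := w1 ++ (false, z') :: w2 with hW
  have hlV : V.length = v1.length + 1 + v2.length := by rw [hV]; simp; omega
  have hlW : W.length = w1.length + 1 + w2.length := by rw [hW]; simp; omega
  have hA : Blocks (dj (up V) (up W)) (gj (up V) (up W)) (dj (lo V) (lo W)) (fun _ _ => False)
      (pts V W) n1 1 (fun _ => v1) (fun _ => w1) (fun _ i => Sum.inl i) (fun _ i => Sum.inr i) :=
    { matU := isMat_glue _ _
      matV := by rw [sx_Or2_false]; exact isMat_dj _ _
      symU0 := fun x y h => (isMat_dj _ _).symm h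
      symU1 := fun x y h => (glue_isMat_gj _ _).symm h
      symV0 := fun x y h => (isMat_dj _ _).symm h
      symV1 := fun x y h => h.elim
      disU := dj_gj_disj _ _
      disV := fun x y h => h.2.elim
      star_v := fun _ => hv1
      star_w := fun _ => hw1
      mem_v := fun _ i hi => blk_inl_mem.mpr (by omega)
      mem_w := fun _ i hi => blk_inr_mem.mpr (by omega)
      inj_v := fun j j' i i' _ _ e => ⟨Subsingleton.elim _ _, Sum.inl.inj e⟩
      inj_w := fun j j' i i' _ _ e => ⟨Subsingleton.elim _ _, Sum.inr.inj e⟩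
      inj_vw := fun j j' i i' _ _ e => by cases e
      U0_v := fun j i i' hi hi' => sx_arc_up_l hi hi'
      V0_v := fun j i i' hi hi' => sx_arc_lo_l hi hi'
      U0_w := fun j i i' hi hi' => sx_arc_up_l hi hi'
      V0_w := fun j i i' hi hi' => sx_arc_lo_l hi hi'
      U1_vw := fun j i i' hi hi' => by
        change (∃ k, rc (up V) i k ∧ rc (up W) i' k) ↔ _
        simp only [hV, hW, sx_rc_l hi, sx_rc_l hi'] }
  have hB : Blocks (dj (up V) (up W)) (gj (up V) (up W)) (dj (lo V) (lo W)) (fun _ _ => False)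
      (pts V W) n2 1 (fun _ => v2) (fun _ => w2) (fun _ i => Sum.inl (v1.length + 1 + i))
      (fun _ i => Sum.inr (w1.length + 1 + i)) :=
    { matU := isMat_glue _ _
      matV := by rw [sx_Or2_false]; exact isMat_dj _ _
      symU0 := fun x y h => (isMat_dj _ _).symm h
      symU1 := fun x y h => (glue_isMat_gj _ _).symm h
      symV0 := fun x y h => (isMat_dj _ _).symm h
      symV1 := fun x y h => h.elim
      disU := dj_gj_disj _ _
      disV := fun x y h => h.2.elim
      star_v := fun _ => hv2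
      star_w := fun _ => hw2
      mem_v := fun _ i hi => blk_inl_mem.mpr (by omega)
      mem_w := fun _ i hi => blk_inr_mem.mpr (by omega)
      inj_v := fun j j' i i' _ _ e => ⟨Subsingleton.elim _ _, by have := Sum.inl.inj e; omega⟩
      inj_w := fun j j' i i' _ _ e => ⟨Subsingleton.elim _ _, by have := Sum.inr.inj e; omega⟩
      inj_vw := fun j j' i i' _ _ e => by cases e
      U0_v := fun j i i' _ _ => sx_arc_up_r
      V0_v := fun j i i' _ _ => sx_arc_lo_r
      U0_w := fun j i i' _ _ => sx_arc_up_r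
      V0_w := fun j i i' _ _ => sx_arc_lo_r
      U1_vw := fun j i i' hi hi' => by
        change (∃ k, rc (up V) (v1.length + 1 + i) k ∧ rc (up W) (w1.length + 1 + i') k) ↔ _
        simp only [hV, hW, sx_rc_r hv1, sx_rc_r hw1]
        constructor
        · rintro ⟨k, ⟨k1, h1, e1⟩, ⟨k2, h2, e2⟩⟩
          have : k1 = k2 := by omega
          subst this
          exact ⟨k1, h1, h2⟩
        · rintro ⟨k, h1, h2⟩
          exact ⟨k + (n1 + 1), ⟨k, h1, rfl⟩, ⟨k, h2, rfl⟩⟩ }
  have hNN : NN V W = ((loops (Or2 (dj (up V) (up W)) (gj (up V) (up W)))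
      (Or2 (dj (lo V) (lo W)) (fun _ _ => False)) (pts V W)).filter
      (fun C => Has (gj (up V) (up W)) C ∧ ¬ Has (fun _ _ => False) C)).card := by
    unfold NN
    rw [sx_Or2_false]
    congr 1
    ext C
    rw [Finset.mem_filter, Finset.mem_filter]
    have hno : ¬ Has (fun (_ _ : ℕ ⊕ ℕ) => False) C := by
      rintro ⟨_, _, _, _, h⟩; exact h
    exact ⟨fun h => ⟨h.1, h.2, hno⟩, fun h => ⟨h.1, h.2.1⟩⟩
  rw [hNN]
  refine sx_two hA hB ?_
  intro a ha b hb e
  rcases a with a | a <;> rcases b with b | b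
  · have h3 := Sum.inl.inj e
    have h4 := blk_inl_mem.mp ha
    omega
  · cases e
  · cases e
  · have h3 := Sum.inr.inj e
    have h4 := blk_inr_mem.mp ha
    omega

theorem XX_le_star {n : ℕ} {w : Wd} (hw : Star n w) : XX w ≤ n := by
  classical
  have h := card_ufree (up w)
  rw [(star_iff.mp hw).1, (star_iff.mp hw).2, length_up] at h
  unfold XX
  rw [show n = n + 0 from rfl, ← h]
  apply Finset.card_le_card
  intro i hi
  rw [Finset.mem_filter] at hi ⊢
  exact ⟨hi.1, hi.2.1⟩

theorem sx_good_l {n : ℕ} {w1 w2 : Wd} {z : Bool} (h1 : Star n w1) {i : ℕ} (h : good w1 i) :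
    good (w1 ++ (false, z) :: w2) i := by
  obtain ⟨S, hi, hS, hU, hV⟩ := h
  refine ⟨S, hi, fun y hy => ?_, ?_, ?_⟩
  · have := Finset.mem_range.mp (hS hy)
    rw [Finset.mem_range, List.length_append]; omega
  · intro y hy t ht
    have hy' := Finset.mem_range.mp (hS hy)
    rcases Nat.lt_or_ge t w1.length with h | h
    · exact hU y hy t ((sx_arc_up_l hy' h).mp ht)
    · rw [up_append] at ht
      exact (no_cross_star (star_iff.mp h1).2 (by rw [length_up]; exact hy')
        (by rw [length_up]; exact h) ht).elim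
  · intro y hy
    obtain ⟨t, ht, hyt⟩ := hV y hy
    exact ⟨t, ht, (sx_arc_lo_l (Finset.mem_range.mp (hS hy)) (Finset.mem_range.mp (hS ht))).mpr hyt⟩

theorem sx_good_r {n : ℕ} {w1 w2 : Wd} {z : Bool} (h1 : Star n w1) {i : ℕ} (h : good w2 i) :
    good (w1 ++ (false, z) :: w2) (w1.length + 1 + i) := by
  classical
  obtain ⟨S, hi, hS, hU, hV⟩ := h
  refine ⟨S.image (fun x => w1.length + 1 + x), Finset.mem_image_of_mem _ hi, fun y hy => ?_, ?_, ?_⟩
  · obtain ⟨y, hy', rfl⟩ := Finset.mem_image.mp hy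
    have := Finset.mem_range.mp (hS hy')
    rw [Finset.mem_range, List.length_append, List.length_cons]; omega
  · intro y hy t ht
    obtain ⟨y, hy', rfl⟩ := Finset.mem_image.mp hy
    rcases Nat.lt_or_ge t (w1.length + 1) with h | h
    · rw [sx_up] at ht
      exact (no_cross_star (sx_uo h1) (by rw [List.length_append, length_up]; exact h)
        (by rw [List.length_append, length_up]; simp) ((isMat_Arc _).symm ht)).elim
    · obtain ⟨t, rfl⟩ : ∃ u, t = w1.length + 1 + u := ⟨t - (w1.length + 1), by omega⟩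
      exact Finset.mem_image_of_mem _ (hU y hy' t (sx_arc_up_r.mp ht))
  · intro y hy
    obtain ⟨y, hy', rfl⟩ := Finset.mem_image.mp hy
    obtain ⟨t, ht, hyt⟩ := hV y hy'
    exact ⟨_, Finset.mem_image_of_mem _ ht, sx_arc_lo_r.mpr hyt⟩

theorem XX_sub {n1 n2 : ℕ} {w1 w2 : Wd} (z : Bool) (h1 : Star n1 w1) (_h2 : Star n2 w2) :
    XX (w1 ++ (false, z) :: w2) ≤ XX w1 + 1 + XX w2 := by
  classical
  unfold XX
  refine (Finset.card_le_card (t := ((Finset.range w1.length).filter
      (fun i => ufree (up w1) i ∧ ¬ good w1 i) ∪ {w1.length}) ∪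
      ((Finset.range w2.length).filter (fun i => ufree (up w2) i ∧ ¬ good w2 i)).image
        (fun x => w1.length + 1 + x)) ?_).trans ?_
  · intro i hi
    obtain ⟨hi1, hi2, hi3⟩ := Finset.mem_filter.mp hi
    rw [Finset.mem_range, List.length_append, List.length_cons] at hi1
    rcases lt_trichotomy i w1.length with h | h | h
    · refine Finset.mem_union_left _ (Finset.mem_union_left _ (Finset.mem_filter.mpr
        ⟨Finset.mem_range.mpr h, ⟨by rw [length_up]; exact h, fun j hj => ?_⟩,
          fun hg => hi3 (sx_good_l h1 hg)⟩))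
      have hj' := (Arc_lt hj).2
      rw [length_up] at hj'
      exact hi2.2 j ((sx_arc_up_l h hj').mpr hj)
    · exact Finset.mem_union_left _ (Finset.mem_union_right _ (by rw [h]; simp))
    · obtain ⟨i, rfl⟩ : ∃ u, i = w1.length + 1 + u := ⟨i - (w1.length + 1), by omega⟩
      refine Finset.mem_union_right _ (Finset.mem_image_of_mem _ (Finset.mem_filter.mpr
        ⟨Finset.mem_range.mpr (by omega), ⟨by rw [length_up]; omega, fun j hj => ?_⟩,
          fun hg => hi3 (sx_good_r h1 hg)⟩))
      exact hi2.2 _ (sx_arc_up_r.mpr hj)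
  · refine (Finset.card_union_le _ _).trans (Nat.add_le_add ((Finset.card_union_le _ _).trans ?_)
      Finset.card_image_le)
    rw [Finset.card_singleton]

theorem XX_le_lower (x : Wd) : XX x ≤ uc (lo x) + uo (lo x) := by
  classical
  have hA : ∀ {a b : ℕ}, Arc (up x) a b → a < x.length ∧ b < x.length := by
    intro a b h
    have := Arc_lt h
    rwa [length_up] at this
  have hB : ∀ {a b : ℕ}, Arc (lo x) a b → a < x.length ∧ b < x.length := by
    intro a b h
    have := Arc_lt h
    rwa [length_lo] at this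
  have key := card_bad_le (isMat_Arc (up x)) (isMat_Arc (lo x)) (Finset.range x.length)
    (fun a _ b hab => Finset.mem_range.mpr (hA hab).2)
    (fun a _ b hab => Finset.mem_range.mpr (hB hab).2)
  rw [← card_ufree (lo x), length_lo]
  refine le_trans ?_ (key.trans ?_)
  · unfold XX
    apply Finset.card_le_card
    intro i hi
    rw [Finset.mem_filter] at hi ⊢
    exact ⟨hi.1, hi.2.1.2, hi.2.2⟩
  · apply Finset.card_le_card
    intro i hi
    rw [Finset.mem_filter] at hi ⊢
    exact ⟨hi.1, by rw [length_lo]; exact Finset.mem_range.mp hi.1, hi.2⟩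

end MeanderCLT
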